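import Mathlib

/-!
# Classes modulo squares with even valuations off a finite set of primes, with a count
-/

set_option autoImplicit false

open IsDedekindDomain NumberField
open scoped nonZeroDivisors

namespace Pool.Agent.K9h15.Cls

/-- every multiset is twice a multiset plus a multiset without repetition. -/
lemma multiset_half {α : Type*} [DecidableEq α] (s : Multiset α) :
    ∃ t d : Multiset α, s = t + t + d ∧ d.Nodup := by
  induction s using Multiset.induction_on with
  | empty => exact ⟨0, 0, by simp, Multiset.nodup_zero⟩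
  | cons p s ih =>
    obtain ⟨t, d, hs, hd⟩ := ih
    by_cases hp : p ∈ d
    · refine ⟨p ::ₘ t, d.erase p, ?_, hd.erase _⟩
      rw [hs]
      conv_lhs => rw [← Multiset.cons_erase hp]
      simp only [Multiset.cons_add, Multiset.add_cons]
    · refine ⟨t, p ::ₘ d, ?_, Multiset.nodup_cons.mpr ⟨hp, hd⟩⟩
      rw [hs]
      simp only [Multiset.add_cons]

variable {K : Type} [Field K] [NumberField K]

/-- order of vanishing of a nonzero integer in terms of `normalizedFactors`. -/
lemma val_int (v : HeightOneSpectrum (𝓞 K)) (r : 𝓞 K) (hr : r ≠ 0) (a : Kˣ)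
    (ha : (a : K) = algebraMap (𝓞 K) K r) :
    Multiplicative.toAdd (v.valuationOfNeZero a) =
      -((UniqueFactorizationMonoid.normalizedFactors (Ideal.span {r})).count v.asIdeal : ℤ) := by
  classical
  have h1 : ((v.valuationOfNeZero a : Multiplicative ℤ) : WithZero (Multiplicative ℤ)) =
      v.valuation K (a : K) := v.valuationOfNeZero_eq a
  rw [ha, v.valuation_of_algebraMap, v.intValuation_if_neg hr,
    Ideal.count_associates_factors_eq (by simpa using hr) v.isPrime v.ne_bot] at h1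
  rw [WithZero.exp] at h1
  have h2 := WithZero.coe_injective h1
  rw [h2]
  rfl

/-- structure of ideals with even orders away from `S` -/
lemma ideal_half (S : Finset (HeightOneSpectrum (𝓞 K))) :
    ∃ D : Finset (Ideal (𝓞 K)), D.card ≤ 2 ^ S.card ∧ ∀ I : Ideal (𝓞 K), I ≠ 0 →
      (∀ v : HeightOneSpectrum (𝓞 K), v ∉ S →
        Even ((UniqueFactorizationMonoid.normalizedFactors I).count v.asIdeal)) →
      ∃ d ∈ D, ∃ J : Ideal (𝓞 K), J ≠ 0 ∧ I = J ^ 2 * d := by
  classical
  set S' : Finset (Ideal (𝓞 K)) := S.image (fun v => v.asIdeal) with hS'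
  refine ⟨S'.powerset.image (fun s => ∏ x ∈ s, x), ?_, fun I hI hev => ?_⟩
  · refine Finset.card_image_le.trans ?_
    rw [Finset.card_powerset]
    exact Nat.pow_le_pow_right (by norm_num) Finset.card_image_le
  obtain ⟨t, d, hs, hd⟩ := multiset_half (UniqueFactorizationMonoid.normalizedFactors I)
  have hdS : ∀ p ∈ d, p ∈ S' := by
    intro p hp
    have hpI : p ∈ UniqueFactorizationMonoid.normalizedFactors I := by
      rw [hs]; exact Multiset.mem_add.mpr (Or.inr hp)
    have hpp : Prime p := UniqueFactorizationMonoid.prime_of_normalized_factor p hpI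
    let v : HeightOneSpectrum (𝓞 K) := ⟨p, Ideal.isPrime_of_prime hpp, hpp.ne_zero⟩
    by_contra hn
    have hv : v ∉ S := by
      intro hv
      apply hn
      rw [hS', Finset.mem_image]
      exact ⟨v, hv, rfl⟩
    have h1 := hev v hv
    rw [hs] at h1
    have h2 : Multiset.count p d = 1 := Multiset.count_eq_one_of_mem hd hp
    have h3 : Multiset.count v.asIdeal (t + t + d) = 2 * Multiset.count p t + 1 := by
      change Multiset.count p (t + t + d) = _
      rw [Multiset.count_add, Multiset.count_add, h2]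
      ring
    rw [h3] at h1
    exact (Nat.not_even_iff_odd.mpr ⟨_, rfl⟩) h1
  refine ⟨d.prod, ?_, t.prod, ?_, ?_⟩
  · rw [Finset.mem_image]
    refine ⟨d.toFinset, ?_, ?_⟩
    · rw [Finset.mem_powerset]
      intro p hp
      exact hdS p (Multiset.mem_toFinset.mp hp)
    · rw [Finset.prod, Multiset.toFinset_val, Multiset.dedup_eq_self.mpr hd]
      simp
  · intro h0
    rw [Multiset.prod_eq_zero_iff] at h0
    have : (0 : Ideal (𝓞 K)) ∈ UniqueFactorizationMonoid.normalizedFactors I := by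
      rw [hs]; exact Multiset.mem_add.mpr (Or.inl (Multiset.mem_add.mpr (Or.inl h0)))
    exact (UniqueFactorizationMonoid.prime_of_normalized_factor _ this).ne_zero rfl
  · have h2 : (UniqueFactorizationMonoid.normalizedFactors I).prod = I := by
      have := UniqueFactorizationMonoid.prod_normalizedFactors hI
      exact associated_iff_eq.mp this
    conv_lhs => rw [← h2, hs]
    rw [Multiset.prod_add, Multiset.prod_add]
    ring

/-- finiteness of units modulo squares -/
lemma units_sq (K : Type) [Field K] [NumberField K] :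
    ∃ T : Finset (𝓞 K)ˣ, ∀ u : (𝓞 K)ˣ, ∃ t ∈ T, ∃ w : (𝓞 K)ˣ, u = t * w ^ 2 := by
  classical
  have : Group.FG (𝓞 K)ˣ := Group.fg_iff_monoid_fg.mpr inferInstance
  have h := Subgroup.finiteIndex_range_powMonoidHom_of_fg (𝓞 K)ˣ (n := 2) (by norm_num)
  have : Finite ((𝓞 K)ˣ ⧸ (powMonoidHom (α := (𝓞 K)ˣ) 2).range) :=
    Subgroup.finite_quotient_of_finiteIndex
  have := Fintype.ofFinite ((𝓞 K)ˣ ⧸ (powMonoidHom (α := (𝓞 K)ˣ) 2).range)
  refine ⟨Finset.univ.image (fun q : (𝓞 K)ˣ ⧸ (powMonoidHom (α := (𝓞 K)ˣ) 2).range => q.out),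
    fun u => ?_⟩
  refine ⟨(QuotientGroup.mk (s := (powMonoidHom (α := (𝓞 K)ˣ) 2).range) u).out,
    Finset.mem_image_of_mem _ (Finset.mem_univ _), ?_⟩
  have h1 : QuotientGroup.mk (s := (powMonoidHom (α := (𝓞 K)ˣ) 2).range)
      (QuotientGroup.mk (s := (powMonoidHom (α := (𝓞 K)ˣ) 2).range) u).out =
      QuotientGroup.mk u := QuotientGroup.out_eq' _
  rw [QuotientGroup.eq] at h1
  obtain ⟨w, hw⟩ := h1
  refine ⟨w, ?_⟩
  rw [powMonoidHom_apply] at hw
  rw [hw, mul_inv_cancel_left]

/-- integral version of the finiteness of `K(S,2)`. -/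
lemma sel_int (K : Type) [Field K] [NumberField K] :
    ∃ C0 : ℕ, ∀ S : Finset (HeightOneSpectrum (𝓞 K)),
    ∃ T : Finset (𝓞 K), T.card ≤ C0 * 2 ^ S.card ∧ (∀ t ∈ T, t ≠ 0) ∧ ∀ a : 𝓞 K, a ≠ 0 →
      (∀ v : HeightOneSpectrum (𝓞 K), v ∉ S →
        Even ((UniqueFactorizationMonoid.normalizedFactors (Ideal.span {a})).count v.asIdeal)) →
      ∃ t ∈ T, ∃ x y : 𝓞 K, x ≠ 0 ∧ y ≠ 0 ∧ x ^ 2 * a = t * y ^ 2 := by
  classical
  obtain ⟨U, hU⟩ := units_sq K
  refine ⟨Fintype.card (ClassGroup (𝓞 K)) * U.card, fun S => ?_⟩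
  obtain ⟨D, hDc, hD⟩ := ideal_half S
  -- the relation between integers and (ideal, class)
  let Rel : Ideal (𝓞 K) × ClassGroup (𝓞 K) → 𝓞 K → Prop := fun c a =>
    a ≠ 0 ∧ ∃ J : (Ideal (𝓞 K))⁰, Ideal.span {a} = (J : Ideal (𝓞 K)) ^ 2 * c.1 ∧
      ClassGroup.mk0 J = c.2
  let rep : Ideal (𝓞 K) × ClassGroup (𝓞 K) → 𝓞 K := fun c =>
    if h : ∃ a, Rel c a then Classical.choose h else 1
  have hrep0 : ∀ c, rep c ≠ 0 := by
    intro c
    simp only [rep]
    split_ifs with h
    · exact (Classical.choose_spec h).1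
    · exact one_ne_zero
  let T : Finset (𝓞 K) := ((D ×ˢ (Finset.univ : Finset (ClassGroup (𝓞 K)))) ×ˢ U).image
    (fun c => rep c.1 * (c.2 : 𝓞 K))
  refine ⟨T, ?_, ?_, ?_⟩
  · refine Finset.card_image_le.trans ?_
    rw [Finset.card_product, Finset.card_product, Finset.card_univ]
    calc D.card * Fintype.card (ClassGroup (𝓞 K)) * U.card
        ≤ 2 ^ S.card * Fintype.card (ClassGroup (𝓞 K)) * U.card := by gcongr
      _ = _ := by ring
  · intro t ht
    simp only [T, Finset.mem_image] at ht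
    obtain ⟨c, -, rfl⟩ := ht
    exact mul_ne_zero (hrep0 _) (Units.ne_zero _)
  · intro a ha hev
    have hI : Ideal.span {a} ≠ (0 : Ideal (𝓞 K)) := by simpa using ha
    obtain ⟨d, hd, J, hJ, hIJ⟩ := hD _ hI hev
    set J' : (Ideal (𝓞 K))⁰ := ⟨J, mem_nonZeroDivisors_iff_ne_zero.mpr hJ⟩ with hJ'
    have hR : Rel (d, ClassGroup.mk0 J') a := ⟨ha, J', hIJ, rfl⟩
    have hex : ∃ a, Rel (d, ClassGroup.mk0 J') a := ⟨a, hR⟩
    have hrepe : rep (d, ClassGroup.mk0 J') = Classical.choose hex := by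
      simp only [rep]
      rw [dif_pos hex]
    obtain ⟨hb0, J2, hJ2, hcl⟩ := Classical.choose_spec hex
    rw [← hrepe] at hb0 hJ2
    set b := rep (d, ClassGroup.mk0 J') with hb
    obtain ⟨x, y, hx, hy, hxy⟩ := ClassGroup.mk0_eq_mk0_iff.mp hcl
    -- x J2 = y J
    have h1 : Ideal.span {y ^ 2 * a} = Ideal.span {x ^ 2 * b} := by
      rw [← Ideal.span_singleton_mul_span_singleton, ← Ideal.span_singleton_mul_span_singleton,
        ← Ideal.span_singleton_pow, ← Ideal.span_singleton_pow, hIJ, hJ2]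
      have h2 : (Ideal.span {y} * (J' : Ideal (𝓞 K))) = Ideal.span {x} * (J2 : Ideal (𝓞 K)) :=
        hxy.symm
      calc Ideal.span {y} ^ 2 * (J ^ 2 * d) = (Ideal.span {y} * J) ^ 2 * d := by ring
        _ = (Ideal.span {x} * (J2 : Ideal (𝓞 K))) ^ 2 * d := by rw [← h2]
        _ = _ := by ring
    rw [Ideal.span_singleton_eq_span_singleton] at h1
    obtain ⟨u, hu⟩ := h1.symm
    obtain ⟨t, ht, w, hw⟩ := hU u
    refine ⟨b * (t : 𝓞 K), ?_, y, x * (w : 𝓞 K), hy, mul_ne_zero hx (Units.ne_zero _), ?_⟩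
    · simp only [T, Finset.mem_image]
      refine ⟨((d, ClassGroup.mk0 J'), t), ?_, rfl⟩
      simp only [Finset.mem_product, Finset.mem_univ, and_true]
      exact ⟨hd, ht⟩
    · rw [← hu, hw]
      push_cast
      ring

/-- finiteness of `K(S,2)` with a count. -/
theorem sel_card (K : Type) [Field K] [NumberField K] :
    ∃ C0 : ℕ, ∀ S : Finset (HeightOneSpectrum (𝓞 K)),
    ∃ T : Finset K, T.card ≤ C0 * 2 ^ S.card ∧ (∀ t ∈ T, t ≠ 0) ∧ ∀ a : Kˣ,
      (∀ v : HeightOneSpectrum (𝓞 K), v ∉ S →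
        Even (Multiplicative.toAdd (v.valuationOfNeZero a))) →
      ∃ t ∈ T, ∃ b : K, b ≠ 0 ∧ (a : K) = t * b ^ 2 := by
  classical
  obtain ⟨C0, hC0⟩ := sel_int K
  refine ⟨C0, fun S => ?_⟩
  obtain ⟨T, hTc, hT0, hT⟩ := hC0 S
  refine ⟨T.image (fun t => algebraMap (𝓞 K) K t), Finset.card_image_le.trans hTc, ?_, ?_⟩
  · intro t ht
    obtain ⟨s, hs, rfl⟩ := Finset.mem_image.mp ht
    simpa using hT0 s hs
  · intro a hev
    obtain ⟨p, q, hq, hpq⟩ := IsFractionRing.div_surjective (A := 𝓞 K) (a : K)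
    have hq0 : q ≠ 0 := nonZeroDivisors.ne_zero hq
    have hqK : algebraMap (𝓞 K) K q ≠ 0 := by simpa using hq0
    have hp0 : p ≠ 0 := by
      rintro rfl
      rw [map_zero, zero_div] at hpq
      exact a.ne_zero hpq.symm
    have hpqK : algebraMap (𝓞 K) K (p * q) ≠ 0 := by
      simpa using ⟨hp0, hq0⟩
    obtain ⟨t, ht, x, y, hx, hy, hxy⟩ := hT (p * q) (mul_ne_zero hp0 hq0) (by
      intro v hv
      have h1 := val_int v (p * q) (mul_ne_zero hp0 hq0) (Units.mk0 _ hpqK) rfl
      have h2 : Units.mk0 _ hpqK = a * (Units.mk0 _ hqK) ^ 2 := by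
        apply Units.ext
        rw [Units.val_mul, Units.val_pow_eq_pow_val, Units.val_mk0, Units.val_mk0, ← hpq, map_mul]
        field_simp
      rw [h2, map_mul, map_pow, toAdd_mul, toAdd_pow] at h1
      have h3 : Even (-((UniqueFactorizationMonoid.normalizedFactors
          (Ideal.span {p * q})).count v.asIdeal : ℤ)) := by
        rw [← h1]
        refine (hev v hv).add ?_
        rw [nsmul_eq_mul]
        exact (even_two.mul_right _)
      rw [even_neg] at h3
      exact_mod_cast h3)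
    have hxK : algebraMap (𝓞 K) K x ≠ 0 := by simpa using hx
    have hyK : algebraMap (𝓞 K) K y ≠ 0 := by simpa using hy
    refine ⟨algebraMap (𝓞 K) K t, Finset.mem_image_of_mem _ ht,
      algebraMap (𝓞 K) K y / (algebraMap (𝓞 K) K x * algebraMap (𝓞 K) K q),
      div_ne_zero hyK (mul_ne_zero hxK hqK), ?_⟩
    have h4 := congrArg (algebraMap (𝓞 K) K) hxy
    simp only [map_mul, map_pow] at h4
    rw [← hpq]
    field_simp
    linear_combination h4

end Pool.Agent.K9h15.Cls
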