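import Mathlib

/-!
# Absolute values of primes, local-global inequalities and the number of primes in a denominator
-/

set_option autoImplicit false

open IsDedekindDomain NumberField Height

namespace Pool.Agent.K9h15.Pla

variable {K : Type} [Field K] [NumberField K]

/-- the absolute value of a prime, normalized by its norm -/
noncomputable abbrev av (v : HeightOneSpectrum (𝓞 K)) : AbsoluteValue K ℝ :=
  HeightOneSpectrum.adicAbv K v

/-- the norm of a prime -/
noncomputable abbrev nm (v : HeightOneSpectrum (𝓞 K)) : ℝ := (Ideal.absNorm v.asIdeal : ℝ)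

lemma mk_eq_av (v : HeightOneSpectrum (𝓞 K)) (x : K) : FinitePlace.mk v x = av v x := by
  rw [FinitePlace.mk_apply, FinitePlace.norm_embedding]

lemma av_nonarch (v : HeightOneSpectrum (𝓞 K)) : IsNonarchimedean (av v) :=
  HeightOneSpectrum.isNonarchimedean_adicAbv K v

lemma one_lt_nm (v : HeightOneSpectrum (𝓞 K)) : 1 < nm v := by
  have := HeightOneSpectrum.one_lt_absNorm v
  exact_mod_cast this

lemma av_eq_zpow (v : HeightOneSpectrum (𝓞 K)) (x : K) (hx : x ≠ 0) :
    av v x = nm v ^ (WithZero.unzero ((Valuation.ne_zero_iff (v.valuation K)).2 hx)).toAdd := by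
  have h : av v x = WithZeroMulInt.toNNReal (HeightOneSpectrum.absNorm_ne_zero v)
    (v.valuation K x) := rfl
  rw [h, WithZeroMulInt.toNNReal_neg_apply _ ((Valuation.ne_zero_iff (v.valuation K)).2 hx)]
  push_cast
  rfl

lemma nm_le_av {v : HeightOneSpectrum (𝓞 K)} {x : K} (h : 1 < av v x) : nm v ≤ av v x := by
  have hx : x ≠ 0 := by
    rintro rfl
    rw [map_zero] at h
    linarith
  rw [av_eq_zpow v x hx] at h ⊢
  have h1 : 0 < (WithZero.unzero ((Valuation.ne_zero_iff (v.valuation K)).2 hx)).toAdd :=
    (one_lt_zpow_iff_right₀ (one_lt_nm v)).1 h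
  calc nm v = nm v ^ (1 : ℤ) := (zpow_one _).symm
    _ ≤ _ := zpow_le_zpow_right₀ (one_lt_nm v).le h1

lemma av_le_inv {v : HeightOneSpectrum (𝓞 K)} {x : K} (h : av v x < 1) : av v x ≤ (nm v)⁻¹ := by
  by_cases hx : x = 0
  · subst hx
    rw [map_zero]
    have := one_lt_nm v
    positivity
  rw [av_eq_zpow v x hx] at h ⊢
  have h1 : (WithZero.unzero ((Valuation.ne_zero_iff (v.valuation K)).2 hx)).toAdd < 0 := by
    by_contra hn
    have := one_le_zpow₀ (one_lt_nm v).le (not_lt.1 hn)
    linarith
  calc nm v ^ (WithZero.unzero ((Valuation.ne_zero_iff (v.valuation K)).2 hx)).toAdd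
      ≤ nm v ^ (-1 : ℤ) := zpow_le_zpow_right₀ (one_lt_nm v).le (by omega)
    _ = (nm v)⁻¹ := by rw [zpow_neg_one]

/-- valuations and absolute values -/
lemma av_eq_iff {v : HeightOneSpectrum (𝓞 K)} {x y : K} :
    av v x = av v y ↔ v.valuation K x = v.valuation K y := by
  have hm := WithZeroMulInt.toNNReal_strictMono (HeightOneSpectrum.one_lt_absNorm_nnreal v)
  constructor
  · intro h
    apply hm.injective
    apply NNReal.coe_injective
    exact h
  · intro h
    change ((WithZeroMulInt.toNNReal (HeightOneSpectrum.absNorm_ne_zero v)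
      (v.valuation K x) : NNReal) : ℝ) = _
    rw [h]
    rfl

lemma av_lt_iff {v : HeightOneSpectrum (𝓞 K)} {x y : K} :
    av v x < av v y ↔ v.valuation K x < v.valuation K y := by
  have hm := WithZeroMulInt.toNNReal_strictMono (HeightOneSpectrum.one_lt_absNorm_nnreal v)
  rw [← hm.lt_iff_lt]
  exact NNReal.coe_lt_coe.symm

lemma av_le_one_iff {v : HeightOneSpectrum (𝓞 K)} {x : K} :
    av v x ≤ 1 ↔ v.valuation K x ≤ 1 := by
  have h := av_lt_iff (v := v) (x := 1) (y := x)
  rw [map_one, map_one] at h
  rw [← not_lt, ← not_lt, h]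

/-- residue classes -/
lemma exists_res (v : HeightOneSpectrum (𝓞 K)) (x : K) (hx : av v x ≤ 1) :
    ∃ y : 𝓞 K, av v (x - algebraMap (𝓞 K) K y) < 1 := by
  obtain ⟨a, ha⟩ := v.exists_valuation_sub_lt_of_integer (av_le_one_iff.1 hx) 1
  refine ⟨a, ?_⟩
  have h := av_lt_iff (v := v) (x := x - algebraMap (𝓞 K) K a) (y := 1)
  rw [map_one, map_one] at h
  rw [h, ← Valuation.map_sub_swap]
  simpa using ha

/-- a place with the same residue class map: at most `nm v + 1` classes -/
lemma exists_class (v : HeightOneSpectrum (𝓞 K)) :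
    ∃ r : K → Option (𝓞 K ⧸ v.asIdeal), ∀ x y : K, r x = r y →
      av v (x - y) ≤ (nm v)⁻¹ * (max (av v x) 1 * max (av v y) 1) := by
  classical
  have h1 : ∀ x : K, ∃ y : 𝓞 K, av v x ≤ 1 → av v (x - algebraMap (𝓞 K) K y) < 1 := by
    intro x
    by_cases hx : av v x ≤ 1
    · obtain ⟨y, hy⟩ := exists_res v x hx
      exact ⟨y, fun _ => hy⟩
    · exact ⟨0, fun h => absurd h hx⟩
  choose g hg using h1
  have hq := one_lt_nm v
  refine ⟨fun x => if av v x ≤ 1 then some (Ideal.Quotient.mk _ (g x)) else none, ?_⟩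
  intro x y hxy
  have hna := av_nonarch v
  by_cases hx : av v x ≤ 1
  · by_cases hy : av v y ≤ 1
    · simp only [if_pos hx, if_pos hy, Option.some.injEq] at hxy
      rw [Ideal.Quotient.eq, ← HeightOneSpectrum.adicAbv_coe_lt_one_iff (K := K) v
        (HeightOneSpectrum.one_lt_absNorm_nnreal v)] at hxy
      have h2 : av v (algebraMap (𝓞 K) K (g x - g y)) < 1 := hxy
      have h3 : x - y = (x - algebraMap (𝓞 K) K (g x)) + (algebraMap (𝓞 K) K (g x - g y) +
          (algebraMap (𝓞 K) K (g y) - y)) := by
        rw [map_sub]; ring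
      have h4 : av v (algebraMap (𝓞 K) K (g y) - y) < 1 := by
        rw [(av v).map_sub]; exact hg y hy
      have h5 : av v (x - y) < 1 := by
        rw [h3]
        refine lt_of_le_of_lt (hna _ _) (max_lt (hg x hx) ?_)
        exact lt_of_le_of_lt (hna _ _) (max_lt h2 h4)
      rw [max_eq_right hx, max_eq_right hy, mul_one, mul_one]
      exact av_le_inv h5
    · simp only [if_pos hx, if_neg hy] at hxy
      cases hxy
  · by_cases hy : av v y ≤ 1
    · simp only [if_neg hx, if_pos hy] at hxy
      cases hxy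
    · rw [not_le] at hx hy
      have hx0 : x ≠ 0 := by rintro rfl; rw [map_zero] at hx; linarith
      have hy0 : y ≠ 0 := by rintro rfl; rw [map_zero] at hy; linarith
      rw [max_eq_left hx.le, max_eq_left hy.le]
      have h6 : x - y = x * y * (y⁻¹ - x⁻¹) := by field_simp
      rw [h6, map_mul, map_mul, mul_comm]
      refine mul_le_mul_of_nonneg_right ?_ (by positivity)
      apply av_le_inv
      rw [sub_eq_add_neg]
      refine lt_of_le_of_lt (hna _ _) (max_lt ?_ ?_)
      · rw [map_inv₀]; exact inv_lt_one_of_one_lt₀ hy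
      · rw [(av v).map_neg, map_inv₀]; exact inv_lt_one_of_one_lt₀ hx

lemma card_class (v : HeightOneSpectrum (𝓞 K)) :
    Finite (Option (𝓞 K ⧸ v.asIdeal)) ∧
      (Nat.card (Option (𝓞 K ⧸ v.asIdeal)) : ℝ) = nm v + 1 := by
  have hf : Finite (𝓞 K ⧸ v.asIdeal) := Ideal.finiteQuotientOfFreeOfNeBot _ v.ne_bot
  refine ⟨inferInstance, ?_⟩
  rw [Finite.card_option]
  push_cast
  rfl

/-- **From local inequalities to a global one.** -/
theorem local_global {Δ : K} (hΔ : Δ ≠ 0) {ι : Type} [Fintype ι] (z : ι → K) (e : ι → ℕ)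
    {c q : ℝ} (hc : 0 ≤ c) (v0 : HeightOneSpectrum (𝓞 K))
    (harch : ∀ v : InfinitePlace K, v Δ ≤ c * ∏ i, (max (v (z i)) 1) ^ (e i))
    (hnon : ∀ v : FinitePlace K, v Δ ≤ ∏ i, (max (v (z i)) 1) ^ (e i))
    (h0 : av v0 Δ ≤ q * ∏ i, (max (av v0 (z i)) 1) ^ (e i)) :
    1 ≤ c ^ (Module.finrank ℚ K) * q * ∏ i, mulHeight₁ (z i) ^ (e i) := by
  classical
  have hpf := prod_abs_eq_one hΔ
  set w0 : FinitePlace K := FinitePlace.mk v0 with hw0
  have h0' : w0 Δ ≤ q * ∏ i, (max (w0 (z i)) 1) ^ (e i) := by
    rw [hw0, mk_eq_av]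
    simp only [mk_eq_av]
    exact h0
  -- archimedean part
  have hA : (∏ w : InfinitePlace K, w Δ ^ w.mult) ≤ c ^ (Module.finrank ℚ K) *
      ∏ i, (∏ w : InfinitePlace K, (max (w (z i)) 1) ^ w.mult) ^ (e i) := by
    calc (∏ w : InfinitePlace K, w Δ ^ w.mult)
        ≤ ∏ w : InfinitePlace K, (c * ∏ i, (max (w (z i)) 1) ^ (e i)) ^ w.mult := by
          apply Finset.prod_le_prod
          · intro w _; positivity
          · intro w _
            exact pow_le_pow_left₀ (apply_nonneg w Δ) (harch w) _
      _ = (∏ w : InfinitePlace K, c ^ w.mult) *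
          ∏ w : InfinitePlace K, ∏ i, ((max (w (z i)) 1) ^ w.mult) ^ (e i) := by
          rw [← Finset.prod_mul_distrib]
          refine Finset.prod_congr rfl fun w _ => ?_
          rw [mul_pow, ← Finset.prod_pow]
          congr 1
          refine Finset.prod_congr rfl fun i _ => ?_
          rw [← pow_mul, ← pow_mul, mul_comm]
      _ = _ := by
          rw [Finset.prod_comm, Finset.prod_pow_eq_pow_sum, InfinitePlace.sum_mult_eq]
          congr 1
          refine Finset.prod_congr rfl fun i _ => ?_
          rw [Finset.prod_pow]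
  -- nonarchimedean part
  have hfs : ∀ i, (fun w : FinitePlace K => max (w (z i)) 1).HasFiniteMulSupport := by
    intro i
    by_cases hz : z i = 0
    · have : (fun w : FinitePlace K => max (w (z i)) 1) = fun _ => 1 := by
        funext w
        rw [hz, map_zero]
        simp
      rw [this]
      unfold Function.HasFiniteMulSupport
      simp [Function.mulSupport]
    · have h := FinitePlace.hasFiniteMulSupport hz
      unfold Function.HasFiniteMulSupport at h ⊢
      refine h.subset ?_
      intro w hw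
      rw [Function.mem_mulSupport] at hw ⊢
      intro h1
      apply hw
      rw [h1]
      simp
  have hΔs : (Function.mulSupport (fun w : FinitePlace K => w Δ)).Finite :=
    FinitePlace.hasFiniteMulSupport hΔ
  have hfs' : ∀ i, (Function.mulSupport (fun w : FinitePlace K => max (w (z i)) 1)).Finite :=
    hfs
  have hB : (∏ᶠ w : FinitePlace K, w Δ) ≤ q *
      ∏ i, (∏ᶠ w : FinitePlace K, max (w (z i)) 1) ^ (e i) := by
    let s : Finset (FinitePlace K) := insert w0
      (hΔs.toFinset ∪ Finset.univ.biUnion (fun i => (hfs' i).toFinset))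
    have hs1 : Function.mulSupport (fun w : FinitePlace K => w Δ) ⊆ s := by
      intro w hw
      simp only [s, Finset.coe_insert, Finset.coe_union, Set.mem_insert_iff, Set.mem_union]
      right; left
      rw [Finset.mem_coe, Set.Finite.mem_toFinset]
      exact hw
    have hs2 : ∀ i, Function.mulSupport (fun w : FinitePlace K => max (w (z i)) 1) ⊆ s := by
      intro i w hw
      simp only [s, Finset.coe_insert, Finset.coe_union, Set.mem_insert_iff, Set.mem_union]
      right; right
      rw [Finset.mem_coe, Finset.mem_biUnion]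
      refine ⟨i, Finset.mem_univ _, ?_⟩
      rw [Set.Finite.mem_toFinset]
      exact hw
    rw [finprod_eq_prod_of_mulSupport_subset _ hs1]
    have h3 : ∀ i, (∏ᶠ w : FinitePlace K, max (w (z i)) 1) = ∏ w ∈ s, max (w (z i)) 1 :=
      fun i => finprod_eq_prod_of_mulSupport_subset _ (hs2 i)
    simp only [h3]
    have hw0s : w0 ∈ s := Finset.mem_insert_self _ _
    rw [← Finset.mul_prod_erase s _ hw0s]
    calc w0 Δ * ∏ w ∈ s.erase w0, w Δ
        ≤ (q * ∏ i, (max (w0 (z i)) 1) ^ (e i)) *
          ∏ w ∈ s.erase w0, ∏ i, (max (w (z i)) 1) ^ (e i) := by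
          refine mul_le_mul h0' ?_ ?_ ?_
          · apply Finset.prod_le_prod
            · intro w _; exact apply_nonneg w Δ
            · intro w _; exact hnon w
          · exact Finset.prod_nonneg fun w _ => apply_nonneg w Δ
          · exact (apply_nonneg w0 Δ).trans h0'
      _ = q * ∏ w ∈ s, ∏ i, (max (w (z i)) 1) ^ (e i) := by
          rw [← Finset.mul_prod_erase s _ hw0s]
          ring
      _ = _ := by
          rw [Finset.prod_comm]
          congr 1
          refine Finset.prod_congr rfl fun i _ => ?_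
          rw [Finset.prod_pow]
  have hA0 : 0 ≤ (∏ w : InfinitePlace K, w Δ ^ w.mult) :=
    Finset.prod_nonneg fun w _ => by positivity
  have hB0 : 0 ≤ (∏ᶠ w : FinitePlace K, w Δ) := finprod_nonneg fun w => apply_nonneg w Δ
  calc (1 : ℝ) = (∏ w : InfinitePlace K, w Δ ^ w.mult) * ∏ᶠ w : FinitePlace K, w Δ := hpf.symm
    _ ≤ (c ^ (Module.finrank ℚ K) *
      ∏ i, (∏ w : InfinitePlace K, (max (w (z i)) 1) ^ w.mult) ^ (e i)) * (q *
      ∏ i, (∏ᶠ w : FinitePlace K, max (w (z i)) 1) ^ (e i)) := by
        refine mul_le_mul hA hB hB0 ?_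
        exact hA0.trans hA
    _ = _ := by
        have : ∀ i, mulHeight₁ (z i) ^ (e i) =
            (∏ w : InfinitePlace K, (max (w (z i)) 1) ^ w.mult) ^ (e i) *
            (∏ᶠ w : FinitePlace K, max (w (z i)) 1) ^ (e i) := by
          intro i
          rw [NumberField.mulHeight₁_eq, mul_pow]
        simp only [this]
        rw [Finset.prod_mul_distrib]
        ring

/-- the primes at which one of the given elements is not integral are few. -/
theorem prod_nm_le (x : K) (S : Finset (HeightOneSpectrum (𝓞 K)))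
    (hS : ∀ v ∈ S, 1 < av v x) : ∏ v ∈ S, nm v ≤ mulHeight₁ x := by
  classical
  have hx : S = ∅ ∨ x ≠ 0 := by
    rcases S.eq_empty_or_nonempty with h | ⟨v, hv⟩
    · exact Or.inl h
    · right
      rintro rfl
      have := hS v hv
      rw [map_zero] at this
      linarith
  rcases hx with rfl | hx
  · rw [Finset.prod_empty]; exact one_le_mulHeight₁ x
  rw [NumberField.mulHeight₁_eq]
  have h1 : (1 : ℝ) ≤ ∏ w : InfinitePlace K, (max (w x) 1) ^ w.mult := by
    refine Finset.prod_induction _ (fun r : ℝ => 1 ≤ r) (fun a b => one_le_mul_of_one_le_of_one_le)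
      le_rfl fun w _ => ?_
    exact one_le_pow₀ (le_max_right _ _)
  have hfs : (Function.mulSupport (fun w : FinitePlace K => max (w x) 1)).Finite := by
    have h := FinitePlace.hasFiniteMulSupport hx
    unfold Function.HasFiniteMulSupport at h
    refine h.subset ?_
    intro w hw
    rw [Function.mem_mulSupport] at hw ⊢
    intro h1
    apply hw
    rw [h1]
    simp
  have h2 : ∏ v ∈ S, nm v ≤ ∏ᶠ w : FinitePlace K, max (w x) 1 := by
    let s : Finset (FinitePlace K) := hfs.toFinset ∪ S.image (fun v => FinitePlace.mk v)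
    have hs : Function.mulSupport (fun w : FinitePlace K => max (w x) 1) ⊆ s := by
      intro w hw
      simp only [s, Finset.coe_union, Set.mem_union]
      left
      rw [Finset.mem_coe, Set.Finite.mem_toFinset]
      exact hw
    rw [finprod_eq_prod_of_mulSupport_subset _ hs]
    calc ∏ v ∈ S, nm v ≤ ∏ v ∈ S, max (FinitePlace.mk v x) 1 := by
          apply Finset.prod_le_prod
          · intro v _; exact (zero_le_one.trans (one_lt_nm v).le)
          · intro v hv
            rw [mk_eq_av]
            exact (nm_le_av (hS v hv)).trans (le_max_left _ _)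
      _ = ∏ w ∈ S.image (fun v => FinitePlace.mk v), max (w x) 1 := by
          rw [Finset.prod_image]
          intro a _ b _ hab
          exact FinitePlace.mk_eq_iff.1 hab
      _ ≤ ∏ w ∈ s, max (w x) 1 := by
          have h5 : S.image (fun v => FinitePlace.mk v) ⊆ s := Finset.subset_union_right
          rw [← Finset.prod_sdiff h5]
          have h6 : (1 : ℝ) ≤ ∏ w ∈ s \ S.image (fun v => FinitePlace.mk v), max (w x) 1 :=
            Finset.prod_induction _ (fun r : ℝ => 1 ≤ r)
              (fun a b => one_le_mul_of_one_le_of_one_le) le_rfl fun w _ => le_max_right _ _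
          refine le_mul_of_one_le_left ?_ h6
          exact Finset.prod_nonneg fun w _ => le_max_of_le_right zero_le_one
  calc ∏ v ∈ S, nm v ≤ 1 * ∏ᶠ w : FinitePlace K, max (w x) 1 := by rw [one_mul]; exact h2
    _ ≤ _ := by
      apply mul_le_mul_of_nonneg_right h1
      exact finprod_nonneg fun w => le_max_of_le_right zero_le_one

end Pool.Agent.K9h15.Pla
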