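import Mathlib
import Pool.Agent.K9h15.Pla
import Pool.Agent.K9h15.Cls

/-!
# Counting the primes in denominators; good primes of prescribed size
-/

set_option autoImplicit false

open IsDedekindDomain NumberField Height

namespace Pool.Agent.K9h15.Bad

open Pool.Agent.K9h15.Pla

variable {K : Type} [Field K] [NumberField K]

lemma finite_small (K : Type) [Field K] [NumberField K] (M : ℝ) :
    {v : HeightOneSpectrum (𝓞 K) | nm v < M}.Finite := by
  have h1 : {I : Ideal (𝓞 K) | Ideal.absNorm I ≤ ⌈M⌉₊}.Finite :=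
    Ideal.finite_setOfPred_absNorm_le _
  refine Set.Finite.of_finite_image (f := fun v => v.asIdeal) (h1.subset ?_) ?_
  · rintro _ ⟨v, hv, rfl⟩
    have : nm v ≤ ⌈M⌉₊ := hv.le.trans (Nat.le_ceil M)
    exact_mod_cast this
  · intro v _ w _ h
    exact HeightOneSpectrum.ext h

lemma finite_bad (c : K) : {v : HeightOneSpectrum (𝓞 K) | 1 < av v c}.Finite := by
  refine (HeightOneSpectrum.Support.finite (𝓞 K) c).subset ?_
  intro v hv
  have h := av_lt_iff (v := v) (x := (1 : K)) (y := c)
  rw [map_one, map_one] at h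
  exact h.1 hv

lemma bad_count (K : Type) [Field K] [NumberField K] (ε : ℝ) (hε : 0 < ε) :
    ∃ C : ℝ, 1 ≤ C ∧ ∀ (c : K) (S : Finset (HeightOneSpectrum (𝓞 K))),
      (∀ v ∈ S, 1 < av v c) → (2 : ℝ) ^ S.card ≤ C * mulHeight₁ c ^ ε := by
  classical
  set M : ℝ := (2 : ℝ) ^ (1 / ε) with hM
  have hfin := finite_small K M
  refine ⟨2 ^ hfin.toFinset.card, one_le_pow₀ (by norm_num), ?_⟩
  intro c S hS
  have h1 : S.card = (S.filter (fun v => nm v < M)).card +
      (S.filter (fun v => ¬ nm v < M)).card := (Finset.card_filter_add_card_filter_not _).symm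
  have h2 : (S.filter (fun v => nm v < M)).card ≤ hfin.toFinset.card := by
    apply Finset.card_le_card
    intro v hv
    rw [Set.Finite.mem_toFinset]
    exact (Finset.mem_filter.1 hv).2
  rw [h1, pow_add]
  have h3 : (2 : ℝ) ^ (S.filter (fun v => ¬ nm v < M)).card ≤ mulHeight₁ c ^ ε := by
    have h4 := prod_nm_le c (S.filter (fun v => ¬ nm v < M))
      (fun v hv => hS v (Finset.mem_filter.1 hv).1)
    calc (2 : ℝ) ^ (S.filter (fun v => ¬ nm v < M)).card
        = ∏ _v ∈ S.filter (fun v => ¬ nm v < M), (2 : ℝ) := by rw [Finset.prod_const]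
      _ ≤ ∏ v ∈ S.filter (fun v => ¬ nm v < M), (nm v) ^ ε := by
          apply Finset.prod_le_prod
          · intro v _; norm_num
          · intro v hv
            have h5 : M ≤ nm v := not_lt.1 (Finset.mem_filter.1 hv).2
            calc (2 : ℝ) = M ^ ε := by
                  rw [hM, ← Real.rpow_mul (by norm_num), one_div, inv_mul_cancel₀ hε.ne',
                    Real.rpow_one]
              _ ≤ _ := Real.rpow_le_rpow (by positivity) h5 hε.le
      _ = (∏ v ∈ S.filter (fun v => ¬ nm v < M), nm v) ^ ε := by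
          rw [← Real.finsetProd_rpow]
          intro v _
          exact (zero_le_one.trans (one_lt_nm v).le)
      _ ≤ _ := by
          apply Real.rpow_le_rpow _ h4 hε.le
          exact Finset.prod_nonneg fun v _ => zero_le_one.trans (one_lt_nm v).le
  have h6 : (2 : ℝ) ^ (S.filter (fun v => nm v < M)).card ≤ 2 ^ hfin.toFinset.card :=
    pow_le_pow_right₀ (by norm_num) h2
  exact mul_le_mul h6 h3 (by positivity) (by positivity)

lemma bad_count' (K : Type) [Field K] [NumberField K] (m : ℕ) (ε : ℝ) (hε : 0 < ε) :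
    ∃ C : ℝ, 1 ≤ C ∧ ∀ (c : Fin m → K) (V : ℝ), 1 ≤ V → (∀ i, mulHeight₁ (c i) ≤ V) →
      ∀ (S : Finset (HeightOneSpectrum (𝓞 K))), (∀ v ∈ S, ∃ i, 1 < av v (c i)) →
      (2 : ℝ) ^ S.card ≤ C * V ^ ε := by
  classical
  obtain ⟨C0, hC0, h⟩ := bad_count K (ε / (m + 1)) (by positivity)
  refine ⟨C0 ^ m, one_le_pow₀ hC0, ?_⟩
  intro c V hV hc S hS
  let Si : Fin m → Finset (HeightOneSpectrum (𝓞 K)) := fun i => S.filter (fun v => 1 < av v (c i))
  have h1 : S ⊆ Finset.univ.biUnion Si := by
    intro v hv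
    obtain ⟨i, hi⟩ := hS v hv
    exact Finset.mem_biUnion.2 ⟨i, Finset.mem_univ _, Finset.mem_filter.2 ⟨hv, hi⟩⟩
  have h2 : S.card ≤ ∑ i, (Si i).card := (Finset.card_le_card h1).trans Finset.card_biUnion_le
  calc (2 : ℝ) ^ S.card ≤ 2 ^ (∑ i, (Si i).card) := pow_le_pow_right₀ (by norm_num) h2
    _ = ∏ i, (2 : ℝ) ^ (Si i).card := by rw [Finset.prod_pow_eq_pow_sum]
    _ ≤ ∏ _i : Fin m, (C0 * V ^ (ε / (m + 1))) := by
        apply Finset.prod_le_prod
        · intro i _; positivity
        · intro i _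
          refine (h (c i) (Si i) (fun v hv => (Finset.mem_filter.1 hv).2)).trans ?_
          have := Real.rpow_le_rpow (mulHeight₁_nonneg (c i)) (hc i)
            (by positivity : (0 : ℝ) ≤ ε / (m + 1))
          gcongr
    _ = C0 ^ m * (V ^ (ε / (m + 1))) ^ m := by
        rw [Finset.prod_const, Finset.card_univ, Fintype.card_fin, mul_pow]
    _ ≤ C0 ^ m * V ^ ε := by
        have h3 : (V ^ (ε / (m + 1))) ^ m ≤ V ^ ε := by
          rw [← Real.rpow_natCast, ← Real.rpow_mul (by linarith)]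
          apply Real.rpow_le_rpow_of_exponent_le hV
          rw [div_mul_eq_mul_div, div_le_iff₀ (by positivity)]
          nlinarith
        have : 0 ≤ C0 ^ m := by positivity
        gcongr

lemma few_large (c : K) (M : ℝ) (hM : 1 ≤ M) (S : Finset (HeightOneSpectrum (𝓞 K)))
    (hS : ∀ v ∈ S, 1 < av v c) (hl : ∀ v ∈ S, M ≤ nm v) : M ^ S.card ≤ mulHeight₁ c := by
  refine le_trans ?_ (prod_nm_le c S hS)
  rw [← Finset.prod_const]
  exact Finset.prod_le_prod (fun v _ => by linarith) hl

/-- a prime above a rational prime -/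
lemma exists_above (K : Type) [Field K] [NumberField K] (p : ℕ) (hp : p.Prime) :
    ∃ v : HeightOneSpectrum (𝓞 K), (p : 𝓞 K) ∈ v.asIdeal ∧ (p : ℝ) ≤ nm v ∧
      nm v ≤ (p : ℝ) ^ (Module.finrank ℚ K) := by
  have h1 : Ideal.span {(p : 𝓞 K)} ≠ ⊤ := by
    intro h
    have h2 : Ideal.absNorm (Ideal.span {(p : 𝓞 K)}) = 1 := by rw [h]; exact Ideal.absNorm_top
    rw [Ideal.absNorm_span_natCast] at h2
    have h3 : 0 < Module.finrank ℤ (𝓞 K) := Module.finrank_pos
    have h4 := (Nat.pow_eq_one.1 h2)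
    rcases h4 with h4 | h4
    · exact hp.one_lt.ne' h4
    · omega
  obtain ⟨I, hI, hle⟩ := Ideal.exists_le_maximal _ h1
  have hpI : (p : 𝓞 K) ∈ I := hle (Ideal.subset_span rfl)
  have hI0 : I ≠ ⊥ := by
    rintro rfl
    have h2 : (p : 𝓞 K) = 0 := by simpa using hpI
    have : p = 0 := by exact_mod_cast h2
    exact hp.ne_zero this
  let v : HeightOneSpectrum (𝓞 K) := ⟨I, hI.isPrime, hI0⟩
  have h5 : Ideal.absNorm I ∣ p ^ (Module.finrank ℤ (𝓞 K)) := by
    rw [← Ideal.absNorm_span_natCast]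
    exact Ideal.absNorm_dvd_absNorm_of_le hle
  obtain ⟨j, hj, hjI⟩ := (Nat.dvd_prime_pow hp).1 h5
  have h6 : 1 < Ideal.absNorm I := HeightOneSpectrum.one_lt_absNorm v
  have hj0 : 1 ≤ j := by
    by_contra hn
    have : j = 0 := by omega
    rw [this, pow_zero] at hjI
    omega
  rw [RingOfIntegers.rank] at hj
  refine ⟨v, hpI, ?_, ?_⟩
  · change (p : ℝ) ≤ (Ideal.absNorm I : ℝ)
    rw [hjI]
    have : p ≤ p ^ j := Nat.le_self_pow (by omega) p
    exact_mod_cast this
  · change (Ideal.absNorm I : ℝ) ≤ _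
    rw [hjI]
    have : p ^ j ≤ p ^ (Module.finrank ℚ K) := Nat.pow_le_pow_right hp.pos hj
    exact_mod_cast this

/-- many rational primes of about the same size -/
lemma many_primes (n : ℕ) : ∀ N : ℕ, 1 ≤ N →
    ∃ P : Finset ℕ, P.card = n ∧ ∀ p ∈ P, p.Prime ∧ N < p ∧ p ≤ 2 ^ n * N := by
  classical
  induction n with
  | zero => exact fun N _ => ⟨∅, rfl, by simp⟩
  | succ n ih =>
    intro N hN
    obtain ⟨p, hp, h1, h2⟩ := Nat.exists_prime_lt_and_le_two_mul N (by omega)
    obtain ⟨P, hP, hPp⟩ := ih p hp.pos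
    refine ⟨insert p P, ?_, ?_⟩
    · rw [Finset.card_insert_of_notMem, hP]
      intro hh
      exact lt_irrefl _ (hPp p hh).2.1
    · intro q hq
      rcases Finset.mem_insert.1 hq with rfl | hq
      · refine ⟨hp, h1, h2.trans ?_⟩
        rw [pow_succ]
        have : 1 ≤ 2 ^ n := Nat.one_le_two_pow
        nlinarith
      · obtain ⟨k1, k2, k3⟩ := hPp q hq
        refine ⟨k1, by omega, k3.trans ?_⟩
        rw [pow_succ]
        calc 2 ^ n * p ≤ 2 ^ n * (2 * N) := by gcongr
          _ = _ := by ring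

/-- **A good prime of prescribed size.** -/
theorem exists_good (K : Type) [Field K] [NumberField K] (n0 : ℕ) (M : ℝ) (hM : 1 ≤ M)
    (B : Set (HeightOneSpectrum (𝓞 K)))
    (hB : ∀ S : Finset (HeightOneSpectrum (𝓞 K)), (∀ v ∈ S, v ∈ B) → (∀ v ∈ S, M < nm v) →
      S.card ≤ n0) :
    ∃ v, v ∉ B ∧ M < nm v ∧ nm v ≤ (2 ^ (n0 + 2) * M) ^ (Module.finrank ℚ K) := by
  classical
  obtain ⟨P, hPc, hP⟩ := many_primes (n0 + 1) ⌈M⌉₊ (Nat.one_le_ceil_iff.2 (by linarith))
  have hch : ∀ p : ℕ, ∃ v : HeightOneSpectrum (𝓞 K), p.Prime → ((p : 𝓞 K) ∈ v.asIdeal ∧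
      (p : ℝ) ≤ nm v ∧ nm v ≤ (p : ℝ) ^ (Module.finrank ℚ K)) := by
    intro p
    by_cases hp : p.Prime
    · obtain ⟨v, hv⟩ := exists_above K p hp
      exact ⟨v, fun _ => hv⟩
    · obtain ⟨v, -⟩ := exists_above K 2 Nat.prime_two
      exact ⟨v, fun h => absurd h hp⟩
  choose g hg using hch
  have hinj : Set.InjOn g P := by
    intro p hp q hq hpq
    by_contra hne
    obtain ⟨k1, -, -⟩ := hP p hp
    obtain ⟨l1, -, -⟩ := hP q hq
    have h1 := (hg p k1).1
    have h2 := (hg q l1).1
    rw [← hpq] at h2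
    have h3 : IsCoprime (p : ℤ) (q : ℤ) :=
      Nat.isCoprime_iff_coprime.2 ((Nat.coprime_primes k1 l1).2 hne)
    obtain ⟨a, b, hab⟩ := h3
    have h4 : (1 : 𝓞 K) ∈ (g p).asIdeal := by
      have h5 : ((a * (p : ℤ) + b * (q : ℤ) : ℤ) : 𝓞 K) = 1 := by rw [hab]; simp
      rw [← h5]
      push_cast
      exact Ideal.add_mem _ (Ideal.mul_mem_left _ _ h1) (Ideal.mul_mem_left _ _ h2)
    exact (g p).isPrime.ne_top ((Ideal.eq_top_iff_one _).2 h4)
  by_contra hcon
  push Not at hcon
  have h6 : ∀ p ∈ P, M < nm (g p) ∧ nm (g p) ≤ (2 ^ (n0 + 2) * M) ^ (Module.finrank ℚ K) := by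
    intro p hp
    obtain ⟨k1, k2, k3⟩ := hP p hp
    obtain ⟨-, h2, h3⟩ := hg p k1
    have h7 : M ≤ ⌈M⌉₊ := Nat.le_ceil M
    have h8 : (⌈M⌉₊ : ℝ) < p := by exact_mod_cast k2
    refine ⟨by linarith, h3.trans ?_⟩
    apply pow_le_pow_left₀ (by positivity)
    have h9 : (p : ℝ) ≤ 2 ^ (n0 + 1) * ⌈M⌉₊ := by exact_mod_cast k3
    have h10 : (⌈M⌉₊ : ℝ) ≤ 2 * M := by
      have := (Nat.ceil_lt_add_one (by linarith : (0 : ℝ) ≤ M)).le
      linarith
    calc (p : ℝ) ≤ 2 ^ (n0 + 1) * ⌈M⌉₊ := h9
      _ ≤ 2 ^ (n0 + 1) * (2 * M) := by gcongr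
      _ = _ := by ring
  have h11 := hB (P.image g) (by
    intro v hv
    obtain ⟨p, hp, rfl⟩ := Finset.mem_image.1 hv
    by_contra hn
    exact absurd (h6 p hp).2 (not_le.2 (hcon _ hn (h6 p hp).1))) (by
    intro v hv
    obtain ⟨p, hp, rfl⟩ := Finset.mem_image.1 hv
    exact (h6 p hp).1)
  rw [Finset.card_image_of_injOn hinj, hPc] at h11
  omega

/-- even order from a square -/
lemma even_ord (v : HeightOneSpectrum (𝓞 K)) (x q y z : Kˣ) (h : x * q = y ^ 2)
    (hq : av v (q : K) = av v ((z : K) ^ 2)) :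
    Even (Multiplicative.toAdd (v.valuationOfNeZero x)) := by
  have hs := congrArg (fun u => Multiplicative.toAdd (v.valuationOfNeZero u)) h
  simp only [map_mul, map_pow, toAdd_mul, toAdd_pow] at hs
  have h1 : v.valuationOfNeZero q = v.valuationOfNeZero (z ^ 2) := by
    have h2 := av_eq_iff.1 hq
    have h3 : v.valuation K (q : K) = v.valuation K ((z ^ 2 : Kˣ) : K) := by
      rw [Units.val_pow_eq_pow_val]; exact h2
    rw [← v.valuationOfNeZero_eq, ← v.valuationOfNeZero_eq] at h3
    exact WithZero.coe_injective h3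
  rw [h1, map_pow, toAdd_pow] at hs
  simp only [nsmul_eq_mul, Nat.cast_ofNat] at hs
  have h4 : Multiplicative.toAdd (v.valuationOfNeZero x) =
      2 * (Multiplicative.toAdd (v.valuationOfNeZero y) -
        Multiplicative.toAdd (v.valuationOfNeZero z)) := by linarith
  rw [h4]
  exact even_two.mul_right _

/-- even order of the first coordinate at a place of good reduction -/
lemma even_first (v : HeightOneSpectrum (𝓞 K)) {a b x y : K} (hx : x ≠ 0)
    (h : y ^ 2 = x * (x ^ 2 + a * x + b)) (hy : y ≠ 0) (ha : av v a ≤ 1) (hb : av v b = 1) :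
    Even (Multiplicative.toAdd (v.valuationOfNeZero (Units.mk0 x hx))) := by
  have hq0 : x ^ 2 + a * x + b ≠ 0 := by
    intro h0
    rw [h0, mul_zero] at h
    exact hy (pow_eq_zero_iff (two_ne_zero) |>.1 h)
  have hna := av_nonarch v
  have hmax : ∀ x y : K, av v y < av v x → av v (x + y) = av v x := by
    intro x y hxy
    apply le_antisymm
    · exact (hna _ _).trans (max_le le_rfl hxy.le)
    · have h1 : av v x ≤ max (av v (x + y)) (av v y) := by
        have h2 := hna (x + y) (-y)
        rw [add_neg_cancel_right, (av v).map_neg] at h2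
        exact h2
      rcases le_max_iff.1 h1 with h | h
      · exact h
      · exact absurd hxy (not_lt.2 h)
  rcases lt_trichotomy (av v x) 1 with h1 | h1 | h1
  · apply even_ord v (Units.mk0 x hx) (Units.mk0 _ hq0) (Units.mk0 y hy) 1
    · apply Units.ext; simp [h]
    · rw [Units.val_mk0, Units.val_one, one_pow, map_one]
      have e : x ^ 2 + a * x + b = b + (x ^ 2 + a * x) := by ring
      rw [e, hmax _ _, hb]
      rw [hb]
      refine lt_of_le_of_lt (hna _ _) (max_lt ?_ ?_)
      · rw [map_pow]; exact pow_lt_one₀ (apply_nonneg _ _) h1 (by norm_num)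
      · rw [map_mul]
        calc av v a * av v x ≤ 1 * av v x := by gcongr
          _ < 1 := by rw [one_mul]; exact h1
  · have h2 : v.valuationOfNeZero (Units.mk0 x hx) = v.valuationOfNeZero (1 : Kˣ) := by
      have h3 : v.valuation K ((Units.mk0 x hx : Kˣ) : K) = v.valuation K ((1 : Kˣ) : K) := by
        apply av_eq_iff.1
        simpa using h1
      rw [← v.valuationOfNeZero_eq, ← v.valuationOfNeZero_eq] at h3
      exact WithZero.coe_injective h3
    rw [h2, map_one, toAdd_one]
    exact Even.zero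
  · apply even_ord v (Units.mk0 x hx) (Units.mk0 _ hq0) (Units.mk0 y hy) (Units.mk0 x hx)
    · apply Units.ext; simp [h]
    · rw [Units.val_mk0, Units.val_mk0, add_assoc, hmax]
      rw [map_pow]
      refine lt_of_le_of_lt (hna _ _) (max_lt ?_ ?_)
      · rw [map_mul]
        calc av v a * av v x ≤ 1 * av v x := by gcongr
          _ < av v x ^ 2 := by nlinarith
      · rw [hb]; nlinarith

/-- even order of the first coordinate at a place of good reduction -/
lemma even_first' (v : HeightOneSpectrum (𝓞 K)) {a b x y : K} (hx : x ≠ 0)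
    (h : y ^ 2 = x * (x ^ 2 + a * x + b)) (ha : av v a ≤ 1) (hb : av v b = 1) :
    Even (Multiplicative.toAdd (v.valuationOfNeZero (Units.mk0 x hx))) := by
  by_cases hy : y = 0
  · rw [hy] at h
    have h0 : x ^ 2 + a * x + b = 0 := by
      have : x * (x ^ 2 + a * x + b) = 0 := by rw [← h]; ring
      exact (mul_eq_zero.1 this).resolve_left hx
    have hna := av_nonarch v
    have hx1 : av v x = 1 := by
      by_contra hne
      rcases lt_or_gt_of_ne hne with h1 | h1
      · have e : b = -(x ^ 2 + a * x) := by linear_combination h0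
        have h2 : av v b < 1 := by
          rw [e, (av v).map_neg]
          refine lt_of_le_of_lt (hna _ _) (max_lt ?_ ?_)
          · rw [map_pow]; exact pow_lt_one₀ (apply_nonneg _ _) h1 (by norm_num)
          · rw [map_mul]
            calc av v a * av v x ≤ 1 * av v x := by gcongr
              _ < 1 := by rw [one_mul]; exact h1
        linarith
      · have e : x ^ 2 = -(a * x + b) := by linear_combination h0
        have h2 : av v (x ^ 2) < av v x ^ 2 := by
          rw [e, (av v).map_neg]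
          refine lt_of_le_of_lt (hna _ _) (max_lt ?_ ?_)
          · rw [map_mul]
            calc av v a * av v x ≤ 1 * av v x := by gcongr
              _ < av v x ^ 2 := by nlinarith
          · rw [hb]; nlinarith
        rw [map_pow] at h2
        exact lt_irrefl _ h2
    have h2 : v.valuationOfNeZero (Units.mk0 x hx) = v.valuationOfNeZero (1 : Kˣ) := by
      have h3 : v.valuation K ((Units.mk0 x hx : Kˣ) : K) = v.valuation K ((1 : Kˣ) : K) := by
        apply av_eq_iff.1
        simpa using hx1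
      rw [← v.valuationOfNeZero_eq, ← v.valuationOfNeZero_eq] at h3
      exact WithZero.coe_injective h3
    rw [h2, map_one, toAdd_one]
    exact Even.zero
  · exact even_first v hx h hy ha hb

end Pool.Agent.K9h15.Bad
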