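import Mathlib

/-!
# Conditions at all valuation rings: a finite certificate
-/

set_option autoImplicit false

namespace Pool.Agent.K9h15.Comp

variable {K : Type} [Field K]

/-- one of the two inverses -/
def sg (a b : K) (s : Bool) : K := if s then a⁻¹ else b⁻¹

/-- **The certificate.** If for each valuation ring which contains `F` one of the pairs `(a i, b i)` lies in
the ring, then finitely many pairs suffice, and there are polynomial identities with coefficients in `F`
which show this. -/
theorem certificate {ι : Type} (F : Subfield K) (a b : ι → K) (ha : ∀ i, a i ≠ 0)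
    (hb : ∀ i, b i ≠ 0)
    (hh : ∀ O : ValuationSubring K, (∀ z ∈ F, z ∈ O) → ∃ i, a i ∈ O ∧ b i ∈ O) :
    ∃ Z : Finset ι, ∀ σ : ι → Bool, ∃ P : MvPolynomial ι F,
      MvPolynomial.constantCoeff P = 0 ∧ P.vars ⊆ Z ∧
        MvPolynomial.aeval (fun i => sg (a i) (b i) (σ i)) P = 1 := by
  classical
  by_contra hcon
  push Not at hcon
  choose σ hσ using hcon
  -- the limit along an ultrafilter
  let U : Ultrafilter (Finset ι) := Ultrafilter.of Filter.atTop
  have hU : (U : Filter (Finset ι)) ≤ Filter.atTop := Ultrafilter.of_le _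
  have h2 : ∀ z : ι, ∃ s : Bool, ∀ᶠ Z in (U : Filter (Finset ι)), σ Z z = s := by
    intro z
    have h3 : ∀ᶠ Z in (U : Filter (Finset ι)), σ Z z = true ∨ σ Z z = false :=
      Filter.Eventually.of_forall fun Z => by cases σ Z z <;> simp
    rcases Ultrafilter.eventually_or.1 h3 with h | h
    · exact ⟨true, h⟩
    · exact ⟨false, h⟩
  choose τ hτ using h2
  let x : ι → K := fun i => sg (a i) (b i) (τ i)
  -- the ideal generated by the elements is proper
  have h4 : ∀ P : MvPolynomial ι F, MvPolynomial.constantCoeff P = 0 →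
      MvPolynomial.aeval x P ≠ 1 := by
    intro P hP
    have e1 : ∀ᶠ Z in (U : Filter (Finset ι)), ∀ z ∈ P.vars, σ Z z = τ z := by
      rw [Filter.eventually_all_finset]
      exact fun z _ => hτ z
    have e2 : ∀ᶠ Z in (U : Filter (Finset ι)), P.vars ⊆ Z :=
      hU (Filter.eventually_ge_atTop P.vars)
    obtain ⟨Z, hZ1, hZ2⟩ := (e1.and e2).exists
    have h5 := hσ Z P hP hZ2
    intro h6
    apply h5
    rw [← h6]
    rw [MvPolynomial.aeval_def, MvPolynomial.aeval_def]
    refine MvPolynomial.eval₂Hom_congr' (f₁ := algebraMap F K) rfl ?_ rfl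
    intro z hz _
    simp only [x]
    rw [hZ1 z hz]
  let f : MvPolynomial ι F →+* K := (MvPolynomial.aeval x : MvPolynomial ι F →ₐ[F] K).toRingHom
  let I : Ideal f.range := Ideal.map f.rangeRestrict (RingHom.ker MvPolynomial.constantCoeff)
  have hI : ∀ a : f.range, a ∈ I ↔ ∃ P : MvPolynomial ι F, MvPolynomial.constantCoeff P = 0 ∧
      f.rangeRestrict P = a := by
    intro a
    rw [Ideal.mem_map_iff_of_surjective _ f.rangeRestrict_surjective]
    constructor
    · rintro ⟨P, hP, rfl⟩
      exact ⟨P, hP, rfl⟩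
    · rintro ⟨P, hP, rfl⟩
      exact ⟨P, hP, rfl⟩
  have hIt : I ≠ ⊤ := by
    intro h
    rw [Ideal.eq_top_iff_one, hI] at h
    obtain ⟨P, hP, hP1⟩ := h
    apply h4 P hP
    have := congrArg Subtype.val hP1
    exact this
  obtain ⟨V, hV1, hV2⟩ := Ideal.image_subset_nonunits_valuationSubring I hIt
  obtain ⟨z, hz1, hz2⟩ := hh V (by
    intro z hz
    apply hV1
    refine ⟨MvPolynomial.C ⟨z, hz⟩, ?_⟩
    change MvPolynomial.aeval x (MvPolynomial.C (⟨z, hz⟩ : F)) = z
    rw [MvPolynomial.algHom_C]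
    rfl)
  have hxz : x z ∈ V.nonunits := by
    apply hV2
    refine ⟨f.rangeRestrict (MvPolynomial.X z), ?_, ?_⟩
    · rw [SetLike.mem_coe, hI]
      exact ⟨MvPolynomial.X z, MvPolynomial.constantCoeff_X (R := F) z, rfl⟩
    · change MvPolynomial.aeval x (MvPolynomial.X z) = x z
      rw [MvPolynomial.aeval_X]
  rw [ValuationSubring.mem_nonunits_iff] at hxz
  rw [← ValuationSubring.valuation_le_one_iff] at hz1 hz2
  simp only [x, sg] at hxz
  split_ifs at hxz
  · rw [map_inv₀] at hxz
    have h0 : V.valuation (a z) ≠ 0 := (Valuation.ne_zero_iff _).2 (ha z)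
    have := (inv_lt_one₀ (zero_lt_iff.2 h0)).1 hxz
    exact absurd hz1 (not_le.2 this)
  · rw [map_inv₀] at hxz
    have h0 : V.valuation (b z) ≠ 0 := (Valuation.ne_zero_iff _).2 (hb z)
    have := (inv_lt_one₀ (zero_lt_iff.2 h0)).1 hxz
    exact absurd hz2 (not_le.2 this)

end Pool.Agent.K9h15.Comp
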