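import Mathlib
import Pool.Agent.K9h15.Pla

/-!
# The determinant method for a rational function of one variable

If `φ = P / Q` has degree `D` and good reduction at a prime then the points `x` of a residue class for which
both `x` and `φ(x)` have small height are few.
-/

set_option autoImplicit false

open IsDedekindDomain NumberField Height Polynomial

namespace Pool.Agent.K9h15.Det

open Pool.Agent.K9h15.Pla

section alg

variable {K : Type} [Field K]

/-- expansions in powers of `P / Q` with small coefficients are unique -/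
lemma exp_unique {P Q : K[X]} (hP : P ≠ 0) (hc : IsCoprime P Q) (n : ℕ) :
    ∀ f : ℕ → K[X], (∀ j, (f j).degree < P.degree) →
      ∑ j ∈ Finset.range (n + 1), f j * P ^ j * Q ^ (n - j) = 0 → ∀ j ≤ n, f j = 0 := by
  induction n with
  | zero =>
    intro f hf h j hj
    obtain rfl : j = 0 := by omega
    simpa using h
  | succ n ih =>
    intro f hf h
    rw [Finset.sum_range_succ'] at h
    have h1 : ∑ j ∈ Finset.range (n + 1), f (j + 1) * P ^ (j + 1) * Q ^ (n + 1 - (j + 1)) =
        P * ∑ j ∈ Finset.range (n + 1), f (j + 1) * P ^ j * Q ^ (n - j) := by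
      rw [Finset.mul_sum]
      refine Finset.sum_congr rfl fun j _ => ?_
      rw [Nat.add_sub_add_right]
      ring
    rw [h1, pow_zero, mul_one, Nat.sub_zero] at h
    have h2 : P ∣ f 0 * Q ^ (n + 1) := by
      refine ⟨-∑ j ∈ Finset.range (n + 1), f (j + 1) * P ^ j * Q ^ (n - j), ?_⟩
      linear_combination h
    have h3 : P ∣ f 0 := (hc.pow_right).dvd_of_dvd_mul_right h2
    have h4 : f 0 = 0 := eq_zero_of_dvd_of_degree_lt h3 (hf 0)
    rw [h4, zero_mul, add_zero] at h
    have h5 := (mul_eq_zero.1 h).resolve_left hP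
    intro j hj
    rcases j with _ | j
    · exact h4
    · exact ih (fun j => f (j + 1)) (fun j => hf (j + 1)) h5 j (by omega)

/-- the functions of the determinant -/
noncomputable def wf (D : ℕ) (P Q : K[X]) (m : Fin D × Fin D) : K[X] :=
  X ^ (m.1 : ℕ) * P ^ (m.2 : ℕ) * Q ^ (D - 1 - m.2)

lemma wf_natDegree {D : ℕ} {P Q : K[X]} (hP : P.natDegree = D) (hQ : Q.natDegree ≤ D)
    (m : Fin D × Fin D) : (wf D P Q m).natDegree < D * D := by
  have h1 : (wf D P Q m).natDegree ≤ m.1 + m.2 * D + (D - 1 - m.2) * D := by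
    unfold wf
    refine natDegree_mul_le.trans ?_
    gcongr
    · refine natDegree_mul_le.trans ?_
      gcongr
      · exact natDegree_X_pow_le _
      · refine natDegree_pow_le.trans ?_
        rw [hP]
    · refine natDegree_pow_le.trans ?_
      gcongr
  have h2 : (m.2 : ℕ) * D + (D - 1 - m.2) * D = (D - 1) * D := by
    rw [← add_mul]
    congr 1
    have := m.2.isLt
    omega
  have h3 := m.1.isLt
  have h4 : (D - 1) * D + D = D * D := by
    have : D - 1 + 1 = D := by omega
    calc (D - 1) * D + D = (D - 1 + 1) * D := by ring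
      _ = D * D := by rw [this]
  omega

lemma wf_indep {D : ℕ} {P Q : K[X]} (hP : P.natDegree = D) (hc : IsCoprime P Q)
    (c : Fin D × Fin D → K) (h : ∑ m, C (c m) * wf D P Q m = 0) : c = 0 := by
  rcases Nat.eq_zero_or_pos D with hD | hD
  · subst hD
    funext m
    exact m.1.elim0
  have hP0 : P ≠ 0 := by
    rintro rfl
    rw [natDegree_zero] at hP
    omega
  let f : ℕ → K[X] := fun j => if hj : j < D then ∑ i : Fin D, C (c (i, ⟨j, hj⟩)) * X ^ (i : ℕ)
    else 0
  have hf : ∀ j, (f j).degree < P.degree := by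
    intro j
    rw [degree_eq_natDegree hP0, hP]
    simp only [f]
    split_ifs with hj
    · exact degree_sum_fin_lt (fun i : Fin D => c (i, ⟨j, hj⟩))
    · rw [degree_zero]
      exact WithBot.bot_lt_coe D
  obtain ⟨n, rfl⟩ : ∃ n, D = n + 1 := ⟨D - 1, by omega⟩
  have h1 : ∑ j ∈ Finset.range (n + 1), f j * P ^ j * Q ^ (n - j) = 0 := by
    rw [← h, Fintype.sum_prod_type_right, Finset.sum_range]
    refine Finset.sum_congr rfl fun j _ => ?_
    simp only [f, j.isLt, dif_pos, wf]
    rw [Finset.sum_mul, Finset.sum_mul]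
    refine Finset.sum_congr rfl fun i _ => ?_
    simp only [Nat.add_sub_cancel]
    ring
  have h2 := exp_unique hP0 hc n f hf h1
  funext m
  have h3 := h2 m.2 (by have := m.2.isLt; omega)
  simp only [f, m.2.isLt, dif_pos] at h3
  have h4 := congrArg (fun p : K[X] => p.coeff (m.1 : ℕ)) h3
  simp only [finsetSum_coeff, coeff_C_mul, coeff_X_pow, coeff_zero] at h4
  rw [Finset.sum_eq_single m.1] at h4
  · simpa using h4
  · intro i _ hi
    rw [if_neg, mul_zero]
    intro hh
    exact hi (Fin.ext hh.symm)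
  · intro hh
    exact absurd (Finset.mem_univ _) hh

/-- the matrix of coefficients -/
noncomputable def cm (D : ℕ) (P Q : K[X]) : Matrix (Fin (D * D)) (Fin (D * D)) K :=
  Matrix.of fun l m => (wf D P Q (finProdFinEquiv.symm m)).coeff l

lemma cm_det {D : ℕ} {P Q : K[X]} (hP : P.natDegree = D) (hQ : Q.natDegree ≤ D)
    (hc : IsCoprime P Q) : (cm D P Q).det ≠ 0 := by
  intro h
  obtain ⟨c, hc0, hcz⟩ := Matrix.exists_mulVec_eq_zero_iff.2 h
  apply hc0
  have h1 : (fun m : Fin D × Fin D => c (finProdFinEquiv m)) = 0 := by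
    apply wf_indep hP hc
    ext l
    rw [finsetSum_coeff, coeff_zero]
    simp only [coeff_C_mul]
    by_cases hl : l < D * D
    · have h2 := congrFun hcz ⟨l, hl⟩
      simp only [Matrix.mulVec, dotProduct, cm, Matrix.of_apply, Pi.zero_apply] at h2
      rw [← h2, ← Equiv.sum_comp finProdFinEquiv]
      refine Finset.sum_congr rfl fun m _ => ?_
      rw [Equiv.symm_apply_apply, mul_comm]
    · refine Finset.sum_eq_zero fun m _ => ?_
      rw [coeff_eq_zero_of_natDegree_lt, mul_zero]
      exact lt_of_lt_of_le (wf_natDegree hP hQ m) (not_lt.1 hl)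
  funext m
  have h2 := congrFun h1 (finProdFinEquiv.symm m)
  rw [Equiv.apply_symm_apply] at h2
  exact h2

/-- the determinant of the points -/
noncomputable def dm (D : ℕ) (x y : Fin (D * D) → K) : Matrix (Fin (D * D)) (Fin (D * D)) K :=
  Matrix.of fun a m => x a ^ ((finProdFinEquiv.symm m).1 : ℕ) *
    y a ^ ((finProdFinEquiv.symm m).2 : ℕ)

lemma dm_det {D : ℕ} {P Q : K[X]} (hP : P.natDegree = D) (hQ : Q.natDegree ≤ D)
    (x : Fin (D * D) → K) (hx : ∀ a, Q.eval (x a) ≠ 0) :
    (∏ a, (Q.eval (x a)) ^ (D - 1)) * (dm D x (fun a => P.eval (x a) / Q.eval (x a))).det =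
      (∏ i, ∏ j ∈ Finset.Ioi i, (x j - x i)) * (cm D P Q).det := by
  rw [← Matrix.det_vandermonde, ← Matrix.det_mul, ← Matrix.det_mul_column]
  congr 1
  ext a m
  rw [Matrix.mul_apply, Matrix.of_apply]
  simp only [dm, cm, Matrix.of_apply, Matrix.vandermonde_apply]
  have h1 := eval_eq_sum_range' (wf_natDegree hP hQ (finProdFinEquiv.symm m)) (x a)
  rw [Finset.sum_range] at h1
  have h2 : ∑ j : Fin (D * D), x a ^ (j : ℕ) * (wf D P Q (finProdFinEquiv.symm m)).coeff j =
      (wf D P Q (finProdFinEquiv.symm m)).eval (x a) := by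
    rw [h1]
    exact Finset.sum_congr rfl fun j _ => mul_comm _ _
  rw [h2]
  simp only [wf, eval_mul, eval_pow, eval_X, div_pow]
  have h3 : (Q.eval (x a)) ^ (D - 1) = (Q.eval (x a)) ^ (D - 1 - (finProdFinEquiv.symm m).2) *
      (Q.eval (x a)) ^ ((finProdFinEquiv.symm m).2 : ℕ) := by
    rw [← pow_add]
    congr 1
    have := (finProdFinEquiv.symm m).2.isLt
    omega
  rw [h3]
  have h4 := pow_ne_zero ((finProdFinEquiv.symm m).2 : ℕ) (hx a)
  field_simp

/-- nonarchimedean bound of a sum -/
lemma na_sum_le {v : AbsoluteValue K ℝ} (hv : IsNonarchimedean v) {ι : Type*} (s : Finset ι)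
    (f : ι → K) {B : ℝ} (hB : 0 ≤ B) (h : ∀ i ∈ s, v (f i) ≤ B) : v (∑ i ∈ s, f i) ≤ B := by
  classical
  induction s using Finset.induction_on with
  | empty => simpa using hB
  | insert a s ha ih =>
    rw [Finset.sum_insert ha]
    refine (hv _ _).trans (max_le (h a (Finset.mem_insert_self _ _)) (ih ?_))
    exact fun i hi => h i (Finset.mem_insert_of_mem hi)

lemma na_det_le {v : AbsoluteValue K ℝ} (hv : IsNonarchimedean v) {n : ℕ}
    (A : Matrix (Fin n) (Fin n) K) (R : Fin n → ℝ) (hR : ∀ a, 0 ≤ R a)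
    (h : ∀ a m, v (A a m) ≤ R a) : v A.det ≤ ∏ a, R a := by
  rw [Matrix.det_apply']
  apply na_sum_le hv _ _ (Finset.prod_nonneg fun a _ => hR a)
  intro σ _
  rw [map_mul, map_prod]
  have h1 : v ((Equiv.Perm.sign σ : ℤ) : K) = 1 := by
    rcases Int.units_eq_one_or (Equiv.Perm.sign σ) with h | h
    · rw [h]; simp
    · rw [h]; simp
  rw [h1, one_mul, ← Equiv.prod_comp σ R]
  exact Finset.prod_le_prod (fun i _ => apply_nonneg v _) fun i _ => h _ _

lemma ar_det_le (v : AbsoluteValue K ℝ) {n : ℕ}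
    (A : Matrix (Fin n) (Fin n) K) (R : Fin n → ℝ) (h : ∀ a m, v (A a m) ≤ R a) :
    v A.det ≤ (n.factorial : ℝ) * ∏ a, R a := by
  rw [Matrix.det_apply']
  refine (v.sum_le _ _).trans ?_
  have h2 : ∀ σ : Equiv.Perm (Fin n), v (((Equiv.Perm.sign σ : ℤ) : K) * ∏ i, A (σ i) i) ≤
      ∏ a, R a := by
    intro σ
    rw [map_mul, map_prod]
    have h1 : v ((Equiv.Perm.sign σ : ℤ) : K) = 1 := by
      rcases Int.units_eq_one_or (Equiv.Perm.sign σ) with h | h
      · rw [h]; simp
      · rw [h]; simp
    rw [h1, one_mul, ← Equiv.prod_comp σ R]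
    exact Finset.prod_le_prod (fun i _ => apply_nonneg v _) fun i _ => h _ _
  refine (Finset.sum_le_sum fun σ _ => h2 σ).trans ?_
  rw [Finset.sum_const, nsmul_eq_mul, Finset.card_univ, Fintype.card_perm, Fintype.card_fin]

/-- integral coefficients -/
def Intg (v : AbsoluteValue K ℝ) (P : K[X]) : Prop := ∀ l, v (P.coeff l) ≤ 1

lemma Intg.mul {v : AbsoluteValue K ℝ} (hv : IsNonarchimedean v) {P Q : K[X]} (hP : Intg v P)
    (hQ : Intg v Q) : Intg v (P * Q) := by
  intro l
  rw [coeff_mul]
  apply na_sum_le hv _ _ zero_le_one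
  intro i _
  rw [map_mul]
  exact mul_le_one₀ (hP _) (apply_nonneg _ _) (hQ _)

lemma Intg.pow {v : AbsoluteValue K ℝ} (hv : IsNonarchimedean v) {P : K[X]} (hP : Intg v P)
    (n : ℕ) : Intg v (P ^ n) := by
  induction n with
  | zero =>
    intro l
    rw [pow_zero, coeff_one]
    split_ifs <;> simp
  | succ n ih => rw [pow_succ]; exact ih.mul hv hP

lemma Intg.X_pow {v : AbsoluteValue K ℝ} (n : ℕ) : Intg v (X ^ n : K[X]) := by
  intro l
  rw [coeff_X_pow]
  split_ifs <;> simp

lemma cm_le {v : AbsoluteValue K ℝ} (hv : IsNonarchimedean v) {D : ℕ} {P Q : K[X]}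
    (hP : Intg v P) (hQ : Intg v Q) : v (cm D P Q).det ≤ 1 := by
  have h := na_det_le hv (cm D P Q) (fun _ => 1) (fun _ => zero_le_one) (by
    intro a m
    simp only [cm, Matrix.of_apply, wf]
    exact ((Intg.X_pow _).mul hv (hP.pow hv _)).mul hv (hQ.pow hv _) _)
  simpa using h

end alg

section main

variable {K : Type} [Field K] [NumberField K]

omit [NumberField K] in
lemma entry_le (v : AbsoluteValue K ℝ) {D : ℕ} (x y : Fin (D * D) → K) (a m : Fin (D * D)) :
    v (dm D x y a m) ≤ (max (v (x a)) 1) ^ (D - 1) * (max (v (y a)) 1) ^ (D - 1) := by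
  simp only [dm, Matrix.of_apply, map_mul, map_pow]
  have h : ∀ (t : ℝ) (ht : 0 ≤ t) (i : Fin D), t ^ (i : ℕ) ≤ (max t 1) ^ (D - 1) := by
    intro t ht i
    calc t ^ (i : ℕ) ≤ (max t 1) ^ (i : ℕ) := pow_le_pow_left₀ ht (le_max_left _ _) _
      _ ≤ _ := pow_le_pow_right₀ (le_max_right _ _) (by have := i.isLt; omega)
  exact mul_le_mul (h _ (apply_nonneg v _) _) (h _ (apply_nonneg v _) _) (by positivity)
    (by positivity)

/-- **The determinant method.** -/
theorem det_method {D : ℕ} (hD : 1 ≤ D) {P Q : K[X]} (hP : P.natDegree = D)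
    (hQ : Q.natDegree ≤ D) (hc : IsCoprime P Q) (v : HeightOneSpectrum (𝓞 K))
    (hPi : Intg (av v) P) (hQi : Intg (av v) Q)
    (hgood : ∀ x : K, (max (av v x) 1) ^ D ≤ max (av v (P.eval x)) (av v (Q.eval x)))
    (U : ℝ) (x : Fin (D * D) → K) (hinj : Function.Injective x)
    (hx : ∀ a, Q.eval (x a) ≠ 0) (hxU : ∀ a, mulHeight₁ (x a) ≤ U)
    (hyU : ∀ a, mulHeight₁ (P.eval (x a) / Q.eval (x a)) ≤ U)
    (hcl : ∀ a b, av v (x a - x b) ≤ (nm v)⁻¹ * (max (av v (x a)) 1 * max (av v (x b)) 1)) :
    nm v ^ ((D * D) * (D * D - 1) / 2) ≤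
      ((D * D).factorial : ℝ) ^ (Module.finrank ℚ K) * U ^ (2 * (D - 1) * (D * D)) := by
  classical
  set y : Fin (D * D) → K := fun a => P.eval (x a) / Q.eval (x a) with hy
  set Δ : K := (dm D x y).det with hΔ
  have hid := dm_det hP hQ x hx
  rw [← hy, ← hΔ] at hid
  have hV0 : (∏ i, ∏ j ∈ Finset.Ioi i, (x j - x i)) ≠ 0 := by
    rw [Finset.prod_ne_zero_iff]
    intro i _
    rw [Finset.prod_ne_zero_iff]
    intro j hj
    rw [sub_ne_zero]
    intro h
    have := hinj h
    rw [Finset.mem_Ioi, this] at hj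
    exact lt_irrefl _ hj
  have hΔ0 : Δ ≠ 0 := by
    intro h
    rw [h, mul_zero] at hid
    exact (mul_ne_zero hV0 (cm_det hP hQ hc)) hid.symm
  have hq := one_lt_nm v
  have hna := av_nonarch v
  -- the local estimate at v
  have hV : av v (∏ i, ∏ j ∈ Finset.Ioi i, (x j - x i)) ≤
      ((nm v)⁻¹) ^ ((D * D) * (D * D - 1) / 2) * ∏ a, (max (av v (x a)) 1) ^ (D * D - 1) := by
    rw [map_prod]
    simp only [map_prod]
    calc ∏ i, ∏ j ∈ Finset.Ioi i, av v (x j - x i)
        ≤ ∏ i, ∏ j ∈ Finset.Ioi i, ((nm v)⁻¹ * (max (av v (x j)) 1 * max (av v (x i)) 1)) := by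
          apply Finset.prod_le_prod
          · intro i _; exact Finset.prod_nonneg fun j _ => apply_nonneg _ _
          · intro i _
            apply Finset.prod_le_prod
            · intro j _; exact apply_nonneg _ _
            · intro j _; exact hcl j i
      _ = (∏ i : Fin (D * D), ∏ j ∈ Finset.Ioi i, (nm v)⁻¹) *
          ∏ i, ∏ j ∈ Finset.Ioi i, (max (av v (x j)) 1 * max (av v (x i)) 1) := by
          rw [← Finset.prod_mul_distrib]
          refine Finset.prod_congr rfl fun i _ => ?_
          rw [← Finset.prod_mul_distrib]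
      _ = _ := by
          congr 1
          · rw [Finset.prod_congr rfl fun i _ => Finset.prod_const _, Finset.prod_pow_eq_pow_sum]
            congr 1
            have h1 : ∀ i : Fin (D * D), (Finset.Ioi i).card = D * D - 1 - i := by
              intro i
              rw [Fin.card_Ioi]
            rw [Finset.sum_congr rfl fun i _ => h1 i, ← Finset.sum_range (fun i => D * D - 1 - i),
              Finset.sum_range_reflect (fun i => i) (D * D), Finset.sum_range_id]
          · have h2 : ∀ i : Fin (D * D), ∏ j ∈ Finset.Ioi i,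
                (max (av v (x j)) 1 * max (av v (x i)) 1) =
                ∏ j ∈ Finset.Ioi i, (fun a b => max (av v (x b)) 1 * max (av v (x a)) 1) i j :=
              fun i => rfl
            have h3 : (∏ i : Fin (D * D), ∏ j ∈ Finset.Ioi i,
                (max (av v (x j)) 1 * max (av v (x i)) 1)) =
                (∏ i : Fin (D * D), ∏ j ∈ Finset.Ioi i, max (av v (x j)) 1) *
                  ∏ i : Fin (D * D), ∏ j ∈ Finset.Ioi i, max (av v (x i)) 1 := by
              rw [← Finset.prod_mul_distrib]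
              refine Finset.prod_congr rfl fun i _ => ?_
              rw [← Finset.prod_mul_distrib]
            have h4 : (∏ i : Fin (D * D), ∏ j ∈ Finset.Ioi i, max (av v (x j)) 1) =
                ∏ j : Fin (D * D), ∏ i ∈ Finset.Iio j, max (av v (x j)) 1 := by
              apply Finset.prod_comm'
              intro i j
              simp
            rw [h3, h4, ← Finset.prod_mul_distrib]
            refine Finset.prod_congr rfl fun i _ => ?_
            rw [Finset.prod_const, Finset.prod_const, ← pow_add, Fin.card_Iio, Fin.card_Ioi]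
            congr 1
            have := i.isLt
            omega
  have hcm := cm_le (v := av v) hna (D := D) hPi hQi
  have hQ0 : ∀ a, 0 < av v (Q.eval (x a)) := fun a => (av v).pos (hx a)
  have hΔv : av v Δ ≤ ((nm v)⁻¹) ^ ((D * D) * (D * D - 1) / 2) *
      ∏ a, ((max (av v (x a)) 1) ^ (D - 1) * (max (av v (y a)) 1) ^ (D - 1)) := by
    have h1 : (∏ a, (av v (Q.eval (x a))) ^ (D - 1)) * av v Δ ≤
        ((nm v)⁻¹) ^ ((D * D) * (D * D - 1) / 2) * ∏ a, (max (av v (x a)) 1) ^ (D * D - 1) := by
      have h2 := congrArg (av v) hid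
      rw [map_mul, map_mul, map_prod] at h2
      simp only [map_pow] at h2
      rw [h2]
      calc _ ≤ (((nm v)⁻¹) ^ ((D * D) * (D * D - 1) / 2) *
          ∏ a, (max (av v (x a)) 1) ^ (D * D - 1)) * 1 :=
            mul_le_mul hV hcm (apply_nonneg _ _) (by positivity)
        _ = _ := mul_one _
    have h3 : ∀ a, (max (av v (x a)) 1) ^ (D * D - 1) ≤ (av v (Q.eval (x a))) ^ (D - 1) *
        ((max (av v (x a)) 1) ^ (D - 1) * (max (av v (y a)) 1) ^ (D - 1)) := by
      intro a
      have h4 : max (av v (P.eval (x a))) (av v (Q.eval (x a))) =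
          av v (Q.eval (x a)) * max (av v (y a)) 1 := by
        rw [mul_max_of_nonneg _ _ (hQ0 a).le, ← map_mul, mul_one, hy]
        congr 2
        field_simp [hx a]
      have h5 := hgood (x a)
      rw [h4] at h5
      have h6 : D * D - 1 = (D - 1) + D * (D - 1) := by
        obtain ⟨n, rfl⟩ : ∃ n, D = n + 1 := ⟨D - 1, by omega⟩
        simp only [Nat.add_sub_cancel]
        have : (n + 1) * (n + 1) = n + (n + 1) * n + 1 := by ring
        omega
      rw [h6, pow_add, pow_mul]
      calc (max (av v (x a)) 1) ^ (D - 1) * ((max (av v (x a)) 1) ^ D) ^ (D - 1)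
          ≤ (max (av v (x a)) 1) ^ (D - 1) *
            (av v (Q.eval (x a)) * max (av v (y a)) 1) ^ (D - 1) := by
            gcongr
        _ = _ := by rw [mul_pow]; ring
    have h7 : ∏ a, (max (av v (x a)) 1) ^ (D * D - 1) ≤ (∏ a, (av v (Q.eval (x a))) ^ (D - 1)) *
        ∏ a, ((max (av v (x a)) 1) ^ (D - 1) * (max (av v (y a)) 1) ^ (D - 1)) := by
      rw [← Finset.prod_mul_distrib]
      exact Finset.prod_le_prod (fun a _ => by positivity) fun a _ => h3 a
    have h8 : 0 < ∏ a, (av v (Q.eval (x a))) ^ (D - 1) :=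
      Finset.prod_pos fun a _ => pow_pos (hQ0 a) _
    have h9 : (∏ a, (av v (Q.eval (x a))) ^ (D - 1)) * av v Δ ≤
        (∏ a, (av v (Q.eval (x a))) ^ (D - 1)) * (((nm v)⁻¹) ^ ((D * D) * (D * D - 1) / 2) *
        ∏ a, ((max (av v (x a)) 1) ^ (D - 1) * (max (av v (y a)) 1) ^ (D - 1))) := by
      refine h1.trans ?_
      calc _ ≤ ((nm v)⁻¹) ^ ((D * D) * (D * D - 1) / 2) * ((∏ a, (av v (Q.eval (x a))) ^ (D - 1)) *
        ∏ a, ((max (av v (x a)) 1) ^ (D - 1) * (max (av v (y a)) 1) ^ (D - 1))) := by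
            gcongr
        _ = _ := by ring
    exact le_of_mul_le_mul_left h9 h8
  -- the global estimate
  have hgl := local_global (K := K) hΔ0 (ι := Fin (D * D) × Bool)
    (fun i => if i.2 then x i.1 else y i.1) (fun _ => D - 1)
    (c := ((D * D).factorial : ℝ)) (q := ((nm v)⁻¹) ^ ((D * D) * (D * D - 1) / 2))
    (by positivity) v
    (by
      intro w
      have h1 := ar_det_le w.1 (dm D x y)
        (fun a => (max (w.1 (x a)) 1) ^ (D - 1) * (max (w.1 (y a)) 1) ^ (D - 1))
        (fun a m => entry_le w.1 x y a m)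
      rw [Fintype.prod_prod_type]
      simp only [Fintype.prod_bool, if_true, Bool.false_eq_true, if_false]
      exact h1)
    (by
      intro w
      have h1 := na_det_le (v := w.1) (fun a b => FinitePlace.add_le w a b) (dm D x y)
        (fun a => (max (w.1 (x a)) 1) ^ (D - 1) * (max (w.1 (y a)) 1) ^ (D - 1))
        (fun a => by positivity) (fun a m => entry_le w.1 x y a m)
      rw [Fintype.prod_prod_type]
      simp only [Fintype.prod_bool, if_true, Bool.false_eq_true, if_false]
      exact h1)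
    (by
      rw [Fintype.prod_prod_type]
      simpa using hΔv)
  have h10 : ∏ i : Fin (D * D) × Bool, mulHeight₁ (if i.2 then x i.1 else y i.1) ^ (D - 1) ≤
      U ^ (2 * (D - 1) * (D * D)) := by
    calc _ ≤ ∏ i : Fin (D * D) × Bool, U ^ (D - 1) := by
          apply Finset.prod_le_prod
          · intro i _; exact pow_nonneg (mulHeight₁_nonneg _) _
          · intro i _
            apply pow_le_pow_left₀ (mulHeight₁_nonneg _)
            split_ifs
            · exact hxU _
            · exact hyU _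
      _ = _ := by
          rw [Finset.prod_const, ← pow_mul, Finset.card_univ, Fintype.card_prod, Fintype.card_fin,
            Fintype.card_bool]
          congr 1
          ring
  have h11 : (0 : ℝ) < nm v ^ ((D * D) * (D * D - 1) / 2) := by
    have : 0 < nm v := by linarith
    positivity
  have h12 : 1 ≤ ((D * D).factorial : ℝ) ^ (Module.finrank ℚ K) *
      ((nm v)⁻¹) ^ ((D * D) * (D * D - 1) / 2) * U ^ (2 * (D - 1) * (D * D)) :=
    hgl.trans (mul_le_mul_of_nonneg_left h10 (by
      have : 0 < nm v := by linarith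
      positivity))
  rw [inv_pow] at h12
  have h13 := mul_le_mul_of_nonneg_left h12 h11.le
  calc nm v ^ ((D * D) * (D * D - 1) / 2) = nm v ^ ((D * D) * (D * D - 1) / 2) * 1 :=
        (mul_one _).symm
    _ ≤ _ := h13
    _ = _ := by
      field_simp

end main

end Pool.Agent.K9h15.Det
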