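import Mathlib
import Pool.Agent.K9h15.Det

/-!
# The iterates of the duplication map of `y ^ 2 = x (x ^ 2 + a x + b)`
-/

set_option autoImplicit false

open IsDedekindDomain NumberField Height Polynomial

namespace Pool.Agent.K9h15.Iso

open Pool.Agent.K9h15.Pla Pool.Agent.K9h15.Det

section alg

variable {K : Type} [Field K]

/-- numerator and denominator of the duplication -/
noncomputable def pq (a b : K) : ℕ → K[X] × K[X]
  | 0 => (X, 1)
  | n + 1 => (((pq a b n).1 ^ 2 - C b * (pq a b n).2 ^ 2) ^ 2,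
      C 4 * ((pq a b n).1 * (pq a b n).2) *
        ((pq a b n).1 ^ 2 + C a * ((pq a b n).1 * (pq a b n).2) + C b * (pq a b n).2 ^ 2))

lemma pq_succ_fst (a b : K) (n : ℕ) :
    (pq a b (n + 1)).1 = ((pq a b n).1 ^ 2 - C b * (pq a b n).2 ^ 2) ^ 2 := rfl

lemma pq_succ_snd (a b : K) (n : ℕ) : (pq a b (n + 1)).2 =
    C 4 * ((pq a b n).1 * (pq a b n).2) *
        ((pq a b n).1 ^ 2 + C a * ((pq a b n).1 * (pq a b n).2) + C b * (pq a b n).2 ^ 2) := rfl

lemma half_coprime {P Q : K[X]} (h : IsCoprime P Q) (a : K) {b : K} (hb : b ≠ 0) :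
    IsCoprime (P ^ 2 + C a * (P * Q) + C b * Q ^ 2) (P * Q) := by
  have hbu : IsUnit (C b : K[X]) := isUnit_C.2 (isUnit_iff_ne_zero.2 hb)
  apply IsCoprime.mul_right
  · have h1 : P ^ 2 + C a * (P * Q) + C b * Q ^ 2 = C b * Q ^ 2 + (P + C a * Q) * P := by ring
    rw [h1]
    apply IsCoprime.add_mul_right_left
    have h2 : IsCoprime (Q ^ 2) P := (h.symm).pow_left
    exact (isCoprime_mul_unit_left_left hbu (Q ^ 2) P).2 h2
  · have h1 : P ^ 2 + C a * (P * Q) + C b * Q ^ 2 = P ^ 2 + (C a * P + C b * Q) * Q := by ring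
    rw [h1]
    apply IsCoprime.add_mul_right_left
    exact h.pow_left

lemma step_coprime [CharZero K] {P Q : K[X]} (h : IsCoprime P Q) {a b : K} (hb : b ≠ 0)
    (hd : a ^ 2 - 4 * b ≠ 0) :
    IsCoprime ((P ^ 2 - C b * Q ^ 2) ^ 2)
      (C 4 * (P * Q) * (P ^ 2 + C a * (P * Q) + C b * Q ^ 2)) := by
  have h1 := half_coprime h a hb
  have h2 := half_coprime h1 (-(2 * a)) hd
  have h4 : IsUnit (C 4 : K[X]) := isUnit_C.2 (isUnit_iff_ne_zero.2 (by norm_num))
  have h5 : (P ^ 2 + C a * (P * Q) + C b * Q ^ 2) ^ 2 +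
      C (-(2 * a)) * ((P ^ 2 + C a * (P * Q) + C b * Q ^ 2) * (P * Q)) +
      C (a ^ 2 - 4 * b) * (P * Q) ^ 2 = (P ^ 2 - C b * Q ^ 2) ^ 2 := by
    simp only [map_neg, map_mul, map_sub, map_pow, map_ofNat]
    ring
  rw [h5] at h2
  have h6 : C 4 * (P * Q) * (P ^ 2 + C a * (P * Q) + C b * Q ^ 2) =
      C 4 * ((P ^ 2 + C a * (P * Q) + C b * Q ^ 2) * (P * Q)) := by ring
  rw [h6]
  exact (isCoprime_mul_unit_left_right h4 _ _).2 h2

lemma pq_coprime [CharZero K] {a b : K} (hb : b ≠ 0) (hd : a ^ 2 - 4 * b ≠ 0) (n : ℕ) :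
    IsCoprime (pq a b n).1 (pq a b n).2 := by
  induction n with
  | zero => exact isCoprime_one_right
  | succ n ih => exact step_coprime ih hb hd

lemma pq_degree (a b : K) (n : ℕ) : (pq a b n).1.Monic ∧ (pq a b n).1.natDegree = 4 ^ n ∧
    (pq a b n).2.natDegree < 4 ^ n := by
  induction n with
  | zero => exact ⟨monic_X, natDegree_X, by simp [pq]⟩
  | succ n ih =>
    obtain ⟨h1, h2, h3⟩ := ih
    set P := (pq a b n).1 with hP
    set Q := (pq a b n).2 with hQ
    have hPQ : (P ^ 2).natDegree = 2 * 4 ^ n := by rw [natDegree_pow, h2]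
    have hQ2 : (C b * Q ^ 2).natDegree < 2 * 4 ^ n := by
      refine (natDegree_C_mul_le _ _).trans_lt ?_
      refine natDegree_pow_le.trans_lt ?_
      omega
    have hPQ2 : (C a * (P * Q)).natDegree < 2 * 4 ^ n := by
      refine (natDegree_C_mul_le _ _).trans_lt ?_
      refine natDegree_mul_le.trans_lt ?_
      omega
    have hm : (P ^ 2).Monic := h1.pow 2
    have hm1 : (P ^ 2 - C b * Q ^ 2).Monic :=
      hm.sub_of_left (degree_lt_degree (by rw [hPQ]; exact hQ2))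
    have hd1 : (P ^ 2 - C b * Q ^ 2).natDegree = 2 * 4 ^ n := by
      rw [natDegree_sub_eq_left_of_natDegree_lt (by rw [hPQ]; exact hQ2), hPQ]
    refine ⟨hm1.pow 2, ?_, ?_⟩
    · rw [pq_succ_fst, natDegree_pow, hd1, pow_succ]
      ring
    · rw [pq_succ_snd]
      have h4 : (P ^ 2 + C a * (P * Q) + C b * Q ^ 2).natDegree ≤ 2 * 4 ^ n := by
        refine (natDegree_add_le _ _).trans (max_le ((natDegree_add_le _ _).trans (max_le ?_ ?_)) ?_)
        · exact hPQ.le
        · exact hPQ2.le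
        · exact hQ2.le
      refine natDegree_mul_le.trans_lt ?_
      have h5 : (C 4 * (P * Q)).natDegree < 2 * 4 ^ n := by
        refine (natDegree_C_mul_le _ _).trans_lt ?_
        refine natDegree_mul_le.trans_lt ?_
        omega
      have h6 : 4 ^ (n + 1) = 4 * 4 ^ n := by ring
      rw [h6]
      change (C 4 * (P * Q)).natDegree + (P ^ 2 + C a * (P * Q) + C b * Q ^ 2).natDegree < _
      omega

/-- one half of the duplication at a place of good reduction -/
lemma half_good {v : AbsoluteValue K ℝ} (hv : IsNonarchimedean v) {a b : K} (ha : v a ≤ 1)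
    (hb : v b = 1) (p q : K) :
    (max (v p) (v q)) ^ 2 ≤ max (v (p ^ 2 + a * (p * q) + b * q ^ 2)) (v (p * q)) := by
  have hmax : ∀ x y : K, v y < v x → v x ≤ v (x + y) := by
    intro x y hxy
    have h1 : v x ≤ max (v (x + y)) (v y) := by
      have h2 := hv (x + y) (-y)
      rw [add_neg_cancel_right, v.map_neg] at h2
      exact h2
    rcases le_max_iff.1 h1 with h | h
    · exact h
    · exact absurd hxy (not_lt.2 h)
  have hp0 := apply_nonneg v p
  have hq0 := apply_nonneg v q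
  rcases lt_trichotomy (v p) (v q) with h | h | h
  · rw [max_eq_right h.le]
    refine le_trans ?_ (le_max_left _ _)
    have h1 : p ^ 2 + a * (p * q) + b * q ^ 2 = b * q ^ 2 + (p ^ 2 + a * (p * q)) := by ring
    have h2 : v (b * q ^ 2) = v q ^ 2 := by rw [map_mul, hb, one_mul, map_pow]
    rw [h1, ← h2]
    apply hmax
    rw [h2]
    refine lt_of_le_of_lt (hv _ _) (max_lt ?_ ?_)
    · rw [map_pow]; exact pow_lt_pow_left₀ h hp0 (by norm_num)
    · rw [map_mul, map_mul]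
      calc v a * (v p * v q) ≤ 1 * (v p * v q) := by gcongr
        _ < v q ^ 2 := by nlinarith
  · rw [h, max_self]
    refine le_trans ?_ (le_max_right _ _)
    rw [map_mul, h, sq]
  · rw [max_eq_left h.le]
    refine le_trans ?_ (le_max_left _ _)
    have h1 : p ^ 2 + a * (p * q) + b * q ^ 2 = p ^ 2 + (a * (p * q) + b * q ^ 2) := by ring
    have h2 : v (p ^ 2) = v p ^ 2 := by rw [map_pow]
    rw [h1, ← h2]
    apply hmax
    rw [h2]
    refine lt_of_le_of_lt (hv _ _) (max_lt ?_ ?_)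
    · rw [map_mul, map_mul]
      calc v a * (v p * v q) ≤ 1 * (v p * v q) := by gcongr
        _ < v p ^ 2 := by nlinarith
    · rw [map_mul, hb, one_mul, map_pow]
      exact pow_lt_pow_left₀ h hq0 (by norm_num)

lemma step_good {v : AbsoluteValue K ℝ} (hv : IsNonarchimedean v) {a b : K} (ha : v a ≤ 1)
    (hb : v b = 1) (hd : v (a ^ 2 - 4 * b) = 1) (h2 : v (2 : K) = 1) (p q : K) :
    (max (v p) (v q)) ^ 4 ≤ max (v ((p ^ 2 - b * q ^ 2) ^ 2))
      (v (4 * (p * q) * (p ^ 2 + a * (p * q) + b * q ^ 2))) := by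
  have h1 := half_good hv ha hb p q
  have h3 : v (-(2 * a)) ≤ 1 := by rw [v.map_neg, map_mul, h2, one_mul]; exact ha
  have h4 := half_good hv h3 hd (p ^ 2 + a * (p * q) + b * q ^ 2) (p * q)
  have h5 : (p ^ 2 + a * (p * q) + b * q ^ 2) ^ 2 +
      -(2 * a) * ((p ^ 2 + a * (p * q) + b * q ^ 2) * (p * q)) +
      (a ^ 2 - 4 * b) * (p * q) ^ 2 = (p ^ 2 - b * q ^ 2) ^ 2 := by ring
  rw [h5] at h4
  have h6 : v (4 * (p * q) * (p ^ 2 + a * (p * q) + b * q ^ 2)) =
      v ((p ^ 2 + a * (p * q) + b * q ^ 2) * (p * q)) := by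
    have h7 : (4 : K) * (p * q) * (p ^ 2 + a * (p * q) + b * q ^ 2) =
      2 * (2 * ((p ^ 2 + a * (p * q) + b * q ^ 2) * (p * q))) := by ring
    rw [h7, map_mul, map_mul v 2, h2, one_mul, one_mul]
  rw [h6]
  calc (max (v p) (v q)) ^ 4 = ((max (v p) (v q)) ^ 2) ^ 2 := by ring
    _ ≤ (max (v (p ^ 2 + a * (p * q) + b * q ^ 2)) (v (p * q))) ^ 2 :=
      pow_le_pow_left₀ (by positivity) h1 _
    _ ≤ _ := h4

lemma pq_good {v : AbsoluteValue K ℝ} (hv : IsNonarchimedean v) {a b : K} (ha : v a ≤ 1)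
    (hb : v b = 1) (hd : v (a ^ 2 - 4 * b) = 1) (h2 : v (2 : K) = 1) (n : ℕ) (x : K) :
    (max (v x) 1) ^ (4 ^ n) ≤ max (v ((pq a b n).1.eval x)) (v ((pq a b n).2.eval x)) := by
  induction n with
  | zero => simp [pq]
  | succ n ih =>
    rw [pq_succ_fst, pq_succ_snd]
    simp only [eval_pow, eval_sub, eval_mul, eval_add, eval_C]
    refine le_trans ?_ (step_good hv ha hb hd h2 _ _)
    rw [pow_succ, pow_mul]
    exact pow_le_pow_left₀ (by positivity) ih _

lemma intg_add {v : AbsoluteValue K ℝ} (hv : IsNonarchimedean v) {P Q : K[X]} (hP : Intg v P)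
    (hQ : Intg v Q) : Intg v (P + Q) := by
  intro l
  rw [coeff_add]
  exact (hv _ _).trans (max_le (hP l) (hQ l))

lemma intg_neg {v : AbsoluteValue K ℝ} {P : K[X]} (hP : Intg v P) : Intg v (-P) := by
  intro l
  rw [coeff_neg, v.map_neg]
  exact hP l

lemma intg_C {v : AbsoluteValue K ℝ} {c : K} (hc : v c ≤ 1) : Intg v (C c) := by
  intro l
  rw [coeff_C]
  split_ifs
  · exact hc
  · simp

lemma pq_intg {v : AbsoluteValue K ℝ} (hv : IsNonarchimedean v) {a b : K} (ha : v a ≤ 1)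
    (hb : v b ≤ 1) (n : ℕ) : Intg v (pq a b n).1 ∧ Intg v (pq a b n).2 := by
  induction n with
  | zero =>
    refine ⟨?_, ?_⟩
    · have := Intg.X_pow (v := v) 1
      rwa [pow_one] at this
    · intro l
      change v ((1 : K[X]).coeff l) ≤ 1
      rw [coeff_one]
      split_ifs <;> simp
  | succ n ih =>
    obtain ⟨h1, h2⟩ := ih
    have h4 : v (4 : K) ≤ 1 := by
      have := hv.apply_natCast_le_one (n := 4)
      simpa using this
    rw [pq_succ_fst, pq_succ_snd]
    refine ⟨?_, ?_⟩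
    · apply Intg.pow hv
      rw [sub_eq_add_neg]
      exact intg_add hv (h1.pow hv 2) (intg_neg ((intg_C hb).mul hv (h2.pow hv 2)))
    · exact ((intg_C h4).mul hv (h1.mul hv h2)).mul hv
        (intg_add hv (intg_add hv (h1.pow hv 2) ((intg_C ha).mul hv (h1.mul hv h2)))
          ((intg_C hb).mul hv (h2.pow hv 2)))

/-- the duplication in coordinates -/
def dup (a b x : K) : K := (x ^ 2 - b) ^ 2 / (4 * x * (x ^ 2 + a * x + b))

lemma pq_eval [CharZero K] {a b : K} (n : ℕ) (x : ℕ → K)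
    (h0 : ∀ i < n, x i * (x i ^ 2 + a * x i + b) ≠ 0) (h1 : ∀ i < n, x (i + 1) = dup a b (x i)) :
    (pq a b n).2.eval (x 0) ≠ 0 ∧ (pq a b n).1.eval (x 0) / (pq a b n).2.eval (x 0) = x n := by
  induction n with
  | zero => simp [pq]
  | succ n ih =>
    obtain ⟨h2, h3⟩ := ih (fun i hi => h0 i (by omega)) (fun i hi => h1 i (by omega))
    rw [pq_succ_fst, pq_succ_snd]
    simp only [eval_pow, eval_sub, eval_mul, eval_add, eval_C]
    set p := (pq a b n).1.eval (x 0) with hp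
    set q := (pq a b n).2.eval (x 0) with hq
    have hpx : p = x n * q := by rw [← h3]; field_simp
    have h4 := h0 n (by omega)
    have h5 : 4 * (p * q) * (p ^ 2 + a * (p * q) + b * q ^ 2) =
        4 * q ^ 4 * (x n * (x n ^ 2 + a * x n + b)) := by rw [hpx]; ring
    have h6 : (4 : K) * q ^ 4 * (x n * (x n ^ 2 + a * x n + b)) ≠ 0 :=
      mul_ne_zero (mul_ne_zero (by norm_num) (pow_ne_zero _ h2)) h4
    refine ⟨by rw [h5]; exact h6, ?_⟩
    rw [h1 n (by omega), dup, h5, hpx]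
    have h7 : (4 : K) * x n * (x n ^ 2 + a * x n + b) ≠ 0 := by
      rw [mul_assoc]; exact mul_ne_zero (by norm_num) h4
    rw [div_eq_div_iff h6 h7]
    ring

end alg

section ht

variable {K : Type} [Field K] [NumberField K]

/-- the height of the sum of the roots of a quadratic polynomial -/
lemma sum_root_height (K : Type) [Field K] [NumberField K] : ∃ C : ℝ, 1 ≤ C ∧
    ∀ (a b x : K), b ≠ 0 → x ≠ 0 →
      mulHeight₁ x ^ 2 ≤ C * mulHeight₁ a * mulHeight₁ b ^ 2 * mulHeight₁ (x + a + b / x) := by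
  obtain ⟨c, hc, h⟩ := mulHeight_sym2_ge K
  refine ⟨max 1 (2 ^ totalWeight K * c⁻¹), le_max_left _ _, ?_⟩
  intro a b x hb hx
  have h1 := @h x 1 (b / x) 1 (by
    intro h0
    exact one_ne_zero (congrFun h0 1)) (by
    intro h0
    exact one_ne_zero (congrFun h0 1))
  rw [← mulHeight₁_eq_mulHeight, ← mulHeight₁_eq_mulHeight] at h1
  have h2 : mulHeight ![x * (b / x), x * 1 + 1 * (b / x), 1 * 1] ≤
      mulHeight₁ b * mulHeight₁ (x + b / x) := by
    have e1 : x * (b / x) = b := by field_simp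
    rw [e1, mul_one, one_mul, mul_one]
    have h3 := mulHeight_mul_mulHeight (K := K) (a := b) (b := 1) (c := x + b / x) (d := 1) (by
      intro h0
      exact one_ne_zero (congrFun h0 1)) (by
      intro h0
      exact one_ne_zero (congrFun h0 1))
    rw [mulHeight₁_eq_mulHeight, mulHeight₁_eq_mulHeight, h3]
    have h4 := mulHeight_comp_le (K := K) ![1, 2, 3]
      ![b * (x + b / x), b * 1, 1 * (x + b / x), 1 * 1]
    refine le_trans (le_of_eq ?_) h4
    congr 1
    funext i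
    fin_cases i <;> simp
  have h5 : mulHeight₁ (x + b / x) ≤ 2 ^ totalWeight K * mulHeight₁ (x + a + b / x) *
      mulHeight₁ a := by
    have e2 : x + b / x = (x + a + b / x) - a := by ring
    conv_lhs => rw [e2]
    exact mulHeight₁_sub_le _ _
  have h6 : mulHeight₁ x ≤ mulHeight₁ b * mulHeight₁ (b / x) := by
    have e3 : x = b * (b / x)⁻¹ := by field_simp
    conv_lhs => rw [e3]
    refine (mulHeight₁_mul_le _ _).trans ?_
    rw [mulHeight₁_inv]
  have hxp := mulHeight₁_pos x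
  have hbp := mulHeight₁_pos b
  have hap := mulHeight₁_pos a
  have hbx := mulHeight₁_pos (b / x)
  have hs := mulHeight₁_pos (x + a + b / x)
  have h7 : mulHeight₁ x * mulHeight₁ (b / x) ≤ c⁻¹ * (mulHeight₁ b *
      (2 ^ totalWeight K * mulHeight₁ (x + a + b / x) * mulHeight₁ a)) := by
    have h8 : c * (mulHeight₁ x * mulHeight₁ (b / x)) ≤ mulHeight₁ b *
      (2 ^ totalWeight K * mulHeight₁ (x + a + b / x) * mulHeight₁ a) := by
      calc c * (mulHeight₁ x * mulHeight₁ (b / x)) = c * mulHeight₁ x * mulHeight₁ (b / x) := by ring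
        _ ≤ _ := h1
        _ ≤ _ := h2
        _ ≤ _ := by gcongr
    calc mulHeight₁ x * mulHeight₁ (b / x) = c⁻¹ * (c * (mulHeight₁ x * mulHeight₁ (b / x))) := by
          field_simp
      _ ≤ _ := by gcongr
  calc mulHeight₁ x ^ 2 = mulHeight₁ x * mulHeight₁ x := by ring
    _ ≤ mulHeight₁ x * (mulHeight₁ b * mulHeight₁ (b / x)) := by gcongr
    _ = mulHeight₁ b * (mulHeight₁ x * mulHeight₁ (b / x)) := by ring
    _ ≤ mulHeight₁ b * (c⁻¹ * (mulHeight₁ b *
      (2 ^ totalWeight K * mulHeight₁ (x + a + b / x) * mulHeight₁ a))) := by gcongr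
    _ = (2 ^ totalWeight K * c⁻¹) * mulHeight₁ a * mulHeight₁ b ^ 2 *
      mulHeight₁ (x + a + b / x) := by ring
    _ ≤ _ := by
      gcongr
      exact le_max_right _ _

/-- lower bound for the height of the duplication -/
lemma dup_height (K : Type) [Field K] [NumberField K] : ∃ C : ℝ, 1 ≤ C ∧
    ∀ (V : ℝ) (a b x : K), b ≠ 0 → a ^ 2 - 4 * b ≠ 0 → x * (x ^ 2 + a * x + b) ≠ 0 →
      mulHeight₁ a ≤ V → mulHeight₁ b ≤ V →
      mulHeight₁ x ^ 4 ≤ C * V ^ 13 * mulHeight₁ (dup a b x) := by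
  obtain ⟨c, hc, h⟩ := sum_root_height K
  set w : ℝ := 2 ^ totalWeight K with hw
  have hw1 : 1 ≤ w := one_le_pow₀ (by norm_num)
  set h2 : ℝ := mulHeight₁ (2 : K) with hh2
  set h4 : ℝ := mulHeight₁ (4 : K) with hh4
  have hh2' : 1 ≤ h2 := one_le_mulHeight₁ _
  have hh4' : 1 ≤ h4 := one_le_mulHeight₁ _
  refine ⟨c ^ 2 * (c * h2 * (w * h4) ^ 2 * h4), ?_, ?_⟩
  · have e1 : 1 ≤ c ^ 2 := one_le_pow₀ hc
    have e2 : 1 ≤ (w * h4) ^ 2 := one_le_pow₀ (one_le_mul_of_one_le_of_one_le hw1 hh4')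
    exact one_le_mul_of_one_le_of_one_le e1 (one_le_mul_of_one_le_of_one_le
      (one_le_mul_of_one_le_of_one_le (one_le_mul_of_one_le_of_one_le hc hh2') e2) hh4')
  intro V a b x hb hd hx ha hbV
  have hV : 1 ≤ V := (one_le_mulHeight₁ a).trans ha
  have hx0 : x ≠ 0 := left_ne_zero_of_mul hx
  have hq0 : x ^ 2 + a * x + b ≠ 0 := right_ne_zero_of_mul hx
  have hθ : x + a + b / x = (x ^ 2 + a * x + b) / x := by field_simp
  have hθ0 : x + a + b / x ≠ 0 := by rw [hθ]; exact div_ne_zero hq0 hx0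
  have k1 := h a b x hb hx0
  have k2 := h (-(2 * a)) (a ^ 2 - 4 * b) (x + a + b / x) hd hθ0
  have e3 : x + a + b / x + -(2 * a) + (a ^ 2 - 4 * b) / (x + a + b / x) = 4 * dup a b x := by
    rw [hθ, dup]
    obtain ⟨q, hq⟩ : ∃ q, q = x ^ 2 + a * x + b := ⟨_, rfl⟩
    have hb' : b = q - x ^ 2 - a * x := by rw [hq]; ring
    rw [← hq] at hq0 ⊢
    rw [hb']
    field_simp
    ring
  rw [e3] at k2
  have hap := mulHeight₁_pos a
  have hbp := mulHeight₁_pos b
  have hdp := mulHeight₁_pos (dup a b x)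
  have k3 : mulHeight₁ (-(2 * a)) ≤ h2 * V := by
    rw [mulHeight₁_neg]
    refine (mulHeight₁_mul_le _ _).trans ?_
    gcongr
  have k4 : mulHeight₁ (a ^ 2 - 4 * b) ≤ (w * h4) * V ^ 3 := by
    refine (mulHeight₁_sub_le _ _).trans ?_
    rw [← hw, mulHeight₁_pow]
    calc w * mulHeight₁ a ^ 2 * mulHeight₁ (4 * b)
        ≤ w * V ^ 2 * (h4 * V) := by
          have := mulHeight₁_mul_le (4 : K) b
          have h5 : mulHeight₁ (4 * b) ≤ h4 * V := this.trans (by gcongr)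
          gcongr
      _ = _ := by ring
  have k5 : mulHeight₁ (4 * dup a b x) ≤ h4 * mulHeight₁ (dup a b x) := mulHeight₁_mul_le _ _
  have hθp := mulHeight₁_pos (x + a + b / x)
  have k6 : mulHeight₁ (x + a + b / x) ^ 2 ≤
      (c * h2 * (w * h4) ^ 2 * h4) * V ^ 7 * mulHeight₁ (dup a b x) := by
    refine k2.trans ?_
    calc c * mulHeight₁ (-(2 * a)) * mulHeight₁ (a ^ 2 - 4 * b) ^ 2 * mulHeight₁ (4 * dup a b x)
        ≤ c * (h2 * V) * ((w * h4) * V ^ 3) ^ 2 * (h4 * mulHeight₁ (dup a b x)) := by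
          gcongr
      _ = _ := by ring
  calc mulHeight₁ x ^ 4 = (mulHeight₁ x ^ 2) ^ 2 := by ring
    _ ≤ (c * mulHeight₁ a * mulHeight₁ b ^ 2 * mulHeight₁ (x + a + b / x)) ^ 2 := by
        gcongr
    _ ≤ (c * V * V ^ 2 * mulHeight₁ (x + a + b / x)) ^ 2 := by gcongr
    _ = c ^ 2 * V ^ 6 * mulHeight₁ (x + a + b / x) ^ 2 := by ring
    _ ≤ c ^ 2 * V ^ 6 * ((c * h2 * (w * h4) ^ 2 * h4) * V ^ 7 * mulHeight₁ (dup a b x)) := by
        gcongr
    _ = _ := by ring

end ht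

end Pool.Agent.K9h15.Iso
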