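import Mathlib
import Pool.Agent.K9h15.Iso

/-!
# Two-descent on `y ^ 2 = x (x ^ 2 + a x + b)`
-/

set_option autoImplicit false

open WeierstrassCurve

namespace Pool.Agent.K9h15.Ell

variable {K : Type} [Field K]

/-- The curve `y ^ 2 = x (x ^ 2 + a x + b)`. -/
def W (a b : K) : WeierstrassCurve K := { a₁ := 0, a₂ := a, a₃ := 0, a₄ := b, a₆ := 0 }

lemma W_Δ (a b : K) : (W a b).Δ = 16 * (b ^ 2 * (a ^ 2 - 4 * b)) := by
  simp only [WeierstrassCurve.Δ, WeierstrassCurve.b₂, WeierstrassCurve.b₄, WeierstrassCurve.b₆,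
    WeierstrassCurve.b₈, W]
  ring

lemma W_ell [CharZero K] {a b : K} (hb : b ≠ 0) (hd : a ^ 2 - 4 * b ≠ 0) : (W a b).IsElliptic := by
  refine ⟨?_⟩
  rw [W_Δ, isUnit_iff_ne_zero]
  exact mul_ne_zero (by norm_num) (mul_ne_zero (pow_ne_zero _ hb) hd)

/-- The affine points. -/
abbrev Pt (a b : K) : Type := (W a b).toAffine.Point

lemma W_eqn {a b x y : K} :
    (W a b).toAffine.Equation x y ↔ y ^ 2 = x * (x ^ 2 + a * x + b) := by
  rw [WeierstrassCurve.Affine.equation_iff]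
  simp only [W]
  constructor <;> intro h <;> linear_combination h

lemma W_nonsing [CharZero K] {a b x y : K} (hb : b ≠ 0) (hd : a ^ 2 - 4 * b ≠ 0)
    (h : y ^ 2 = x * (x ^ 2 + a * x + b)) : (W a b).toAffine.Nonsingular x y := by
  have := W_ell hb hd
  exact WeierstrassCurve.Affine.equation_iff_nonsingular.mp (W_eqn.mpr h)

section dec

variable [DecidableEq K]

lemma neg_mk {a b x y : K} (h : (W a b).toAffine.Nonsingular x y)
    (h' : (W a b).toAffine.Nonsingular x (-y)) :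
    -(Affine.Point.some x y h) = (Affine.Point.some x (-y) h') := by
  rw [Affine.Point.neg_some]
  congr 1
  simp [Affine.negY, W]

lemma nonsing_neg {a b x y : K} (h : (W a b).toAffine.Nonsingular x y) :
    (W a b).toAffine.Nonsingular x (-y) := by
  have h1 := (Affine.nonsingular_neg (W' := (W a b).toAffine) x y).2 h
  simpa [Affine.negY, W] using h1

/-- addition of points with different `x` -/
lemma add_ne {a b x1 y1 x2 y2 : K} (h1 : (W a b).toAffine.Nonsingular x1 y1)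
    (h2 : (W a b).toAffine.Nonsingular x2 y2) (hx : x1 ≠ x2) :
    ∃ (x3 y3 : K) (h3 : (W a b).toAffine.Nonsingular x3 y3),
      Affine.Point.some x1 y1 h1 + Affine.Point.some x2 y2 h2 = Affine.Point.some x3 y3 h3 ∧
      x3 = ((y1 - y2) / (x1 - x2)) ^ 2 - a - x1 - x2 ∧
      y3 = -((y1 - y2) / (x1 - x2) * (x3 - x1) + y1) := by
  rw [Affine.Point.add_of_X_ne hx]
  refine ⟨_, _, _, rfl, ?_, ?_⟩
  · rw [Affine.slope_of_X_ne hx, Affine.addX]
    simp only [W]
    ring
  · rw [Affine.slope_of_X_ne hx, Affine.addY, Affine.negY, Affine.negAddY]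
    simp only [W]
    ring

/-- duplication -/
lemma add_self [CharZero K] {a b x y : K} (h : (W a b).toAffine.Nonsingular x y) (hy : y ≠ 0) :
    ∃ (x3 y3 : K) (h3 : (W a b).toAffine.Nonsingular x3 y3),
      Affine.Point.some x y h + Affine.Point.some x y h = Affine.Point.some x3 y3 h3 ∧
      x3 = ((3 * x ^ 2 + 2 * a * x + b) / (2 * y)) ^ 2 - a - x - x ∧
      y3 = -((3 * x ^ 2 + 2 * a * x + b) / (2 * y) * (x3 - x) + y) := by
  have hy' : y ≠ (W a b).toAffine.negY x y := by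
    simp only [Affine.negY, W]
    intro hh
    apply hy
    have h2 : (2 : K) * y = 0 := by linear_combination hh
    rcases mul_eq_zero.mp h2 with h3 | h3
    · norm_num at h3
    · exact h3
  have hsl : (W a b).toAffine.slope x x y y = (3 * x ^ 2 + 2 * a * x + b) / (2 * y) := by
    rw [Affine.slope_of_Y_ne rfl hy']
    simp only [W, Affine.negY]
    congr 1
    · ring
    · ring
  rw [Affine.Point.add_self_of_Y_ne hy']
  refine ⟨_, _, _, rfl, ?_, ?_⟩
  · rw [hsl, Affine.addX]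
    simp only [W]
    ring
  · rw [hsl, Affine.addY, Affine.negY, Affine.negAddY]
    simp only [W]
    ring

/-- the sum is zero only for opposite points -/
lemma add_cases [CharZero K] {a b x1 y1 x2 y2 : K} (h1 : (W a b).toAffine.Nonsingular x1 y1)
    (h2 : (W a b).toAffine.Nonsingular x2 y2) :
    x1 ≠ x2 ∨ (x1 = x2 ∧ y1 = y2 ∧ y1 ≠ 0) ∨
      Affine.Point.some x1 y1 h1 + Affine.Point.some x2 y2 h2 = 0 := by
  by_cases hx : x1 = x2
  · right
    subst hx
    have e1 := W_eqn.1 h1.1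
    have e2 := W_eqn.1 h2.1
    have h3 : (y1 - y2) * (y1 + y2) = 0 := by linear_combination e1 - e2
    rcases mul_eq_zero.1 h3 with h | h
    · have hy : y1 = y2 := by linear_combination h
      by_cases h0 : y1 = 0
      · right
        apply Affine.Point.add_of_Y_eq rfl
        simp only [Affine.negY, W]
        rw [← hy, h0]; ring
      · exact Or.inl ⟨rfl, hy, h0⟩
    · right
      apply Affine.Point.add_of_Y_eq rfl
      simp only [Affine.negY, W]
      linear_combination h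
  · exact Or.inl hx

/-- **The line through two points.** -/
theorem add_line [CharZero K] {a b x1 y1 x2 y2 : K} (h1 : (W a b).toAffine.Nonsingular x1 y1)
    (h2 : (W a b).toAffine.Nonsingular x2 y2) :
    Affine.Point.some x1 y1 h1 + Affine.Point.some x2 y2 h2 = 0 ∨
    ∃ (x3 y3 : K) (h3 : (W a b).toAffine.Nonsingular x3 y3) (l n : K),
      Affine.Point.some x1 y1 h1 + Affine.Point.some x2 y2 h2 = Affine.Point.some x3 y3 h3 ∧
      y1 = l * x1 + n ∧ y2 = l * x2 + n ∧ -y3 = l * x3 + n ∧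
      x1 + x2 + x3 = l ^ 2 - a ∧ x1 * x2 + x1 * x3 + x2 * x3 = b - 2 * l * n ∧
      x1 * x2 * x3 = n ^ 2 := by
  have e1 := W_eqn.1 h1.1
  have e2 := W_eqn.1 h2.1
  rcases add_cases h1 h2 with hx | ⟨hx, hy, hy0⟩ | h0
  · right
    obtain ⟨x3, y3, h3, hs, hx3, hy3⟩ := add_ne h1 h2 hx
    have hx' : x1 - x2 ≠ 0 := sub_ne_zero.mpr hx
    set l := (y1 - y2) / (x1 - x2) with hl
    have hl1 : y1 - y2 = l * (x1 - x2) := by rw [hl]; field_simp
    set n := y1 - l * x1 with hn
    have k1 : y1 = l * x1 + n := by rw [hn]; ring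
    have k2 : y2 = l * x2 + n := by rw [hn]; linear_combination -hl1
    have hc : ((b - 2 * l * n) - (x1 * x2 + x1 * x3 + x2 * x3)) = 0 := by
      have : (x1 - x2) * ((b - 2 * l * n) - (x1 * x2 + x1 * x3 + x2 * x3)) = 0 := by
        rw [k1] at e1
        rw [k2] at e2
        rw [hx3]
        linear_combination e2 - e1
      exact (mul_eq_zero.1 this).resolve_left hx'
    refine ⟨x3, y3, h3, l, n, hs, k1, k2, ?_, ?_, ?_, ?_⟩
    · rw [hy3, hn]; ring
    · rw [hx3]; ring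
    · linear_combination -hc
    · rw [k1] at e1
      have hc' : x1 * ((b - 2 * l * n) - (x1 * x2 + x1 * x3 + x2 * x3)) = 0 := by rw [hc, mul_zero]
      rw [hx3] at hc' ⊢
      linear_combination -e1 - hc'
  · right
    subst hx
    subst hy
    obtain ⟨x3, y3, h3, hs, hx3, hy3⟩ := add_self h1 hy0
    set l := (3 * x1 ^ 2 + 2 * a * x1 + b) / (2 * y1) with hl
    have hl1 : 3 * x1 ^ 2 + 2 * a * x1 + b = l * (2 * y1) := by
      rw [hl]
      field_simp
    set n := y1 - l * x1 with hn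
    have k1 : y1 = l * x1 + n := by rw [hn]; ring
    have hc : ((b - 2 * l * n) - (x1 * x1 + x1 * x3 + x1 * x3)) = 0 := by
      rw [hx3, hn]
      linear_combination hl1
    refine ⟨x3, y3, h3, l, n, hs, k1, k1, ?_, ?_, ?_, ?_⟩
    · rw [hy3, hn]; ring
    · rw [hx3]; ring
    · linear_combination -hc
    · rw [k1] at e1
      have hc' : x1 * ((b - 2 * l * n) - (x1 * x1 + x1 * x3 + x1 * x3)) = 0 := by rw [hc, mul_zero]
      rw [hx3] at hc' ⊢
      linear_combination -e1 - hc'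
  · exact Or.inl h0

/-- the second coordinate of the descent -/
def uu (a s y : K) : K := (s ^ 2 + a / 2 + y / s) / 2

lemma uu_neg (a s y : K) : uu a (-s) (-y) = uu a s y := by
  unfold uu
  rw [neg_div_neg_eq]
  ring

/-- the two values of the second coordinate -/
lemma uu_mul [CharZero K] {a b s y : K} (hs : s ≠ 0)
    (h : y ^ 2 = s ^ 2 * ((s ^ 2) ^ 2 + a * s ^ 2 + b)) :
    uu a s y * uu a (-s) y = (a ^ 2 - 4 * b) / 16 := by
  unfold uu
  have h2 : (y / s) ^ 2 = (s ^ 2) ^ 2 + a * s ^ 2 + b := by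
    rw [div_pow, h]; field_simp
  rw [div_neg, neg_sq]
  linear_combination (-1 / 4 : K) * h2

lemma uu_eqn [CharZero K] {a b s y : K} (hs : s ≠ 0)
    (h : y ^ 2 = s ^ 2 * ((s ^ 2) ^ 2 + a * s ^ 2 + b)) :
    (s * uu a s y) ^ 2 =
      uu a s y * ((uu a s y) ^ 2 + (-(a / 2)) * uu a s y + (a ^ 2 - 4 * b) / 16) := by
  rw [← uu_mul hs h]
  have h3 : uu a s y + uu a (-s) y = s ^ 2 + a / 2 := by
    unfold uu
    rw [div_neg, neg_sq]
    ring
  linear_combination (-(uu a s y) ^ 2) * h3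

/-- **Halving.** -/
theorem halve [CharZero K] {a b s y t : K} (hb : b ≠ 0) (hd : a ^ 2 - 4 * b ≠ 0) (hs : s ≠ 0)
    (h : (W a b).toAffine.Nonsingular (s ^ 2) y) (ht : uu a s y = t ^ 2) :
    ∃ Q : Pt a b, Affine.Point.some (s ^ 2) y h = Q + Q := by
  have e := W_eqn.1 h.1
  have ht0 : t ≠ 0 := by
    rintro rfl
    have h1 := uu_mul hs e
    rw [ht] at h1
    apply hd
    linear_combination (-16 : K) * h1
  set z := 2 * s ^ 2 + 2 * (y / s) with hz
  have hza : z + a = 4 * t ^ 2 := by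
    rw [hz, ← ht]
    unfold uu
    ring
  have hys : (y / s) ^ 2 = (s ^ 2) ^ 2 + a * s ^ 2 + b := by
    rw [div_pow, e]; field_simp
  have hzb : z ^ 2 - 4 * b = 4 * s ^ 2 * (z + a) := by
    rw [hz]
    linear_combination (4 : K) * hys
  set q := s ^ 2 + y / s + 2 * s * t with hq
  have hq2 : 2 * q = z + 4 * (s * t) := by rw [hq, hz]; ring
  have hqz : q ^ 2 - z * q + b = 0 := by
    have h4 : (4 : K) * (q ^ 2 - z * q + b) = 0 := by
      have : (4 : K) * (q ^ 2 - z * q + b) = (2 * q - z) ^ 2 - (z ^ 2 - 4 * b) := by ring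
      rw [this, hzb, hq2, hza]
      ring
    rcases mul_eq_zero.1 h4 with h5 | h5
    · norm_num at h5
    · exact h5
  have hq0 : q ≠ 0 := by
    intro h0
    apply hb
    rw [h0] at hqz
    linear_combination hqz
  have hQe : (2 * t * q) ^ 2 = q * (q ^ 2 + a * q + b) := by
    linear_combination (-(q ^ 2)) * hza - q * hqz
  have hQ := W_nonsing hb hd hQe
  have hr0 : 2 * t * q ≠ 0 := mul_ne_zero (mul_ne_zero (by norm_num) ht0) hq0
  obtain ⟨x3, y3, h3, hs3, hx3, hy3⟩ := add_self hQ hr0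
  have hl : (3 * q ^ 2 + 2 * a * q + b) / (2 * (2 * t * q)) = 2 * t + s := by
    rw [div_eq_iff (mul_ne_zero (by norm_num) hr0)]
    linear_combination hqz + 2 * q * hza + q * hq2
  rw [hl] at hx3 hy3
  have k1 : x3 = s ^ 2 := by linear_combination hx3 - hza - hq2
  have k3 : y / s * s = y := by field_simp
  have k2 : y3 = y := by
    linear_combination hy3 - (2 * t + s) * k1 + s * hq + k3
  subst k1
  subst k2
  exact ⟨_, hs3.symm⟩

/-- the identity behind the homomorphism property of the second coordinate -/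
lemma uu_line [CharZero K] {a s1 s2 l n x3 : K} (h1 : s1 ≠ 0) (h2 : s2 ≠ 0) (hn : n ≠ 0)
    (e1 : s1 ^ 2 + s2 ^ 2 + x3 = l ^ 2 - a) (e3 : s1 ^ 2 * s2 ^ 2 * x3 = n ^ 2) :
    x3 = (n / (s1 * s2)) ^ 2 ∧ n / (s1 * s2) ≠ 0 ∧ ∃ r : K,
      uu a s1 (l * s1 ^ 2 + n) * uu a s2 (l * s2 ^ 2 + n) *
        uu a (n / (s1 * s2)) (l * x3 + n) = r ^ 2 := by
  obtain ⟨s3, hs3⟩ : ∃ s3, s3 = n / (s1 * s2) := ⟨_, rfl⟩
  have h12 : s1 * s2 ≠ 0 := mul_ne_zero h1 h2
  have h3 : s3 ≠ 0 := by rw [hs3]; exact div_ne_zero hn h12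
  have hn' : n = s1 * s2 * s3 := by rw [hs3]; field_simp
  have hx3 : x3 = s3 ^ 2 := by
    have : (s1 * s2) ^ 2 * x3 = (s1 * s2) ^ 2 * s3 ^ 2 := by
      rw [hn'] at e3
      linear_combination e3
    exact mul_left_cancel₀ (pow_ne_zero _ h12) this
  rw [← hs3]
  refine ⟨hx3, h3, ((s1 - (l + s1 + s2 + s3) / 2) * (s2 - (l + s1 + s2 + s3) / 2) *
    (s3 - (l + s1 + s2 + s3) / 2)), ?_⟩
  have ha : a = l ^ 2 - s1 ^ 2 - s2 ^ 2 - s3 ^ 2 := by rw [hx3] at e1; linear_combination e1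
  have u1 : uu a s1 (l * s1 ^ 2 + n) = (s1 ^ 2 + a / 2 + (l * s1 + s2 * s3)) / 2 := by
    unfold uu
    congr 2
    rw [hn']
    field_simp
  have u2 : uu a s2 (l * s2 ^ 2 + n) = (s2 ^ 2 + a / 2 + (l * s2 + s1 * s3)) / 2 := by
    unfold uu
    congr 2
    rw [hn']
    field_simp
  have u3 : uu a s3 (l * x3 + n) = (s3 ^ 2 + a / 2 + (l * s3 + s1 * s2)) / 2 := by
    unfold uu
    congr 2
    rw [hn', hx3]
    field_simp
  rw [u1, u2, u3, ha]
  ring

/-- the point of order two -/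
lemma T_nonsing {a b : K} (hb : b ≠ 0) : (W a b).toAffine.Nonsingular 0 0 := by
  rw [Affine.nonsingular_iff]
  refine ⟨W_eqn.2 (by ring), Or.inl ?_⟩
  simp [W, Ne.symm hb]

lemma eq_T {a b y : K} (hb : b ≠ 0) (h : (W a b).toAffine.Nonsingular 0 y) :
    Affine.Point.some 0 y h = Affine.Point.some 0 0 (T_nonsing hb) := by
  have e := W_eqn.1 h.1
  have hy : y = 0 := by
    have : y ^ 2 = 0 := by rw [e]; ring
    exact pow_eq_zero_iff (two_ne_zero) |>.1 this
  subst hy
  rfl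

lemma sq_add [CharZero K] {a b x1 y1 x2 y2 c : K} (hb : b ≠ 0)
    (h1 : (W a b).toAffine.Nonsingular x1 y1) (h2 : (W a b).toAffine.Nonsingular x2 y2)
    (hc : c ≠ 0) (hx : x1 * x2 = c ^ 2) :
    Affine.Point.some x1 y1 h1 + Affine.Point.some x2 y2 h2 = 0 ∨
    Affine.Point.some x1 y1 h1 + Affine.Point.some x2 y2 h2 =
      Affine.Point.some 0 0 (T_nonsing hb) ∨
    ∃ (s y : K) (h : (W a b).toAffine.Nonsingular (s ^ 2) y), s ≠ 0 ∧
      Affine.Point.some x1 y1 h1 + Affine.Point.some x2 y2 h2 = Affine.Point.some (s ^ 2) y h := by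
  rcases add_line h1 h2 with h0 | ⟨x3, y3, h3, l, n, hs, -, -, -, -, -, e3⟩
  · exact Or.inl h0
  · right
    rw [hx] at e3
    by_cases hn : n = 0
    · left
      have hx3 : x3 = 0 := by
        rw [hn] at e3
        have : c ^ 2 * x3 = 0 := by rw [e3]; ring
        exact (mul_eq_zero.1 this).resolve_left (pow_ne_zero _ hc)
      subst hx3
      rw [hs, eq_T hb h3]
    · right
      have hx3 : x3 = (n / c) ^ 2 := by
        rw [div_pow, ← e3]
        field_simp
      subst hx3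
      exact ⟨n / c, y3, h3, div_ne_zero hn hc, hs⟩

lemma uu_add [CharZero K] {a b s1 y1 s2 y2 w : K} (hb : b ≠ 0) (hd : a ^ 2 - 4 * b ≠ 0)
    (hs1 : s1 ≠ 0) (hs2 : s2 ≠ 0)
    (h1 : (W a b).toAffine.Nonsingular (s1 ^ 2) y1) (h2 : (W a b).toAffine.Nonsingular (s2 ^ 2) y2)
    (hw : w ≠ 0) (hu : uu a s1 y1 * uu a s2 y2 = w ^ 2) :
    Affine.Point.some (s1 ^ 2) y1 h1 + Affine.Point.some (s2 ^ 2) y2 h2 = 0 ∨
    Affine.Point.some (s1 ^ 2) y1 h1 + Affine.Point.some (s2 ^ 2) y2 h2 =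
      Affine.Point.some 0 0 (T_nonsing hb) ∨
    ∃ Q : Pt a b,
      Affine.Point.some (s1 ^ 2) y1 h1 + Affine.Point.some (s2 ^ 2) y2 h2 = Q + Q := by
  rcases add_line h1 h2 with h0 | ⟨x3, y3, h3, l, n, hs, k1, k2, k3, e1, -, e3⟩
  · exact Or.inl h0
  · right
    by_cases hn : n = 0
    · left
      have hx3 : x3 = 0 := by
        rw [hn] at e3
        have : s1 ^ 2 * s2 ^ 2 * x3 = 0 := by rw [e3]; ring
        exact (mul_eq_zero.1 this).resolve_left
          (mul_ne_zero (pow_ne_zero _ hs1) (pow_ne_zero _ hs2))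
      subst hx3
      rw [hs, eq_T hb h3]
    · right
      obtain ⟨hx3, hs3, r, hr⟩ := uu_line (a := a) hs1 hs2 hn e1 e3
      rw [← k1, ← k2, ← k3, hu] at hr
      set s3 := n / (s1 * s2) with hs3d
      have hu3 : uu a s3 (-y3) = (r / w) ^ 2 := by
        rw [div_pow, ← hr]
        field_simp
      subst hx3
      obtain ⟨Q, hQ⟩ := halve hb hd hs3 (nonsing_neg h3) hu3
      refine ⟨-Q, ?_⟩
      rw [hs, ← neg_add, ← hQ, neg_mk (nonsing_neg h3) (by rw [neg_neg]; exact h3)]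
      simp

/-- **Cosets of the doubles.** -/
theorem cover_two [CharZero K] {a b : K} (hb : b ≠ 0) (hd : a ^ 2 - 4 * b ≠ 0)
    (F1 F2 : Finset K) (n1 : ∀ t ∈ F1, t ≠ 0) (n2 : ∀ t ∈ F2, t ≠ 0)
    (c1 : ∀ x y : K, y ^ 2 = x * (x ^ 2 + a * x + b) → x ≠ 0 →
      ∃ t ∈ F1, ∃ c : K, c ≠ 0 ∧ x = t * c ^ 2)
    (c2 : ∀ s y : K, s ≠ 0 → y ^ 2 = s ^ 2 * ((s ^ 2) ^ 2 + a * s ^ 2 + b) →
      ∃ t ∈ F2, ∃ c : K, c ≠ 0 ∧ uu a s y = t * c ^ 2) :
    ∃ F : Finset (Pt a b), F.card ≤ 2 * ((F1.card + 1) * (F2.card + 1)) ∧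
      ∀ P : Pt a b, ∃ f ∈ F, ∃ Q : Pt a b, P = f + (Q + Q) := by
  classical
  let T : Pt a b := Affine.Point.some 0 0 (T_nonsing hb)
  let A1 : K → Pt a b → Prop := fun t P => ∃ (x y : K) (h : (W a b).toAffine.Nonsingular x y)
    (c : K), P = Affine.Point.some x y h ∧ c ≠ 0 ∧ x = t * c ^ 2
  let A2 : K → Pt a b → Prop := fun t P => ∃ (s y : K) (h : (W a b).toAffine.Nonsingular (s ^ 2) y)
    (c : K), P = Affine.Point.some (s ^ 2) y h ∧ s ≠ 0 ∧ c ≠ 0 ∧ uu a s y = t * c ^ 2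
  let r1 : Option K → Pt a b := fun o => match o with
    | none => 0
    | some t => if h : ∃ P, A1 t P then Classical.choose h else 0
  let r2 : Option K → Pt a b := fun o => match o with
    | none => 0
    | some t => if h : ∃ P, A2 t P then Classical.choose h else 0
  have hr1 : ∀ t, (∃ P, A1 t P) → A1 t (r1 (some t)) := by
    intro t h
    simp only [r1]
    rw [dif_pos h]
    exact Classical.choose_spec h
  have hr2 : ∀ t, (∃ P, A2 t P) → A2 t (r2 (some t)) := by
    intro t h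
    simp only [r2]
    rw [dif_pos h]
    exact Classical.choose_spec h
  let δ : Finset (Pt a b) := {0, T}
  let F : Finset (Pt a b) := ((Finset.insertNone F1) ×ˢ (Finset.insertNone F2) ×ˢ δ).image
    (fun c => r1 c.1 + r2 c.2.1 + c.2.2)
  have hmem : ∀ o1 ∈ Finset.insertNone F1, ∀ o2 ∈ Finset.insertNone F2, ∀ d ∈ δ,
      r1 o1 + r2 o2 + d ∈ F := by
    intro o1 h1 o2 h2 d hd
    refine Finset.mem_image.2 ⟨(o1, o2, d), ?_, rfl⟩
    simp only [Finset.mem_product]
    exact ⟨h1, h2, hd⟩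
  have hno : ∀ S : Finset K, (none : Option K) ∈ Finset.insertNone S := fun S => by simp
  have hso : ∀ (S : Finset K) (t : K), t ∈ S → (some t : Option K) ∈ Finset.insertNone S :=
    fun S t h => by simpa using h
  have h0δ : (0 : Pt a b) ∈ δ := by simp [δ]
  have hTδ : T ∈ δ := by simp [δ]
  refine ⟨F, ?_, fun P => ?_⟩
  · refine Finset.card_image_le.trans ?_
    rw [Finset.card_product, Finset.card_product, Finset.card_insertNone, Finset.card_insertNone]
    have : δ.card ≤ 2 := Finset.card_le_two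
    calc (F1.card + 1) * ((F2.card + 1) * δ.card) ≤ (F1.card + 1) * ((F2.card + 1) * 2) := by
          gcongr
      _ = _ := by ring
  · match P with
    | 0 => exact ⟨_, hmem none (hno _) none (hno _) 0 h0δ, 0, by simp [r1, r2]⟩
    | .some x y h =>
      have e := W_eqn.1 h.1
      by_cases hx : x = 0
      · subst hx
        refine ⟨_, hmem none (hno _) none (hno _) T hTδ, 0, ?_⟩
        rw [eq_T hb h]
        simp [r1, r2, T]
      · obtain ⟨t1, ht1, c, hc, hxc⟩ := c1 x y e hx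
        have hA : ∃ P, A1 t1 P := ⟨_, x, y, h, c, rfl, hc, hxc⟩
        obtain ⟨x1, y1, h1, c', hP1, hc', hx1⟩ := hr1 t1 hA
        have ht0 := n1 t1 ht1
        have hneg : -(Affine.Point.some x1 y1 h1) = Affine.Point.some x1 (-y1) (nonsing_neg h1) :=
          neg_mk h1 _
        have hD : Affine.Point.some x y h = r1 (some t1) + (Affine.Point.some x y h +
            Affine.Point.some x1 (-y1) (nonsing_neg h1)) := by
          rw [hP1, ← hneg]
          abel
        rcases sq_add (c := t1 * c * c') hb h (nonsing_neg h1)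
          (mul_ne_zero (mul_ne_zero ht0 hc) hc') (by rw [hxc, hx1]; ring) with h3 | h3 | h3
        · refine ⟨_, hmem (some t1) (hso _ _ ht1) none (hno _) 0 h0δ, 0, ?_⟩
          rw [hD, h3]
          simp [r2]
        · refine ⟨_, hmem (some t1) (hso _ _ ht1) none (hno _) T hTδ, 0, ?_⟩
          rw [hD, h3]
          simp [r2, T]
        · obtain ⟨s, z, hsz, hs0, hDs⟩ := h3
          have e2 := W_eqn.1 hsz.1
          obtain ⟨t2, ht2, g, hg, hug⟩ := c2 s z hs0 e2
          have hA2 : ∃ P, A2 t2 P := ⟨_, s, z, hsz, g, rfl, hs0, hg, hug⟩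
          obtain ⟨s', z', hsz', g', hD1, hs0', hg', hug'⟩ := hr2 t2 hA2
          have ht0' := n2 t2 ht2
          have hns : (W a b).toAffine.Nonsingular ((-s') ^ 2) (-z') := by
            rw [neg_sq]; exact nonsing_neg hsz'
          have hneg' : -(Affine.Point.some (s' ^ 2) z' hsz') =
              Affine.Point.some ((-s') ^ 2) (-z') hns := by
            rw [neg_mk hsz' (nonsing_neg hsz')]
            simp
          have hD' : Affine.Point.some (s ^ 2) z hsz = r2 (some t2) +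
              (Affine.Point.some (s ^ 2) z hsz + Affine.Point.some ((-s') ^ 2) (-z') hns) := by
            rw [hD1, ← hneg']
            abel
          rcases uu_add (w := t2 * g * g') hb hd hs0 (neg_ne_zero.2 hs0') hsz hns
            (mul_ne_zero (mul_ne_zero ht0' hg) hg')
            (by rw [uu_neg, hug, hug']; ring) with h4 | h4 | ⟨Q, h4⟩
          · refine ⟨_, hmem (some t1) (hso _ _ ht1) (some t2) (hso _ _ ht2) 0 h0δ, 0, ?_⟩
            rw [hD, hDs, hD', h4]
            simp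
          · refine ⟨_, hmem (some t1) (hso _ _ ht1) (some t2) (hso _ _ ht2) T hTδ, 0, ?_⟩
            rw [hD, hDs, hD', h4]
            simp only [T, add_zero]
            abel
          · refine ⟨_, hmem (some t1) (hso _ _ ht1) (some t2) (hso _ _ ht2) 0 h0δ, Q, ?_⟩
            rw [hD, hDs, hD', h4]
            simp only [add_zero]
            abel

end dec

/-- iterated cosets -/
theorem cover_pow {G : Type*} [AddCommGroup G] (F : Finset G)
    (h : ∀ P : G, ∃ f ∈ F, ∃ Q : G, P = f + (Q + Q)) (k : ℕ) :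
    ∃ E : Finset G, E.card ≤ F.card ^ k ∧ ∀ P : G, ∃ f ∈ E, ∃ Q : G, P = f + 2 ^ k • Q := by
  classical
  induction k with
  | zero => exact ⟨{0}, by simp, fun P => ⟨0, by simp, P, by simp⟩⟩
  | succ k ih =>
    obtain ⟨E, hE, hcov⟩ := ih
    refine ⟨(E ×ˢ F).image (fun c => c.1 + 2 ^ k • c.2), ?_, fun P => ?_⟩
    · refine Finset.card_image_le.trans ?_
      rw [Finset.card_product, pow_succ]
      gcongr
    · obtain ⟨e, he, Q, hQ⟩ := hcov P
      obtain ⟨f, hf, R, hR⟩ := h Q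
      refine ⟨e + 2 ^ k • f, Finset.mem_image.2 ⟨(e, f), Finset.mem_product.2 ⟨he, hf⟩, rfl⟩, R, ?_⟩
      rw [hQ, hR, smul_add, ← two_nsmul, smul_smul, pow_succ, add_assoc]

end Pool.Agent.K9h15.Ell
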