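import Mathlib
import Pool.Agent.K9h15.Ell
import Pool.Agent.K9h15.Bad

/-!
# Uniform bound for the points of `y ^ 2 = x (x ^ 2 + a x + b)` over a number field
-/

set_option autoImplicit false

open IsDedekindDomain NumberField Height WeierstrassCurve Polynomial

namespace Pool.Agent.K9h15.Core

open Pool.Agent.K9h15.Pla Pool.Agent.K9h15.Bad Pool.Agent.K9h15.Ell Pool.Agent.K9h15.Cls
open Pool.Agent.K9h15.Iso Pool.Agent.K9h15.Det

variable {K : Type} [Field K] [NumberField K]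

/-- the elements whose denominators contain the bad primes -/
def cc (a b : K) : Fin 5 → K := ![a, b, b⁻¹, (a ^ 2 - 4 * b)⁻¹, 2⁻¹]

lemma good_of {a b : K} (hb : b ≠ 0) (hd : a ^ 2 - 4 * b ≠ 0) (v : HeightOneSpectrum (𝓞 K))
    (h : ∀ i, av v (cc a b i) ≤ 1) :
    av v a ≤ 1 ∧ av v b = 1 ∧ av v (a ^ 2 - 4 * b) = 1 ∧ av v (2 : K) = 1 := by
  have h0 : av v a ≤ 1 := h 0
  have h1 : av v b ≤ 1 := h 1
  have h2 : av v b⁻¹ ≤ 1 := h 2
  have h3 : av v (a ^ 2 - 4 * b)⁻¹ ≤ 1 := h 3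
  have h4 : av v (2 : K)⁻¹ ≤ 1 := h 4
  have hinv : ∀ x : K, x ≠ 0 → av v x⁻¹ ≤ 1 → 1 ≤ av v x := by
    intro x hx hxi
    rw [map_inv₀] at hxi
    exact (inv_le_one₀ ((av v).pos hx)).1 hxi
  have hna := av_nonarch v
  have h5 : av v (2 : K) ≤ 1 := by
    have := hna.apply_natCast_le_one (n := 2)
    simpa using this
  have h6 : av v (4 : K) ≤ 1 := by
    have := hna.apply_natCast_le_one (n := 4)
    simpa using this
  have h7 : av v (a ^ 2 - 4 * b) ≤ 1 := by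
    rw [sub_eq_add_neg]
    refine (hna _ _).trans (max_le ?_ ?_)
    · rw [map_pow]; exact pow_le_one₀ (apply_nonneg _ _) h0
    · rw [(av v).map_neg, map_mul]; exact mul_le_one₀ h6 (apply_nonneg _ _) h1
  exact ⟨h0, le_antisymm h1 (hinv b hb h2), le_antisymm h7 (hinv _ hd h3),
    le_antisymm h5 (hinv 2 two_ne_zero h4)⟩

lemma cc_height (K : Type) [Field K] [NumberField K] : ∃ C : ℝ, 1 ≤ C ∧ ∀ (V : ℝ) (a b : K),
    mulHeight₁ a ≤ V → mulHeight₁ b ≤ V → ∀ i, mulHeight₁ (cc a b i) ≤ C * V ^ 3 := by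
  set w : ℝ := 2 ^ totalWeight K with hw
  have hw1 : 1 ≤ w := one_le_pow₀ (by norm_num)
  have h2 : 1 ≤ mulHeight₁ (2 : K) := one_le_mulHeight₁ _
  have h4 : 1 ≤ mulHeight₁ (4 : K) := one_le_mulHeight₁ _
  refine ⟨w * mulHeight₁ (4 : K) * mulHeight₁ (2 : K), one_le_mul_of_one_le_of_one_le
    (one_le_mul_of_one_le_of_one_le hw1 h4) h2, ?_⟩
  intro V a b ha hb
  have hV : 1 ≤ V := (one_le_mulHeight₁ a).trans ha
  have hC : 1 ≤ w * mulHeight₁ (4 : K) * mulHeight₁ (2 : K) := one_le_mul_of_one_le_of_one_le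
    (one_le_mul_of_one_le_of_one_le hw1 h4) h2
  have hV3 : V ≤ V ^ 3 := by
    calc V = V ^ 1 := (pow_one V).symm
      _ ≤ V ^ 3 := pow_le_pow_right₀ hV (by norm_num)
  have hap := mulHeight₁_pos a
  have hbp := mulHeight₁_pos b
  have key : ∀ t : ℝ, t ≤ V → t ≤ w * mulHeight₁ (4 : K) * mulHeight₁ (2 : K) * V ^ 3 := by
    intro t ht
    calc t ≤ 1 * V ^ 3 := by rw [one_mul]; exact ht.trans hV3
      _ ≤ _ := by gcongr
  have k3 : mulHeight₁ (a ^ 2 - 4 * b) ≤ w * mulHeight₁ (4 : K) * mulHeight₁ (2 : K) * V ^ 3 := by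
    refine (mulHeight₁_sub_le _ _).trans ?_
    rw [← hw, mulHeight₁_pow]
    calc w * mulHeight₁ a ^ 2 * mulHeight₁ (4 * b)
        ≤ w * V ^ 2 * (mulHeight₁ (4 : K) * V) := by
          have h5 : mulHeight₁ (4 * b) ≤ mulHeight₁ (4 : K) * V :=
            (mulHeight₁_mul_le (4 : K) b).trans (by gcongr)
          gcongr
      _ = w * mulHeight₁ (4 : K) * 1 * V ^ 3 := by ring
      _ ≤ _ := by gcongr
  intro i
  fin_cases i
  · exact key _ ha
  · exact key _ hb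
  · change mulHeight₁ b⁻¹ ≤ _
    rw [mulHeight₁_inv]; exact key _ hb
  · change mulHeight₁ (a ^ 2 - 4 * b)⁻¹ ≤ _
    rw [mulHeight₁_inv]; exact k3
  · change mulHeight₁ (2 : K)⁻¹ ≤ _
    rw [mulHeight₁_inv]
    calc mulHeight₁ (2 : K) = 1 * 1 * mulHeight₁ (2 : K) * 1 := by ring
      _ ≤ w * mulHeight₁ (4 : K) * mulHeight₁ (2 : K) * V ^ 3 := by
        have : 1 ≤ V ^ 3 := one_le_pow₀ hV
        gcongr

/-- **The index of the doubles.** -/
theorem two_cover [DecidableEq K] (ε : ℝ) (hε : 0 < ε) :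
    ∃ C : ℝ, 1 ≤ C ∧ ∀ (V : ℝ) (a b : K), b ≠ 0 → a ^ 2 - 4 * b ≠ 0 →
      mulHeight₁ a ≤ V → mulHeight₁ b ≤ V → ∃ F : Finset (Pt a b), (F.card : ℝ) ≤ C * V ^ ε ∧
        ∀ P : Pt a b, ∃ f ∈ F, ∃ Q : Pt a b, P = f + (Q + Q) := by
  classical
  obtain ⟨C0, hC0⟩ := sel_card K
  obtain ⟨C1, hC1, hcc⟩ := cc_height K
  obtain ⟨C2, hC2, hbad⟩ := bad_count' K 5 (ε / 6) (by positivity)
  refine ⟨2 * ((C0 + 1) * (C2 * C1 ^ (ε / 6))) ^ 2, ?_, ?_⟩
  · have h1 : 1 ≤ C1 ^ (ε / 6) := Real.one_le_rpow hC1 (by positivity)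
    have h2 : (1 : ℝ) ≤ C0 + 1 := by
      have : (0 : ℝ) ≤ C0 := Nat.cast_nonneg _
      linarith
    have h3 : 1 ≤ ((C0 + 1) * (C2 * C1 ^ (ε / 6))) ^ 2 := one_le_pow₀
      (one_le_mul_of_one_le_of_one_le h2 (one_le_mul_of_one_le_of_one_le hC2 h1))
    linarith
  intro V a b hb hd ha hbV
  have hV : 1 ≤ V := (one_le_mulHeight₁ a).trans ha
  have hfin : {v : HeightOneSpectrum (𝓞 K) | ∃ i, 1 < av v (cc a b i)}.Finite := by
    have : {v : HeightOneSpectrum (𝓞 K) | ∃ i, 1 < av v (cc a b i)} =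
        ⋃ i, {v : HeightOneSpectrum (𝓞 K) | 1 < av v (cc a b i)} := by
      ext v; simp
    rw [this]
    exact Set.finite_iUnion fun i => finite_bad _
  set S := hfin.toFinset with hS
  have hSbad := hbad (cc a b) (C1 * V ^ 3) (one_le_mul_of_one_le_of_one_le hC1 (one_le_pow₀ hV))
    (hcc V a b ha hbV) S (fun v hv => by
      rw [hS, Set.Finite.mem_toFinset] at hv; exact hv)
  have hgood : ∀ v, v ∉ S → av v a ≤ 1 ∧ av v b = 1 ∧ av v (a ^ 2 - 4 * b) = 1 ∧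
      av v (2 : K) = 1 := by
    intro v hv
    apply good_of hb hd v
    intro i
    by_contra hn
    apply hv
    rw [hS, Set.Finite.mem_toFinset]
    exact ⟨i, not_le.1 hn⟩
  obtain ⟨T, hTc, hT0, hT⟩ := hC0 S
  obtain ⟨F, hF, hcov⟩ := cover_two hb hd T T hT0 hT0 (by
    intro x y h hx
    obtain ⟨t, ht, c, hc, hxc⟩ := hT (Units.mk0 x hx) (fun v hv =>
      even_first' v hx h (hgood v hv).1 (hgood v hv).2.1)
    exact ⟨t, ht, c, hc, hxc⟩) (by
    intro s y hs h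
    have hB : (a ^ 2 - 4 * b) / 16 ≠ 0 := div_ne_zero hd (by norm_num)
    have hu : uu a s y ≠ 0 := by
      intro h0
      have := uu_mul hs h
      rw [h0, zero_mul] at this
      exact hB this.symm
    obtain ⟨t, ht, c, hc, hxc⟩ := hT (Units.mk0 _ hu) (fun v hv => by
      obtain ⟨g1, g2, g3, g4⟩ := hgood v hv
      refine even_first' v hu (uu_eqn hs h) ?_ ?_
      · rw [(av v).map_neg, map_div₀, g4, div_one]; exact g1
      · have h16 : (16 : K) = 2 ^ 4 := by norm_num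
        rw [map_div₀, g3, h16, map_pow, g4, one_pow, div_one])
    exact ⟨t, ht, c, hc, hxc⟩)
  refine ⟨F, ?_, hcov⟩
  have h2S : (1 : ℝ) ≤ 2 ^ S.card := one_le_pow₀ (by norm_num)
  have hT1 : ((T.card : ℝ) + 1) ≤ (C0 + 1) * 2 ^ S.card := by
    have h1 : (T.card : ℝ) ≤ C0 * 2 ^ S.card := by exact_mod_cast hTc
    linarith
  have hF1 : (F.card : ℝ) ≤ 2 * (((T.card : ℝ) + 1) * ((T.card : ℝ) + 1)) := by exact_mod_cast hF
  have h3 : (2 : ℝ) ^ S.card ≤ C2 * C1 ^ (ε / 6) * V ^ (ε / 2) := by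
    refine hSbad.trans (le_of_eq ?_)
    rw [Real.mul_rpow (by linarith) (by positivity), ← Real.rpow_natCast V 3,
      ← Real.rpow_mul (by linarith)]
    have : ((3 : ℕ) : ℝ) * (ε / 6) = ε / 2 := by push_cast; ring
    rw [this]
    ring
  calc (F.card : ℝ) ≤ 2 * (((T.card : ℝ) + 1) * ((T.card : ℝ) + 1)) := hF1
    _ ≤ 2 * (((C0 + 1) * 2 ^ S.card) * ((C0 + 1) * 2 ^ S.card)) := by gcongr
    _ ≤ 2 * (((C0 + 1) * (C2 * C1 ^ (ε / 6) * V ^ (ε / 2))) *
        ((C0 + 1) * (C2 * C1 ^ (ε / 6) * V ^ (ε / 2)))) := by gcongr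
    _ = 2 * ((C0 + 1) * (C2 * C1 ^ (ε / 6))) ^ 2 * (V ^ (ε / 2) * V ^ (ε / 2)) := by ring
    _ = _ := by
      rw [← Real.rpow_add (by linarith)]
      ring_nf

theorem two_pow_cover [DecidableEq K] (k : ℕ) (ε : ℝ) (hε : 0 < ε) :
    ∃ C : ℝ, 1 ≤ C ∧ ∀ (V : ℝ) (a b : K), b ≠ 0 → a ^ 2 - 4 * b ≠ 0 →
      mulHeight₁ a ≤ V → mulHeight₁ b ≤ V → ∃ F : Finset (Pt a b), (F.card : ℝ) ≤ C * V ^ ε ∧
        ∀ P : Pt a b, ∃ f ∈ F, ∃ Q : Pt a b, P = f + 2 ^ k • Q := by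
  obtain ⟨C, hC, h⟩ := two_cover (K := K) (ε / (k + 1)) (by positivity)
  refine ⟨C ^ k, one_le_pow₀ hC, ?_⟩
  intro V a b hb hd ha hbV
  have hV : 1 ≤ V := (one_le_mulHeight₁ a).trans ha
  obtain ⟨F, hF, hcov⟩ := h V a b hb hd ha hbV
  obtain ⟨E, hE, hcovE⟩ := cover_pow F hcov k
  refine ⟨E, ?_, hcovE⟩
  calc (E.card : ℝ) ≤ (F.card : ℝ) ^ k := by exact_mod_cast hE
    _ ≤ (C * V ^ (ε / (k + 1))) ^ k := by gcongr
    _ = C ^ k * (V ^ (ε / (k + 1))) ^ k := by rw [mul_pow]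
    _ ≤ C ^ k * V ^ ε := by
      have h3 : (V ^ (ε / (k + 1))) ^ k ≤ V ^ ε := by
        rw [← Real.rpow_natCast, ← Real.rpow_mul (by linarith)]
        apply Real.rpow_le_rpow_of_exponent_le hV
        rw [div_mul_eq_mul_div, div_le_iff₀ (by positivity)]
        nlinarith
      have : 0 ≤ C ^ k := by positivity
      gcongr

/-- **The count by the determinant method.** -/
theorem det_count (K : Type) [Field K] [NumberField K] (k : ℕ) (hk : 1 ≤ k) (C' : ℝ) (hC' : 1 ≤ C') :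
    ∃ C : ℝ, 1 ≤ C ∧ ∀ (V : ℝ) (a b : K), b ≠ 0 → a ^ 2 - 4 * b ≠ 0 →
      mulHeight₁ a ≤ V → mulHeight₁ b ≤ V → ∀ Z : Finset K,
      (∀ z ∈ Z, (pq a b k).2.eval z ≠ 0 ∧ mulHeight₁ z ≤ C' * V ^ 19 ∧
        mulHeight₁ ((pq a b k).1.eval z / (pq a b k).2.eval z) ≤ C' * V ^ 19) →
      (Z.card : ℝ) ≤ C * V ^ (76 * (Module.finrank ℚ K : ℝ) / (4 ^ k + 1)) := by
  classical
  obtain ⟨C1, hC1, hcc⟩ := cc_height K
  obtain ⟨D, hD⟩ : ∃ D : ℕ, D = 4 ^ k := ⟨_, rfl⟩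
  have hD4 : 4 ≤ D := by
    rw [hD]
    calc 4 = 4 ^ 1 := by norm_num
      _ ≤ 4 ^ k := Nat.pow_le_pow_right (by norm_num) hk
  obtain ⟨n1, hn1⟩ : ∃ n1 : ℕ, C1 < 2 ^ n1 := pow_unbounded_of_one_lt C1 (by norm_num)
  obtain ⟨n0, hn0⟩ : ∃ n0 : ℕ, n0 = 5 * (n1 + (D + 1)) := ⟨_, rfl⟩
  set d := Module.finrank ℚ K with hd'
  have hd0 : 0 < d := Module.finrank_pos
  obtain ⟨c0, hc0⟩ : ∃ c0 : ℝ, c0 = 2 * ((D * D).factorial : ℝ) ^ d := ⟨_, rfl⟩
  have hfac : (1 : ℝ) ≤ ((D * D).factorial : ℝ) ^ d := by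
    apply one_le_pow₀
    exact_mod_cast Nat.succ_le_of_lt (Nat.factorial_pos _)
  have hc02 : 2 ≤ c0 := by rw [hc0]; linarith
  have hDr : (0 : ℝ) < (D : ℝ) + 1 := by positivity
  refine ⟨2 * (2 ^ (n0 + 2) * (c0 * C' ^ ((4 : ℝ) / (D + 1)))) ^ d * (D * D : ℕ), ?_, ?_⟩
  · have h1 : 1 ≤ C' ^ ((4 : ℝ) / (D + 1)) := Real.one_le_rpow hC' (by positivity)
    have h2 : (1 : ℝ) ≤ 2 ^ (n0 + 2) := one_le_pow₀ (by norm_num)
    have h3 : 1 ≤ (2 ^ (n0 + 2) * (c0 * C' ^ ((4 : ℝ) / (D + 1)))) ^ d := one_le_pow₀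
      (one_le_mul_of_one_le_of_one_le h2 (one_le_mul_of_one_le_of_one_le (by linarith) h1))
    have h4 : (1 : ℝ) ≤ (D * D : ℕ) := by
      have : 1 ≤ D * D := by nlinarith
      exact_mod_cast this
    have h5 : 1 ≤ 2 * (2 ^ (n0 + 2) * (c0 * C' ^ ((4 : ℝ) / (D + 1)))) ^ d := by linarith
    exact one_le_mul_of_one_le_of_one_le h5 h4
  intro V a b hb hdisc ha hbV Z hZ
  have hV : 1 ≤ V := (one_le_mulHeight₁ a).trans ha
  obtain ⟨U, hU⟩ : ∃ U : ℝ, U = C' * V ^ 19 := ⟨_, rfl⟩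
  have hU1 : 1 ≤ U := by rw [hU]; exact one_le_mul_of_one_le_of_one_le hC' (one_le_pow₀ hV)
  obtain ⟨M, hM⟩ : ∃ M : ℝ, M = c0 * U ^ ((4 : ℝ) / (D + 1)) := ⟨_, rfl⟩
  have hUp : 1 ≤ U ^ ((4 : ℝ) / (D + 1)) := Real.one_le_rpow hU1 (by positivity)
  have hM2 : 2 ≤ M := by rw [hM]; nlinarith
  -- powers of M
  have hMV : C1 * V ^ 3 < M ^ (n1 + (D + 1)) := by
    have h1 : V ≤ M ^ (D + 1) := by
      have h2 : (U ^ ((4 : ℝ) / (D + 1))) ^ (D + 1) = U ^ 4 := by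
        rw [← Real.rpow_natCast, ← Real.rpow_mul (by linarith), ← Real.rpow_natCast]
        congr 1
        push_cast
        field_simp
      have h3 : V ≤ U := by
        rw [hU]
        calc V = 1 * V ^ 1 := by ring
          _ ≤ C' * V ^ 19 := by
            have : V ^ 1 ≤ V ^ 19 := pow_le_pow_right₀ hV (by norm_num)
            gcongr
      have h4 : U ≤ U ^ 4 := by
        calc U = U ^ 1 := (pow_one U).symm
          _ ≤ U ^ 4 := pow_le_pow_right₀ hU1 (by norm_num)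
      have h5 : (U ^ ((4 : ℝ) / (D + 1))) ^ (D + 1) ≤ M ^ (D + 1) := by
        apply pow_le_pow_left₀ (by positivity)
        rw [hM]
        nlinarith
      rw [h2] at h5
      linarith
    have h1' : V ^ 3 ≤ M ^ (D + 1) := by
      have h2 : (U ^ ((4 : ℝ) / (D + 1))) ^ (D + 1) = U ^ 4 := by
        rw [← Real.rpow_natCast, ← Real.rpow_mul (by linarith), ← Real.rpow_natCast]
        congr 1
        push_cast
        field_simp
      have h3 : V ≤ U := by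
        rw [hU]
        calc V = 1 * V ^ 1 := by ring
          _ ≤ C' * V ^ 19 := by
            have : V ^ 1 ≤ V ^ 19 := pow_le_pow_right₀ hV (by norm_num)
            gcongr
      have h4 : V ^ 3 ≤ U ^ 4 := by
        calc V ^ 3 ≤ U ^ 3 := by gcongr
          _ ≤ U ^ 4 := pow_le_pow_right₀ hU1 (by norm_num)
      have h5 : (U ^ ((4 : ℝ) / (D + 1))) ^ (D + 1) ≤ M ^ (D + 1) := by
        apply pow_le_pow_left₀ (by positivity)
        rw [hM]
        nlinarith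
      rw [h2] at h5
      linarith
    rw [pow_add]
    have h6 : C1 < M ^ n1 := hn1.trans_le (pow_le_pow_left₀ (by norm_num) hM2 _)
    have hV3 : 0 < V ^ 3 := by positivity
    calc C1 * V ^ 3 < M ^ n1 * V ^ 3 := mul_lt_mul_of_pos_right h6 hV3
      _ ≤ M ^ n1 * M ^ (D + 1) := by gcongr
  obtain ⟨v, hvB, hvM, hvU⟩ := exists_good K n0 M (by linarith)
    {v | ∃ i, 1 < av v (cc a b i)} (by
      intro S hS hSM
      let Si : Fin 5 → Finset (HeightOneSpectrum (𝓞 K)) := fun i =>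
        S.filter (fun v => 1 < av v (cc a b i))
      have h1 : S ⊆ Finset.univ.biUnion Si := by
        intro v hv
        obtain ⟨i, hi⟩ := hS v hv
        exact Finset.mem_biUnion.2 ⟨i, Finset.mem_univ _, Finset.mem_filter.2 ⟨hv, hi⟩⟩
      have h2 : S.card ≤ ∑ i, (Si i).card := (Finset.card_le_card h1).trans Finset.card_biUnion_le
      have h3 : ∀ i, (Si i).card ≤ n1 + (D + 1) := by
        intro i
        by_contra hn
        have h4 := few_large (cc a b i) M (by linarith) (Si i)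
          (fun v hv => (Finset.mem_filter.1 hv).2)
          (fun v hv => (hSM v (Finset.mem_filter.1 hv).1).le)
        have h5 : M ^ (n1 + (D + 1)) ≤ M ^ (Si i).card :=
          pow_le_pow_right₀ (by linarith) (by omega)
        have h6 := hcc V a b ha hbV i
        linarith
      calc S.card ≤ ∑ i, (Si i).card := h2
        _ ≤ ∑ _i : Fin 5, (n1 + (D + 1)) := Finset.sum_le_sum fun i _ => h3 i
        _ = n0 := by rw [Finset.sum_const, Finset.card_univ, Fintype.card_fin, hn0]; rfl)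
  obtain ⟨g1, g2, g3, g4⟩ := good_of hb hdisc v (by
    intro i
    by_contra hn
    exact hvB ⟨i, not_le.1 hn⟩)
  have hna := av_nonarch v
  obtain ⟨i1, i2⟩ := pq_intg hna g1 g2.le k
  obtain ⟨p1, p2, p3⟩ := pq_degree a b k
  have hcop := pq_coprime hb hdisc k
  have hgd := fun x => pq_good hna g1 g2 g3 g4 k x
  rw [← hD] at p2 p3 hgd
  -- the fibres
  obtain ⟨r, hr⟩ := exists_class v
  obtain ⟨hfinc, hcard⟩ := card_class v
  have hfib : ∀ c ∈ Z.image r, (Z.filter (fun z => r z = c)).card ≤ D * D := by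
    intro c _
    by_contra hn
    rw [not_le] at hn
    obtain ⟨Y, hY, hYc⟩ := Finset.exists_subset_card_eq hn.le
    let e : Fin (D * D) ≃ Y := (Finset.equivFinOfCardEq hYc).symm
    have hmem : ∀ i, (e i : K) ∈ Z ∧ r (e i) = c := fun i =>
      Finset.mem_filter.1 (hY (e i).2)
    have h1 := det_method (by omega) p2 p3.le hcop v i1 i2 hgd U (fun i => (e i : K))
      (fun i j h => e.injective (Subtype.ext h))
      (fun i => (hZ _ (hmem i).1).1)
      (fun i => by rw [hU]; exact (hZ _ (hmem i).1).2.1)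
      (fun i => by rw [hU]; exact (hZ _ (hmem i).1).2.2)
      (fun i j => hr _ _ ((hmem i).2.trans (hmem j).2.symm))
    -- contradiction
    obtain ⟨e0, he0⟩ : ∃ e0 : ℕ, e0 = (D * D) * (D * D - 1) / 2 := ⟨_, rfl⟩
    have hpar : 2 * e0 = (D * D) * (D * D - 1) := by
      rw [he0]
      apply Nat.mul_div_cancel'
      exact (Nat.even_mul_pred_self _).two_dvd
    have hDD : 16 ≤ D * D := by nlinarith
    have he01 : 1 ≤ e0 := by
      have : 1 ≤ D * D - 1 := by omega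
      nlinarith
    rw [← he0] at h1
    have h2 : M ^ e0 < nm v ^ e0 := pow_lt_pow_left₀ hvM (by linarith) (by omega)
    have h3 : M ^ e0 = c0 ^ e0 * (U ^ ((4 : ℝ) / (D + 1))) ^ e0 := by rw [hM, mul_pow]
    have h4 : (U ^ ((4 : ℝ) / (D + 1))) ^ e0 = U ^ (2 * (D - 1) * (D * D)) := by
      rw [← Real.rpow_natCast, ← Real.rpow_mul (by linarith), ← Real.rpow_natCast]
      congr 1
      have hDD' : ((D * D - 1 : ℕ) : ℝ) = ((D : ℝ) + 1) * (D - 1) := by
        rw [Nat.cast_sub (by nlinarith)]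
        push_cast
        ring
      have hD1 : ((D - 1 : ℕ) : ℝ) = (D : ℝ) - 1 := by
        rw [Nat.cast_sub (by omega)]
        simp
      have h2e : (2 : ℝ) * e0 = (D * D) * (((D : ℝ) + 1) * (D - 1)) := by
        rw [← hDD']
        exact_mod_cast hpar
      have h2e' : (e0 : ℝ) = (D * D) * (((D : ℝ) + 1) * (D - 1)) / 2 := by linarith
      push_cast
      rw [hD1, h2e']
      field_simp
      ring
    have h5 : c0 ≤ c0 ^ e0 := by
      calc c0 = c0 ^ 1 := (pow_one _).symm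
        _ ≤ c0 ^ e0 := pow_le_pow_right₀ (by linarith) he01
    have h6 : ((D * D).factorial : ℝ) ^ d ≤ c0 ^ e0 := by
      refine le_trans ?_ h5
      rw [hc0]
      linarith
    have h7 : 0 < U ^ (2 * (D - 1) * (D * D)) := by positivity
    have h8 : ((D * D).factorial : ℝ) ^ d * U ^ (2 * (D - 1) * (D * D)) ≤ M ^ e0 := by
      rw [h3, h4]
      gcongr
    linarith
  have hZc : Z.card ≤ (D * D) * (Z.image r).card := Finset.card_le_mul_card_image _ _ hfib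
  have himg : ((Z.image r).card : ℝ) ≤ nm v + 1 := by
    rw [← hcard]
    have : Fintype (Option (𝓞 K ⧸ v.asIdeal)) := Fintype.ofFinite _
    rw [Nat.card_eq_fintype_card]
    exact_mod_cast Finset.card_le_univ _
  have hv1 := one_lt_nm v
  have hexp : (2 ^ (n0 + 2) * M) ^ d = (2 ^ (n0 + 2) * (c0 * C' ^ ((4 : ℝ) / (D + 1)))) ^ d *
      V ^ (76 * (d : ℝ) / (4 ^ k + 1)) := by
    rw [hM, hU, Real.mul_rpow (by linarith) (by positivity)]
    have e1 : (V ^ 19) ^ ((4 : ℝ) / (D + 1)) = V ^ ((76 : ℝ) / (D + 1)) := by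
      rw [← Real.rpow_natCast, ← Real.rpow_mul (by linarith)]
      congr 1
      push_cast
      ring
    rw [e1]
    have e2 : (V ^ ((76 : ℝ) / (D + 1))) ^ d = V ^ (76 * (d : ℝ) / (4 ^ k + 1)) := by
      rw [← Real.rpow_natCast, ← Real.rpow_mul (by linarith)]
      congr 1
      rw [hD]
      push_cast
      ring
    rw [← e2, ← mul_pow]
    congr 1
    ring
  calc (Z.card : ℝ) ≤ (D * D : ℕ) * ((Z.image r).card : ℝ) := by exact_mod_cast hZc
    _ ≤ (D * D : ℕ) * (nm v + 1) := by gcongr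
    _ ≤ (D * D : ℕ) * (2 * nm v) := by gcongr; linarith
    _ ≤ (D * D : ℕ) * (2 * (2 ^ (n0 + 2) * M) ^ d) := by gcongr
    _ = _ := by rw [hexp]; ring

end Pool.Agent.K9h15.Core
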