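import Mathlib
import Pool.Agent.K9h15.Core

/-!
# Uniform bound for the points of `y ^ 2 = x (x ^ 2 + a x + b)` over a number field: the theorem
-/

set_option autoImplicit false

open IsDedekindDomain NumberField Height WeierstrassCurve Polynomial

namespace Pool.Agent.K9h15.Core

open Pool.Agent.K9h15.Pla Pool.Agent.K9h15.Bad Pool.Agent.K9h15.Ell Pool.Agent.K9h15.Cls
open Pool.Agent.K9h15.Iso Pool.Agent.K9h15.Det

variable {K : Type} [Field K] [NumberField K]

/-- the first coordinate of a point -/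
def xc {a b : K} (P : Pt a b) : K :=
  match P with
  | 0 => 0
  | .some x _ _ => x

omit [NumberField K] in
lemma xc_some {a b x y : K} (h : (W a b).toAffine.Nonsingular x y) :
    xc (Affine.Point.some x y h) = x := rfl

section dec

variable [DecidableEq K]

omit [NumberField K] in
lemma xc_eq {a b : K} {P Q : Pt a b} (hP : P ≠ 0) (hQ : Q ≠ 0) (h : xc P = xc Q) :
    P = Q ∨ P = -Q := by
  match P, Q with
  | 0, _ => exact absurd rfl hP
  | .some _ _ _, 0 => exact absurd rfl hQ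
  | .some x1 y1 h1, .some x2 y2 h2 =>
    rw [xc_some, xc_some] at h
    subst h
    have e1 := W_eqn.1 h1.1
    have e2 := W_eqn.1 h2.1
    have h3 : (y1 - y2) * (y1 + y2) = 0 := by linear_combination e1 - e2
    rcases mul_eq_zero.1 h3 with h4 | h4
    · left
      have : y1 = y2 := by linear_combination h4
      subst this
      rfl
    · right
      have : y1 = -y2 := by linear_combination h4
      subst this
      rw [neg_mk h2 h1]

/-- duplication in the first coordinate -/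
lemma xc_double {a b : K} {P : Pt a b} (h : P + P ≠ 0) :
    xc P * (xc P ^ 2 + a * xc P + b) ≠ 0 ∧ xc (P + P) = dup a b (xc P) := by
  match P with
  | 0 => exact absurd (add_zero 0) h
  | .some x y hP =>
    have e := W_eqn.1 hP.1
    have hy : y ≠ 0 := by
      intro hy
      apply h
      rcases add_cases hP hP with h1 | ⟨-, -, h1⟩ | h1
      · exact absurd rfl h1
      · exact absurd hy h1
      · exact h1
    obtain ⟨x3, y3, h3, hs, hx3, -⟩ := add_self hP hy
    rw [hs, xc_some, xc_some]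
    have h0 : x * (x ^ 2 + a * x + b) ≠ 0 := by rw [← e]; exact pow_ne_zero _ hy
    refine ⟨h0, ?_⟩
    rw [hx3, dup]
    have h4 : (4 : K) * x * (x ^ 2 + a * x + b) = 4 * y ^ 2 := by rw [e]; ring
    rw [h4]
    have h5 : (2 * y) ^ 2 = 4 * y ^ 2 := by ring
    rw [div_pow, h5]
    have h6 : (4 : K) * y ^ 2 ≠ 0 := mul_ne_zero (by norm_num) (pow_ne_zero _ hy)
    rw [eq_div_iff h6, sub_mul, sub_mul, sub_mul, div_mul_cancel₀ _ h6, e]
    ring

end dec

/-- the height of the first coordinate of a difference -/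
lemma sum_height (K : Type) [Field K] [NumberField K] : ∃ C : ℝ, 1 ≤ C ∧
    ∀ (V : ℝ) (a b x y x0 y0 : K), mulHeight₁ a ≤ V → mulHeight₁ b ≤ V → mulHeight₁ x ≤ V →
      mulHeight₁ x0 ≤ V → y ^ 2 = x * (x ^ 2 + a * x + b) → y0 ^ 2 = x0 * (x0 ^ 2 + a * x0 + b) →
      mulHeight₁ (((y - y0) / (x - x0)) ^ 2 - a - x - x0) ≤ C * V ^ 19 := by
  obtain ⟨w, hw⟩ : ∃ w : ℝ, w = 2 ^ totalWeight K := ⟨_, rfl⟩
  have hw1 : 1 ≤ w := by rw [hw]; exact one_le_pow₀ (by norm_num)
  refine ⟨w ^ 11, one_le_pow₀ hw1, ?_⟩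
  intro V a b x y x0 y0 ha hb hx hx0 e e0
  have hV : 1 ≤ V := (one_le_mulHeight₁ a).trans ha
  have hadd : ∀ s t : K, ∀ A B : ℝ, mulHeight₁ s ≤ A → mulHeight₁ t ≤ B →
      mulHeight₁ (s + t) ≤ w * A * B := by
    intro s t A B hA hB
    have hA0 : 0 ≤ A := (mulHeight₁_nonneg s).trans hA
    refine (mulHeight₁_add_le s t).trans ?_
    rw [← hw]
    have := mulHeight₁_pos s
    have := mulHeight₁_pos t
    gcongr
  have hsub : ∀ s t : K, ∀ A B : ℝ, mulHeight₁ s ≤ A → mulHeight₁ t ≤ B →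
      mulHeight₁ (s - t) ≤ w * A * B := by
    intro s t A B hA hB
    have hA0 : 0 ≤ A := (mulHeight₁_nonneg s).trans hA
    refine (mulHeight₁_sub_le s t).trans ?_
    rw [← hw]
    have := mulHeight₁_pos s
    have := mulHeight₁_pos t
    gcongr
  have hmul : ∀ s t : K, ∀ A B : ℝ, mulHeight₁ s ≤ A → mulHeight₁ t ≤ B →
      mulHeight₁ (s * t) ≤ A * B := by
    intro s t A B hA hB
    have hA0 : 0 ≤ A := (mulHeight₁_nonneg s).trans hA
    refine (mulHeight₁_mul_le s t).trans ?_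
    have := mulHeight₁_pos s
    have := mulHeight₁_pos t
    gcongr
  have hy : ∀ x y : K, mulHeight₁ x ≤ V → y ^ 2 = x * (x ^ 2 + a * x + b) →
      mulHeight₁ y ≤ w * V ^ 3 := by
    intro x y hx e
    have h1 : mulHeight₁ (x * (x ^ 2 + a * x + b)) ≤ V * (w * (w * V ^ 2 * (V * V)) * V) := by
      apply hmul _ _ _ _ hx
      apply hadd _ _ _ _ _ hb
      apply hadd _ _ _ _ _ (hmul _ _ _ _ ha hx)
      rw [mulHeight₁_pow]
      have := mulHeight₁_pos x
      gcongr
    rw [← e, mulHeight₁_pow] at h1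
    have h2 : mulHeight₁ y ^ 2 ≤ (w * V ^ 3) ^ 2 := by
      refine h1.trans (le_of_eq ?_)
      ring
    exact (pow_le_pow_iff_left₀ (mulHeight₁_nonneg _) (by positivity) (by norm_num)).1 h2
  have h1 := hy x y hx e
  have h2 := hy x0 y0 hx0 e0
  have h3 := hsub _ _ _ _ h1 h2
  have h4 := hsub _ _ _ _ hx hx0
  have h5 : mulHeight₁ ((y - y0) / (x - x0)) ≤ w * (w * V ^ 3) * (w * V ^ 3) * (w * V * V) := by
    rw [div_eq_mul_inv]
    apply hmul _ _ _ _ h3
    rw [mulHeight₁_inv]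
    exact h4
  have h6 : mulHeight₁ (((y - y0) / (x - x0)) ^ 2) ≤
      (w * (w * V ^ 3) * (w * V ^ 3) * (w * V * V)) ^ 2 := by
    rw [mulHeight₁_pow]
    exact pow_le_pow_left₀ (mulHeight₁_nonneg _) h5 _
  refine (hsub _ _ _ _ (hsub _ _ _ _ (hsub _ _ _ _ h6 ha) hx) hx0).trans (le_of_eq ?_)
  ring

/-- the height before `k` duplications -/
lemma back_height (K : Type) [Field K] [NumberField K] (k : ℕ) : ∃ C : ℝ, 1 ≤ C ∧
    ∀ (V C' : ℝ) (a b : K), 1 ≤ C' → b ≠ 0 → a ^ 2 - 4 * b ≠ 0 → mulHeight₁ a ≤ V →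
      mulHeight₁ b ≤ V → ∀ x : ℕ → K, (∀ i < k, x i * (x i ^ 2 + a * x i + b) ≠ 0) →
      (∀ i < k, x (i + 1) = dup a b (x i)) → mulHeight₁ (x k) ≤ C' * V ^ 19 →
      mulHeight₁ (x 0) ≤ C * C' * V ^ 19 := by
  obtain ⟨C1, hC1, h1⟩ := dup_height K
  refine ⟨C1 ^ k, one_le_pow₀ hC1, ?_⟩
  induction k with
  | zero =>
    intro V C' a b hC' _ _ _ _ x _ _ h
    rw [pow_zero, one_mul]
    exact h
  | succ k ih =>
    intro V C' a b hC' hb hd ha hbV x hx hxs h
    have hV : 1 ≤ V := (one_le_mulHeight₁ a).trans ha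
    have h2 := h1 V a b (x k) hb hd (hx k (by omega)) ha hbV
    rw [← hxs k (by omega)] at h2
    have h3 : mulHeight₁ (x k) ≤ C1 * C' * V ^ 19 := by
      have h4 : mulHeight₁ (x k) ^ 4 ≤ (C1 * C' * V ^ 19) ^ 4 := by
        calc mulHeight₁ (x k) ^ 4 ≤ C1 * V ^ 13 * mulHeight₁ (x (k + 1)) := h2
          _ ≤ C1 * V ^ 13 * (C' * V ^ 19) := by gcongr
          _ = (C1 * C') ^ 1 * V ^ 32 := by ring
          _ ≤ (C1 * C') ^ 4 * V ^ 76 := by
            have h5 : (C1 * C') ^ 1 ≤ (C1 * C') ^ 4 :=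
              pow_le_pow_right₀ (one_le_mul_of_one_le_of_one_le hC1 hC') (by norm_num)
            have h6 : V ^ 32 ≤ V ^ 76 := pow_le_pow_right₀ hV (by norm_num)
            gcongr
          _ = _ := by ring
      exact (pow_le_pow_iff_left₀ (mulHeight₁_nonneg _) (by positivity) (by norm_num)).1 h4
    have h7 := ih V (C1 * C') a b (one_le_mul_of_one_le_of_one_le hC1 hC') hb hd ha hbV x
      (fun i hi => hx i (by omega)) (fun i hi => hxs i (by omega)) h3
    refine h7.trans (le_of_eq ?_)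
    ring

/-- **Theorem.** The curves `y ^ 2 = x (x ^ 2 + a x + b)` have few points of small height over a number
field, uniformly in `a` and `b`. -/
theorem core (K : Type) [Field K] [NumberField K] (ε : ℝ) (hε : 0 < ε) :
    ∃ C : ℝ, 1 ≤ C ∧ ∀ (V : ℝ) (a b : K), b ≠ 0 → a ^ 2 - 4 * b ≠ 0 →
      mulHeight₁ a ≤ V → mulHeight₁ b ≤ V → ∀ S : Finset K,
      (∀ x ∈ S, mulHeight₁ x ≤ V ∧ ∃ y : K, y ^ 2 = x * (x ^ 2 + a * x + b)) →
      (S.card : ℝ) ≤ C * V ^ ε := by
  classical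
  obtain ⟨d, hd⟩ : ∃ d : ℕ, d = Module.finrank ℚ K := ⟨_, rfl⟩
  -- the choice of k
  obtain ⟨k, hk1, hk⟩ : ∃ k : ℕ, 1 ≤ k ∧ 76 * (d : ℝ) / (4 ^ k + 1) ≤ ε / 2 := by
    obtain ⟨k, hk⟩ : ∃ k : ℕ, 76 * (d : ℝ) / (ε / 2) < 4 ^ k :=
      pow_unbounded_of_one_lt _ (by norm_num)
    refine ⟨k + 1, by omega, ?_⟩
    rw [div_le_iff₀ (by positivity)]
    rw [div_lt_iff₀ (by positivity)] at hk
    have h4 : (4 : ℝ) ^ k ≤ 4 ^ (k + 1) + 1 := by
      rw [pow_succ]
      have : (0 : ℝ) < 4 ^ k := by positivity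
      linarith
    calc 76 * (d : ℝ) ≤ 4 ^ k * (ε / 2) := hk.le
      _ ≤ (4 ^ (k + 1) + 1) * (ε / 2) := by gcongr
      _ = _ := mul_comm _ _
  obtain ⟨C1, hC1, hsum⟩ := sum_height K
  obtain ⟨C2, hC2, hback⟩ := back_height K k
  obtain ⟨C3, hC3, hdet⟩ := det_count K k hk1 (C2 * C1) (one_le_mul_of_one_le_of_one_le hC2 hC1)
  obtain ⟨C4, hC4, hcover⟩ := two_pow_cover (K := K) k (ε / 2) (by positivity)
  rw [← hd] at hdet
  refine ⟨C4 * (1 + 2 * C3), ?_, ?_⟩
  · have : 1 ≤ 1 + 2 * C3 := by linarith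
    exact one_le_mul_of_one_le_of_one_le hC4 this
  intro V a b hb hdi ha hbV S hS
  have hV : 1 ≤ V := (one_le_mulHeight₁ a).trans ha
  obtain ⟨F, hF, hcov⟩ := hcover V a b hb hdi ha hbV
  -- points
  have hy : ∀ x : K, ∃ y : K, x ∈ S → y ^ 2 = x * (x ^ 2 + a * x + b) := by
    intro x
    by_cases hx : x ∈ S
    · obtain ⟨y, hy⟩ := (hS x hx).2
      exact ⟨y, fun _ => hy⟩
    · exact ⟨0, fun h => absurd h hx⟩
  choose y hy using hy
  let P : K → Pt a b := fun x =>
    if h : y x ^ 2 = x * (x ^ 2 + a * x + b) then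
      Affine.Point.some x (y x) (W_nonsing hb hdi h) else 0
  have hP : ∀ x ∈ S, ∃ h, P x = Affine.Point.some x (y x) h := by
    intro x hx
    have h := hy x hx
    refine ⟨W_nonsing hb hdi h, ?_⟩
    simp only [P]
    rw [dif_pos h]
  choose f hf Q hQ using fun x : K => hcov (P x)
  have hfib : ∀ c ∈ F, ((S.filter (fun x => f x = c)).card : ℝ) ≤ 1 + 2 * C3 * V ^ (ε / 2) := by
    intro c _
    rcases (S.filter (fun x => f x = c)).eq_empty_or_nonempty with h0 | ⟨x0, hx0⟩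
    · rw [h0, Finset.card_empty]
      push_cast
      positivity
    set Y := S.filter (fun x => f x = c) with hY
    have hYm : ∀ x ∈ Y, x ∈ S ∧ f x = c := fun x hx => Finset.mem_filter.1 hx
    let R : K → Pt a b := fun x => Q x - Q x0
    have hR : ∀ x ∈ Y, P x = P x0 + 2 ^ k • R x := by
      intro x hx
      have h1 := hQ x
      have h2 := hQ x0
      rw [(hYm x hx).2] at h1
      rw [(hYm x0 hx0).2] at h2
      simp only [R]
      rw [smul_sub, h1, h2]
      abel
    -- the image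
    set Y' := Y.erase x0 with hY'
    have hPinj : ∀ x ∈ Y, ∀ x' ∈ Y, P x = P x' → x = x' := by
      intro x hx x' hx' h
      obtain ⟨h1, h2⟩ := hP x (hYm x hx).1
      obtain ⟨h3, h4⟩ := hP x' (hYm x' hx').1
      have := congrArg xc h
      rwa [h2, h4, xc_some, xc_some] at this
    have hRinj : Set.InjOn R Y' := by
      intro x hx x' hx' h
      have hx1 : x ∈ Y := Finset.mem_of_mem_erase hx
      have hx2 : x' ∈ Y := Finset.mem_of_mem_erase hx'
      apply hPinj x hx1 x' hx2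
      rw [hR x hx1, hR x' hx2, h]
    -- the properties of R
    have hprop : ∀ x ∈ Y', R x ≠ 0 ∧ (pq a b k).2.eval (xc (R x)) ≠ 0 ∧
        mulHeight₁ (xc (R x)) ≤ (C2 * C1) * V ^ 19 ∧
        mulHeight₁ ((pq a b k).1.eval (xc (R x)) / (pq a b k).2.eval (xc (R x))) ≤
          (C2 * C1) * V ^ 19 := by
      intro x hx
      have hx1 : x ∈ Y := Finset.mem_of_mem_erase hx
      have hne : x ≠ x0 := Finset.ne_of_mem_erase hx
      obtain ⟨h1, h2⟩ := hP x (hYm x hx1).1
      obtain ⟨h3, h4⟩ := hP x0 (hYm x0 hx0).1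
      have h5 := hR x hx1
      have h6 : 2 ^ k • R x = P x + (-(P x0)) := by rw [h5]; abel
      rw [h2, h4, neg_mk h3 (nonsing_neg h3)] at h6
      obtain ⟨x3, y3, h7, h8, h9, -⟩ := add_ne h1 (nonsing_neg h3) hne
      rw [h8] at h6
      have h10 : (2 ^ k • R x) ≠ 0 := by
        rw [h6]
        exact Affine.Point.some_ne_zero _
      have hxk : xc (2 ^ k • R x) = ((y x - -y x0) / (x - x0)) ^ 2 - a - x - x0 := by
        rw [h6, xc_some, h9]
      have hneg : (-(y x0)) ^ 2 = x0 * (x0 ^ 2 + a * x0 + b) := by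
        rw [neg_sq]; exact hy x0 (hYm x0 hx0).1
      have hht : mulHeight₁ (xc (2 ^ k • R x)) ≤ C1 * V ^ 19 := by
        rw [hxk]
        exact hsum V a b x (y x) x0 (-(y x0)) ha hbV (hS x (hYm x hx1).1).1
          (hS x0 (hYm x0 hx0).1).1 (hy x (hYm x hx1).1) hneg
      let ξ : ℕ → K := fun i => xc (2 ^ i • R x)
      have hi : ∀ i < k, ξ i * (ξ i ^ 2 + a * ξ i + b) ≠ 0 ∧ ξ (i + 1) = dup a b (ξ i) := by
        intro i hik
        have h11 : 2 ^ i • R x + 2 ^ i • R x = 2 ^ (i + 1) • R x := by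
          rw [← two_nsmul, smul_smul, ← pow_succ']
        have h12 : 2 ^ i • R x + 2 ^ i • R x ≠ 0 := by
          rw [h11]
          intro h13
          apply h10
          have : 2 ^ k • R x = 2 ^ (k - (i + 1)) • (2 ^ (i + 1) • R x) := by
            rw [smul_smul, ← pow_add]
            congr 2
            omega
          rw [this, h13, smul_zero]
        obtain ⟨h14, h15⟩ := xc_double h12
        rw [h11] at h15
        exact ⟨h14, h15⟩
      have hξ0 : ξ 0 = xc (R x) := by simp [ξ]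
      obtain ⟨h16, h17⟩ := pq_eval k ξ (fun i h => (hi i h).1) (fun i h => (hi i h).2)
      rw [hξ0] at h16 h17
      have h18 := hback V C1 a b hC1 hb hdi ha hbV ξ (fun i h => (hi i h).1)
        (fun i h => (hi i h).2) hht
      rw [hξ0] at h18
      refine ⟨?_, h16, h18, ?_⟩
      · intro h19
        apply h10
        rw [h19, smul_zero]
      · rw [h17]
        refine le_trans hht ?_
        have : C1 ≤ C2 * C1 := le_mul_of_one_le_left (by linarith) hC2
        gcongr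
    have hZ := hdet V a b hb hdi ha hbV (Y'.image (fun x => xc (R x))) (by
      intro z hz
      obtain ⟨x, hx, rfl⟩ := Finset.mem_image.1 hz
      exact (hprop x hx).2)
    have h2 : ∀ c ∈ Y'.image (fun x => xc (R x)),
        (Y'.filter (fun x => xc (R x) = c)).card ≤ 2 := by
      intro c hc
      obtain ⟨x1, hx1, rfl⟩ := Finset.mem_image.1 hc
      have h3 : (Y'.filter (fun x => xc (R x) = xc (R x1))).card =
          ((Y'.filter (fun x => xc (R x) = xc (R x1))).image R).card := by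
        rw [Finset.card_image_of_injOn]
        intro x hx x' hx' h
        exact hRinj (Finset.mem_filter.1 hx).1 (Finset.mem_filter.1 hx').1 h
      rw [h3]
      refine (Finset.card_le_card (t := {R x1, -(R x1)}) ?_).trans Finset.card_le_two
      intro r hr
      obtain ⟨x, hx, rfl⟩ := Finset.mem_image.1 hr
      obtain ⟨hx2, hx3⟩ := Finset.mem_filter.1 hx
      rw [Finset.mem_insert, Finset.mem_singleton]
      exact xc_eq (hprop x hx2).1 (hprop x1 hx1).1 hx3
    have h3 := Finset.card_le_mul_card_image _ _ h2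
    have h4 : Y.card ≤ Y'.card + 1 := by
      rw [hY', Finset.card_erase_of_mem hx0]
      omega
    have h5 : V ^ (76 * (d : ℝ) / (4 ^ k + 1)) ≤ V ^ (ε / 2) :=
      Real.rpow_le_rpow_of_exponent_le hV hk
    calc (Y.card : ℝ) ≤ (Y'.card : ℝ) + 1 := by exact_mod_cast h4
      _ ≤ (2 * (Y'.image (fun x => xc (R x))).card : ℕ) + 1 := by
        have : (Y'.card : ℝ) ≤ (2 * (Y'.image (fun x => xc (R x))).card : ℕ) := by
          exact_mod_cast h3
        linarith
      _ ≤ 2 * (C3 * V ^ (ε / 2)) + 1 := by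
        push_cast
        have h6 : C3 * V ^ (76 * (d : ℝ) / (4 ^ k + 1)) ≤ C3 * V ^ (ε / 2) := by gcongr
        linarith
      _ = _ := by ring
  have hsumc : S.card = ∑ c ∈ F, (S.filter (fun x => f x = c)).card :=
    Finset.card_eq_sum_card_fiberwise fun x _ => hf x
  have hV2 : 1 ≤ V ^ (ε / 2) := Real.one_le_rpow hV (by positivity)
  calc (S.card : ℝ) = ∑ c ∈ F, ((S.filter (fun x => f x = c)).card : ℝ) := by
        rw [hsumc]; push_cast; rfl
    _ ≤ ∑ _c ∈ F, (1 + 2 * C3 * V ^ (ε / 2)) := Finset.sum_le_sum hfib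
    _ = F.card * (1 + 2 * C3 * V ^ (ε / 2)) := by rw [Finset.sum_const, nsmul_eq_mul]
    _ ≤ (C4 * V ^ (ε / 2)) * ((1 + 2 * C3) * V ^ (ε / 2)) := by
        have h7 : 1 + 2 * C3 * V ^ (ε / 2) ≤ (1 + 2 * C3) * V ^ (ε / 2) := by nlinarith
        have h8 : 0 ≤ 1 + 2 * C3 * V ^ (ε / 2) := by positivity
        gcongr
    _ = C4 * (1 + 2 * C3) * (V ^ (ε / 2) * V ^ (ε / 2)) := by ring
    _ = _ := by
      rw [← Real.rpow_add (by linarith)]
      ring_nf

end Pool.Agent.K9h15.Core
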