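import Mathlib

/-!
# Algebra of the quartics `c ((X ^ 2 + a₁ X + a₀) ^ 2 - m (b₁ X + b₀) ^ 2)`
-/

set_option autoImplicit false

namespace Pool.Agent.K9h15.Fib

variable {K : Type*} [Field K]

/-- the quadratic part -/
def qA (a1 a0 x : K) : K := x ^ 2 + a1 * x + a0

/-- the linear part -/
def qB (b1 b0 x : K) : K := b1 * x + b0

/-- the norm form -/
def nf (m a1 a0 b1 b0 x : K) : K := qA a1 a0 x ^ 2 - m * qB b1 b0 x ^ 2

/-- the resultant of the two parts -/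
def rho {R : Type*} [CommRing R] (a1 a0 b1 b0 : R) : R := b0 ^ 2 - a1 * b0 * b1 + a0 * b1 ^ 2

/-- the product of the two discriminants -/
def del {R : Type*} [CommRing R] (m a1 a0 b1 b0 : R) : R :=
  (a1 ^ 2 + m * b1 ^ 2 - 4 * a0) ^ 2 - m * (2 * a1 * b1 - 4 * b0) ^ 2

/-- half of the linear coefficient of the first part seen from `s` -/
def al (m a1 a0 b1 b0 s : K) : K :=
  ((2 * s + a1) * qA a1 a0 s - m * b1 * qB b1 b0 s) / nf m a1 a0 b1 b0 s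

/-- the constant coefficient of the first part seen from `s` -/
def th (m a1 a0 b1 b0 s : K) : K := qA a1 a0 s / nf m a1 a0 b1 b0 s

/-- the linear coefficient of the second part seen from `s` -/
def e1 (m a1 a0 b1 b0 s : K) : K :=
  (b1 * qA a1 a0 s - (2 * s + a1) * qB b1 b0 s) / nf m a1 a0 b1 b0 s

/-- the constant coefficient of the second part seen from `s` -/
def e0 (m a1 a0 b1 b0 s : K) : K := -qB b1 b0 s / nf m a1 a0 b1 b0 s

/-- the first coefficient of the elliptic curve -/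
def ea (m α θ f1 : K) : K := α ^ 2 - 4 * θ - m * f1 ^ 2

/-- the second coefficient of the elliptic curve -/
def eb (m α θ f1 f0 : K) : K := 4 * m * (f0 ^ 2 - α * f1 * f0 + θ * f1 ^ 2)

lemma eb_eq {m a1 a0 b1 b0 s : K} (h : nf m a1 a0 b1 b0 s ≠ 0) :
    eb m (al m a1 a0 b1 b0 s) (th m a1 a0 b1 b0 s) (e1 m a1 a0 b1 b0 s) (e0 m a1 a0 b1 b0 s) =
      4 * m * rho a1 a0 b1 b0 / nf m a1 a0 b1 b0 s ^ 2 := by
  unfold eb al th e1 e0
  obtain ⟨n, hn⟩ : ∃ n, n = nf m a1 a0 b1 b0 s := ⟨_, rfl⟩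
  rw [← hn] at h ⊢
  have h2 : n = qA a1 a0 s ^ 2 - m * qB b1 b0 s ^ 2 := hn
  have h3 : (4 * m * ((-qB b1 b0 s / n) ^ 2 - ((2 * s + a1) * qA a1 a0 s - m * b1 * qB b1 b0 s) / n *
      ((b1 * qA a1 a0 s - (2 * s + a1) * qB b1 b0 s) / n) * (-qB b1 b0 s / n) +
      qA a1 a0 s / n * ((b1 * qA a1 a0 s - (2 * s + a1) * qB b1 b0 s) / n) ^ 2)) * n ^ 3 =
      4 * m * (qB b1 b0 s ^ 2 * n + ((2 * s + a1) * qA a1 a0 s - m * b1 * qB b1 b0 s) *
      (b1 * qA a1 a0 s - (2 * s + a1) * qB b1 b0 s) * qB b1 b0 s +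
      qA a1 a0 s * (b1 * qA a1 a0 s - (2 * s + a1) * qB b1 b0 s) ^ 2) := by
    field_simp
    ring
  have h4 : (4 * m * rho a1 a0 b1 b0 / n ^ 2) * n ^ 3 = 4 * m * rho a1 a0 b1 b0 * n := by
    field_simp
  apply mul_right_cancel₀ (pow_ne_zero 3 h)
  rw [h3, h4, h2]
  unfold qA qB rho
  ring

lemma disc_eq {m a1 a0 b1 b0 s : K} (h : nf m a1 a0 b1 b0 s ≠ 0) :
    ea m (al m a1 a0 b1 b0 s) (th m a1 a0 b1 b0 s) (e1 m a1 a0 b1 b0 s) ^ 2 - 4 *
    eb m (al m a1 a0 b1 b0 s) (th m a1 a0 b1 b0 s) (e1 m a1 a0 b1 b0 s) (e0 m a1 a0 b1 b0 s) =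
      del m a1 a0 b1 b0 / nf m a1 a0 b1 b0 s ^ 2 := by
  rw [eb_eq h]
  unfold ea al th e1
  obtain ⟨n, hn⟩ : ∃ n, n = nf m a1 a0 b1 b0 s := ⟨_, rfl⟩
  rw [← hn] at h ⊢
  have h2 : n = qA a1 a0 s ^ 2 - m * qB b1 b0 s ^ 2 := hn
  -- first the coefficient
  have h5 : (((2 * s + a1) * qA a1 a0 s - m * b1 * qB b1 b0 s) / n) ^ 2 - 4 * (qA a1 a0 s / n) -
      m * ((b1 * qA a1 a0 s - (2 * s + a1) * qB b1 b0 s) / n) ^ 2 =
      (a1 ^ 2 - m * b1 ^ 2 - 4 * a0) / n := by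
    apply mul_right_cancel₀ (pow_ne_zero 2 h)
    have h6 : ((((2 * s + a1) * qA a1 a0 s - m * b1 * qB b1 b0 s) / n) ^ 2 -
        4 * (qA a1 a0 s / n) -
        m * ((b1 * qA a1 a0 s - (2 * s + a1) * qB b1 b0 s) / n) ^ 2) * n ^ 2 =
        ((2 * s + a1) * qA a1 a0 s - m * b1 * qB b1 b0 s) ^ 2 - 4 * qA a1 a0 s * n -
        m * (b1 * qA a1 a0 s - (2 * s + a1) * qB b1 b0 s) ^ 2 := by
      field_simp
    have h7 : (a1 ^ 2 - m * b1 ^ 2 - 4 * a0) / n * n ^ 2 =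
        (a1 ^ 2 - m * b1 ^ 2 - 4 * a0) * n := by
      field_simp
    rw [h6, h7, h2]
    unfold qA qB
    ring
  rw [h5]
  unfold rho del
  field_simp
  ring

/-- the equation between the new coordinate and the old one -/
lemma rel_eq {m a1 a0 b1 b0 s τ κ : K} (h : nf m a1 a0 b1 b0 s ≠ 0) (hτ : τ ≠ s)
    (hκ : nf m a1 a0 b1 b0 τ / nf m a1 a0 b1 b0 s = κ ^ 2) (u x : K) (hu : u = 1 / (τ - s))
    (hx : x = 2 * ((u ^ 2 + al m a1 a0 b1 b0 s * u + th m a1 a0 b1 b0 s) - κ * u ^ 2)) :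
    x ^ 2 - 4 * x * (u ^ 2 + al m a1 a0 b1 b0 s * u + th m a1 a0 b1 b0 s) +
      4 * m * (e1 m a1 a0 b1 b0 s * u + e0 m a1 a0 b1 b0 s) ^ 2 = 0 := by
  have hτs : τ - s ≠ 0 := sub_ne_zero.2 hτ
  have hu0 : u ≠ 0 := by rw [hu]; exact one_div_ne_zero hτs
  have key : (u ^ 2 + al m a1 a0 b1 b0 s * u + th m a1 a0 b1 b0 s) ^ 2 -
      m * (e1 m a1 a0 b1 b0 s * u + e0 m a1 a0 b1 b0 s) ^ 2 = (κ * u ^ 2) ^ 2 := by
    rw [mul_pow, ← hκ]
    have hτ' : τ = s + 1 / u := by rw [hu]; field_simp; ring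
    have h1 : u ^ 2 + al m a1 a0 b1 b0 s * u + th m a1 a0 b1 b0 s =
        u ^ 2 * (qA a1 a0 τ * qA a1 a0 s - m * qB b1 b0 τ * qB b1 b0 s) /
          nf m a1 a0 b1 b0 s := by
      unfold al th
      rw [eq_div_iff h]
      have h2 : (u ^ 2 + ((2 * s + a1) * qA a1 a0 s - m * b1 * qB b1 b0 s) /
          nf m a1 a0 b1 b0 s * u + qA a1 a0 s / nf m a1 a0 b1 b0 s) * nf m a1 a0 b1 b0 s =
          u ^ 2 * nf m a1 a0 b1 b0 s + ((2 * s + a1) * qA a1 a0 s - m * b1 * qB b1 b0 s) * u +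
            qA a1 a0 s := by
        field_simp
      rw [h2, hτ']
      unfold nf qA qB
      field_simp
      ring
    have h3 : e1 m a1 a0 b1 b0 s * u + e0 m a1 a0 b1 b0 s =
        u ^ 2 * (qB b1 b0 τ * qA a1 a0 s - qA a1 a0 τ * qB b1 b0 s) / nf m a1 a0 b1 b0 s := by
      unfold e1 e0
      rw [eq_div_iff h]
      have h2 : ((b1 * qA a1 a0 s - (2 * s + a1) * qB b1 b0 s) / nf m a1 a0 b1 b0 s * u +
          -qB b1 b0 s / nf m a1 a0 b1 b0 s) * nf m a1 a0 b1 b0 s =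
          (b1 * qA a1 a0 s - (2 * s + a1) * qB b1 b0 s) * u - qB b1 b0 s := by
        field_simp
        ring
      rw [h2, hτ']
      unfold qA qB
      field_simp
      ring
    rw [h1, h3]
    have h4 : (u ^ 2 * (qA a1 a0 τ * qA a1 a0 s - m * qB b1 b0 τ * qB b1 b0 s) /
        nf m a1 a0 b1 b0 s) ^ 2 - m * (u ^ 2 * (qB b1 b0 τ * qA a1 a0 s -
          qA a1 a0 τ * qB b1 b0 s) / nf m a1 a0 b1 b0 s) ^ 2 =
        ((u ^ 2) ^ 2 * (nf m a1 a0 b1 b0 τ * nf m a1 a0 b1 b0 s)) / nf m a1 a0 b1 b0 s ^ 2 := by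
      rw [div_pow, div_pow, mul_div_assoc', ← sub_div]
      congr 1
      unfold nf
      ring
    rw [h4]
    field_simp
  rw [hx]
  linear_combination (-4 : K) * key

/-- the elliptic curve -/
lemma curve_eq {m α θ f1 f0 u x : K}
    (h : x ^ 2 - 4 * x * (u ^ 2 + α * u + θ) + 4 * m * (f1 * u + f0) ^ 2 = 0) :
    (2 * m * f1 * (f1 * u + f0) - x * (2 * u + α)) ^ 2 =
      x * (x ^ 2 + ea m α θ f1 * x + eb m α θ f1 f0) := by
  unfold ea eb
  linear_combination (m * f1 ^ 2 - x) * h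

/-- the quadratic equation for `u` is not trivial -/
lemma not_all_zero {m α θ f1 f0 x : K} (hb : eb m α θ f1 f0 ≠ 0)
    (hd : ea m α θ f1 ^ 2 - 4 * eb m α θ f1 f0 ≠ 0)
    (h2 : m * f1 ^ 2 - x = 0) (h1 : 2 * m * f1 * f0 - α * x = 0)
    (h0 : x ^ 2 - 4 * θ * x + 4 * m * f0 ^ 2 = 0) : False := by
  have hx : x = m * f1 ^ 2 := by linear_combination -h2
  have hx0 : x ≠ 0 := by
    intro h
    have hm : m = 0 ∨ f1 = 0 := by
      rw [h] at hx
      rcases mul_eq_zero.1 hx.symm with h3 | h3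
      · exact Or.inl h3
      · exact Or.inr (pow_eq_zero_iff two_ne_zero |>.1 h3)
    apply hb
    unfold eb
    rcases hm with hm | hf
    · rw [hm]; ring
    · rw [h] at h0
      rw [hf]
      linear_combination h0
  have hf1 : f1 ≠ 0 := by
    rintro rfl
    apply hx0
    rw [hx]; ring
  have hm : m ≠ 0 := by
    rintro rfl
    apply hx0
    rw [hx]; ring
  have hα : 2 * f0 = α * f1 := by
    have h3 : m * f1 * (2 * f0 - α * f1) = 0 := by rw [hx] at h1; linear_combination h1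
    have h4 := (mul_eq_zero.1 h3).resolve_left (mul_ne_zero hm hf1)
    linear_combination h4
  have hθ : 4 * θ = x + α ^ 2 := by
    have h3 : x * (4 * θ - x - α ^ 2) = 0 := by
      have h5 : 4 * m * f0 ^ 2 = x * α ^ 2 := by
        rw [hx]
        linear_combination (m * (2 * f0 + α * f1)) * hα
      linear_combination h5 - h0
    have h4 := (mul_eq_zero.1 h3).resolve_left hx0
    linear_combination h4
  apply hd
  have ha : ea m α θ f1 = -2 * x := by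
    unfold ea
    rw [hθ, ← hx]
    ring
  have hb' : eb m α θ f1 f0 = x ^ 2 := by
    unfold eb
    have h6 : 4 * m * (f0 ^ 2 - α * f1 * f0 + θ * f1 ^ 2) =
        m * (2 * f0) ^ 2 - 2 * m * α * f1 * (2 * f0) + m * f1 ^ 2 * (4 * θ) := by ring
    rw [h6, hα, hθ, ← hx]
    rw [hx]
    ring
  rw [ha, hb']
  ring

end Pool.Agent.K9h15.Fib
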