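import Mathlib
import Pool.Agent.K9h15.CoreE
import Pool.Agent.K9h15.FibA

/-!
# Uniform bound for the points of `y ^ 2 = g(x) r(x)`, `g` a norm form of degree four
-/

set_option autoImplicit false

open IsDedekindDomain NumberField Height Polynomial

namespace Pool.Agent.K9h15.Fib

open Pool.Agent.K9h15.Pla Pool.Agent.K9h15.Bad Pool.Agent.K9h15.Cls Pool.Agent.K9h15.Det

section pb

variable {K : Type} [Field K] [NumberField K]

/-- functions of polynomially bounded height -/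
def PB {n : ℕ} (f : (Fin n → K) → K) : Prop :=
  ∃ (c : ℝ) (N : ℕ), 1 ≤ c ∧ ∀ (V : ℝ), 1 ≤ V → ∀ X : Fin n → K, (∀ i, mulHeight₁ (X i) ≤ V) →
    mulHeight₁ (f X) ≤ c * V ^ N

lemma PB.const {n : ℕ} (z : K) : PB (fun _ : Fin n → K => z) :=
  ⟨mulHeight₁ z, 0, one_le_mulHeight₁ z, fun V _ X _ => by rw [pow_zero, mul_one]⟩

lemma PB.var {n : ℕ} (i : Fin n) : PB (fun X : Fin n → K => X i) :=
  ⟨1, 1, le_rfl, fun V _ X h => by rw [pow_one, one_mul]; exact h i⟩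

lemma PB.add {n : ℕ} {f g : (Fin n → K) → K} (hf : PB f) (hg : PB g) :
    PB (fun X => f X + g X) := by
  obtain ⟨c, N, hc, h⟩ := hf
  obtain ⟨c', N', hc', h'⟩ := hg
  have hw : (1 : ℝ) ≤ 2 ^ totalWeight K := one_le_pow₀ (by norm_num)
  refine ⟨2 ^ totalWeight K * c * c', N + N', one_le_mul_of_one_le_of_one_le
    (one_le_mul_of_one_le_of_one_le hw hc) hc', ?_⟩
  intro V hV X hX
  have h1 := h V hV X hX
  have h2 := h' V hV X hX
  have := mulHeight₁_pos (f X)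
  have := mulHeight₁_pos (g X)
  calc mulHeight₁ (f X + g X) ≤ 2 ^ totalWeight K * mulHeight₁ (f X) * mulHeight₁ (g X) :=
        mulHeight₁_add_le _ _
    _ ≤ 2 ^ totalWeight K * (c * V ^ N) * (c' * V ^ N') := by gcongr
    _ = _ := by ring

lemma PB.neg {n : ℕ} {f : (Fin n → K) → K} (hf : PB f) : PB (fun X => -f X) := by
  obtain ⟨c, N, hc, h⟩ := hf
  exact ⟨c, N, hc, fun V hV X hX => by rw [mulHeight₁_neg]; exact h V hV X hX⟩

lemma PB.sub {n : ℕ} {f g : (Fin n → K) → K} (hf : PB f) (hg : PB g) :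
    PB (fun X => f X - g X) := by
  have := hf.add hg.neg
  simpa only [sub_eq_add_neg] using this

lemma PB.mul {n : ℕ} {f g : (Fin n → K) → K} (hf : PB f) (hg : PB g) :
    PB (fun X => f X * g X) := by
  obtain ⟨c, N, hc, h⟩ := hf
  obtain ⟨c', N', hc', h'⟩ := hg
  refine ⟨c * c', N + N', one_le_mul_of_one_le_of_one_le hc hc', ?_⟩
  intro V hV X hX
  have h1 := h V hV X hX
  have h2 := h' V hV X hX
  have := mulHeight₁_pos (f X)
  have := mulHeight₁_pos (g X)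
  calc mulHeight₁ (f X * g X) ≤ mulHeight₁ (f X) * mulHeight₁ (g X) := mulHeight₁_mul_le _ _
    _ ≤ (c * V ^ N) * (c' * V ^ N') := by gcongr
    _ = _ := by ring

lemma PB.inv {n : ℕ} {f : (Fin n → K) → K} (hf : PB f) : PB (fun X => (f X)⁻¹) := by
  obtain ⟨c, N, hc, h⟩ := hf
  exact ⟨c, N, hc, fun V hV X hX => by rw [mulHeight₁_inv]; exact h V hV X hX⟩

lemma PB.div {n : ℕ} {f g : (Fin n → K) → K} (hf : PB f) (hg : PB g) :
    PB (fun X => f X / g X) := by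
  have := hf.mul hg.inv
  simpa only [div_eq_mul_inv] using this

lemma PB.sq {n : ℕ} {f : (Fin n → K) → K} (hf : PB f) : PB (fun X => (f X) ^ 2) := by
  have := hf.mul hf
  simpa only [pow_two] using this

lemma pb_qA {n : ℕ} {a1 a0 x : (Fin n → K) → K} (h1 : PB a1) (h0 : PB a0) (hx : PB x) :
    PB (fun X => qA (a1 X) (a0 X) (x X)) := by
  unfold qA
  exact (hx.sq.add (h1.mul hx)).add h0

lemma pb_qB {n : ℕ} {b1 b0 x : (Fin n → K) → K} (h1 : PB b1) (h0 : PB b0) (hx : PB x) :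
    PB (fun X => qB (b1 X) (b0 X) (x X)) := by
  unfold qB
  exact (h1.mul hx).add h0

lemma pb_nf {n : ℕ} {m a1 a0 b1 b0 x : (Fin n → K) → K} (hm : PB m) (h1 : PB a1) (h0 : PB a0)
    (k1 : PB b1) (k0 : PB b0) (hx : PB x) :
    PB (fun X => nf (m X) (a1 X) (a0 X) (b1 X) (b0 X) (x X)) := by
  unfold nf
  exact (pb_qA h1 h0 hx).sq.sub (hm.mul (pb_qB k1 k0 hx).sq)

lemma pb_al {n : ℕ} {m a1 a0 b1 b0 x : (Fin n → K) → K} (hm : PB m) (h1 : PB a1) (h0 : PB a0)
    (k1 : PB b1) (k0 : PB b0) (hx : PB x) :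
    PB (fun X => al (m X) (a1 X) (a0 X) (b1 X) (b0 X) (x X)) := by
  unfold al
  exact (((((PB.const 2).mul hx).add h1).mul (pb_qA h1 h0 hx)).sub
    ((hm.mul k1).mul (pb_qB k1 k0 hx))).div (pb_nf hm h1 h0 k1 k0 hx)

lemma pb_th {n : ℕ} {m a1 a0 b1 b0 x : (Fin n → K) → K} (hm : PB m) (h1 : PB a1) (h0 : PB a0)
    (k1 : PB b1) (k0 : PB b0) (hx : PB x) :
    PB (fun X => th (m X) (a1 X) (a0 X) (b1 X) (b0 X) (x X)) := by
  unfold th
  exact (pb_qA h1 h0 hx).div (pb_nf hm h1 h0 k1 k0 hx)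

lemma pb_e1 {n : ℕ} {m a1 a0 b1 b0 x : (Fin n → K) → K} (hm : PB m) (h1 : PB a1) (h0 : PB a0)
    (k1 : PB b1) (k0 : PB b0) (hx : PB x) :
    PB (fun X => e1 (m X) (a1 X) (a0 X) (b1 X) (b0 X) (x X)) := by
  unfold e1
  exact ((k1.mul (pb_qA h1 h0 hx)).sub ((((PB.const 2).mul hx).add h1).mul
    (pb_qB k1 k0 hx))).div (pb_nf hm h1 h0 k1 k0 hx)

lemma pb_e0 {n : ℕ} {m a1 a0 b1 b0 x : (Fin n → K) → K} (hm : PB m) (h1 : PB a1) (h0 : PB a0)
    (k1 : PB b1) (k0 : PB b0) (hx : PB x) :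
    PB (fun X => e0 (m X) (a1 X) (a0 X) (b1 X) (b0 X) (x X)) := by
  unfold e0
  exact (pb_qB k1 k0 hx).neg.div (pb_nf hm h1 h0 k1 k0 hx)

lemma pb_ea {n : ℕ} {m α θ f1 : (Fin n → K) → K} (hm : PB m) (h1 : PB α) (h0 : PB θ)
    (k1 : PB f1) : PB (fun X => ea (m X) (α X) (θ X) (f1 X)) := by
  unfold ea
  exact (h1.sq.sub ((PB.const 4).mul h0)).sub (hm.mul k1.sq)

lemma pb_eb {n : ℕ} {m α θ f1 f0 : (Fin n → K) → K} (hm : PB m) (h1 : PB α) (h0 : PB θ)
    (k1 : PB f1) (k0 : PB f0) : PB (fun X => eb (m X) (α X) (θ X) (f1 X) (f0 X)) := by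
  unfold eb
  exact ((PB.const 4).mul hm).mul ((k0.sq.sub ((h1.mul k1).mul k0)).add (h0.mul k1.sq))

/-- all heights of the reduction are polynomially bounded -/
lemma reduction_height (K : Type) [Field K] [NumberField K] : ∃ (c : ℝ) (N : ℕ), 1 ≤ c ∧
    ∀ (V : ℝ), 1 ≤ V → ∀ m a1 a0 b1 b0 s τ κ : K, mulHeight₁ m ≤ V → mulHeight₁ a1 ≤ V →
      mulHeight₁ a0 ≤ V → mulHeight₁ b1 ≤ V → mulHeight₁ b0 ≤ V → mulHeight₁ s ≤ V →
      mulHeight₁ τ ≤ V → nf m a1 a0 b1 b0 τ / nf m a1 a0 b1 b0 s = κ ^ 2 →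
      mulHeight₁ (ea m (al m a1 a0 b1 b0 s) (th m a1 a0 b1 b0 s) (e1 m a1 a0 b1 b0 s)) ≤ c * V ^ N ∧
      mulHeight₁ (eb m (al m a1 a0 b1 b0 s) (th m a1 a0 b1 b0 s) (e1 m a1 a0 b1 b0 s)
        (e0 m a1 a0 b1 b0 s)) ≤ c * V ^ N ∧
      mulHeight₁ (2 * (((1 / (τ - s)) ^ 2 + al m a1 a0 b1 b0 s * (1 / (τ - s)) +
        th m a1 a0 b1 b0 s) - κ * (1 / (τ - s)) ^ 2)) ≤ c * V ^ N := by
  have v : ∀ i : Fin 7, PB (fun X : Fin 7 → K => X i) := fun i => PB.var i
  have pal := pb_al (v 0) (v 1) (v 2) (v 3) (v 4) (v 5)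
  have pth := pb_th (v 0) (v 1) (v 2) (v 3) (v 4) (v 5)
  have pe1 := pb_e1 (v 0) (v 1) (v 2) (v 3) (v 4) (v 5)
  have pe0 := pb_e0 (v 0) (v 1) (v 2) (v 3) (v 4) (v 5)
  have pns := pb_nf (v 0) (v 1) (v 2) (v 3) (v 4) (v 5)
  have pnt := pb_nf (v 0) (v 1) (v 2) (v 3) (v 4) (v 6)
  have pea := pb_ea (v 0) pal pth pe1
  have peb := pb_eb (v 0) pal pth pe1 pe0
  have pu := (PB.const (1 : K)).div ((v 6).sub (v 5))
  have pk := pnt.div pns
  have pA := (pu.sq.add (pal.mul pu)).add pth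
  have pU := pu.sq
  obtain ⟨c1, N1, hc1, h1⟩ := pea
  obtain ⟨c2, N2, hc2, h2⟩ := peb
  obtain ⟨c3, N3, hc3, h3⟩ := pk
  obtain ⟨c4, N4, hc4, h4⟩ := pA
  obtain ⟨c5, N5, hc5, h5⟩ := pU
  set w : ℝ := 2 ^ totalWeight K with hw
  have hw1 : 1 ≤ w := one_le_pow₀ (by norm_num)
  have h21 : 1 ≤ mulHeight₁ (2 : K) := one_le_mulHeight₁ _
  set c6 : ℝ := mulHeight₁ (2 : K) * (w * c4 * (c3 * c5)) with hc6
  have hc61 : 1 ≤ c6 := one_le_mul_of_one_le_of_one_le h21 (one_le_mul_of_one_le_of_one_le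
    (one_le_mul_of_one_le_of_one_le hw1 hc4) (one_le_mul_of_one_le_of_one_le hc3 hc5))
  refine ⟨c1 * c2 * c6, N1 + N2 + (N4 + (N3 + N5)), one_le_mul_of_one_le_of_one_le
    (one_le_mul_of_one_le_of_one_le hc1 hc2) hc61, ?_⟩
  intro V hV m a1 a0 b1 b0 s τ κ hm k1 k2 k3 k4 k5 k6 hκ
  have hX : ∀ i : Fin 7, mulHeight₁ ((![m, a1, a0, b1, b0, s, τ] : Fin 7 → K) i) ≤ V := by
    intro i
    fin_cases i <;> assumption
  have g1 := h1 V hV _ hX
  have g2 := h2 V hV _ hX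
  have g3 := h3 V hV _ hX
  have g4 := h4 V hV _ hX
  have g5 := h5 V hV _ hX
  have hκh : mulHeight₁ κ ≤ c3 * V ^ N3 := by
    have g3' : mulHeight₁ (nf m a1 a0 b1 b0 τ / nf m a1 a0 b1 b0 s) ≤ c3 * V ^ N3 := g3
    rw [hκ, mulHeight₁_pow] at g3'
    have h7 := one_le_mulHeight₁ κ
    nlinarith
  have mono : ∀ (t A B : ℝ), t ≤ A → A ≤ B → t ≤ B := fun t A B h h' => h.trans h'
  have hVp : ∀ n : ℕ, 1 ≤ V ^ n := fun n => one_le_pow₀ hV
  refine ⟨?_, ?_, ?_⟩
  · refine mono _ _ _ g1 ?_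
    calc c1 * V ^ N1 = c1 * 1 * 1 * (V ^ N1 * 1 * 1) := by ring
      _ ≤ c1 * c2 * c6 * (V ^ N1 * V ^ N2 * V ^ (N4 + (N3 + N5))) := by
        have := hVp N1
        have := hVp N2
        have := hVp (N4 + (N3 + N5))
        gcongr
      _ = _ := by rw [← pow_add, ← pow_add]
  · refine mono _ _ _ g2 ?_
    calc c2 * V ^ N2 = 1 * c2 * 1 * (1 * V ^ N2 * 1) := by ring
      _ ≤ c1 * c2 * c6 * (V ^ N1 * V ^ N2 * V ^ (N4 + (N3 + N5))) := by
        have := hVp N1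
        have := hVp N2
        have := hVp (N4 + (N3 + N5))
        gcongr
      _ = _ := by rw [← pow_add, ← pow_add]
  · have g4' : mulHeight₁ ((1 / (τ - s)) ^ 2 + al m a1 a0 b1 b0 s * (1 / (τ - s)) +
        th m a1 a0 b1 b0 s) ≤ c4 * V ^ N4 := g4
    have g5' : mulHeight₁ ((1 / (τ - s)) ^ 2) ≤ c5 * V ^ N5 := g5
    have e1 : mulHeight₁ (κ * (1 / (τ - s)) ^ 2) ≤ (c3 * V ^ N3) * (c5 * V ^ N5) := by
      refine (mulHeight₁_mul_le _ _).trans ?_
      have := mulHeight₁_pos κ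
      gcongr
    have e2 : mulHeight₁ (((1 / (τ - s)) ^ 2 + al m a1 a0 b1 b0 s * (1 / (τ - s)) +
        th m a1 a0 b1 b0 s) - κ * (1 / (τ - s)) ^ 2) ≤ w * (c4 * V ^ N4) *
          ((c3 * V ^ N3) * (c5 * V ^ N5)) := by
      refine (mulHeight₁_sub_le _ _).trans ?_
      rw [← hw]
      gcongr
    refine (mulHeight₁_mul_le _ _).trans ?_
    calc mulHeight₁ (2 : K) * _ ≤ mulHeight₁ (2 : K) * (w * (c4 * V ^ N4) *
          ((c3 * V ^ N3) * (c5 * V ^ N5))) := by gcongr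
      _ = 1 * 1 * c6 * (1 * 1 * V ^ (N4 + (N3 + N5))) := by
        rw [hc6, pow_add, pow_add]; ring
      _ ≤ c1 * c2 * c6 * (V ^ N1 * V ^ N2 * V ^ (N4 + (N3 + N5))) := by
        have := hVp N1
        have := hVp N2
        gcongr
      _ = _ := by rw [← pow_add, ← pow_add]

end pb

section main

variable {K : Type} [Field K]

/-- the quartic polynomial -/
noncomputable def gp {R : Type*} [CommRing R] (c m a1 a0 b1 b0 : R) : R[X] :=
  C c * ((X ^ 2 + C a1 * X + C a0) ^ 2 - C m * (C b1 * X + C b0) ^ 2)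

lemma gp_eval (c m a1 a0 b1 b0 x : K) :
    (gp c m a1 a0 b1 b0).eval x = c * nf m a1 a0 b1 b0 x := by
  simp [gp, nf, qA, qB]

lemma gp_coeff4 (c m a1 a0 b1 b0 : K) : (gp c m a1 a0 b1 b0).coeff 4 = c := by
  have h : gp c m a1 a0 b1 b0 = C c * X ^ 4 + C c * (C (2 * a1) * X ^ 3 +
      C (a1 ^ 2 + 2 * a0 - m * b1 ^ 2) * X ^ 2 + C (2 * a1 * a0 - 2 * m * b1 * b0) * X +
      C (a0 ^ 2 - m * b0 ^ 2)) := by
    unfold gp
    simp only [map_mul, map_add, map_sub, map_pow, map_ofNat]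
    ring
  rw [h, coeff_add, coeff_C_mul, coeff_C_mul, coeff_X_pow, if_pos rfl,
    coeff_eq_zero_of_natDegree_lt (lt_of_le_of_lt natDegree_cubic_le (by norm_num))]
  ring

lemma quad_card [DecidableEq K] {p q r : K} (h : ¬ (p = 0 ∧ q = 0 ∧ r = 0)) (S : Finset K)
    (hS : ∀ x ∈ S, p * x ^ 2 + q * x + r = 0) : S.card ≤ 2 := by
  have hf : (C p * X ^ 2 + C q * X + C r : K[X]) ≠ 0 := by
    intro h0
    apply h
    have h1 := congrArg (fun P : K[X] => P.coeff 2) h0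
    have h2 := congrArg (fun P : K[X] => P.coeff 1) h0
    have h3 := congrArg (fun P : K[X] => P.coeff 0) h0
    simp [coeff_X, coeff_C] at h1 h2 h3
    exact ⟨h1, h2, h3⟩
  have h1 : S ⊆ (C p * X ^ 2 + C q * X + C r : K[X]).roots.toFinset := by
    intro x hx
    rw [Multiset.mem_toFinset, mem_roots hf, IsRoot.def]
    simpa using hS x hx
  refine (Finset.card_le_card h1).trans ((Multiset.toFinset_card_le _).trans ?_)
  refine (card_roots' _).trans ?_
  exact natDegree_quadratic_le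

variable [NumberField K]

lemma bad_count_fintype (ι : Type) [Fintype ι] (ε : ℝ) (hε : 0 < ε) :
    ∃ C : ℝ, 1 ≤ C ∧ ∀ (c : ι → K) (V : ℝ), 1 ≤ V → (∀ i, mulHeight₁ (c i) ≤ V) →
      ∀ (S : Finset (HeightOneSpectrum (𝓞 K))), (∀ v ∈ S, ∃ i, 1 < av v (c i)) →
      (2 : ℝ) ^ S.card ≤ C * V ^ ε := by
  obtain ⟨C, hC, h⟩ := bad_count' K (Fintype.card ι) ε hε
  refine ⟨C, hC, ?_⟩
  intro c V hV hc S hS
  let e := Fintype.equivFin ι
  refine h (fun i => c (e.symm i)) V hV (fun i => hc _) S ?_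
  intro v hv
  obtain ⟨i, hi⟩ := hS v hv
  exact ⟨e i, by simpa using hi⟩

lemma intg_eval (v : HeightOneSpectrum (𝓞 K)) {P : K[X]} (hP : Intg (av v) P) {x : K}
    (hx : av v x ≤ 1) : av v (P.eval x) ≤ 1 := by
  rw [eval_eq_sum_range]
  apply na_sum_le (av_nonarch v) _ _ zero_le_one
  intro i _
  rw [map_mul, map_pow]
  exact mul_le_one₀ (hP i) (by positivity) (pow_le_one₀ (apply_nonneg _ _) hx)

/-- the orders of the values of the quartic are even at the good places -/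
lemma even_class (v : HeightOneSpectrum (𝓞 K)) {c m a1 a0 b1 b0 : K} {r u w : K[X]}
    (hc : av v c = 1) (hm : av v m ≤ 1) (h1 : av v a1 ≤ 1) (h0 : av v a0 ≤ 1)
    (k1 : av v b1 ≤ 1) (k0 : av v b0 ≤ 1) (hr : Intg (av v) r) (hu : Intg (av v) u)
    (hw : Intg (av v) w) (hbz : u * gp c m a1 a0 b1 b0 + w * r = 1) {τ y : K}
    (hg : (gp c m a1 a0 b1 b0).eval τ ≠ 0) (hrτ : r.eval τ ≠ 0)
    (hy : y ^ 2 = (gp c m a1 a0 b1 b0).eval τ * r.eval τ) :
    Even (Multiplicative.toAdd (v.valuationOfNeZero (Units.mk0 _ hg))) := by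
  have hy0 : y ≠ 0 := by
    intro h
    rw [h] at hy
    exact mul_ne_zero hg hrτ (by rw [← hy]; ring)
  have hna := av_nonarch v
  have hmax : ∀ x y : K, av v y < av v x → av v (x + y) = av v x := by
    intro x y hxy
    apply le_antisymm
    · exact (hna _ _).trans (max_le le_rfl hxy.le)
    · have h1 : av v x ≤ max (av v (x + y)) (av v y) := by
        have h2 := hna (x + y) (-y)
        rw [add_neg_cancel_right, (av v).map_neg] at h2
        exact h2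
      rcases le_max_iff.1 h1 with h | h
      · exact h
      · exact absurd hxy (not_lt.2 h)
  have heq : ∀ x z : Kˣ, av v (x : K) = av v ((z : K) ^ 2) →
      Even (Multiplicative.toAdd (v.valuationOfNeZero x)) := by
    intro x z h
    have h2 : v.valuationOfNeZero x = v.valuationOfNeZero (z ^ 2) := by
      have h3 : v.valuation K (x : K) = v.valuation K ((z ^ 2 : Kˣ) : K) := by
        rw [Units.val_pow_eq_pow_val]
        exact av_eq_iff.1 h
      rw [← v.valuationOfNeZero_eq, ← v.valuationOfNeZero_eq] at h3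
      exact WithZero.coe_injective h3
    rw [h2, map_pow, toAdd_pow, nsmul_eq_mul]
    exact even_two.mul_right _
  by_cases hτ : av v τ ≤ 1
  · -- the Bezout relation
    have e := congrArg (fun P : K[X] => P.eval τ) hbz
    simp only [eval_add, eval_mul, eval_one] at e
    have u1 := intg_eval v hu hτ
    have w1 := intg_eval v hw hτ
    have r1 := intg_eval v hr hτ
    have g1 : av v ((gp c m a1 a0 b1 b0).eval τ) ≤ 1 := by
      rw [gp_eval, map_mul, hc, one_mul]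
      unfold nf qA qB
      rw [sub_eq_add_neg]
      refine (hna _ _).trans (max_le ?_ ?_)
      · rw [map_pow]
        apply pow_le_one₀ (apply_nonneg _ _)
        refine (hna _ _).trans (max_le ((hna _ _).trans (max_le ?_ ?_)) h0)
        · rw [map_pow]; exact pow_le_one₀ (apply_nonneg _ _) hτ
        · rw [map_mul]; exact mul_le_one₀ h1 (apply_nonneg _ _) hτ
      · rw [(av v).map_neg, map_mul, map_pow]
        apply mul_le_one₀ hm (by positivity)
        apply pow_le_one₀ (apply_nonneg _ _)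
        refine (hna _ _).trans (max_le ?_ k0)
        rw [map_mul]; exact mul_le_one₀ k1 (apply_nonneg _ _) hτ
    by_cases hg1 : av v ((gp c m a1 a0 b1 b0).eval τ) = 1
    · apply heq _ 1
      rw [Units.val_mk0, hg1]
      simp
    · have hr1 : av v (r.eval τ) = 1 := by
        apply le_antisymm r1
        by_contra hn
        rw [not_le] at hn
        have hg2 : av v ((gp c m a1 a0 b1 b0).eval τ) < 1 := lt_of_le_of_ne g1 hg1
        have h3 : av v (1 : K) < 1 := by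
          rw [← e]
          refine lt_of_le_of_lt (hna _ _) (max_lt ?_ ?_)
          · rw [map_mul]
            calc _ ≤ 1 * av v ((gp c m a1 a0 b1 b0).eval τ) := by gcongr
              _ < 1 := by rw [one_mul]; exact hg2
          · rw [map_mul]
            calc _ ≤ 1 * av v (r.eval τ) := by gcongr
              _ < 1 := by rw [one_mul]; exact hn
        rw [map_one] at h3
        exact lt_irrefl _ h3
      apply even_ord v (Units.mk0 _ hg) (Units.mk0 _ hrτ) (Units.mk0 y hy0) 1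
      · apply Units.ext; simp [hy]
      · rw [Units.val_mk0, hr1]; simp
  · rw [not_le] at hτ
    have hτ0 : τ ≠ 0 := by
      rintro rfl
      rw [map_zero] at hτ
      linarith
    have hA : av v (qA a1 a0 τ) = av v τ ^ 2 := by
      unfold qA
      rw [add_assoc, hmax, map_pow]
      rw [map_pow]
      refine lt_of_le_of_lt (hna _ _) (max_lt ?_ ?_)
      · rw [map_mul]
        calc av v a1 * av v τ ≤ 1 * av v τ := by gcongr
          _ < av v τ ^ 2 := by nlinarith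
      · calc av v a0 ≤ 1 := h0
          _ < av v τ ^ 2 := by nlinarith
    have hB : av v (qB b1 b0 τ) ≤ av v τ := by
      unfold qB
      refine (hna _ _).trans (max_le ?_ (k0.trans hτ.le))
      rw [map_mul]
      calc av v b1 * av v τ ≤ 1 * av v τ := by gcongr
        _ = _ := one_mul _
    have hg2 : av v ((gp c m a1 a0 b1 b0).eval τ) = av v ((τ ^ 2) ^ 2) := by
      rw [gp_eval, map_mul, hc, one_mul]
      unfold nf
      rw [sub_eq_add_neg, hmax]
      · rw [map_pow, hA, map_pow, map_pow]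
      · rw [(av v).map_neg, map_mul, map_pow, map_pow, hA]
        have ht2 : 1 < av v τ ^ 2 := one_lt_pow₀ hτ (by norm_num)
        calc av v m * av v (qB b1 b0 τ) ^ 2 ≤ 1 * av v τ ^ 2 := by
              gcongr
          _ < (av v τ ^ 2) ^ 2 := by nlinarith
    apply heq _ (Units.mk0 τ hτ0 ^ 2)
    rw [Units.val_mk0, hg2]
    simp

/-- the count in one class -/
theorem class_count (K : Type) [Field K] [NumberField K] (ε : ℝ) (hε : 0 < ε) :
    ∃ C : ℝ, 1 ≤ C ∧ ∀ (V : ℝ) (m a1 a0 b1 b0 : K), 1 ≤ V → m ≠ 0 → rho a1 a0 b1 b0 ≠ 0 →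
      del m a1 a0 b1 b0 ≠ 0 → mulHeight₁ m ≤ V → mulHeight₁ a1 ≤ V → mulHeight₁ a0 ≤ V →
      mulHeight₁ b1 ≤ V → mulHeight₁ b0 ≤ V → ∀ Y : Finset K,
      (∀ τ ∈ Y, mulHeight₁ τ ≤ V ∧ nf m a1 a0 b1 b0 τ ≠ 0) →
      (∀ s ∈ Y, ∀ τ ∈ Y, IsSquare (nf m a1 a0 b1 b0 τ / nf m a1 a0 b1 b0 s)) →
      (Y.card : ℝ) ≤ C * V ^ ε := by
  classical
  obtain ⟨c, N, hc, hht⟩ := reduction_height K
  obtain ⟨C1, hC1, hcore⟩ := Pool.Agent.K9h15.Core.core K (ε / (N + 1)) (by positivity)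
  have hce : 1 ≤ c ^ (ε / (N + 1)) := Real.one_le_rpow hc (by positivity)
  have hCC : 1 ≤ C1 * c ^ (ε / (N + 1)) := one_le_mul_of_one_le_of_one_le hC1 hce
  refine ⟨1 + 2 * (C1 * c ^ (ε / (N + 1))), by linarith, ?_⟩
  intro V m a1 a0 b1 b0 hV hm hρ hδ k1 k2 k3 k4 k5 Y hY hsq
  have hVε : 1 ≤ V ^ ε := Real.one_le_rpow hV hε.le
  rcases Y.eq_empty_or_nonempty with h0 | ⟨s, hs⟩
  · rw [h0, Finset.card_empty]
    push_cast
    positivity
  obtain ⟨hsV, hns⟩ := hY s hs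
  set α := al m a1 a0 b1 b0 s with hα
  set θ := th m a1 a0 b1 b0 s with hθ
  set f1 := e1 m a1 a0 b1 b0 s with hf1
  set f0 := e0 m a1 a0 b1 b0 s with hf0
  have hb : eb m α θ f1 f0 ≠ 0 := by
    rw [hα, hθ, hf1, hf0, eb_eq hns]
    exact div_ne_zero (mul_ne_zero (mul_ne_zero (by norm_num) hm) hρ) (pow_ne_zero _ hns)
  have hd : ea m α θ f1 ^ 2 - 4 * eb m α θ f1 f0 ≠ 0 := by
    rw [hα, hθ, hf1, hf0, disc_eq hns]
    exact div_ne_zero hδ (pow_ne_zero _ hns)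
  have hκ : ∀ τ : K, ∃ κ : K, τ ∈ Y → nf m a1 a0 b1 b0 τ / nf m a1 a0 b1 b0 s = κ ^ 2 := by
    intro τ
    by_cases hτ : τ ∈ Y
    · obtain ⟨κ, hκ⟩ := hsq s hs τ hτ
      exact ⟨κ, fun _ => by rw [hκ, sq]⟩
    · exact ⟨0, fun h => absurd h hτ⟩
  choose κ hκ using hκ
  let x : K → K := fun τ => 2 * (((1 / (τ - s)) ^ 2 + α * (1 / (τ - s)) + θ) -
    κ τ * (1 / (τ - s)) ^ 2)
  set Y' := Y.erase s with hY'
  have hmem : ∀ τ ∈ Y', τ ∈ Y ∧ τ ≠ s := fun τ hτ =>
    ⟨Finset.mem_of_mem_erase hτ, Finset.ne_of_mem_erase hτ⟩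
  have hrel : ∀ τ ∈ Y', x τ ^ 2 - 4 * x τ * ((1 / (τ - s)) ^ 2 + α * (1 / (τ - s)) + θ) +
      4 * m * (f1 * (1 / (τ - s)) + f0) ^ 2 = 0 := by
    intro τ hτ
    exact rel_eq hns (hmem τ hτ).2 (hκ τ (hmem τ hτ).1) _ _ rfl rfl
  set V' : ℝ := c * V ^ N with hV'
  have hV'1 : 1 ≤ V' := one_le_mul_of_one_le_of_one_le hc (one_le_pow₀ hV)
  obtain ⟨hs1, hs2, -⟩ := hht V hV m a1 a0 b1 b0 s s (κ s) k1 k2 k3 k4 k5 hsV hsV (hκ s hs)
  have himg := hcore V' (ea m α θ f1) (eb m α θ f1 f0) hb hd hs1 hs2 (Y'.image x) (by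
    intro z hz
    obtain ⟨τ, hτ, rfl⟩ := Finset.mem_image.1 hz
    refine ⟨?_, ?_⟩
    · exact (hht V hV m a1 a0 b1 b0 s τ (κ τ) k1 k2 k3 k4 k5 hsV (hY τ (hmem τ hτ).1).1
        (hκ τ (hmem τ hτ).1)).2.2
    · exact ⟨_, curve_eq (hrel τ hτ)⟩)
  have hfib : ∀ z ∈ Y'.image x, (Y'.filter (fun τ => x τ = z)).card ≤ 2 := by
    intro z _
    -- the values of u
    have h1 : (Y'.filter (fun τ => x τ = z)).card =
        ((Y'.filter (fun τ => x τ = z)).image (fun τ => 1 / (τ - s))).card := by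
      rw [Finset.card_image_of_injOn]
      intro τ _ τ' _ h
      simp only [one_div, inv_inj] at h
      linear_combination h
    rw [h1]
    apply quad_card (p := 4 * (m * f1 ^ 2 - z)) (q := 4 * (2 * m * f1 * f0 - α * z))
      (r := z ^ 2 - 4 * θ * z + 4 * m * f0 ^ 2)
    · rintro ⟨h2, h3, h4⟩
      refine not_all_zero hb hd ?_ ?_ h4
      · exact (mul_eq_zero.1 h2).resolve_left (by norm_num)
      · exact (mul_eq_zero.1 h3).resolve_left (by norm_num)
    · intro u hu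
      obtain ⟨τ, hτ, rfl⟩ := Finset.mem_image.1 hu
      obtain ⟨h2, h3⟩ := Finset.mem_filter.1 hτ
      have h4 := hrel τ h2
      rw [h3] at h4
      linear_combination h4
  have h3 := Finset.card_le_mul_card_image _ _ hfib
  have h4 : Y.card ≤ Y'.card + 1 := by
    rw [hY', Finset.card_erase_of_mem hs]
    omega
  have hpow : V' ^ (ε / (N + 1)) ≤ c ^ (ε / (N + 1)) * V ^ ε := by
    rw [hV', Real.mul_rpow (by linarith) (by positivity), ← Real.rpow_natCast V N,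
      ← Real.rpow_mul (by linarith)]
    have h5 : V ^ ((N : ℝ) * (ε / (N + 1))) ≤ V ^ ε := by
      apply Real.rpow_le_rpow_of_exponent_le hV
      rw [mul_div_assoc', div_le_iff₀ (by positivity)]
      nlinarith
    gcongr
  calc (Y.card : ℝ) ≤ (Y'.card : ℝ) + 1 := by exact_mod_cast h4
    _ ≤ (2 * (Y'.image x).card : ℕ) + 1 := by
      have : (Y'.card : ℝ) ≤ (2 * (Y'.image x).card : ℕ) := by exact_mod_cast h3
      linarith
    _ ≤ 2 * (C1 * (c ^ (ε / (N + 1)) * V ^ ε)) + 1 := by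
      push_cast
      have : C1 * V' ^ (ε / (N + 1)) ≤ C1 * (c ^ (ε / (N + 1)) * V ^ ε) := by gcongr
      linarith
    _ ≤ 2 * (C1 * (c ^ (ε / (N + 1)) * V ^ ε)) + V ^ ε := by linarith
    _ = _ := by ring

/-- the elements whose denominators contain the bad primes of the equation -/
def ee (e : ℕ) (c m a1 a0 b1 b0 : K) (r u w : K[X]) : Fin 7 ⊕ (Fin 3 × Fin (e + 1)) → K :=
  Sum.elim ![c, c⁻¹, m, a1, a0, b1, b0] (fun i => (![r, u, w] i.1).coeff i.2)

/-- **The fibre theorem.** -/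
theorem fib (K : Type) [Field K] [NumberField K] (e : ℕ) (ε : ℝ) (hε : 0 < ε) :
    ∃ C : ℝ, 1 ≤ C ∧ ∀ (V : ℝ) (c m a1 a0 b1 b0 : K) (r u w : K[X]), 1 ≤ V → c ≠ 0 → m ≠ 0 →
      rho a1 a0 b1 b0 ≠ 0 → del m a1 a0 b1 b0 ≠ 0 → mulHeight₁ c ≤ V →
      mulHeight₁ m ≤ V → mulHeight₁ a1 ≤ V → mulHeight₁ a0 ≤ V →
      mulHeight₁ b1 ≤ V → mulHeight₁ b0 ≤ V → r.natDegree ≤ e → u.natDegree ≤ e →
      w.natDegree ≤ e → (∀ j, mulHeight₁ (r.coeff j) ≤ V) → (∀ j, mulHeight₁ (u.coeff j) ≤ V) →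
      (∀ j, mulHeight₁ (w.coeff j) ≤ V) → u * gp c m a1 a0 b1 b0 + w * r = 1 →
      ∀ S : Finset K, (∀ τ ∈ S, mulHeight₁ τ ≤ V ∧
        IsSquare ((gp c m a1 a0 b1 b0).eval τ * r.eval τ)) → (S.card : ℝ) ≤ C * V ^ ε := by
  classical
  obtain ⟨C0, hC0⟩ := sel_card K
  obtain ⟨C1, hC1, hbad⟩ := bad_count_fintype (K := K) (Fin 7 ⊕ (Fin 3 × Fin (e + 1))) (ε / 2)
    (by positivity)
  obtain ⟨C2, hC2, hcl⟩ := class_count K (ε / 2) (by positivity)
  refine ⟨(4 + e : ℕ) + (C0 + 1) * C1 * C2, ?_, ?_⟩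
  · have h1 : (1 : ℝ) ≤ C0 + 1 := by
      have : (0 : ℝ) ≤ C0 := Nat.cast_nonneg _
      linarith
    have h2 : 1 ≤ (C0 + 1) * C1 * C2 := one_le_mul_of_one_le_of_one_le
      (one_le_mul_of_one_le_of_one_le h1 hC1) hC2
    have h3 : (0 : ℝ) ≤ (4 + e : ℕ) := Nat.cast_nonneg _
    linarith
  intro V c m a1 a0 b1 b0 r u w hV hc hm hρ hδ kc km k1 k0 l1 l0 dr du dw hr hu hw hbz S hS
  set g := gp c m a1 a0 b1 b0 with hg
  have hg4 : g.coeff 4 = c := gp_coeff4 c m a1 a0 b1 b0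
  have hnc : g ≠ 0 := by
    intro h0
    rw [h0, coeff_zero] at hg4
    exact hc hg4.symm
  have hgd : g.natDegree ≤ 4 := by
    rw [hg]
    unfold gp
    refine (natDegree_C_mul_le _ _).trans ?_
    refine (natDegree_sub_le _ _).trans (max_le ?_ ?_)
    · refine natDegree_pow_le.trans ?_
      have : (X ^ 2 + C a1 * X + C a0 : K[X]).natDegree ≤ 2 := by
        have := natDegree_quadratic_le (a := (1 : K)) (b := a1) (c := a0)
        simpa using this
      omega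
    · refine (natDegree_C_mul_le _ _).trans ?_
      refine natDegree_pow_le.trans ?_
      have := natDegree_linear_le (a := b1) (b := b0)
      omega
  have hr0 : r ≠ 0 := by
    rintro rfl
    rw [mul_zero, add_zero] at hbz
    have h1 : IsUnit g := IsUnit.of_mul_eq_one u (by rw [mul_comm]; exact hbz)
    -- a unit has no positive degree
    have h2 : g.natDegree = 0 := natDegree_eq_zero_of_isUnit h1
    have h3 : 4 ≤ g.natDegree := le_natDegree_of_ne_zero (by rw [hg4]; exact hc)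
    omega
  -- the exceptional points
  set S0 := S.filter (fun τ => g.eval τ * r.eval τ = 0) with hS0
  set S1 := S.filter (fun τ => ¬ (g.eval τ * r.eval τ = 0)) with hS1
  have hScard : S.card = S0.card + S1.card := (Finset.card_filter_add_card_filter_not _).symm
  have hS0c : S0.card ≤ 4 + e := by
    have h1 : S0 ⊆ (g * r).roots.toFinset := by
      intro τ hτ
      rw [Multiset.mem_toFinset, mem_roots (mul_ne_zero hnc hr0), IsRoot.def, eval_mul]
      exact (Finset.mem_filter.1 hτ).2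
    refine (Finset.card_le_card h1).trans ((Multiset.toFinset_card_le _).trans ?_)
    refine (card_roots' _).trans (natDegree_mul_le.trans ?_)
    omega
  -- the bad primes
  have hfin : {v : HeightOneSpectrum (𝓞 K) | ∃ i, 1 < av v (ee e c m a1 a0 b1 b0 r u w i)}.Finite := by
    have : {v : HeightOneSpectrum (𝓞 K) | ∃ i, 1 < av v (ee e c m a1 a0 b1 b0 r u w i)} =
        ⋃ i, {v : HeightOneSpectrum (𝓞 K) | 1 < av v (ee e c m a1 a0 b1 b0 r u w i)} := by
      ext v; simp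
    rw [this]
    exact Set.finite_iUnion fun i => finite_bad _
  set B := hfin.toFinset with hB
  have hBc := hbad (ee e c m a1 a0 b1 b0 r u w) V hV (by
    rintro (i | ⟨i, j⟩)
    · fin_cases i
      · exact kc
      · change mulHeight₁ c⁻¹ ≤ V
        rw [mulHeight₁_inv]; exact kc
      · exact km
      · exact k1
      · exact k0
      · exact l1
      · exact l0
    · fin_cases i
      · exact hr _
      · exact hu _
      · exact hw _) B (fun v hv => by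
      rw [hB, Set.Finite.mem_toFinset] at hv; exact hv)
  have hgood : ∀ v, v ∉ B → ∀ i, av v (ee e c m a1 a0 b1 b0 r u w i) ≤ 1 := by
    intro v hv i
    by_contra hn
    apply hv
    rw [hB, Set.Finite.mem_toFinset]
    exact ⟨i, not_le.1 hn⟩
  have hint : ∀ (v : HeightOneSpectrum (𝓞 K)) (P : K[X]), P.natDegree ≤ e →
      (∀ j : Fin (e + 1), av v (P.coeff j) ≤ 1) → Intg (av v) P := by
    intro v P hP h l
    by_cases hl : l < e + 1
    · exact h ⟨l, hl⟩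
    · rw [coeff_eq_zero_of_natDegree_lt (by omega), map_zero]
      exact zero_le_one
  obtain ⟨T, hTc, hT0, hT⟩ := hC0 B
  have hcls : ∀ τ : K, ∃ t : K, τ ∈ S1 → t ∈ T ∧ ∃ b : K, b ≠ 0 ∧ g.eval τ = t * b ^ 2 := by
    intro τ
    by_cases hτ : τ ∈ S1
    · obtain ⟨h1, h2⟩ := Finset.mem_filter.1 hτ
      have hg0 : g.eval τ ≠ 0 := left_ne_zero_of_mul h2
      have hr0 : r.eval τ ≠ 0 := right_ne_zero_of_mul h2
      obtain ⟨y, hy⟩ := (hS τ h1).2
      obtain ⟨t, ht, b, hb, hbe⟩ := hT (Units.mk0 _ hg0) (fun v hv => by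
        have hgv := hgood v hv
        have c1 : av v c ≤ 1 := hgv (Sum.inl 0)
        have c2 : av v c⁻¹ ≤ 1 := hgv (Sum.inl 1)
        have c3 : av v c = 1 := by
          apply le_antisymm c1
          rw [map_inv₀] at c2
          exact (inv_le_one₀ ((av v).pos hc)).1 c2
        exact even_class v c3 (hgv (Sum.inl 2)) (hgv (Sum.inl 3)) (hgv (Sum.inl 4))
          (hgv (Sum.inl 5)) (hgv (Sum.inl 6)) (hint v r dr fun j => hgv (Sum.inr (0, j)))
          (hint v u du fun j => hgv (Sum.inr (1, j))) (hint v w dw fun j => hgv (Sum.inr (2, j)))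
          hbz hg0 hr0 (by rw [sq]; exact hy.symm))
      exact ⟨t, fun _ => ⟨ht, b, hb, hbe⟩⟩
    · exact ⟨0, fun h => absurd h hτ⟩
  choose cls hcls using hcls
  have hfibc : ∀ t ∈ T, ((S1.filter (fun τ => cls τ = t)).card : ℝ) ≤ C2 * V ^ (ε / 2) := by
    intro t _
    apply hcl V m a1 a0 b1 b0 hV hm hρ hδ km k1 k0 l1 l0
    · intro τ hτ
      obtain ⟨h1, h2⟩ := Finset.mem_filter.1 hτ
      obtain ⟨h3, h4⟩ := Finset.mem_filter.1 h1
      refine ⟨(hS τ h3).1, ?_⟩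
      have h5 : g.eval τ ≠ 0 := left_ne_zero_of_mul h4
      rw [hg, gp_eval] at h5
      exact right_ne_zero_of_mul h5
    · intro s hs τ hτ
      obtain ⟨h1, h2⟩ := Finset.mem_filter.1 hτ
      obtain ⟨l1, l2⟩ := Finset.mem_filter.1 hs
      obtain ⟨htT, b, hb, hbe⟩ := hcls τ h1
      obtain ⟨-, b', hb', hbe'⟩ := hcls s l1
      rw [h2] at hbe htT
      rw [l2] at hbe'
      have ht0 := hT0 t htT
      rw [hg, gp_eval] at hbe hbe'
      refine ⟨b / b', ?_⟩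
      have h6 : nf m a1 a0 b1 b0 τ = t * b ^ 2 / c := by rw [← hbe]; field_simp
      have h7 : nf m a1 a0 b1 b0 s = t * b' ^ 2 / c := by rw [← hbe']; field_simp
      rw [h6, h7]
      field_simp
  have hsum : S1.card = ∑ t ∈ T, (S1.filter (fun τ => cls τ = t)).card :=
    Finset.card_eq_sum_card_fiberwise fun τ hτ => (hcls τ hτ).1
  have hS1c : (S1.card : ℝ) ≤ (C0 + 1) * C1 * C2 * V ^ ε := by
    calc (S1.card : ℝ) = ∑ t ∈ T, ((S1.filter (fun τ => cls τ = t)).card : ℝ) := by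
          rw [hsum]; push_cast; rfl
      _ ≤ ∑ _t ∈ T, (C2 * V ^ (ε / 2)) := Finset.sum_le_sum hfibc
      _ = T.card * (C2 * V ^ (ε / 2)) := by rw [Finset.sum_const, nsmul_eq_mul]
      _ ≤ (C0 * 2 ^ B.card) * (C2 * V ^ (ε / 2)) := by
          have h8 : (T.card : ℝ) ≤ C0 * 2 ^ B.card := by exact_mod_cast hTc
          gcongr
      _ ≤ ((C0 + 1) * (C1 * V ^ (ε / 2))) * (C2 * V ^ (ε / 2)) := by
          have h9 : (0 : ℝ) ≤ C0 := Nat.cast_nonneg _
          have h10 : (C0 : ℝ) ≤ C0 + 1 := by linarith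
          gcongr
      _ = (C0 + 1) * C1 * C2 * (V ^ (ε / 2) * V ^ (ε / 2)) := by ring
      _ = _ := by
          rw [← Real.rpow_add (by linarith)]
          ring_nf
  have hVε : 1 ≤ V ^ ε := Real.one_le_rpow hV hε.le
  calc (S.card : ℝ) = S0.card + S1.card := by exact_mod_cast hScard
    _ ≤ (4 + e : ℕ) + (C0 + 1) * C1 * C2 * V ^ ε := by
        have : (S0.card : ℝ) ≤ (4 + e : ℕ) := by exact_mod_cast hS0c
        linarith
    _ ≤ (4 + e : ℕ) * V ^ ε + (C0 + 1) * C1 * C2 * V ^ ε := by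
        have h11 : (0 : ℝ) ≤ (4 + e : ℕ) := Nat.cast_nonneg _
        nlinarith
    _ = _ := by ring

end main

end Pool.Agent.K9h15.Fib
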