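import Mathlib
import Pool.Agent.K9h15.FibB

/-!
# Separable quartics
-/

set_option autoImplicit false

open Polynomial

namespace Pool.Agent.K9h15.Tow

open Pool.Agent.K9h15.Fib (gp rho del gp_coeff4)

variable {K : Type*} [Field K]

lemma not_unit_quad (p q : K) : ¬ IsUnit (X ^ 2 + C p * X + C q : K[X]) := by
  intro h
  have h1 := natDegree_eq_zero_of_isUnit h
  have h2 : (X ^ 2 + C p * X + C q : K[X]).coeff 2 = 1 := by
    simp [coeff_X, coeff_C]
  have h3 := le_natDegree_of_ne_zero (p := (X ^ 2 + C p * X + C q : K[X])) (n := 2)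
    (by rw [h2]; exact one_ne_zero)
  omega

lemma sep_c {c m a1 a0 b1 b0 : K} (h : (gp c m a1 a0 b1 b0).Separable) : c ≠ 0 := by
  rintro rfl
  have h1 : gp (0 : K) m a1 a0 b1 b0 = 0 := by simp [gp]
  exact h.ne_zero h1

lemma sep_m {c m a1 a0 b1 b0 : K} (h : (gp c m a1 a0 b1 b0).Separable) : m ≠ 0 := by
  rintro rfl
  have h1 := h.squarefree (X ^ 2 + C a1 * X + C a0) ⟨C c, by unfold gp; rw [C_0]; ring⟩
  exact not_unit_quad _ _ h1

lemma sep_rho {c m a1 a0 b1 b0 : K} (h : (gp c m a1 a0 b1 b0).Separable) :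
    rho a1 a0 b1 b0 ≠ 0 := by
  intro h0
  unfold rho at h0
  by_cases hb1 : b1 = 0
  · rw [hb1] at h0
    have hb0 : b0 = 0 := by
      have : b0 ^ 2 = 0 := by linear_combination h0
      exact pow_eq_zero_iff two_ne_zero |>.1 this
    subst hb1
    subst hb0
    have h1 := h.squarefree (X ^ 2 + C a1 * X + C a0) ⟨C c, by unfold gp; rw [C_0]; ring⟩
    exact not_unit_quad _ _ h1
  · have h1 := h.squarefree (X - C (-b0 / b1)) ⟨C c * ((X - C (-a1 - (-b0 / b1))) ^ 2 -
      C (m * b1 ^ 2)), by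
        unfold gp
        have e1 : (C b1 * X + C b0 : K[X]) = C b1 * (X - C (-b0 / b1)) := by
          rw [mul_sub, ← C_mul, mul_div_cancel₀ _ hb1, C_neg]
          ring
        have e2 : (X ^ 2 + C a1 * X + C a0 : K[X]) =
            (X - C (-b0 / b1)) * (X - C (-a1 - (-b0 / b1))) := by
          have h2 : (-b0 / b1) * (-a1 - (-b0 / b1)) = a0 := by
            field_simp
            linear_combination (-1 : K) * h0
          have h3 : (C a0 : K[X]) = C (-b0 / b1) * C (-a1 - (-b0 / b1)) := by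
            rw [← C_mul, h2]
          rw [h3]
          simp only [C_sub, C_neg]
          ring
        rw [e1, e2]
        simp only [C_mul, C_pow]
        ring⟩
    exact Polynomial.not_isUnit_X_sub_C _ h1

lemma sep_del [CharZero K] {c m a1 a0 b1 b0 : K} (h : (gp c m a1 a0 b1 b0).Separable) :
    del m a1 a0 b1 b0 ≠ 0 := by
  intro h0
  let E := AlgebraicClosure K
  let f : K →+* E := algebraMap K E
  have hs : ((gp c m a1 a0 b1 b0).map f).Separable := h.map
  obtain ⟨μ, hμ⟩ : ∃ μ : E, f m = μ ^ 2 := by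
    obtain ⟨μ, hμ⟩ := IsAlgClosed.exists_pow_nat_eq (f m) (n := 2) (by norm_num)
    exact ⟨μ, hμ.symm⟩
  have key : ∀ ν : E, ν ^ 2 = f m → (f a1 + ν * f b1) ^ 2 - 4 * (f a0 + ν * f b0) ≠ 0 := by
    intro ν hν h1
    have h2 : (gp c m a1 a0 b1 b0).map f =
        C (f c) * ((X ^ 2 + C (f a1) * X + C (f a0)) ^ 2 -
          C (f m) * (C (f b1) * X + C (f b0)) ^ 2) := by
      simp [gp]
    have h3 : (X ^ 2 + C (f a1) * X + C (f a0) : E[X]) + C ν * (C (f b1) * X + C (f b0)) =
        (X + C ((f a1 + ν * f b1) / 2)) ^ 2 := by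
      have h4 : f a0 + ν * f b0 = ((f a1 + ν * f b1) / 2) ^ 2 := by
        linear_combination (-1 / 4 : E) * h1
      have h5 : (C (f a0) : E[X]) + C ν * C (f b0) = C (((f a1 + ν * f b1) / 2) ^ 2) := by
        rw [← C_mul, ← C_add, h4]
      have h6 : (C (f a1) : E[X]) + C ν * C (f b1) = 2 * C ((f a1 + ν * f b1) / 2) := by
        have : (2 : E[X]) = C 2 := (map_ofNat C 2).symm
        rw [← C_mul, ← C_add, this, ← C_mul]
        congr 1
        ring
      rw [C_pow] at h5
      linear_combination X * h6 + h5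
    have h7 := hs.squarefree (X + C ((f a1 + ν * f b1) / 2)) ⟨C (f c) *
      ((X ^ 2 + C (f a1) * X + C (f a0) : E[X]) - C ν * (C (f b1) * X + C (f b0))), by
        rw [h2, ← hν, C_pow]
        linear_combination (C (f c) * ((X ^ 2 + C (f a1) * X + C (f a0) : E[X]) -
          C ν * (C (f b1) * X + C (f b0)))) * h3⟩
    have h8 : (X + C ((f a1 + ν * f b1) / 2) : E[X]) = X - C (-((f a1 + ν * f b1) / 2)) := by
      rw [C_neg, sub_neg_eq_add]
    rw [h8] at h7
    exact Polynomial.not_isUnit_X_sub_C _ h7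
  have h1 := key μ hμ.symm
  have h2 := key (-μ) (by rw [neg_sq]; exact hμ.symm)
  have h3 : f (del m a1 a0 b1 b0) = ((f a1 + μ * f b1) ^ 2 - 4 * (f a0 + μ * f b0)) *
      ((f a1 + -μ * f b1) ^ 2 - 4 * (f a0 + -μ * f b0)) := by
    unfold del
    simp only [map_sub, map_add, map_mul, map_pow, map_ofNat]
    rw [hμ]
    ring
  rw [h0, map_zero] at h3
  exact mul_ne_zero h1 h2 h3.symm

end Pool.Agent.K9h15.Tow
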