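import Mathlib
import Pool.Agent.K9h15.FibB

/-!
# Few values of the elements of a tower under specialization
-/

set_option autoImplicit false

open Height Polynomial

namespace Pool.Agent.K9h15.Tow

open Pool.Agent.K9h15.Fib (gp)

section sz

variable {k K L : Type} [Field k] [Field K] [Algebra k K] [Field L] [Algebra k L]

/-- a homomorphism from a subalgebra -/
structure Sz (k K L : Type) [Field k] [Field K] [Algebra k K] [Field L] [Algebra k L] where
  T : Subalgebra k K
  φ : T →ₐ[k] L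

open Classical in
/-- the value of an element -/
noncomputable def Sz.ev (s : Sz k K L) (z : K) : L := if h : z ∈ s.T then s.φ ⟨z, h⟩ else 0

lemma ev_of (s : Sz k K L) (z : s.T) : s.ev (z : K) = s.φ z := by
  unfold Sz.ev
  rw [dif_pos z.2]

lemma ev_mk (s : Sz k K L) {z : K} (h : z ∈ s.T) : s.ev z = s.φ ⟨z, h⟩ := by
  unfold Sz.ev
  rw [dif_pos h]

lemma ev_zero (s : Sz k K L) : s.ev 0 = 0 := by
  rw [ev_mk s s.T.zero_mem]
  exact map_zero s.φ

lemma ev_one (s : Sz k K L) : s.ev 1 = 1 := by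
  rw [ev_mk s s.T.one_mem]
  exact map_one s.φ

lemma ev_mul (s : Sz k K L) {z w : K} (hz : z ∈ s.T) (hw : w ∈ s.T) :
    s.ev (z * w) = s.ev z * s.ev w := by
  rw [ev_mk s (s.T.mul_mem hz hw), ev_mk s hz, ev_mk s hw, ← map_mul]
  rfl

lemma ev_add (s : Sz k K L) {z w : K} (hz : z ∈ s.T) (hw : w ∈ s.T) :
    s.ev (z + w) = s.ev z + s.ev w := by
  rw [ev_mk s (s.T.add_mem hz hw), ev_mk s hz, ev_mk s hw, ← map_add]
  rfl

lemma ev_algebraMap (s : Sz k K L) (z : k) : s.ev (algebraMap k K z) = algebraMap k L z := by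
  rw [ev_mk s (s.T.algebraMap_mem z)]
  exact s.φ.commutes z

lemma ev_ne_zero (s : Sz k K L) {z : K} (hz0 : z ≠ 0) (hz : z ∈ s.T) (hi : z⁻¹ ∈ s.T) :
    s.ev z ≠ 0 := by
  intro h
  have h1 := ev_mul s hz hi
  rw [mul_inv_cancel₀ hz0, h, zero_mul, ev_one] at h1
  exact one_ne_zero h1

/-- the specialized polynomial -/
noncomputable def sp (s : Sz k K L) (P : K[X]) : L[X] :=
  ∑ j ∈ Finset.range (P.natDegree + 1), C (s.ev (P.coeff j)) * X ^ j

lemma sp_coeff (s : Sz k K L) (P : K[X]) (j : ℕ) : (sp s P).coeff j = s.ev (P.coeff j) := by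
  unfold sp
  simp only [finsetSum_coeff, coeff_C_mul, coeff_X_pow]
  by_cases hj : j < P.natDegree + 1
  · rw [Finset.sum_eq_single j]
    · simp
    · intro i _ hi
      rw [if_neg (Ne.symm hi), mul_zero]
    · intro h
      exact absurd (Finset.mem_range.2 hj) h
  · rw [coeff_eq_zero_of_natDegree_lt (by omega), ev_zero]
    refine Finset.sum_eq_zero fun i hi => ?_
    rw [Finset.mem_range] at hi
    rw [if_neg (by omega), mul_zero]

lemma sp_natDegree (s : Sz k K L) (P : K[X]) : (sp s P).natDegree ≤ P.natDegree := by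
  rw [natDegree_le_iff_coeff_eq_zero]
  intro n hn
  rw [sp_coeff, coeff_eq_zero_of_natDegree_lt hn, ev_zero]

lemma exists_lift (s : Sz k K L) {P : K[X]} (hP : ∀ j, P.coeff j ∈ s.T) :
    ∃ Q : s.T[X], Q.map (algebraMap s.T K) = P ∧ Q.map (s.φ : s.T →+* L) = sp s P := by
  have h1 : P ∈ Polynomial.lifts (algebraMap s.T K) := by
    rw [Polynomial.lifts_iff_coeff_lifts]
    intro n
    exact ⟨⟨P.coeff n, hP n⟩, rfl⟩
  obtain ⟨Q, hQ⟩ := (Polynomial.mem_lifts _).1 h1
  refine ⟨Q, hQ, ?_⟩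
  ext j
  rw [coeff_map, sp_coeff, ← hQ, coeff_map]
  exact (ev_of s (Q.coeff j)).symm

lemma lift_inj (s : Sz k K L) {Q Q' : s.T[X]}
    (h : Q.map (algebraMap s.T K) = Q'.map (algebraMap s.T K)) : Q = Q' :=
  Polynomial.map_injective _ (FaithfulSMul.algebraMap_injective s.T K) h

lemma sp_of_map (s : Sz k K L) (Q : s.T[X]) :
    sp s (Q.map (algebraMap s.T K)) = Q.map (s.φ : s.T →+* L) := by
  ext j
  rw [sp_coeff, coeff_map, coeff_map]
  exact ev_of s (Q.coeff j)

lemma sp_bezout (s : Sz k K L) {u g w r : K[X]} (hu : ∀ j, u.coeff j ∈ s.T)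
    (hg : ∀ j, g.coeff j ∈ s.T) (hw : ∀ j, w.coeff j ∈ s.T) (hr : ∀ j, r.coeff j ∈ s.T)
    (h : u * g + w * r = 1) : sp s u * sp s g + sp s w * sp s r = 1 := by
  obtain ⟨u', hu1, hu2⟩ := exists_lift s hu
  obtain ⟨g', hg1, hg2⟩ := exists_lift s hg
  obtain ⟨w', hw1, hw2⟩ := exists_lift s hw
  obtain ⟨r', hr1, hr2⟩ := exists_lift s hr
  have h1 : u' * g' + w' * r' = 1 := by
    apply lift_inj s
    rw [Polynomial.map_add, Polynomial.map_mul, Polynomial.map_mul, hu1, hg1, hw1, hr1, h,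
      Polynomial.map_one]
  rw [← hu2, ← hg2, ← hw2, ← hr2, ← Polynomial.map_mul, ← Polynomial.map_mul,
    ← Polynomial.map_add, h1, Polynomial.map_one]

lemma sp_eval (s : Sz k K L) {P : K[X]} (hP : ∀ j, P.coeff j ∈ s.T) {t : K} (ht : t ∈ s.T) :
    (sp s P).eval (s.ev t) = s.ev (P.eval t) ∧ P.eval t ∈ s.T := by
  obtain ⟨P', h1, h2⟩ := exists_lift s hP
  have h3 : P.eval t = algebraMap s.T K (P'.eval ⟨t, ht⟩) := by
    rw [← h1, eval_map]
    exact Polynomial.eval₂_at_apply (algebraMap s.T K) (⟨t, ht⟩ : s.T)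
  refine ⟨?_, ?_⟩
  · rw [← h2, eval_map, ev_mk s ht, h3]
    have h4 := Polynomial.eval₂_at_apply (s.φ : s.T →+* L) (⟨t, ht⟩ : s.T) (p := P')
    have h5 := ev_of s (P'.eval ⟨t, ht⟩)
    exact h4.trans h5.symm
  · rw [h3]
    exact (P'.eval ⟨t, ht⟩).2

lemma gp_map {R S : Type*} [CommRing R] [CommRing S] (f : R →+* S) (c m a1 a0 b1 b0 : R) :
    (gp c m a1 a0 b1 b0).map f = gp (f c) (f m) (f a1) (f a0) (f b1) (f b0) := by
  simp [gp]

lemma sp_gp (s : Sz k K L) {c m a1 a0 b1 b0 : K} (hc : c ∈ s.T) (hm : m ∈ s.T) (h1 : a1 ∈ s.T)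
    (h0 : a0 ∈ s.T) (k1 : b1 ∈ s.T) (k0 : b0 ∈ s.T) :
    sp s (gp c m a1 a0 b1 b0) = gp (s.ev c) (s.ev m) (s.ev a1) (s.ev a0) (s.ev b1) (s.ev b0) ∧
      ∀ j, (gp c m a1 a0 b1 b0).coeff j ∈ s.T := by
  have h2 : gp c m a1 a0 b1 b0 = (gp (⟨c, hc⟩ : s.T) ⟨m, hm⟩ ⟨a1, h1⟩ ⟨a0, h0⟩ ⟨b1, k1⟩
      ⟨b0, k0⟩).map (algebraMap s.T K) := by
    rw [gp_map]
    rfl
  refine ⟨?_, ?_⟩
  · rw [h2, sp_of_map, gp_map, ev_mk s hc, ev_mk s hm, ev_mk s h1, ev_mk s h0, ev_mk s k1,
      ev_mk s k0]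
    rfl
  · intro j
    rw [h2, coeff_map]
    exact ((gp (⟨c, hc⟩ : s.T) ⟨m, hm⟩ ⟨a1, h1⟩ ⟨a0, h0⟩ ⟨b1, k1⟩ ⟨b0, k0⟩).coeff j).2

end sz

section comb

open Classical in
/-- the number of values of a function on a finite set -/
noncomputable def cnt {ι A : Type*} (Ψ : Finset ι) (f : ι → A) : ℕ := (Ψ.image f).card

lemma cnt_eq {ι A : Type*} [DecidableEq A] (Ψ : Finset ι) (f : ι → A) :
    cnt Ψ f = (Ψ.image f).card := by
  unfold cnt
  exact congrArg (fun inst : DecidableEq A => (@Finset.image _ _ inst f Ψ).card)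
    (Subsingleton.elim _ _)

/-- counting values in fibres -/
lemma cnt_le_of_fibre {ι A B : Type*} (Ψ : Finset ι) (α : ι → A) (β : ι → B) (n : ℝ)
    (h : ∀ s ∈ Ψ, ∀ Ψ' : Finset ι, (∀ s' ∈ Ψ', s' ∈ Ψ ∧ α s' = α s) → (cnt Ψ' β : ℝ) ≤ n) :
    (cnt Ψ β : ℝ) ≤ cnt Ψ α * n := by
  classical
  have h1 : Ψ.image β ⊆ (Ψ.image α).biUnion (fun a => (Ψ.filter (fun s' => α s' = a)).image β) := by
    intro b hb
    obtain ⟨s, hs, rfl⟩ := Finset.mem_image.1 hb
    exact Finset.mem_biUnion.2 ⟨α s, Finset.mem_image_of_mem _ hs,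
      Finset.mem_image.2 ⟨s, Finset.mem_filter.2 ⟨hs, rfl⟩, rfl⟩⟩
  have h2 := (Finset.card_le_card h1).trans Finset.card_biUnion_le
  rw [cnt_eq Ψ β, cnt_eq Ψ α]
  calc ((Ψ.image β).card : ℝ) ≤ ∑ a ∈ Ψ.image α,
        ((((Ψ.filter (fun s' => α s' = a)).image β).card : ℕ) : ℝ) := by exact_mod_cast h2
    _ ≤ ∑ _a ∈ Ψ.image α, n := by
        refine Finset.sum_le_sum fun a ha => ?_
        obtain ⟨s, hs, rfl⟩ := Finset.mem_image.1 ha
        have := h s hs (Ψ.filter (fun s' => α s' = α s)) (fun s' hs' => Finset.mem_filter.1 hs')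
        rwa [cnt_eq] at this
    _ = _ := by rw [Finset.sum_const, nsmul_eq_mul]

end comb

section few

variable (k : Type) [Field k] {K : Type} [Field K] [Algebra k K]

/-- There are few values of the tuple `W` at the specializations over a number field at which the
elements of a suitable finite set have small height. -/
def Few (W : Finset K) : Prop :=
  ∃ C : Finset K, W ⊆ C ∧ ∀ (L : Type) [Field L] [NumberField L] [Algebra k L] (ε : ℝ), 0 < ε →
    ∃ c : ℝ, 1 ≤ c ∧ ∀ V : ℝ, 1 ≤ V → ∀ Ψ : Finset (Sz k K L),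
      (∀ s ∈ Ψ, ∀ z ∈ C, z ∈ s.T ∧ mulHeight₁ (s.ev z) ≤ V) →
      (cnt Ψ (fun s => fun w : W => s.ev (w : K)) : ℝ) ≤ c * V ^ ε

/-- all finite subsets have few values -/
def Good (F : Set K) : Prop := ∀ W : Finset K, (W : Set K) ⊆ F → Few k W

variable {k}

lemma Good.mono {F F' : Set K} (h : Good k F) (h' : F' ⊆ F) : Good k F' :=
  fun W hW => h W (hW.trans h')

/-- constants -/
lemma good_bot : Good k (Set.range (algebraMap k K)) := by
  classical
  intro W hW
  refine ⟨W, subset_rfl, ?_⟩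
  intro L _ _ _ ε hε
  refine ⟨1, le_rfl, ?_⟩
  intro V hV Ψ _
  have h1 : cnt Ψ (fun s => fun w : W => s.ev (w : K)) ≤ 1 := by
    rw [cnt_eq, Finset.card_le_one]
    intro f hf g hg
    obtain ⟨s, _, rfl⟩ := Finset.mem_image.1 hf
    obtain ⟨s', _, rfl⟩ := Finset.mem_image.1 hg
    funext w
    obtain ⟨z, hz⟩ := hW w.2
    rw [← hz, ev_algebraMap, ev_algebraMap]
  have h2 : (cnt Ψ (fun s => fun w : W => s.ev (w : K)) : ℝ) ≤ 1 := by exact_mod_cast h1
  have h3 : 1 ≤ V ^ ε := Real.one_le_rpow hV hε.le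
  linarith

/-- **Algebraic extensions.** -/
theorem Good.algebraic {F : IntermediateField k K} (h : Good k (F : Set K)) :
    Good k {z : K | IsAlgebraic F z} := by
  classical
  intro W hW
  -- the coefficients of the minimal polynomials
  let cf : K → Finset K := fun w =>
    (Finset.range ((minpoly F w).natDegree + 1)).image (fun j => ((minpoly F w).coeff j : K))
  let W' : Finset K := W.biUnion cf
  have hW' : (W' : Set K) ⊆ F := by
    intro z hz
    obtain ⟨w, _, hz⟩ := Finset.mem_biUnion.1 (Finset.mem_coe.1 hz)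
    obtain ⟨j, _, rfl⟩ := Finset.mem_image.1 hz
    exact ((minpoly F w).coeff j).2
  obtain ⟨C', hC', hfew⟩ := h W' hW'
  refine ⟨C' ∪ W, Finset.subset_union_right, ?_⟩
  intro L _ _ _ ε hε
  obtain ⟨c, hc, hb⟩ := hfew L ε hε
  let N : ℕ := ∏ w : W, ((minpoly F (w : K)).natDegree)
  refine ⟨c * (N + 1), ?_, ?_⟩
  · have h0 : (0 : ℝ) ≤ N := Nat.cast_nonneg _
    exact one_le_mul_of_one_le_of_one_le hc (by linarith)
  intro V hV Ψ hΨ
  have h1 := hb V hV Ψ (fun s hs z hz => hΨ s hs z (Finset.mem_union_left _ hz))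
  have hVε : 1 ≤ V ^ ε := Real.one_le_rpow hV hε.le
  have h2 := cnt_le_of_fibre Ψ (fun s => fun w : W' => s.ev (w : K))
    (fun s => fun w : W => s.ev (w : K)) N (by
      intro s hs Ψ' hΨ'
      -- the specialized polynomials
      let Q : W → L[X] := fun w => sp s ((minpoly F (w : K)).map (algebraMap F K))
      have hint : ∀ w : W, IsIntegral F (w : K) := fun w =>
        (isAlgebraic_iff_isIntegral.1 (hW w.2))
      have hQm : ∀ w : W, Q w ≠ 0 ∧ (Q w).natDegree ≤ (minpoly F (w : K)).natDegree := by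
        intro w
        refine ⟨?_, ?_⟩
        · intro h0
          have h3 : (Q w).coeff (minpoly F (w : K)).natDegree = 1 := by
            simp only [Q]
            rw [sp_coeff, coeff_map]
            have := (minpoly.monic (hint w)).coeff_natDegree
            rw [this, map_one, ev_one]
          rw [h0, coeff_zero] at h3
          exact zero_ne_one h3
        · refine (sp_natDegree _ _).trans ?_
          exact natDegree_map_le
      have hsub : Ψ'.image (fun s => fun w : W => s.ev (w : K)) ⊆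
          Fintype.piFinset (fun w : W => (Q w).roots.toFinset) := by
        intro f hf
        obtain ⟨s', hs', rfl⟩ := Finset.mem_image.1 hf
        obtain ⟨hs'Ψ, heq⟩ := hΨ' s' hs'
        rw [Fintype.mem_piFinset]
        intro w
        rw [Multiset.mem_toFinset, mem_roots (hQm w).1, IsRoot.def]
        have hT : ∀ z ∈ W', z ∈ s'.T := fun z hz =>
          (hΨ s' hs'Ψ z (Finset.mem_union_left _ (hC' hz))).1
        have hcoef : ∀ j, ((minpoly F (w : K)).map (algebraMap F K)).coeff j ∈ s'.T ∧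
            s'.ev (((minpoly F (w : K)).map (algebraMap F K)).coeff j) =
              s.ev (((minpoly F (w : K)).map (algebraMap F K)).coeff j) := by
          intro j
          by_cases hj : j < (minpoly F (w : K)).natDegree + 1
          · have hm : ((minpoly F (w : K)).map (algebraMap F K)).coeff j ∈ W' := by
              rw [coeff_map]
              exact Finset.mem_biUnion.2 ⟨w, w.2, Finset.mem_image.2
                ⟨j, Finset.mem_range.2 hj, rfl⟩⟩
            refine ⟨hT _ hm, ?_⟩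
            exact congrFun heq ⟨_, hm⟩
          · have h0 : ((minpoly F (w : K)).map (algebraMap F K)).coeff j = 0 := by
              rw [coeff_map, coeff_eq_zero_of_natDegree_lt (by omega), map_zero]
            rw [h0]
            exact ⟨s'.T.zero_mem, by rw [ev_zero, ev_zero]⟩
        have hwT : (w : K) ∈ s'.T := (hΨ s' hs'Ψ w (Finset.mem_union_right _ w.2)).1
        have h4 := (sp_eval s' (fun j => (hcoef j).1) hwT).1
        have h5 : ((minpoly F (w : K)).map (algebraMap F K)).eval (w : K) = 0 := by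
          rw [eval_map_algebraMap]
          exact minpoly.aeval F (w : K)
        rw [h5, ev_zero] at h4
        have h6 : Q w = sp s' ((minpoly F (w : K)).map (algebraMap F K)) := by
          ext j
          simp only [Q]
          rw [sp_coeff, sp_coeff]
          exact (hcoef j).2.symm
        rw [h6]
        exact h4
      have h3 : cnt Ψ' (fun s => fun w : W => s.ev (w : K)) ≤ N := by
        rw [cnt_eq]
        refine (Finset.card_le_card hsub).trans ?_
        rw [Fintype.card_piFinset]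
        apply Finset.prod_le_prod'
        intro w _
        refine (Multiset.toFinset_card_le _).trans ((card_roots' _).trans ?_)
        exact (hQm w).2
      exact_mod_cast h3)
  calc (cnt Ψ (fun s => fun w : W => s.ev (w : K)) : ℝ)
      ≤ cnt Ψ (fun s => fun w : W' => s.ev (w : K)) * N := h2
    _ ≤ (c * V ^ ε) * (N + 1) := by
        have h0 : (0 : ℝ) ≤ N := Nat.cast_nonneg _
        have h4 : (N : ℝ) ≤ N + 1 := by linarith
        gcongr
    _ = _ := by ring

end few

end Pool.Agent.K9h15.Tow
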