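import Mathlib
import Pool.Agent.K9h15.Tow
import Pool.Agent.K9h15.Sep

/-!
# Few values of the elements of a tower under specialization: the fibre step
-/

set_option autoImplicit false

open Height Polynomial

namespace Pool.Agent.K9h15.Tow

open Pool.Agent.K9h15.Fib (gp rho del)

variable {k : Type} [Field k] {K : Type} [Field K] [Algebra k K]

lemma rho_map {R S : Type*} [CommRing R] [CommRing S] (f : R →+* S) (a1 a0 b1 b0 : R) :
    f (rho a1 a0 b1 b0) = rho (f a1) (f a0) (f b1) (f b0) := by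
  simp [rho]

lemma del_map {R S : Type*} [CommRing R] [CommRing S] (f : R →+* S) (m a1 a0 b1 b0 : R) :
    f (del m a1 a0 b1 b0) = del (f m) (f a1) (f a0) (f b1) (f b0) := by
  unfold del
  simp only [map_sub, map_pow, map_add, map_mul, map_ofNat]

lemma ev_rho {L : Type} [Field L] [Algebra k L] (s : Sz k K L) {a1 a0 b1 b0 : K}
    (h1 : a1 ∈ s.T) (h0 : a0 ∈ s.T) (k1 : b1 ∈ s.T) (k0 : b0 ∈ s.T) :
    s.ev (rho a1 a0 b1 b0) = rho (s.ev a1) (s.ev a0) (s.ev b1) (s.ev b0) ∧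
      rho a1 a0 b1 b0 ∈ s.T := by
  have h2 := rho_map (algebraMap s.T K) ⟨a1, h1⟩ ⟨a0, h0⟩ ⟨b1, k1⟩ ⟨b0, k0⟩
  have h3 : rho a1 a0 b1 b0 = ((rho (⟨a1, h1⟩ : s.T) ⟨a0, h0⟩ ⟨b1, k1⟩ ⟨b0, k0⟩ : s.T) : K) :=
    h2.symm
  refine ⟨?_, by rw [h3]; exact (rho (⟨a1, h1⟩ : s.T) ⟨a0, h0⟩ ⟨b1, k1⟩ ⟨b0, k0⟩ : s.T).2⟩
  rw [h3, ev_of, ev_mk s h1, ev_mk s h0, ev_mk s k1, ev_mk s k0]
  exact rho_map (s.φ : s.T →+* L) ⟨a1, h1⟩ ⟨a0, h0⟩ ⟨b1, k1⟩ ⟨b0, k0⟩

lemma ev_del {L : Type} [Field L] [Algebra k L] (s : Sz k K L) {m a1 a0 b1 b0 : K}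
    (hm : m ∈ s.T) (h1 : a1 ∈ s.T) (h0 : a0 ∈ s.T) (k1 : b1 ∈ s.T) (k0 : b0 ∈ s.T) :
    s.ev (del m a1 a0 b1 b0) = del (s.ev m) (s.ev a1) (s.ev a0) (s.ev b1) (s.ev b0) ∧
      del m a1 a0 b1 b0 ∈ s.T := by
  have h2 := del_map (algebraMap s.T K) ⟨m, hm⟩ ⟨a1, h1⟩ ⟨a0, h0⟩ ⟨b1, k1⟩ ⟨b0, k0⟩
  have h3 : del m a1 a0 b1 b0 =
      ((del (⟨m, hm⟩ : s.T) ⟨a1, h1⟩ ⟨a0, h0⟩ ⟨b1, k1⟩ ⟨b0, k0⟩ : s.T) : K) := h2.symm
  refine ⟨?_, by rw [h3]; exact (del (⟨m, hm⟩ : s.T) ⟨a1, h1⟩ ⟨a0, h0⟩ ⟨b1, k1⟩ ⟨b0, k0⟩ : s.T).2⟩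
  rw [h3, ev_of, ev_mk s hm, ev_mk s h1, ev_mk s h0, ev_mk s k1, ev_mk s k0]
  exact del_map (s.φ : s.T →+* L) ⟨m, hm⟩ ⟨a1, h1⟩ ⟨a0, h0⟩ ⟨b1, k1⟩ ⟨b0, k0⟩

open Classical in
/-- the finite set of coefficients -/
noncomputable def cf (P : K[X]) : Finset K := (Finset.range (P.natDegree + 1)).image P.coeff

lemma coeff_mem_cf (P : K[X]) (j : ℕ) : P.coeff j ∈ cf P ∨ P.coeff j = 0 := by
  classical
  by_cases hj : j < P.natDegree + 1
  · left
    unfold cf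
    rw [Finset.mem_image]
    exact ⟨j, Finset.mem_range.2 hj, rfl⟩
  · right
    exact coeff_eq_zero_of_natDegree_lt (by omega)

lemma mem_cf {P : K[X]} {z : K} (h : z ∈ cf P) : ∃ j, P.coeff j = z := by
  classical
  unfold cf at h
  rw [Finset.mem_image] at h
  obtain ⟨j, _, hj⟩ := h
  exact ⟨j, hj⟩

/-- **The fibre step.** -/
theorem Good.fibre {F : IntermediateField k K} (h : Good k (F : Set K)) {t y : K}
    {c m a1 a0 b1 b0 : K} {r u w : K[X]} (fc : c ∈ F) (fm : m ∈ F) (f1 : a1 ∈ F) (f0 : a0 ∈ F)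
    (g1 : b1 ∈ F) (g0 : b0 ∈ F) (fr : ∀ j, r.coeff j ∈ F) (fu : ∀ j, u.coeff j ∈ F)
    (fw : ∀ j, w.coeff j ∈ F) (nc : c ≠ 0) (nm : m ≠ 0) (nr : rho a1 a0 b1 b0 ≠ 0)
    (nd : del m a1 a0 b1 b0 ≠ 0) (hbz : u * gp c m a1 a0 b1 b0 + w * r = 1)
    (hy : (gp c m a1 a0 b1 b0).eval t * r.eval t = y * y) :
    Good k {z : K | ∃ p q : K[X], (∀ j, p.coeff j ∈ F) ∧ (∀ j, q.coeff j ∈ F) ∧
      q.eval t ≠ 0 ∧ z = p.eval t / q.eval t} := by
  classical
  intro W hW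
  have hpq : ∀ z : K, ∃ p q : K[X], z ∈ W → (∀ j, p.coeff j ∈ F) ∧ (∀ j, q.coeff j ∈ F) ∧
      q.eval t ≠ 0 ∧ z = p.eval t / q.eval t := by
    intro z
    by_cases hz : z ∈ W
    · obtain ⟨p, q, h1⟩ := hW (Finset.mem_coe.2 hz)
      exact ⟨p, q, fun _ => h1⟩
    · exact ⟨0, 0, fun h => absurd h hz⟩
  choose p q hpq using hpq
  let W' : Finset K := ({c, m, a1, a0, b1, b0} : Finset K) ∪ (cf r ∪ (cf u ∪ cf w)) ∪
    W.biUnion (fun z => cf (p z) ∪ cf (q z))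
  have hW' : (W' : Set K) ⊆ F := by
    intro z hz
    rw [Finset.mem_coe] at hz
    simp only [W', Finset.mem_union, Finset.mem_insert, Finset.mem_singleton,
      Finset.mem_biUnion] at hz
    rcases hz with ((rfl | rfl | rfl | rfl | rfl | rfl) | hz | hz | hz) | ⟨z', hz', hz | hz⟩
    · exact fc
    · exact fm
    · exact f1
    · exact f0
    · exact g1
    · exact g0
    · obtain ⟨j, rfl⟩ := mem_cf hz; exact fr j
    · obtain ⟨j, rfl⟩ := mem_cf hz; exact fu j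
    · obtain ⟨j, rfl⟩ := mem_cf hz; exact fw j
    · obtain ⟨j, rfl⟩ := mem_cf hz; exact (hpq z' hz').1 j
    · obtain ⟨j, rfl⟩ := mem_cf hz; exact (hpq z' hz').2.1 j
  obtain ⟨C', hC', hfew⟩ := h W' hW'
  refine ⟨C' ∪ (W ∪ (({t, y, c⁻¹, m⁻¹, (rho a1 a0 b1 b0)⁻¹, (del m a1 a0 b1 b0)⁻¹} : Finset K) ∪
    W.image (fun z => ((q z).eval t)⁻¹))), fun z hz =>
      Finset.mem_union_right _ (Finset.mem_union_left _ hz), ?_⟩
  intro L _ _ _ ε hε
  obtain ⟨c1, hc1, hb⟩ := hfew L (ε / 2) (by positivity)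
  obtain ⟨c2, hc2, hfib⟩ := Pool.Agent.K9h15.Fib.fib L (r.natDegree + u.natDegree + w.natDegree)
    (ε / 2) (by positivity)
  refine ⟨c1 * c2, one_le_mul_of_one_le_of_one_le hc1 hc2, ?_⟩
  intro V hV Ψ hΨ
  have h1 := hb V hV Ψ (fun s hs z hz => hΨ s hs z (Finset.mem_union_left _ hz))
  have h2 := cnt_le_of_fibre Ψ (fun s => fun w : W' => s.ev (w : K))
    (fun s => fun w : W => s.ev (w : K)) (c2 * V ^ (ε / 2)) (by
      intro s hs Ψ' hΨ'
      -- membership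
      have hTW : ∀ s' ∈ Ψ, ∀ z ∈ W', z ∈ s'.T ∧ mulHeight₁ (s'.ev z) ≤ V := fun s' hs' z hz =>
        hΨ s' hs' z (Finset.mem_union_left _ (hC' hz))
      have hmem : c ∈ W' ∧ m ∈ W' ∧ a1 ∈ W' ∧ a0 ∈ W' ∧ b1 ∈ W' ∧ b0 ∈ W' := by
        simp [W']
      obtain ⟨mc, mm, m1, m0, l1, l0⟩ := hmem
      have hcoef : ∀ P : K[X], cf P ⊆ W' → ∀ s' ∈ Ψ, ∀ j, P.coeff j ∈ s'.T ∧
          mulHeight₁ (s'.ev (P.coeff j)) ≤ V := by
        intro P hP s' hs' j
        rcases coeff_mem_cf P j with h3 | h3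
        · exact hTW s' hs' _ (hP h3)
        · rw [h3, ev_zero, mulHeight₁_zero]
          exact ⟨s'.T.zero_mem, hV⟩
      have hsub : ∀ s' ∈ Ψ', s' ∈ Ψ ∧ ∀ z ∈ W', s'.ev z = s.ev z := by
        intro s' hs'
        obtain ⟨h3, h4⟩ := hΨ' s' hs'
        exact ⟨h3, fun z hz => congrFun h4 ⟨z, hz⟩⟩
      have hspeq : ∀ P : K[X], cf P ⊆ W' → ∀ s' ∈ Ψ', sp s' P = sp s P := by
        intro P hP s' hs'
        ext j
        rw [sp_coeff, sp_coeff]
        rcases coeff_mem_cf P j with h3 | h3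
        · exact (hsub s' hs').2 _ (hP h3)
        · rw [h3, ev_zero, ev_zero]
      have cfr : cf r ⊆ W' := fun z hz => by simp [W', hz]
      have cfu : cf u ⊆ W' := fun z hz => by simp [W', hz]
      have cfw : cf w ⊆ W' := fun z hz => by simp [W', hz]
      have cfp : ∀ z ∈ W, cf (p z) ⊆ W' := by
        intro z hz z' hz'
        refine Finset.mem_union_right _ (Finset.mem_biUnion.2 ⟨z, hz, ?_⟩)
        exact Finset.mem_union_left _ hz'
      have cfq : ∀ z ∈ W, cf (q z) ⊆ W' := by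
        intro z hz z' hz'
        refine Finset.mem_union_right _ (Finset.mem_biUnion.2 ⟨z, hz, ?_⟩)
        exact Finset.mem_union_right _ hz'
      have hex : ∀ z ∈ ({t, y, c⁻¹, m⁻¹, (rho a1 a0 b1 b0)⁻¹, (del m a1 a0 b1 b0)⁻¹} : Finset K),
          ∀ s' ∈ Ψ, z ∈ s'.T ∧ mulHeight₁ (s'.ev z) ≤ V := by
        intro z hz s' hs'
        exact hΨ s' hs' z (Finset.mem_union_right _ (Finset.mem_union_right _
          (Finset.mem_union_left _ hz)))
      have hqi : ∀ z ∈ W, ∀ s' ∈ Ψ, ((q z).eval t)⁻¹ ∈ s'.T := by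
        intro z hz s' hs'
        exact (hΨ s' hs' _ (Finset.mem_union_right _ (Finset.mem_union_right _
          (Finset.mem_union_right _ (Finset.mem_image_of_mem _ hz))))).1
      -- the data of the equation at s
      have Tc := hTW s hs c mc
      have Tm := hTW s hs m mm
      have T1 := hTW s hs a1 m1
      have T0 := hTW s hs a0 m0
      have U1 := hTW s hs b1 l1
      have U0 := hTW s hs b0 l0
      have hρ := ev_rho s T1.1 T0.1 U1.1 U0.1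
      have hδ := ev_del s Tm.1 T1.1 T0.1 U1.1 U0.1
      have ec : s.ev c ≠ 0 := ev_ne_zero s nc Tc.1 (hex c⁻¹ (by simp) s hs).1
      have em : s.ev m ≠ 0 := ev_ne_zero s nm Tm.1 (hex m⁻¹ (by simp) s hs).1
      have er : rho (s.ev a1) (s.ev a0) (s.ev b1) (s.ev b0) ≠ 0 := by
        rw [← hρ.1]
        exact ev_ne_zero s nr hρ.2 (hex _ (by simp) s hs).1
      have ed : del (s.ev m) (s.ev a1) (s.ev a0) (s.ev b1) (s.ev b0) ≠ 0 := by
        rw [← hδ.1]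
        exact ev_ne_zero s nd hδ.2 (hex _ (by simp) s hs).1
      have hgps := sp_gp s Tc.1 Tm.1 T1.1 T0.1 U1.1 U0.1
      have hbz' := sp_bezout s (fun j => (hcoef u cfu s hs j).1) hgps.2
        (fun j => (hcoef w cfw s hs j).1) (fun j => (hcoef r cfr s hs j).1) hbz
      rw [hgps.1] at hbz'
      have hS := hfib V (s.ev c) (s.ev m) (s.ev a1) (s.ev a0) (s.ev b1) (s.ev b0) (sp s r)
        (sp s u) (sp s w) hV ec em er ed Tc.2 Tm.2 T1.2 T0.2 U1.2 U0.2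
        ((sp_natDegree s r).trans (by omega)) ((sp_natDegree s u).trans (by omega))
        ((sp_natDegree s w).trans (by omega))
        (fun j => by rw [sp_coeff]; exact (hcoef r cfr s hs j).2)
        (fun j => by rw [sp_coeff]; exact (hcoef u cfu s hs j).2)
        (fun j => by rw [sp_coeff]; exact (hcoef w cfw s hs j).2) hbz'
        (Ψ'.image (fun s' => s'.ev t)) (by
          intro τ hτ
          obtain ⟨s', hs', rfl⟩ := Finset.mem_image.1 hτ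
          obtain ⟨hs'Ψ, heq⟩ := hsub s' hs'
          have ht := hex t (by simp) s' hs'Ψ
          have hyT := hex y (by simp) s' hs'Ψ
          refine ⟨ht.2, s'.ev y, ?_⟩
          have hgps' := sp_gp s' (hTW s' hs'Ψ c mc).1 (hTW s' hs'Ψ m mm).1 (hTW s' hs'Ψ a1 m1).1
            (hTW s' hs'Ψ a0 m0).1 (hTW s' hs'Ψ b1 l1).1 (hTW s' hs'Ψ b0 l0).1
          have e1 := sp_eval s' hgps'.2 ht.1
          have e2 := sp_eval s' (fun j => (hcoef r cfr s' hs'Ψ j).1) ht.1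
          rw [hgps'.1, heq c mc, heq m mm, heq a1 m1, heq a0 m0, heq b1 l1, heq b0 l0] at e1
          rw [hspeq r cfr s' hs'] at e2
          rw [e1.1, e2.1, ← ev_mul s' e1.2 e2.2, hy, ev_mul s' hyT.1 hyT.1])
      -- the values on W are determined by the value of t
      have hcnt : cnt Ψ' (fun s => fun w : W => s.ev (w : K)) ≤
          (Ψ'.image (fun s' => s'.ev t)).card := by
        rw [cnt_eq]
        have h5 : Ψ'.image (fun s => fun w : W => s.ev (w : K)) ⊆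
            (Ψ'.image (fun s' => s'.ev t)).image (fun τ => fun z : W =>
              (sp s (p z)).eval τ / (sp s (q z)).eval τ) := by
          intro f hf
          obtain ⟨s', hs', rfl⟩ := Finset.mem_image.1 hf
          refine Finset.mem_image.2 ⟨s'.ev t, Finset.mem_image_of_mem _ hs', ?_⟩
          funext z
          obtain ⟨hs'Ψ, heq⟩ := hsub s' hs'
          have ht := hex t (by simp) s' hs'Ψ
          have e1 := sp_eval s' (fun j => (hcoef (p z) (cfp z z.2) s' hs'Ψ j).1) ht.1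
          have e2 := sp_eval s' (fun j => (hcoef (q z) (cfq z z.2) s' hs'Ψ j).1) ht.1
          rw [hspeq _ (cfp z z.2) s' hs'] at e1
          rw [hspeq _ (cfq z z.2) s' hs'] at e2
          obtain ⟨-, -, h6, h7⟩ := hpq z z.2
          have h8 : s'.ev ((q z).eval t) ≠ 0 := ev_ne_zero s' h6 e2.2 (hqi z z.2 s' hs'Ψ)
          have hzT : (z : K) ∈ s'.T := (hΨ s' hs'Ψ z (Finset.mem_union_right _
            (Finset.mem_union_left _ z.2))).1
          have h9 : (z : K) * (q z).eval t = (p z).eval t := (eq_div_iff h6).1 h7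
          rw [e1.1, e2.1, div_eq_iff h8, ← h9, ev_mul s' hzT e2.2]
        exact (Finset.card_le_card h5).trans Finset.card_image_le
      calc (cnt Ψ' (fun s => fun w : W => s.ev (w : K)) : ℝ)
          ≤ (Ψ'.image (fun s' => s'.ev t)).card := by exact_mod_cast hcnt
        _ ≤ _ := hS)
  calc (cnt Ψ (fun s => fun w : W => s.ev (w : K)) : ℝ)
      ≤ cnt Ψ (fun s => fun w : W' => s.ev (w : K)) * (c2 * V ^ (ε / 2)) := h2
    _ ≤ (c1 * V ^ (ε / 2)) * (c2 * V ^ (ε / 2)) := by gcongr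
    _ = c1 * c2 * (V ^ (ε / 2) * V ^ (ε / 2)) := by ring
    _ = _ := by
      rw [← Real.rpow_add (by linarith)]
      ring_nf

end Pool.Agent.K9h15.Tow
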