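import Mathlib
import Pool.Agent.K9h15.Comp
import Pool.Agent.K9h15.TowF

/-!
# The certificate at specializations
-/

set_option autoImplicit false

namespace Pool.Agent.K9h15.Tow

variable {k K L : Type} [Field k] [Field K] [Algebra k K] [Field L] [Algebra k L]

lemma ev_pow (s : Sz k K L) {z : K} (hz : z ∈ s.T) (n : ℕ) : s.ev (z ^ n) = s.ev z ^ n := by
  induction n with
  | zero => rw [pow_zero, pow_zero, ev_one]
  | succ n ih => rw [pow_succ, pow_succ, ev_mul s (s.T.pow_mem hz n) hz, ih]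

lemma ev_neg (s : Sz k K L) {z : K} (hz : z ∈ s.T) : s.ev (-z) = -s.ev z := by
  have h := ev_add s hz (s.T.neg_mem hz)
  rw [add_neg_cancel, ev_zero] at h
  exact (neg_eq_of_add_eq_zero_right h.symm).symm

lemma ev_sub (s : Sz k K L) {z w : K} (hz : z ∈ s.T) (hw : w ∈ s.T) :
    s.ev (z - w) = s.ev z - s.ev w := by
  rw [sub_eq_add_neg, ev_add s hz (s.T.neg_mem hw), ev_neg s hw, sub_eq_add_neg]

lemma ev_inv (s : Sz k K L) {z : K} (hz : z ∈ s.T) (hi : z⁻¹ ∈ s.T) :
    s.ev z⁻¹ = (s.ev z)⁻¹ := by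
  by_cases h0 : z = 0
  · rw [h0, inv_zero, ev_zero, inv_zero]
  · have h1 := ev_mul s hz hi
    rw [mul_inv_cancel₀ h0, ev_one] at h1
    exact eq_inv_of_mul_eq_one_right h1.symm

lemma ev_sum (s : Sz k K L) {ι : Type*} (S : Finset ι) (f : ι → K) (h : ∀ i ∈ S, f i ∈ s.T) :
    s.ev (∑ i ∈ S, f i) = ∑ i ∈ S, s.ev (f i) := by
  classical
  induction S using Finset.induction_on with
  | empty => rw [Finset.sum_empty, Finset.sum_empty, ev_zero]
  | insert a S ha ih =>
    rw [Finset.sum_insert ha, Finset.sum_insert ha,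
      ev_add s (h a (Finset.mem_insert_self _ _))
        (s.T.sum_mem fun i hi => h i (Finset.mem_insert_of_mem hi)),
      ih fun i hi => h i (Finset.mem_insert_of_mem hi)]

lemma ev_prod (s : Sz k K L) {ι : Type*} (S : Finset ι) (f : ι → K) (h : ∀ i ∈ S, f i ∈ s.T) :
    s.ev (∏ i ∈ S, f i) = ∏ i ∈ S, s.ev (f i) := by
  classical
  induction S using Finset.induction_on with
  | empty => rw [Finset.prod_empty, Finset.prod_empty, ev_one]
  | insert a S ha ih =>
    rw [Finset.prod_insert ha, Finset.prod_insert ha,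
      ev_mul s (h a (Finset.mem_insert_self _ _))
        (s.T.prod_mem fun i hi => h i (Finset.mem_insert_of_mem hi)),
      ih fun i hi => h i (Finset.mem_insert_of_mem hi)]

lemma na_sum_lt {v : AbsoluteValue L ℝ} (hv : IsNonarchimedean v) {ι : Type*} (s : Finset ι)
    (f : ι → L) (h : ∀ i ∈ s, v (f i) < 1) : v (∑ i ∈ s, f i) < 1 := by
  classical
  induction s using Finset.induction_on with
  | empty => simp
  | insert a s ha ih =>
    rw [Finset.sum_insert ha]
    refine lt_of_le_of_lt (hv _ _) (max_lt (h a (Finset.mem_insert_self _ _)) (ih ?_))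
    exact fun i hi => h i (Finset.mem_insert_of_mem hi)

lemma prod_lt {ι : Type*} (s : Finset ι) (hs : s.Nonempty) (f : ι → ℝ) (h0 : ∀ i ∈ s, 0 ≤ f i)
    (h : ∀ i ∈ s, f i < 1) : ∏ i ∈ s, f i < 1 := by
  classical
  obtain ⟨i, hi⟩ := hs
  rw [← Finset.mul_prod_erase s f hi]
  have h1 : ∏ j ∈ s.erase i, f j ≤ 1 := Finset.prod_le_one
    (fun j hj => h0 j (Finset.mem_of_mem_erase hj)) fun j hj => (h j (Finset.mem_of_mem_erase hj)).le
  have h2 : 0 ≤ ∏ j ∈ s.erase i, f j :=
    Finset.prod_nonneg fun j hj => h0 j (Finset.mem_of_mem_erase hj)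
  calc f i * ∏ j ∈ s.erase i, f j ≤ f i * 1 := mul_le_mul_of_nonneg_left h1 (h0 i hi)
    _ < 1 := by rw [mul_one]; exact h i hi

/-- the certificate at a specialization -/
lemma cert_false {ι : Type} {F : Subfield K} {v : AbsoluteValue L ℝ} (hv : IsNonarchimedean v)
    (s : Sz k K L) (P : MvPolynomial ι F) (x : ι → K) (h0 : MvPolynomial.constantCoeff P = 0)
    (hP : MvPolynomial.aeval x P = 1) (Z : Finset ι) (hZ : P.vars ⊆ Z)
    (hc : ∀ m ∈ P.support, ((P.coeff m : F) : K) ∈ s.T ∧ v (s.ev ((P.coeff m : F) : K)) ≤ 1)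
    (hx : ∀ i ∈ Z, x i ∈ s.T ∧ v (s.ev (x i)) < 1) : False := by
  classical
  replace hc : ∀ m ∈ P.support, algebraMap F K (P.coeff m) ∈ s.T ∧
      v (s.ev (algebraMap F K (P.coeff m))) ≤ 1 := hc
  rw [MvPolynomial.aeval_def, MvPolynomial.eval₂_eq] at hP
  have hm : ∀ m ∈ P.support, ∀ i ∈ m.support, i ∈ Z := fun m hm i hi =>
    hZ ((MvPolynomial.mem_vars_iff_mem_support i).2 ⟨m, hm, hi⟩)
  have h1 : ∀ m ∈ P.support, (algebraMap F K (P.coeff m) * ∏ i ∈ m.support, x i ^ m i) ∈ s.T := by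
    intro m hm'
    refine s.T.mul_mem (hc m hm').1 (s.T.prod_mem fun i hi => s.T.pow_mem (hx i (hm m hm' i hi)).1 _)
  have h2 := congrArg s.ev hP
  rw [ev_sum s _ _ h1, ev_one] at h2
  have h3 : v (∑ m ∈ P.support, s.ev (algebraMap F K (P.coeff m) * ∏ i ∈ m.support, x i ^ m i)) < 1 := by
    apply na_sum_lt hv
    intro m hm'
    rw [ev_mul s (hc m hm').1
      (s.T.prod_mem fun i hi => s.T.pow_mem (hx i (hm m hm' i hi)).1 _),
      ev_prod s _ _ fun i hi => s.T.pow_mem (hx i (hm m hm' i hi)).1 _, map_mul, map_prod]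
    have h4 : ∏ i ∈ m.support, v (s.ev (x i ^ m i)) < 1 := by
      apply prod_lt
      · rw [Finsupp.support_nonempty_iff]
        rintro rfl
        rw [MvPolynomial.mem_support_iff] at hm'
        exact hm' h0
      · intro i _; exact apply_nonneg v _
      · intro i hi
        rw [ev_pow s (hx i (hm m hm' i hi)).1, map_pow]
        exact pow_lt_one₀ (apply_nonneg _ _) (hx i (hm m hm' i hi)).2 (Finsupp.mem_support_iff.1 hi)
    calc v (s.ev (algebraMap F K (P.coeff m))) * ∏ i ∈ m.support, v (s.ev (x i ^ m i))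
        ≤ 1 * ∏ i ∈ m.support, v (s.ev (x i ^ m i)) :=
          mul_le_mul_of_nonneg_right (hc m hm').2 (Finset.prod_nonneg fun i _ => apply_nonneg v _)
      _ < 1 := by rw [one_mul]; exact h4
  rw [h2, map_one] at h3
  exact lt_irrefl _ h3

end Pool.Agent.K9h15.Tow
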