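import Mathlib
import Pool.Agent.Helper259.HtExt
import Pool.Agent.K9h15.CompA

/-!
# Extension of specializations to integral extensions
-/

set_option autoImplicit false

open Height Polynomial NumberField

namespace Pool.Agent.K9h15.Tow

lemma mulHeight₁_ext {L L' : Type} [Field L] [NumberField L] [Field L'] [NumberField L']
    [Algebra L L'] (x : L) :
    mulHeight₁ (algebraMap L L' x) = mulHeight₁ x ^ Module.finrank L L' := by
  rw [mulHeight₁_eq_mulHeight, mulHeight₁_eq_mulHeight,
    ← Pool.Agent.Helper259.HtExt.mulHeight_ext (L := L')]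
  congr 1
  funext i
  fin_cases i <;> simp

/-- homomorphisms into an algebraically closed field extend to integral extensions -/
lemma exists_extend {A B Ω : Type} [CommRing A] [CommRing B] [Algebra A B]
    (hinj : Function.Injective (algebraMap A B)) [Algebra.IsIntegral A B] [Field Ω]
    [IsAlgClosed Ω] (φ : A →+* Ω) : ∃ ψ : B →+* Ω, ψ.comp (algebraMap A B) = φ := by
  let p : Ideal A := RingHom.ker φ
  have hp : p.IsPrime := RingHom.ker_isPrime φ
  obtain ⟨q, hq, hqp⟩ := Ideal.exists_ideal_over_prime_of_isIntegral p (⊥ : Ideal B) (by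
    intro x hx
    rw [Ideal.mem_comap, Ideal.mem_bot] at hx
    have : x = 0 := hinj (by rw [hx, map_zero])
    rw [this]
    exact p.zero_mem)
  obtain ⟨hqprime, hqcomap⟩ := hqp
  have hle : p ≤ q.comap (algebraMap A B) := hqcomap.ge
  let _ : Algebra (A ⧸ p) Ω := (Ideal.Quotient.lift p φ fun a ha => ha).toAlgebra
  let _ : Algebra (A ⧸ p) (B ⧸ q) := (Ideal.quotientMap q (algebraMap A B) hle).toAlgebra
  have hpd : IsDomain (A ⧸ p) := Ideal.Quotient.isDomain p
  have hqd : IsDomain (B ⧸ q) := Ideal.Quotient.isDomain q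
  have h1 : Function.Injective (algebraMap (A ⧸ p) Ω) := by
    change Function.Injective (Ideal.Quotient.lift p φ fun a ha => ha)
    exact RingHom.lift_injective_of_ker_le_ideal _ _ le_rfl
  have h2 : Function.Injective (algebraMap (A ⧸ p) (B ⧸ q)) := by
    change Function.Injective (Ideal.quotientMap q (algebraMap A B) hle)
    exact Ideal.quotientMap_injective' hqcomap.le
  have : Module.IsTorsionFree (A ⧸ p) Ω := Module.isTorsionFree_iff_algebraMap_injective.2 h1
  have : Module.IsTorsionFree (A ⧸ p) (B ⧸ q) :=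
    Module.isTorsionFree_iff_algebraMap_injective.2 h2
  have halg : Algebra.IsIntegral (A ⧸ p) (B ⧸ q) := by
    refine ⟨fun x => ?_⟩
    obtain ⟨b, rfl⟩ := Ideal.Quotient.mk_surjective x
    obtain ⟨P, hP, hPb⟩ := Algebra.IsIntegral.isIntegral (R := A) b
    refine ⟨P.map (Ideal.Quotient.mk p), hP.map _, ?_⟩
    rw [eval₂_map]
    have h3 : (algebraMap (A ⧸ p) (B ⧸ q)).comp (Ideal.Quotient.mk p) =
        (Ideal.Quotient.mk q).comp (algebraMap A B) := by
      ext a
      rfl
    rw [h3, ← hom_eval₂, hPb, map_zero]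
  let f : (B ⧸ q) →ₐ[A ⧸ p] Ω := IsAlgClosed.lift
  refine ⟨(f : (B ⧸ q) →+* Ω).comp (Ideal.Quotient.mk q), ?_⟩
  ext a
  have h4 := f.commutes (Ideal.Quotient.mk p a)
  exact h4

variable {k K L : Type} [Field k] [Field K] [Algebra k K] [Field L] [Algebra k L]

/-- a specialization extends to an integral extension -/
theorem Sz.extend (s : Sz k K L) (E : Type) [Field E] [Algebra k E] [Algebra K E]
    [IsScalarTower k K E] (Ω : Type) [Field Ω] [IsAlgClosed Ω] [Algebra k Ω] [Algebra L Ω]
    [IsScalarTower k L Ω] :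
    ∃ s' : Sz k E Ω, (∀ z ∈ s.T, algebraMap K E z ∈ s'.T ∧
      s'.ev (algebraMap K E z) = algebraMap L Ω (s.ev z)) ∧
      ∀ w : E, IsIntegral s.T w → w ∈ s'.T := by
  let B : Subalgebra s.T E := integralClosure s.T E
  have hinj : Function.Injective (algebraMap s.T B) := by
    intro x y hxy
    have h1 : algebraMap K E (x : K) = algebraMap K E (y : K) := congrArg (fun b : B => (b : E)) hxy
    exact Subtype.ext ((algebraMap K E).injective h1)
  obtain ⟨ψ, hψ⟩ := exists_extend (A := s.T) (B := B) hinj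
    ((algebraMap L Ω).comp (s.φ : s.T →+* L))
  have hψ' : ∀ z : s.T, ψ (algebraMap s.T B z) = algebraMap L Ω (s.φ z) := fun z =>
    congrArg (fun f : s.T →+* Ω => f z) hψ
  let T' : Subalgebra k E := B.restrictScalars k
  let φ' : T' →ₐ[k] Ω :=
    { toFun := fun z => ψ ⟨z, z.2⟩
      map_one' := map_one ψ
      map_mul' := fun x y => map_mul ψ ⟨x, x.2⟩ ⟨y, y.2⟩
      map_zero' := map_zero ψ
      map_add' := fun x y => map_add ψ ⟨x, x.2⟩ ⟨y, y.2⟩
      commutes' := fun r => by
        have h1 := hψ' (algebraMap k s.T r)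
        rw [AlgHom.commutes, ← IsScalarTower.algebraMap_apply k L Ω] at h1
        rw [← h1]
        congr 1
        apply Subtype.ext
        exact IsScalarTower.algebraMap_apply k K E r }
  refine ⟨⟨T', φ'⟩, ?_, ?_⟩
  · intro z hz
    have h1 : algebraMap K E z ∈ T' := (algebraMap s.T B ⟨z, hz⟩).2
    refine ⟨h1, ?_⟩
    rw [ev_mk (⟨T', φ'⟩ : Sz k E Ω) h1, ev_mk s hz]
    exact hψ' ⟨z, hz⟩
  · intro w hw
    exact hw

/-- restriction of the values to a subfield -/
theorem Sz.restr {E Ω : Type} [Field E] [Algebra k E] [Field Ω] [Algebra k Ω] [Algebra L Ω]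
    [IsScalarTower k L Ω] (s : Sz k E Ω) (L' : IntermediateField L Ω) :
    ∃ s' : Sz k E L', (∀ z, z ∈ s'.T ↔ z ∈ s.T ∧ s.ev z ∈ L') ∧
      ∀ z ∈ s'.T, ((s'.ev z : L') : Ω) = s.ev z := by
  let T' : Subalgebra k E :=
    { carrier := {z | z ∈ s.T ∧ s.ev z ∈ L'}
      mul_mem' := fun {x y} hx hy => ⟨s.T.mul_mem hx.1 hy.1, by
        rw [ev_mul s hx.1 hy.1]; exact L'.mul_mem hx.2 hy.2⟩
      add_mem' := fun {x y} hx hy => ⟨s.T.add_mem hx.1 hy.1, by
        rw [ev_add s hx.1 hy.1]; exact L'.add_mem hx.2 hy.2⟩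
      algebraMap_mem' := fun r => ⟨s.T.algebraMap_mem r, by
        rw [ev_algebraMap, IsScalarTower.algebraMap_apply k L Ω]
        exact L'.algebraMap_mem _⟩ }
  let φ' : T' →ₐ[k] L' :=
    { toFun := fun z => ⟨s.ev z, z.2.2⟩
      map_one' := Subtype.ext (ev_one s)
      map_mul' := fun x y => Subtype.ext (ev_mul s x.2.1 y.2.1)
      map_zero' := Subtype.ext (ev_zero s)
      map_add' := fun x y => Subtype.ext (ev_add s x.2.1 y.2.1)
      commutes' := fun r => Subtype.ext (by
        change s.ev (algebraMap k E r) = ((algebraMap k L' r : L') : Ω)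
        rw [ev_algebraMap]
        rfl) }
  refine ⟨⟨T', φ'⟩, fun z => Iff.rfl, ?_⟩
  intro z hz
  rw [ev_mk (⟨T', φ'⟩ : Sz k E L') hz]
  rfl

end Pool.Agent.K9h15.Tow
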