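import Mathlib
import Pool.Agent.K9h15.TowF

/-!
# Towers of fibrations in curves with a two-level structure
-/

set_option autoImplicit false

open Height Polynomial

namespace Pool.Agent.K9h15.Tow

open Pool.Agent.K9h15.Fib (gp rho del)

/-- `z` is algebraic over the field generated over `k` by `S` -/
def Alg (k : Type) [Field k] {K : Type} [Field K] [Algebra k K] (S : Set K) (z : K) : Prop :=
  IsAlgebraic (IntermediateField.adjoin k S) z

/-- the quartic `c ((X ^ 2 + a₁ X + a₀) ^ 2 - m (b₁ X + b₀) ^ 2)` -/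
noncomputable def quartic {K : Type} [Field K] (c m a₁ a₀ b₁ b₀ : K) : K[X] :=
  C c * ((X ^ 2 + C a₁ * X + C a₀) ^ 2 - C m * (C b₁ * X + C b₀) ^ 2)

/-- `t` satisfies an equation `y ^ 2 = g(t) r(t)` with `y` in `K` and `g`, `r` coprime polynomials with
coefficients algebraic over `k(S)`, where `g = c (A ^ 2 - m B ^ 2)` is a separable quartic, `A` monic
quadratic and `B` of degree at most one. -/
def TwoLevel (k : Type) [Field k] {K : Type} [Field K] [Algebra k K] (S : Set K) (t : K) : Prop :=
  ∃ (c m a₁ a₀ b₁ b₀ : K) (r : K[X]),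
    (∀ z ∈ ({c, m, a₁, a₀, b₁, b₀} : Set K), Alg k S z) ∧ (∀ j, Alg k S (r.coeff j)) ∧
      (quartic c m a₁ a₀ b₁ b₀).Separable ∧ IsCoprime (quartic c m a₁ a₀ b₁ b₀) r ∧
      IsSquare ((quartic c m a₁ a₀ b₁ b₀).eval t * r.eval t)

variable {k : Type} [Field k] {K : Type} [Field K] [Algebra k K]

lemma alg_mono {E E' : IntermediateField k K} (h : E ≤ E') {z : K} (hz : IsAlgebraic E z) :
    IsAlgebraic E' z := by
  obtain ⟨p, hp, hpz⟩ := hz
  refine ⟨p.map (IntermediateField.inclusion h).toRingHom, ?_, ?_⟩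
  · rw [Ne, Polynomial.map_eq_zero_iff (IntermediateField.inclusion h).toRingHom.injective]
    exact hp
  · rw [aeval_def, eval₂_map]
    rw [aeval_def] at hpz
    exact hpz

lemma alg_of_mem {E : IntermediateField k K} {z : K} (hz : z ∈ E) : IsAlgebraic E z := by
  have h : IsAlgebraic E (algebraMap E K ⟨z, hz⟩) := isAlgebraic_algebraMap _
  exact h

/-- the relative algebraic closure -/
noncomputable def rc (k : Type) [Field k] {K : Type} [Field K] [Algebra k K] (S : Set K) :
    IntermediateField k K :=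
  (algebraicClosure (IntermediateField.adjoin k S) K).restrictScalars k

lemma mem_rc {S : Set K} {z : K} : z ∈ rc k S ↔ Alg k S z := by
  unfold rc
  rw [IntermediateField.mem_restrictScalars, mem_algebraicClosure_iff]
  rfl

lemma self_mem_adj (E : IntermediateField k K) (t : K) :
    t ∈ (IntermediateField.adjoin E {t}).restrictScalars k := by
  rw [IntermediateField.mem_restrictScalars]
  exact IntermediateField.mem_adjoin_simple_self E t

lemma le_adj (E : IntermediateField k K) (t : K) {x : K} (hx : x ∈ E) :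
    x ∈ (IntermediateField.adjoin E {t}).restrictScalars k := by
  rw [IntermediateField.mem_restrictScalars]
  exact (IntermediateField.adjoin E {t}).algebraMap_mem ⟨x, hx⟩

theorem good_insert [CharZero K] {S : Set K} {t : K} (h : Good k {z : K | Alg k S z})
    (ht : TwoLevel k S t) : Good k {z : K | Alg k (insert t S) z} := by
  obtain ⟨c, m, a1, a0, b1, b0, r, hz, hr, hsep, hcop, y, hy⟩ := ht
  change (gp c m a1 a0 b1 b0).Separable at hsep
  change IsCoprime (gp c m a1 a0 b1 b0) r at hcop
  change (gp c m a1 a0 b1 b0).eval t * r.eval t = y * y at hy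
  have hF : Good k ((rc k S : IntermediateField k K) : Set K) := by
    refine h.mono ?_
    intro z hz
    exact mem_rc.1 hz
  have fz : ∀ z ∈ ({c, m, a1, a0, b1, b0} : Set K), z ∈ rc k S := fun z h => mem_rc.2 (hz z h)
  have fc := fz c (by simp)
  have fm := fz m (by simp)
  have f1 := fz a1 (by simp)
  have f0 := fz a0 (by simp)
  have g1 := fz b1 (by simp)
  have g0 := fz b0 (by simp)
  have fr : ∀ j, r.coeff j ∈ rc k S := fun j => mem_rc.2 (hr j)
  -- Bezout coefficients
  obtain ⟨u, w, fu, fw, hbz⟩ : ∃ u w : K[X], (∀ j, u.coeff j ∈ rc k S) ∧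
      (∀ j, w.coeff j ∈ rc k S) ∧ u * gp c m a1 a0 b1 b0 + w * r = 1 := by
    have h1 : r ∈ Polynomial.lifts (algebraMap (rc k S) K) := by
      rw [Polynomial.lifts_iff_coeff_lifts]
      intro n
      exact ⟨⟨r.coeff n, fr n⟩, rfl⟩
    obtain ⟨r', hr'⟩ := (Polynomial.mem_lifts _).1 h1
    have h2 := gp_map (algebraMap (rc k S) K) ⟨c, fc⟩ ⟨m, fm⟩ ⟨a1, f1⟩ ⟨a0, f0⟩ ⟨b1, g1⟩ ⟨b0, g0⟩
    have h3 : IsCoprime ((gp (⟨c, fc⟩ : rc k S) ⟨m, fm⟩ ⟨a1, f1⟩ ⟨a0, f0⟩ ⟨b1, g1⟩
        ⟨b0, g0⟩).map (algebraMap (rc k S) K)) (r'.map (algebraMap (rc k S) K)) := by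
      rw [h2, hr']
      exact hcop
    rw [Polynomial.isCoprime_map] at h3
    obtain ⟨u', w', huw⟩ := h3
    refine ⟨u'.map (algebraMap (rc k S) K), w'.map (algebraMap (rc k S) K), ?_, ?_, ?_⟩
    · intro j
      rw [coeff_map]
      exact (u'.coeff j).2
    · intro j
      rw [coeff_map]
      exact (w'.coeff j).2
    · have h4 := congrArg (fun P => P.map (algebraMap (rc k S) K)) huw
      simp only [Polynomial.map_add, Polynomial.map_mul, Polynomial.map_one] at h4
      rw [h2, hr'] at h4
      exact h4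
  have hG := hF.fibre fc fm f1 f0 g1 g0 fr fu fw (sep_c hsep) (sep_m hsep) (sep_rho hsep)
    (sep_del hsep) hbz hy
  -- the field generated by t
  let F' : IntermediateField k K := (IntermediateField.adjoin (rc k S) {t}).restrictScalars k
  have hG' : Good k (F' : Set K) := by
    refine hG.mono ?_
    intro z hz
    have hz' : z ∈ IntermediateField.adjoin (rc k S) {t} := hz
    rw [IntermediateField.mem_adjoin_simple_iff] at hz'
    obtain ⟨p, q, hpq⟩ := hz'
    have hev : ∀ P : (rc k S)[X], aeval t P = (P.map (algebraMap (rc k S) K)).eval t := by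
      intro P
      rw [eval_map_algebraMap]
    by_cases hq : aeval t q = 0
    · refine ⟨0, 1, fun j => ?_, fun j => ?_, ?_, ?_⟩
      · rw [coeff_zero]; exact zero_mem _
      · rw [coeff_one]
        split_ifs
        · exact one_mem _
        · exact zero_mem _
      · simp
      · rw [hpq, hq]; simp
    · refine ⟨p.map (algebraMap (rc k S) K), q.map (algebraMap (rc k S) K), fun j => ?_,
        fun j => ?_, ?_, ?_⟩
      · rw [coeff_map]; exact (p.coeff j).2
      · rw [coeff_map]; exact (q.coeff j).2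
      · rw [← hev]; exact hq
      · rw [← hev, ← hev]; exact hpq
  refine hG'.algebraic.mono ?_
  intro z hz
  refine alg_mono (E := IntermediateField.adjoin k (insert t S)) (E' := F') ?_ hz
  rw [IntermediateField.adjoin_le_iff]
  intro x hx
  rcases Set.mem_insert_iff.1 hx with rfl | hx
  · exact self_mem_adj (rc k S) x
  · exact le_adj (rc k S) t (mem_rc.2 (alg_of_mem (IntermediateField.subset_adjoin k S hx)))

theorem good_empty : Good k {z : K | Alg k (∅ : Set K) z} := by
  have h1 : Good k ((⊥ : IntermediateField k K) : Set K) := by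
    refine (good_bot (k := k) (K := K)).mono ?_
    intro z hz
    exact IntermediateField.mem_bot.1 hz
  refine h1.algebraic.mono ?_
  intro z hz
  have hz' : IsAlgebraic (IntermediateField.adjoin k (∅ : Set K)) z := hz
  exact alg_mono (by rw [IntermediateField.adjoin_empty]) hz'

/-- **Towers.** -/
theorem good_tower [CharZero K] {n : ℕ} (t : Fin n → K)
    (ht : ∀ i : Fin n, TwoLevel k (t '' {j | j < i}) (t i)) :
    Good k {z : K | Alg k (Set.range t) z} := by
  have key : ∀ i : ℕ, i ≤ n → Good k {z : K | Alg k (t '' {j | (j : ℕ) < i}) z} := by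
    intro i
    induction i with
    | zero =>
      intro _
      have : (t '' {j | (j : ℕ) < 0}) = ∅ := by simp
      rw [this]
      exact good_empty
    | succ i ih =>
      intro hi
      have h1 := ih (by omega)
      have h2 := ht ⟨i, by omega⟩
      have h3 : {j : Fin n | j < ⟨i, by omega⟩} = {j : Fin n | (j : ℕ) < i} := rfl
      rw [h3] at h2
      have h4 := good_insert h1 h2
      have h5 : insert (t ⟨i, by omega⟩) (t '' {j | (j : ℕ) < i}) =
          t '' {j | (j : ℕ) < i + 1} := by
        rw [← Set.image_insert_eq]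
        congr 1
        ext j
        simp only [Set.mem_insert_iff, Set.mem_ofPred_eq, Fin.ext_iff]
        omega
      rw [h5] at h4
      exact h4
  have h1 := key n le_rfl
  have h2 : (t '' {j | (j : ℕ) < n}) = Set.range t := by
    ext z
    constructor
    · rintro ⟨j, _, rfl⟩
      exact ⟨j, rfl⟩
    · rintro ⟨j, rfl⟩
      exact ⟨j, j.isLt, rfl⟩
  rw [h2] at h1
  exact h1

end Pool.Agent.K9h15.Tow
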