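import Mathlib
import Pool.Agent.Q103.RP.Spc
import Pool.Agent.K9h15.TowG

/-!
# Sparse points on the varieties with a tower of fibrations
-/

set_option autoImplicit false

open Height Polynomial

namespace Pool.Agent.K9h15.Pts

open Pool.Agent.W602.GT (coords val IsForm)
open Pool.Agent.Q103.RP (IsPt spec)
open Pool.Agent.TH466.QG (adjoin_norm exists_den)
open Pool.Agent.K9h15.Tow Pool.Agent.K9h15.Fib

/-- the points of height at most `T` over `L` on the variety with generic point `x` and off `R = 0` -/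
def pts {k K : Type} [Field k] [Field K] [Algebra k K] {M : ℕ} (x : Fin (M + 1) → K)
    (R : MvPolynomial (Fin (M + 1)) k) (L : Type) [Field L] [NumberField L] [Algebra k L] (T : ℝ) :
    Set (Projectivization L (Fin (M + 1) → L)) :=
  {p | IsPt (k := k) x p.rep ∧ val p.rep R ≠ 0 ∧ p.mulHeight ≤ T}

section

variable {k : Type} [Field k] {L : Type} [Field L] [NumberField L] [Algebra k L]

/-- values of polynomials have polynomially bounded height -/
lemma pb_mvpoly {n : ℕ} (G : MvPolynomial (Fin n) k) :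
    PB (fun X : Fin n → L => MvPolynomial.aeval X G) := by
  induction G using MvPolynomial.induction_on with
  | C a =>
    simp only [MvPolynomial.algHom_C]
    exact PB.const _
  | add p q hp hq =>
    simp only [map_add]
    exact hp.add hq
  | mul_X p i hp =>
    simp only [map_mul, MvPolynomial.aeval_X]
    exact hp.mul (PB.var i)

lemma height_ratio_le {M : ℕ} (a : Fin (M + 1) → L) (i j : Fin (M + 1)) :
    mulHeight₁ (a i / a j) ≤ mulHeight a := by
  rw [mulHeight₁_div_eq_mulHeight]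
  have h := mulHeight_comp_le ![i, j] a
  refine le_trans (le_of_eq ?_) h
  congr 1
  funext l
  fin_cases l <;> rfl

end

/-- **The count.** -/
theorem count {k : Type} [Field k] [NumberField k] {K : Type} [Field K] [Algebra k K] {M : ℕ}
    {x : Fin (M + 1) → K} (hx : x ≠ 0) (hgen : coords k x = ⊤)
    (hgood : Good k (Set.univ : Set K)) :
    ∃ R : MvPolynomial (Fin (M + 1)) k, IsForm R ∧ val x R ≠ 0 ∧
      ∀ (L : Type) [Field L] [NumberField L] [Algebra k L] (ε : ℝ), 0 < ε →
        ∃ C : ℝ, ∀ T : ℝ, 1 ≤ T → (pts x R L T).Finite ∧ ((pts x R L T).ncard : ℝ) ≤ C * T ^ ε := by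
  classical
  obtain ⟨j0, hj0⟩ := Function.ne_iff.1 hx
  rw [Pi.zero_apply] at hj0
  let W : Finset K := Finset.univ.image (fun i => x i / x j0)
  obtain ⟨C, hWC, hfew⟩ := hgood W (Set.subset_univ _)
  obtain ⟨H, hH, hG⟩ := exists_den (adjoin_norm hgen hj0) (C.finite_toSet)
  choose! G hG using hG
  obtain ⟨R, T0, hRf, hR, hCT, hXT, hspec⟩ := spec hgen hj0
    (C := (C : Set K) ∪ {(MvPolynomial.aeval (fun i => x i / x j0) H)⁻¹})
    (C.finite_toSet.union (Set.finite_singleton _))
  refine ⟨R, hRf, hR, ?_⟩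
  intro L _ _ _ ε hε
  -- the heights of the values
  have hpb : ∃ (c : ℝ) (N : ℕ), 1 ≤ c ∧ ∀ z ∈ C, ∀ (V : ℝ), 1 ≤ V → ∀ X : Fin (M + 1) → L,
      (∀ i, mulHeight₁ (X i) ≤ V) →
      mulHeight₁ (MvPolynomial.aeval X (G z) / MvPolynomial.aeval X H) ≤ c * V ^ N := by
    have h1 : ∀ z : K, PB (fun X : Fin (M + 1) → L =>
        MvPolynomial.aeval X (G z) / MvPolynomial.aeval X H) :=
      fun z => (pb_mvpoly (G z)).div (pb_mvpoly H)
    choose c N hc h using h1
    refine ⟨1 + ∑ z ∈ C, c z, ∑ z ∈ C, N z, ?_, ?_⟩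
    · have : 0 ≤ ∑ z ∈ C, c z := Finset.sum_nonneg fun z _ => (zero_le_one.trans (hc z))
      linarith
    · intro z hz V hV X hX
      have h2 := h z V hV X hX
      have h3 : c z ≤ 1 + ∑ z ∈ C, c z := by
        have := Finset.single_le_sum (f := c) (fun z _ => (zero_le_one.trans (hc z))) hz
        linarith
      have h4 : V ^ N z ≤ V ^ (∑ z ∈ C, N z) :=
        pow_le_pow_right₀ hV (Finset.single_le_sum (f := N) (fun z _ => Nat.zero_le _) hz)
      have h5 : 0 ≤ c z := zero_le_one.trans (hc z)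
      have h6 : 0 ≤ 1 + ∑ z ∈ C, c z := h5.trans h3
      calc _ ≤ c z * V ^ N z := h2
        _ ≤ _ := by gcongr
  obtain ⟨c, N, hc, hht⟩ := hpb
  obtain ⟨c1, hc1, hcount⟩ := hfew L (ε / (N + 1)) (by positivity)
  refine ⟨c1 * c ^ (ε / (N + 1)), ?_⟩
  intro T hT
  -- the homomorphisms
  have hhom : ∀ p : Projectivization L (Fin (M + 1) → L), ∃ s : Sz k K L, p ∈ pts x R L T →
      s.T = T0 ∧ p.rep j0 ≠ 0 ∧ ∀ i, s.ev (x i / x j0) = p.rep i / p.rep j0 := by
    intro p
    by_cases hp : p ∈ pts x R L T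
    · obtain ⟨h1, φ, hφ⟩ := hspec L p.rep hp.1 hp.2.1
      refine ⟨⟨T0, φ⟩, fun _ => ⟨rfl, h1, fun i => ?_⟩⟩
      rw [ev_mk (⟨T0, φ⟩ : Sz k K L) (hXT i)]
      exact hφ i (hXT i)
    · exact ⟨⟨⊥, (Algebra.ofId k L).comp
        (Algebra.botEquivOfInjective (algebraMap k K).injective).toAlgHom⟩,
        fun h => absurd h hp⟩
  choose s hs using hhom
  have hsz : ∀ p ∈ pts x R L T, ∀ z ∈ C, z ∈ (s p).T ∧
      mulHeight₁ ((s p).ev z) ≤ c * T ^ N := by
    intro p hp z hz
    obtain ⟨h1, h2, h3⟩ := hs p hp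
    have hzT : z ∈ (s p).T := by rw [h1]; exact hCT (Or.inl hz)
    refine ⟨hzT, ?_⟩
    have hXT' : ∀ i, x i / x j0 ∈ (s p).T := fun i => by rw [h1]; exact hXT i
    -- the value of a polynomial
    have hval : ∀ P : MvPolynomial (Fin (M + 1)) k,
        MvPolynomial.aeval (fun i => x i / x j0) P ∈ (s p).T ∧
        (s p).ev (MvPolynomial.aeval (fun i => x i / x j0) P) =
          MvPolynomial.aeval (fun i => p.rep i / p.rep j0) P := by
      intro P
      induction P using MvPolynomial.induction_on with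
      | C a =>
        rw [MvPolynomial.algHom_C, MvPolynomial.algHom_C]
        exact ⟨(s p).T.algebraMap_mem a, ev_algebraMap _ _⟩
      | add P Q hP hQ =>
        rw [map_add, map_add]
        exact ⟨(s p).T.add_mem hP.1 hQ.1, by rw [ev_add _ hP.1 hQ.1, hP.2, hQ.2]⟩
      | mul_X P i hP =>
        rw [map_mul, map_mul, MvPolynomial.aeval_X, MvPolynomial.aeval_X]
        exact ⟨(s p).T.mul_mem hP.1 (hXT' i), by rw [ev_mul _ hP.1 (hXT' i), hP.2, h3 i]⟩
    have hHi : (MvPolynomial.aeval (fun i => x i / x j0) H)⁻¹ ∈ (s p).T := by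
      rw [h1]; exact hCT (Or.inr rfl)
    have hH0 : MvPolynomial.aeval (fun i => p.rep i / p.rep j0) H ≠ 0 := by
      rw [← (hval H).2]
      exact ev_ne_zero _ hH (hval H).1 hHi
    have h4 := congrArg (s p).ev (hG z hz)
    rw [ev_mul _ hzT (hval H).1, (hval H).2, (hval (G z)).2] at h4
    have h5 : (s p).ev z = MvPolynomial.aeval (fun i => p.rep i / p.rep j0) (G z) /
        MvPolynomial.aeval (fun i => p.rep i / p.rep j0) H := by
      rw [eq_div_iff hH0]; exact h4
    rw [h5]
    apply hht z hz T hT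
    intro i
    refine (height_ratio_le _ _ _).trans ?_
    have h6 := hp.2.2
    rw [← p.mk_rep, Projectivization.mulHeight_mk p.rep_nonzero] at h6
    exact h6
  -- finite subsets
  have hfinset : ∀ P : Finset (Projectivization L (Fin (M + 1) → L)), (P : Set _) ⊆ pts x R L T →
      (P.card : ℝ) ≤ c1 * c ^ (ε / (N + 1)) * T ^ ε := by
    intro P hP
    have h1 := hcount (c * T ^ N) (one_le_mul_of_one_le_of_one_le hc (one_le_pow₀ hT))
      (P.image s) (by
        intro s' hs'
        obtain ⟨p, hp, rfl⟩ := Finset.mem_image.1 hs'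
        exact hsz p (hP hp))
    rw [cnt_eq, Finset.image_image] at h1
    rw [Finset.card_image_of_injOn] at h1
    · refine h1.trans ?_
      rw [Real.mul_rpow (by linarith) (by positivity), ← Real.rpow_natCast T N,
        ← Real.rpow_mul (by linarith)]
      have h2 : T ^ ((N : ℝ) * (ε / (N + 1))) ≤ T ^ ε := by
        apply Real.rpow_le_rpow_of_exponent_le hT
        rw [mul_div_assoc', div_le_iff₀ (by positivity)]
        nlinarith
      have h3 : 0 ≤ c1 * c ^ (ε / (N + 1)) := by positivity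
      calc c1 * (c ^ (ε / (N + 1)) * T ^ ((N : ℝ) * (ε / (N + 1)))) =
            c1 * c ^ (ε / (N + 1)) * T ^ ((N : ℝ) * (ε / (N + 1))) := by ring
        _ ≤ _ := mul_le_mul_of_nonneg_left h2 h3
    · intro p hp q hq hpq
      obtain ⟨-, hp2, hp3⟩ := hs p (hP hp)
      obtain ⟨-, hq2, hq3⟩ := hs q (hP hq)
      rw [← p.mk_rep, ← q.mk_rep, Projectivization.mk_eq_mk_iff']
      refine ⟨p.rep j0 / q.rep j0, ?_⟩
      funext i
      have h4 : (s p).ev (x i / x j0) = (s q).ev (x i / x j0) :=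
        congrFun hpq ⟨x i / x j0, Finset.mem_image_of_mem _ (Finset.mem_univ i)⟩
      rw [hp3, hq3] at h4
      rw [Pi.smul_apply, smul_eq_mul]
      rw [div_eq_div_iff hp2 hq2] at h4
      field_simp
      linear_combination -h4
  have hfin : (pts x R L T).Finite := by
    by_contra hinf
    obtain ⟨P, hP, hPc⟩ := Set.Infinite.exists_subset_card_eq hinf
      (⌊c1 * c ^ (ε / (N + 1)) * T ^ ε⌋₊ + 1)
    have h1 := hfinset P hP
    rw [hPc] at h1
    push_cast at h1
    have h2 := Nat.lt_floor_add_one (c1 * c ^ (ε / (N + 1)) * T ^ ε)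
    linarith
  refine ⟨hfin, ?_⟩
  have h1 := hfinset hfin.toFinset (by simp)
  rw [Set.ncard_eq_toFinset_card _ hfin]
  exact h1

end Pool.Agent.K9h15.Pts
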