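import Mathlib
import Pool.Agent.K9h15.Lift
import Pool.Agent.K9h15.Pts

/-!
# Extensions of the field of constants
-/

set_option autoImplicit false

open Height Polynomial NumberField

namespace Pool.Agent.K9h15.Tow

open Pool.Agent.K9h15.Fib (PB)
open Pool.Agent.K9h15.Pts (pb_mvpoly)

lemma exists_theta {k K E : Type} [Field k] [CharZero k] [Field K] [Field E] [Algebra k K]
    [Algebra k E] [Algebra K E] [IsScalarTower k K E]
    (hE : IntermediateField.adjoin K {z : E | IsAlgebraic k z} = ⊤) (C : Finset E) :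
    ∃ θ : E, IsAlgebraic k θ ∧ ∀ z ∈ C, ∃ p : K[X], z = aeval θ p := by
  classical
  have h1 : ∀ z : E, ∃ T : Finset E, (T : Set E) ⊆ {z : E | IsAlgebraic k z} ∧
      z ∈ IntermediateField.adjoin K (T : Set E) := fun z =>
    IntermediateField.exists_finset_of_mem_adjoin (hE ▸ IntermediateField.mem_top)
  choose T hT hTz using h1
  let S0 : Finset E := C.biUnion T
  have hS0 : ∀ γ ∈ S0, IsAlgebraic k γ := by
    intro γ hγ
    obtain ⟨z, _, hz⟩ := Finset.mem_biUnion.1 hγ
    exact hT z hz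
  let F0 : IntermediateField k E := IntermediateField.adjoin k (S0 : Set E)
  have hfd : FiniteDimensional k F0 :=
    IntermediateField.finiteDimensional_adjoin fun x hx => (hS0 x hx).isIntegral
  obtain ⟨α, hα⟩ := Field.exists_primitive_element k F0
  have hαi : IsIntegral k α := Algebra.IsIntegral.isIntegral α
  have hgen : ∀ γ ∈ S0, ∃ q : k[X], γ = aeval (α : E) q := by
    intro γ hγ
    have h2 : (⟨γ, IntermediateField.subset_adjoin k _ hγ⟩ : F0) ∈
        IntermediateField.adjoin k {α} := by rw [hα]; exact IntermediateField.mem_top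
    rw [← IntermediateField.mem_toSubalgebra,
      IntermediateField.adjoin_simple_toSubalgebra_of_isAlgebraic hαi.isAlgebraic,
      Algebra.adjoin_singleton_eq_range_aeval] at h2
    obtain ⟨q, hq⟩ := h2
    refine ⟨q, ?_⟩
    have h3 := congrArg (fun x : F0 => (x : E)) hq
    simp only at h3
    rw [← h3]
    exact (Polynomial.aeval_algebraMap_apply E α q).symm
  have hαE : IsIntegral k (α : E) := hαi.map (IsScalarTower.toAlgHom k F0 E)
  have hαK : IsIntegral K (α : E) := hαE.tower_top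
  refine ⟨(α : E), hαE.isAlgebraic, ?_⟩
  intro z hz
  have h4 : IntermediateField.adjoin K (T z : Set E) ≤ IntermediateField.adjoin K {(α : E)} := by
    rw [IntermediateField.adjoin_le_iff]
    intro γ hγ
    obtain ⟨q, hq⟩ := hgen γ (Finset.mem_biUnion.2 ⟨z, hz, hγ⟩)
    rw [SetLike.mem_coe, hq, ← IntermediateField.mem_toSubalgebra,
      IntermediateField.adjoin_simple_toSubalgebra_of_isAlgebraic hαK.isAlgebraic,
      Algebra.adjoin_singleton_eq_range_aeval]
    refine ⟨q.map (algebraMap k K), ?_⟩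
    change aeval (α : E) (q.map (algebraMap k K)) = _
    rw [aeval_map_algebraMap]
  have h5 := h4 (hTz z)
  rw [← IntermediateField.mem_toSubalgebra,
    IntermediateField.adjoin_simple_toSubalgebra_of_isAlgebraic hαK.isAlgebraic,
    Algebra.adjoin_singleton_eq_range_aeval] at h5
  obtain ⟨p, hp⟩ := h5
  exact ⟨p, hp.symm⟩

/-- the field generated by the conjugates of a constant -/
noncomputable def cfield (k : Type) [Field k] {E : Type} [Field E] [Algebra k E] (θ : E) (L : Type)
    [Field L] [Algebra k L] : IntermediateField L (AlgebraicClosure L) :=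
  IntermediateField.adjoin L ((minpoly k θ).rootSet (AlgebraicClosure L))

lemma cfield_finite {k : Type} [Field k] {E : Type} [Field E] [Algebra k E] (θ : E) (L : Type)
    [Field L] [Algebra k L] : FiniteDimensional L (cfield k θ L) := by
  unfold cfield
  have : Finite ((minpoly k θ).rootSet (AlgebraicClosure L)) :=
    (rootSet_finite _ _).to_subtype
  exact IntermediateField.finiteDimensional_adjoin fun x _ => Algebra.IsIntegral.isIntegral x

/-- a specialization extends to the constants -/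
lemma Sz.const {k K L : Type} [Field k] [Field K] [Algebra k K] [Field L] [Algebra k L]
    (s : Sz k K L) {E : Type} [Field E] [Algebra k E] [Algebra K E] [IsScalarTower k K E]
    {θ : E} (hθ : IsAlgebraic k θ) :
    ∃ s' : Sz k E (cfield k θ L), (∀ z ∈ s.T, algebraMap K E z ∈ s'.T ∧
      s'.ev (algebraMap K E z) = algebraMap L (cfield k θ L) (s.ev z)) ∧ θ ∈ s'.T ∧
      s'.ev θ ∈ (minpoly k θ).rootSet (cfield k θ L) := by
  obtain ⟨s1, h1, h2⟩ := s.extend E (AlgebraicClosure L)
  obtain ⟨s2, h3, h4⟩ := s1.restr (L := L) (cfield k θ L)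
  have hθ1 : θ ∈ s1.T := by
    apply h2
    obtain ⟨P, hP, hPθ⟩ := hθ.isIntegral
    refine ⟨P.map (algebraMap k s.T), hP.map _, ?_⟩
    rw [eval₂_map]
    have hcomp : (algebraMap s.T E).comp (algebraMap k s.T) = algebraMap k E := by
      ext r
      exact (IsScalarTower.algebraMap_apply k K E r).symm
    rw [hcomp]
    exact hPθ
  have hroot : aeval (s1.ev θ) (minpoly k θ) = 0 := by
    have h5 : s1.ev θ = s1.φ ⟨θ, hθ1⟩ := ev_mk s1 hθ1
    have h6 : aeval (⟨θ, hθ1⟩ : s1.T) (minpoly k θ) = 0 := by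
      apply Subtype.ext
      have h7 := Polynomial.aeval_algebraMap_apply E (⟨θ, hθ1⟩ : s1.T) (minpoly k θ)
      exact h7.symm.trans (minpoly.aeval k θ)
    rw [h5, Polynomial.aeval_algHom_apply, h6, map_zero]
  have hne : minpoly k θ ≠ 0 := minpoly.ne_zero hθ.isIntegral
  have hmem : s1.ev θ ∈ cfield k θ L := by
    unfold cfield
    apply IntermediateField.subset_adjoin
    rw [Polynomial.mem_rootSet]
    exact ⟨hne, hroot⟩
  refine ⟨s2, ?_, (h3 θ).2 ⟨hθ1, hmem⟩, ?_⟩
  · intro z hz
    obtain ⟨h5, h6⟩ := h1 z hz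
    have h7 : algebraMap K E z ∈ s2.T := by
      rw [h3]
      refine ⟨h5, ?_⟩
      rw [h6]
      exact (cfield k θ L).algebraMap_mem _
    refine ⟨h7, ?_⟩
    apply Subtype.ext
    rw [h4 _ h7, h6]
    rfl
  · rw [Polynomial.mem_rootSet]
    refine ⟨hne, ?_⟩
    apply Subtype.ext
    have hst : IsScalarTower k (cfield k θ L) (AlgebraicClosure L) :=
      IsScalarTower.of_algebraMap_eq fun r => rfl
    have h8 := Polynomial.aeval_algebraMap_apply (AlgebraicClosure L) (s2.ev θ) (minpoly k θ)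
    rw [show ((0 : cfield k θ L) : AlgebraicClosure L) = 0 from rfl, ← hroot]
    rw [← h4 θ ((h3 θ).2 ⟨hθ1, hmem⟩)]
    exact h8.symm

/-- **Constants.** -/
theorem good_of_const {k K : Type} [Field k] [CharZero k] [Field K] [Algebra k K] (E : Type)
    [Field E] [Algebra k E] [Algebra K E] [IsScalarTower k K E]
    (hE : IntermediateField.adjoin K {z : E | IsAlgebraic k z} = ⊤)
    (h : Good k (Set.univ : Set E)) : Good k (Set.univ : Set K) := by
  classical
  intro W _
  obtain ⟨C', hC', hfew⟩ := h (W.image (algebraMap K E)) (Set.subset_univ _)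
  obtain ⟨θ, hθ, hp⟩ := exists_theta hE C'
  choose! p hp using hp
  refine ⟨W ∪ C'.biUnion (fun z => cf (p z)), Finset.subset_union_left, ?_⟩
  intro L _ _ _ ε hε
  have hfd : FiniteDimensional L (cfield k θ L) := cfield_finite θ L
  have hnf : NumberField (cfield k θ L) := NumberField.of_module_finite L (cfield k θ L)
  obtain ⟨δ, hδ⟩ : ∃ δ : ℕ, δ = Module.finrank L (cfield k θ L) := ⟨_, rfl⟩
  have hpb : ∀ z : E, ∃ (c : ℝ) (N : ℕ), 1 ≤ c ∧ ∀ V : ℝ, 1 ≤ V →
      ∀ X : Fin ((p z).natDegree + 2) → (cfield k θ L), (∀ i, mulHeight₁ (X i) ≤ V) →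
        mulHeight₁ (∑ j : Fin ((p z).natDegree + 1), X (Fin.castSucc j) *
          X (Fin.last _) ^ (j : ℕ)) ≤ c * V ^ N := by
    intro z
    obtain ⟨c, N, hc, hh⟩ := pb_mvpoly (k := k) (L := cfield k θ L)
      (∑ j : Fin ((p z).natDegree + 1), MvPolynomial.X (Fin.castSucc j) *
        MvPolynomial.X (Fin.last ((p z).natDegree + 1)) ^ (j : ℕ))
    refine ⟨c, N, hc, ?_⟩
    intro V hV X hX
    have := hh V hV X hX
    simpa using this
  choose c N hc hht using hpb
  let Rt : Finset (cfield k θ L) := (rootSet_finite (minpoly k θ) (cfield k θ L)).toFinset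
  obtain ⟨H0, hH0⟩ : ∃ H0 : ℝ, H0 = 1 + ∑ r ∈ Rt, mulHeight₁ r := ⟨_, rfl⟩
  have hH01 : 1 ≤ H0 := by
    have : 0 ≤ ∑ r ∈ Rt, mulHeight₁ r := Finset.sum_nonneg fun r _ => mulHeight₁_nonneg r
    linarith
  have hRt : ∀ r ∈ Rt, mulHeight₁ r ≤ H0 := by
    intro r hr
    have := Finset.single_le_sum (f := fun r => mulHeight₁ r) (fun r _ => mulHeight₁_nonneg r) hr
    linarith
  obtain ⟨cc, hcc⟩ : ∃ cc : ℝ, cc = 1 + ∑ z ∈ C', c z := ⟨_, rfl⟩
  obtain ⟨NN, hNN⟩ : ∃ NN : ℕ, NN = ∑ z ∈ C', N z := ⟨_, rfl⟩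
  have hcc1 : 1 ≤ cc := by
    have : 0 ≤ ∑ z ∈ C', c z := Finset.sum_nonneg fun z _ => (zero_le_one.trans (hc z))
    linarith
  obtain ⟨e', he'⟩ : ∃ e' : ℝ, e' = ε / (δ * NN + 1) := ⟨_, rfl⟩
  have he0 : 0 < e' := by rw [he']; positivity
  obtain ⟨c1, hc1, hb⟩ := hfew (cfield k θ L) e' he0
  refine ⟨c1 * (cc ^ e' * (H0 ^ NN) ^ e'), ?_, ?_⟩
  · exact one_le_mul_of_one_le_of_one_le hc1 (one_le_mul_of_one_le_of_one_le
      (Real.one_le_rpow hcc1 he0.le) (Real.one_le_rpow (one_le_pow₀ hH01) he0.le))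
  intro V hV Ψ hΨ
  have hex : ∀ s : Sz k K L, ∃ s' : Sz k E (cfield k θ L), (∀ z ∈ s.T, algebraMap K E z ∈ s'.T ∧
      s'.ev (algebraMap K E z) = algebraMap L (cfield k θ L) (s.ev z)) ∧ θ ∈ s'.T ∧
      s'.ev θ ∈ (minpoly k θ).rootSet (cfield k θ L) := fun s => s.const hθ
  choose g hg1 hg2 hg3 using hex
  have hVδ : 1 ≤ V ^ δ := one_le_pow₀ hV
  have hVδ' : V ^ δ ≤ H0 * V ^ δ := le_mul_of_one_le_left (by linarith) hH01
  have hkey : ∀ s' ∈ Ψ.image g, ∀ z ∈ C', z ∈ s'.T ∧
      mulHeight₁ (s'.ev z) ≤ cc * (H0 * V ^ δ) ^ NN := by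
    intro s' hs' z hz
    obtain ⟨s, hs, rfl⟩ := Finset.mem_image.1 hs'
    have hcoef : ∀ j, (p z).coeff j ∈ s.T ∧ mulHeight₁ (s.ev ((p z).coeff j)) ≤ V := by
      intro j
      rcases coeff_mem_cf (p z) j with h3 | h3
      · exact hΨ s hs _ (Finset.mem_union_right _ (Finset.mem_biUnion.2 ⟨z, hz, h3⟩))
      · rw [h3, ev_zero, mulHeight₁_zero]
        exact ⟨s.T.zero_mem, hV⟩
    have hzs : z = ∑ j ∈ Finset.range ((p z).natDegree + 1),
        algebraMap K E ((p z).coeff j) * θ ^ j := by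
      conv_lhs => rw [hp z hz]
      rw [aeval_eq_sum_range]
      refine Finset.sum_congr rfl fun j _ => ?_
      rw [Algebra.smul_def]
    have hmem : ∀ j, algebraMap K E ((p z).coeff j) * θ ^ j ∈ (g s).T := fun j =>
      (g s).T.mul_mem (hg1 s _ (hcoef j).1).1 ((g s).T.pow_mem (hg2 s) j)
    refine ⟨?_, ?_⟩
    · rw [hzs]
      exact (g s).T.sum_mem fun j _ => hmem j
    · have hev : (g s).ev z = ∑ j ∈ Finset.range ((p z).natDegree + 1),
          algebraMap L (cfield k θ L) (s.ev ((p z).coeff j)) * (g s).ev θ ^ j := by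
        conv_lhs => rw [hzs]
        rw [ev_sum _ _ _ fun j _ => hmem j]
        refine Finset.sum_congr rfl fun j _ => ?_
        rw [ev_mul _ (hg1 s _ (hcoef j).1).1 ((g s).T.pow_mem (hg2 s) j), ev_pow _ (hg2 s),
          (hg1 s _ (hcoef j).1).2]
      have h4 := hht z (H0 * V ^ δ) (one_le_mul_of_one_le_of_one_le hH01 hVδ)
        (Fin.lastCases ((g s).ev θ) (fun j : Fin ((p z).natDegree + 1) =>
          algebraMap L (cfield k θ L) (s.ev ((p z).coeff j)))) (by
          intro i
          refine Fin.lastCases ?_ (fun j => ?_) i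
          · simp only [Fin.lastCases_last]
            have h5 : (g s).ev θ ∈ Rt := by
              simp only [Rt, Set.Finite.mem_toFinset]
              exact hg3 s
            exact (hRt _ h5).trans (le_mul_of_one_le_right (by linarith) hVδ)
          · simp only [Fin.lastCases_castSucc]
            rw [mulHeight₁_ext, ← hδ]
            exact (pow_le_pow_left₀ (mulHeight₁_nonneg _) (hcoef j).2 δ).trans hVδ')
      simp only [Fin.lastCases_last, Fin.lastCases_castSucc] at h4
      rw [hev, Finset.sum_range]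
      refine h4.trans ?_
      have h6 : c z ≤ cc := by
        have := Finset.single_le_sum (f := c) (fun z _ => (zero_le_one.trans (hc z))) hz
        linarith
      have h7 : (H0 * V ^ δ) ^ N z ≤ (H0 * V ^ δ) ^ NN := by
        apply pow_le_pow_right₀ (one_le_mul_of_one_le_of_one_le hH01 hVδ)
        rw [hNN]
        exact Finset.single_le_sum (f := N) (fun z _ => Nat.zero_le _) hz
      have h8 : 0 ≤ c z := zero_le_one.trans (hc z)
      have h9 : 0 ≤ cc := h8.trans h6
      gcongr
  have h1 := hb (cc * (H0 * V ^ δ) ^ NN) (one_le_mul_of_one_le_of_one_le hcc1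
    (one_le_pow₀ (one_le_mul_of_one_le_of_one_le hH01 hVδ))) (Ψ.image g) hkey
  -- comparison of the numbers of values
  have h2 : cnt Ψ (fun s => fun w : W => s.ev (w : K)) ≤ cnt (Ψ.image g)
      (fun s' => fun w : (W.image (algebraMap K E) : Finset E) => s'.ev (w : E)) := by
    rw [cnt_eq, cnt_eq, Finset.image_image]
    let F1 : Sz k K L → (W → L) := fun s => fun w : W => s.ev (w : K)
    let F2 : Sz k K L → ((W.image (algebraMap K E) : Finset E) → cfield k θ L) :=
      fun s => fun w => (g s).ev (w : E)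
    change (Ψ.image F1).card ≤ (Ψ.image F2).card
    have hdet : ∀ s ∈ Ψ, ∀ t ∈ Ψ, F2 s = F2 t → F1 s = F1 t := by
      intro s hs t ht hst
      funext w
      have h3 := congrFun hst ⟨algebraMap K E (w : K), Finset.mem_image_of_mem _ w.2⟩
      simp only [F2] at h3
      have hw1 := (hΨ s hs w (Finset.mem_union_left _ w.2)).1
      have hw2 := (hΨ t ht w (Finset.mem_union_left _ w.2)).1
      rw [(hg1 s _ hw1).2, (hg1 t _ hw2).2] at h3
      exact (algebraMap L (cfield k θ L)).injective h3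
    have hh : ∀ y ∈ Ψ.image F1, ∃ s ∈ Ψ, F1 s = y := fun y hy => Finset.mem_image.1 hy
    have hne : Nonempty (Sz k K L) := ⟨⟨⊥, (Algebra.ofId k L).comp
      (Algebra.botEquivOfInjective (algebraMap k K).injective).toAlgHom⟩⟩
    choose! u hu1 hu2 using hh
    apply Finset.card_le_card_of_injOn (fun y => F2 (u y))
    · intro y hy
      exact Finset.mem_coe.2 (Finset.mem_image_of_mem _ (hu1 y hy))
    · intro y hy z hz hyz
      rw [← hu2 y hy, ← hu2 z hz]
      exact hdet _ (hu1 y hy) _ (hu1 z hz) hyz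
  calc (cnt Ψ (fun s => fun w : W => s.ev (w : K)) : ℝ)
      ≤ cnt (Ψ.image g) (fun s' => fun w : (W.image (algebraMap K E) : Finset E) =>
        s'.ev (w : E)) := by exact_mod_cast h2
    _ ≤ c1 * (cc * (H0 * V ^ δ) ^ NN) ^ e' := h1
    _ = c1 * (cc ^ e' * (H0 ^ NN) ^ e') * ((V ^ δ) ^ NN) ^ e' := by
      rw [Real.mul_rpow (by linarith) (by positivity), mul_pow,
        Real.mul_rpow (by positivity) (by positivity)]
      ring
    _ ≤ c1 * (cc ^ e' * (H0 ^ NN) ^ e') * V ^ ε := by
      have h3 : ((V ^ δ) ^ NN) ^ e' ≤ V ^ ε := by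
        rw [← pow_mul, ← Real.rpow_natCast, ← Real.rpow_mul (by linarith)]
        apply Real.rpow_le_rpow_of_exponent_le hV
        rw [he', mul_div_assoc', div_le_iff₀ (by positivity)]
        push_cast
        nlinarith
      have h4 : 0 ≤ c1 * (cc ^ e' * (H0 ^ NN) ^ e') := by positivity
      exact mul_le_mul_of_nonneg_left h3 h4

end Pool.Agent.K9h15.Tow
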