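import Mathlib
import Pool.Agent.K9h15.FibB

/-!
# The fibre theorem with a given set of bad primes
-/

set_option autoImplicit false

open IsDedekindDomain NumberField Height Polynomial

namespace Pool.Agent.K9h15.Fib

open Pool.Agent.K9h15.Pla Pool.Agent.K9h15.Bad Pool.Agent.K9h15.Cls Pool.Agent.K9h15.Det

/-- **The fibre theorem.** -/
theorem fib2 (K : Type) [Field K] [NumberField K] (ε : ℝ) (hε : 0 < ε) :
    ∃ C : ℝ, 1 ≤ C ∧ ∀ (V : ℝ) (c m a1 a0 b1 b0 : K), 1 ≤ V → c ≠ 0 → m ≠ 0 →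
      rho a1 a0 b1 b0 ≠ 0 → del m a1 a0 b1 b0 ≠ 0 →
      mulHeight₁ m ≤ V → mulHeight₁ a1 ≤ V → mulHeight₁ a0 ≤ V →
      mulHeight₁ b1 ≤ V → mulHeight₁ b0 ≤ V → ∀ (B : Finset (HeightOneSpectrum (𝓞 K)))
      (S : Finset K), (∀ τ ∈ S, mulHeight₁ τ ≤ V ∧ ∃ h : (gp c m a1 a0 b1 b0).eval τ ≠ 0,
        ∀ v : HeightOneSpectrum (𝓞 K), v ∉ B →
          Even (Multiplicative.toAdd (v.valuationOfNeZero (Units.mk0 _ h)))) →
      (S.card : ℝ) ≤ C * 2 ^ B.card * V ^ ε := by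
  classical
  obtain ⟨C0, hC0⟩ := sel_card K
  obtain ⟨C2, hC2, hcl⟩ := class_count K ε hε
  have hC01 : (1 : ℝ) ≤ C0 + 1 := by
    have : (0 : ℝ) ≤ C0 := Nat.cast_nonneg _
    linarith
  refine ⟨(C0 + 1) * C2, one_le_mul_of_one_le_of_one_le hC01 hC2, ?_⟩
  intro V c m a1 a0 b1 b0 hV hc hm hρ hδ km k1 k0 l1 l0 B S hS
  set g := gp c m a1 a0 b1 b0 with hg
  obtain ⟨T, hTc, hT0, hT⟩ := hC0 B
  have hcls : ∀ τ : K, ∃ t : K, τ ∈ S → t ∈ T ∧ ∃ b : K, b ≠ 0 ∧ g.eval τ = t * b ^ 2 := by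
    intro τ
    by_cases hτ : τ ∈ S
    · obtain ⟨-, h, h1⟩ := hS τ hτ
      obtain ⟨t, ht, b, hb, hbe⟩ := hT (Units.mk0 _ h) h1
      exact ⟨t, fun _ => ⟨ht, b, hb, hbe⟩⟩
    · exact ⟨0, fun h => absurd h hτ⟩
  choose cls hcls using hcls
  have hfibc : ∀ t ∈ T, ((S.filter (fun τ => cls τ = t)).card : ℝ) ≤ C2 * V ^ ε := by
    intro t _
    apply hcl V m a1 a0 b1 b0 hV hm hρ hδ km k1 k0 l1 l0
    · intro τ hτ
      obtain ⟨h1, h2⟩ := Finset.mem_filter.1 hτ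
      obtain ⟨h3, h4, -⟩ := hS τ h1
      refine ⟨h3, ?_⟩
      rw [gp_eval] at h4
      exact right_ne_zero_of_mul h4
    · intro s hs τ hτ
      obtain ⟨h1, h2⟩ := Finset.mem_filter.1 hτ
      obtain ⟨l1, l2⟩ := Finset.mem_filter.1 hs
      obtain ⟨htT, b, hb, hbe⟩ := hcls τ h1
      obtain ⟨-, b', hb', hbe'⟩ := hcls s l1
      rw [h2] at hbe htT
      rw [l2] at hbe'
      have ht0 := hT0 t htT
      rw [hg, gp_eval] at hbe hbe'
      refine ⟨b / b', ?_⟩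
      have h6 : nf m a1 a0 b1 b0 τ = t * b ^ 2 / c := by rw [← hbe]; field_simp
      have h7 : nf m a1 a0 b1 b0 s = t * b' ^ 2 / c := by rw [← hbe']; field_simp
      rw [h6, h7]
      field_simp
  have hsum : S.card = ∑ t ∈ T, (S.filter (fun τ => cls τ = t)).card :=
    Finset.card_eq_sum_card_fiberwise fun τ hτ => (hcls τ hτ).1
  calc (S.card : ℝ) = ∑ t ∈ T, ((S.filter (fun τ => cls τ = t)).card : ℝ) := by
        rw [hsum]; push_cast; rfl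
    _ ≤ ∑ _t ∈ T, (C2 * V ^ ε) := Finset.sum_le_sum hfibc
    _ = T.card * (C2 * V ^ ε) := by rw [Finset.sum_const, nsmul_eq_mul]
    _ ≤ (C0 * 2 ^ B.card) * (C2 * V ^ ε) := by
        have h8 : (T.card : ℝ) ≤ C0 * 2 ^ B.card := by exact_mod_cast hTc
        gcongr
    _ ≤ ((C0 + 1) * 2 ^ B.card) * (C2 * V ^ ε) := by
        have h10 : (C0 : ℝ) ≤ C0 + 1 := by linarith
        gcongr
    _ = _ := by ring

end Pool.Agent.K9h15.Fib
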