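import Mathlib

/-!
# Local generators at unramified primes

`M / ℚ` is a finite Galois extension, `w` a prime of `M` which is unramified over `ℚ`. There is an
algebraic integer `γ` with `M = ℚ(γ)` which is a zero of a monic integral polynomial `g` such that
`g'(γ)` is a unit at `w`; if `w` is of degree one, `γ` can be chosen congruent to `1` modulo `w`
(helper15).
-/

set_option autoImplicit false
set_option linter.all false

open Polynomial IsDedekindDomain NumberField
open scoped Classical IntermediateField Pointwise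

namespace Pool.Agent.K9h15.Mn

theorem exp_pow {a : WithZero (Multiplicative ℤ)} {e : ℕ} (h : a ^ e = WithZero.exp (-1 : ℤ)) :
    e = 1 := by
  have ha : a ≠ 0 := by
    rintro rfl
    rcases Nat.eq_zero_or_pos e with rfl | he
    · rw [pow_zero] at h
      have : WithZero.exp (0 : ℤ) = WithZero.exp (-1 : ℤ) := by rw [← h]; rfl
      exact absurd (WithZero.exp_injective this) (by norm_num)
    · rw [zero_pow he.ne'] at h
      exact WithZero.exp_ne_zero h.symm
  obtain ⟨m, rfl⟩ : ∃ m : ℤ, a = WithZero.exp m := ⟨WithZero.log a, (WithZero.exp_log ha).symm⟩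
  rw [← WithZero.exp_nsmul] at h
  have h1 := WithZero.exp_injective h
  rw [nsmul_eq_mul] at h1
  have h2 : (e : ℤ) ∣ 1 := ⟨-m, by linarith⟩
  have h3 : e ∣ 1 := by exact_mod_cast h2
  exact Nat.dvd_one.1 h3

variable {M : Type} [Field M] [NumberField M]

/-- The prime below. -/
def below (w : HeightOneSpectrum (𝓞 M)) : HeightOneSpectrum ℤ :=
  ⟨w.asIdeal.under ℤ, inferInstance, fun h0 => w.ne_bot (Ideal.eq_bot_of_comap_eq_bot h0)⟩

instance (w : HeightOneSpectrum (𝓞 M)) : w.asIdeal.LiesOver (below w).asIdeal := ⟨rfl⟩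

/-- The valuation of rational numbers. -/
theorem val_below (w : HeightOneSpectrum (𝓞 M)) {P : ℤ}
    (h : w.valuation M (P : M) = WithZero.exp (-1 : ℤ)) (x : ℚ) :
    w.valuation M (algebraMap ℚ M x) = (below w).valuation ℚ x := by
  have h1 := HeightOneSpectrum.valuation_liesOver M (below w) w (P : ℚ)
  rw [map_intCast (algebraMap ℚ M), h] at h1
  have h2 := HeightOneSpectrum.valuation_liesOver M (below w) w x
  rw [exp_pow h1, pow_one] at h2
  exact h2.symm

/-- Unramified primes have trivial inertia groups. -/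
theorem inertia_trivial [IsGalois ℚ M] (w : HeightOneSpectrum (𝓞 M)) {P : ℤ}
    (h : w.valuation M (P : M) = WithZero.exp (-1 : ℤ)) (σ : M ≃ₐ[ℚ] M)
    (hσ : ∀ y : 𝓞 M, σ • y - y ∈ w.asIdeal) : σ = 1 := by
  have h1 := HeightOneSpectrum.valuation_liesOver M (below w) w (P : ℚ)
  rw [map_intCast (algebraMap ℚ M), h] at h1
  have h2 := exp_pow h1
  rw [Ideal.ramificationIdx'_eq_ramificationIdx _ _ (below w).ne_bot] at h2
  have h3 := Ideal.card_inertia_eq_ramificationIdxIn (G := M ≃ₐ[ℚ] M) (below w).asIdeal w.asIdeal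
  rw [Ideal.ramificationIdxIn_eq_ramificationIdx (below w).asIdeal w.asIdeal (M ≃ₐ[ℚ] M), h2] at h3
  have h4 : Subsingleton (w.asIdeal.inertia (M ≃ₐ[ℚ] M)) :=
    (Nat.card_eq_one_iff_unique.1 h3).1
  have h5 : σ ∈ w.asIdeal.inertia (M ≃ₐ[ℚ] M) := fun y => hσ y
  have h6 := Subsingleton.elim (⟨σ, h5⟩ : w.asIdeal.inertia (M ≃ₐ[ℚ] M)) 1
  exact congrArg Subtype.val h6

/-- The derivative of the product of the `X - σ γ`. -/
theorem exists_poly [IsGalois ℚ M] (γ : 𝓞 M) (hγ : ∀ σ : M ≃ₐ[ℚ] M, σ • γ = γ → σ = 1) :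
    ℚ⟮(γ : M)⟯ = ⊤ ∧ ∃ g : ℤ[X], g.Monic ∧ aeval γ g = 0 ∧
      aeval γ (derivative g) = ∏ σ ∈ (Finset.univ.erase (1 : M ≃ₐ[ℚ] M)), (γ - σ • γ) := by
  have htop : ℚ⟮(γ : M)⟯ = ⊤ := by
    rw [← IsGalois.fixedField_fixingSubgroup ℚ⟮(γ : M)⟯]
    have e : (ℚ⟮(γ : M)⟯).fixingSubgroup = ⊥ := by
      rw [eq_bot_iff]
      intro σ hσ
      rw [Subgroup.mem_bot]
      apply hγ
      apply RingOfIntegers.ext
      have := (IntermediateField.mem_fixingSubgroup_iff _ _).1 hσ (γ : M)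
        (IntermediateField.mem_adjoin_simple_self ℚ (γ : M))
      exact this
    rw [e, IntermediateField.fixedField_bot]
  refine ⟨htop, minpoly ℤ γ, minpoly.monic (Algebra.IsIntegral.isIntegral γ), minpoly.aeval _ _, ?_⟩
  have hinj : Function.Injective (fun σ : M ≃ₐ[ℚ] M => σ • γ) := by
    intro σ τ h
    have h1 : (τ⁻¹ * σ) • γ = γ := by
      rw [mul_smul]
      change τ⁻¹ • (σ • γ) = γ
      have h' : σ • γ = τ • γ := h
      rw [h', inv_smul_smul]
    have h2 := hγ _ h1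
    rw [inv_mul_eq_one] at h2
    exact h2.symm
  -- the product
  have hprod : (minpoly ℤ γ).map (algebraMap ℤ (𝓞 M)) = ∏ σ : M ≃ₐ[ℚ] M, (X - C (σ • γ)) := by
    have hm : ((minpoly ℤ γ).map (algebraMap ℤ (𝓞 M))).Monic :=
      (minpoly.monic (Algebra.IsIntegral.isIntegral γ)).map _
    have hP : (∏ σ : M ≃ₐ[ℚ] M, (X - C (σ • γ)) : (𝓞 M)[X]).Monic :=
      monic_prod_of_monic _ _ fun σ _ => monic_X_sub_C _
    have hdeg : ((minpoly ℤ γ).map (algebraMap ℤ (𝓞 M))).natDegree =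
        Fintype.card (M ≃ₐ[ℚ] M) := by
      rw [(minpoly.monic (Algebra.IsIntegral.isIntegral γ)).natDegree_map]
      have h1 := (Field.primitive_element_iff_minpoly_natDegree_eq ℚ (γ : M)).1 htop
      rw [← Nat.card_eq_fintype_card, IsGalois.card_aut_eq_finrank, ← h1]
      have h2 : minpoly ℚ (γ : M) = (minpoly ℤ γ).map (algebraMap ℤ ℚ) := by
        rw [minpoly.isIntegrallyClosed_eq_field_fractions' ℚ (RingOfIntegers.isIntegral_coe γ),
          minpoly.algebraMap_eq RingOfIntegers.coe_injective γ]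
      rw [h2, (minpoly.monic (Algebra.IsIntegral.isIntegral γ)).natDegree_map]
    have hdvd : (∏ σ : M ≃ₐ[ℚ] M, (X - C (σ • γ)) : (𝓞 M)[X]) ∣
        (minpoly ℤ γ).map (algebraMap ℤ (𝓞 M)) := by
      have e : (∏ σ : M ≃ₐ[ℚ] M, (X - C (σ • γ)) : (𝓞 M)[X]) =
          (((Finset.univ : Finset (M ≃ₐ[ℚ] M)).val.map fun σ => σ • γ).map
            fun a => X - C a).prod := by
        rw [Multiset.map_map]
        rfl
      rw [e, Multiset.prod_X_sub_C_dvd_iff_le_roots hm.ne_zero,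
        Multiset.le_iff_subset (Multiset.Nodup.map hinj (Finset.univ : Finset (M ≃ₐ[ℚ] M)).nodup)]
      intro a ha
      obtain ⟨σ, -, rfl⟩ := Multiset.mem_map.1 ha
      rw [mem_roots hm.ne_zero, IsRoot.def, eval_map_algebraMap]
      have h3 : aeval (σ • γ) (minpoly ℤ γ) = σ • (aeval γ (minpoly ℤ γ)) := by
        have := Polynomial.aeval_algHom_apply (MulSemiringAction.toAlgHom ℤ (𝓞 M) σ) γ
          (minpoly ℤ γ)
        exact this
      rw [h3, minpoly.aeval, smul_zero]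
    refine Polynomial.eq_of_monic_of_dvd_of_natDegree_le hP hm hdvd ?_
    rw [hdeg, natDegree_prod_of_monic _ _ fun σ _ => monic_X_sub_C _]
    simp
  have h4 : aeval γ (derivative (minpoly ℤ γ)) =
      eval γ (derivative ((minpoly ℤ γ).map (algebraMap ℤ (𝓞 M)))) := by
    rw [derivative_map, eval_map_algebraMap]
  rw [h4, hprod, derivative_prod_finset, eval_finset_sum, Finset.sum_eq_single (1 : M ≃ₐ[ℚ] M)]
  · rw [eval_mul, eval_prod]
    simp
  · intro σ _ hσ
    rw [eval_mul, eval_prod, Finset.prod_eq_zero (i := (1 : M ≃ₐ[ℚ] M)), zero_mul]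
    · exact Finset.mem_erase.2 ⟨hσ.symm, Finset.mem_univ _⟩
    · simp
  · intro h
    exact absurd (Finset.mem_univ _) h

/-- The local generator. -/
theorem exists_gen [IsGalois ℚ M] (w : HeightOneSpectrum (𝓞 M)) {P : ℤ}
    (h : w.valuation M (P : M) = WithZero.exp (-1 : ℤ)) :
    ∃ (γ : 𝓞 M) (g : ℤ[X]), ℚ⟮(γ : M)⟯ = ⊤ ∧ g.Monic ∧ aeval γ g = 0 ∧
      aeval γ (derivative g) ∉ w.asIdeal := by
  haveI hmax : w.asIdeal.IsMaximal := w.isMaximal
  letI : Field (𝓞 M ⧸ w.asIdeal) := Ideal.Quotient.field _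
  haveI : Finite (𝓞 M ⧸ w.asIdeal) := Ring.HasFiniteQuotients.finiteQuotient w.ne_bot
  obtain ⟨u, hu⟩ := IsCyclic.exists_generator (α := (𝓞 M ⧸ w.asIdeal)ˣ)
  obtain ⟨u₀, hu₀⟩ := Ideal.Quotient.mk_surjective (u : 𝓞 M ⧸ w.asIdeal)
  -- the other primes
  set A : Finset (M ≃ₐ[ℚ] M) := Finset.univ.filter fun σ => σ • w.asIdeal ≠ w.asIdeal with hA
  have hcop : IsCoprime (∏ σ ∈ A, σ • w.asIdeal) w.asIdeal := by
    refine IsCoprime.prod_left fun σ hσ => ?_
    haveI : (σ • w.asIdeal).IsMaximal := by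
      refine (inferInstance : (σ • w.asIdeal).IsPrime).isMaximal fun h0 => w.ne_bot ?_
      have h1 := congrArg (fun I : Ideal (𝓞 M) => σ⁻¹ • I) h0
      simpa using h1
    exact Ideal.isCoprime_of_isMaximal (Finset.mem_filter.1 hσ).2
  obtain ⟨e, he, e', he', hee⟩ := Ideal.isCoprime_iff_exists.1 hcop
  set γ : 𝓞 M := e * u₀ with hγ
  have hγu : Ideal.Quotient.mk w.asIdeal γ = u := by
    rw [← hu₀, Ideal.Quotient.eq, hγ]
    have e1 : e * u₀ - u₀ = - (e' * u₀) := by
      rw [← eq_sub_iff_add_eq] at hee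
      rw [hee]
      ring
    rw [e1]
    exact neg_mem (Ideal.mul_mem_right _ _ he')
  have hγw : γ ∉ w.asIdeal := by
    rw [← Ideal.Quotient.eq_zero_iff_mem, hγu]
    exact u.ne_zero
  have key : ∀ σ : M ≃ₐ[ℚ] M, σ ≠ 1 → γ - σ • γ ∉ w.asIdeal := by
    intro σ hσ hmem
    by_cases hc : σ⁻¹ • w.asIdeal = w.asIdeal
    · have hc' : σ • w.asIdeal = w.asIdeal := by
        conv_lhs => rw [← hc]
        rw [smul_inv_smul]
      apply hσ
      refine inertia_trivial w h σ fun y => ?_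
      have hsm : ∀ z ∈ w.asIdeal, σ • z ∈ w.asIdeal := by
        intro z hz
        rw [← hc']
        exact Ideal.smul_mem_pointwise_smul _ _ _ hz
      by_cases hy : y ∈ w.asIdeal
      · exact sub_mem (hsm y hy) hy
      · have hy0 : Ideal.Quotient.mk w.asIdeal y ≠ 0 := by
          rwa [Ne, Ideal.Quotient.eq_zero_iff_mem]
        obtain ⟨n, hn⟩ : ∃ n : ℕ, u ^ n = Units.mk0 _ hy0 := by
          have := hu (Units.mk0 _ hy0)
          rw [← mem_powers_iff_mem_zpowers] at this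
          exact this
        have h1 : y - γ ^ n ∈ w.asIdeal := by
          rw [← Ideal.Quotient.eq, map_pow, hγu, ← Units.val_pow_eq_pow_val, hn]
          rfl
        have h2 := hsm _ h1
        rw [smul_sub, smul_pow'] at h2
        have h3 : (σ • γ) ^ n - γ ^ n ∈ w.asIdeal := by
          obtain ⟨d, hd⟩ := sub_dvd_pow_sub_pow (σ • γ) γ n
          rw [hd]
          refine Ideal.mul_mem_right _ _ ?_
          rw [← neg_sub]
          exact neg_mem hmem
        have e2 : σ • y - y = (σ • y - (σ • γ) ^ n) + ((σ • γ) ^ n - γ ^ n) - (y - γ ^ n) := by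
          ring
        rw [e2]
        exact sub_mem (add_mem h2 h3) h1
    · apply hγw
      have h1 : γ ∈ σ⁻¹ • w.asIdeal := by
        have h2 : (∏ τ ∈ A, τ • w.asIdeal) ≤ σ⁻¹ • w.asIdeal :=
          Ideal.le_of_dvd (Finset.dvd_prod_of_mem _ (by
            rw [hA, Finset.mem_filter]
            exact ⟨Finset.mem_univ _, hc⟩))
        exact Ideal.mul_mem_right _ _ (h2 he)
      have h3 : σ • γ ∈ w.asIdeal := by
        have := Ideal.smul_mem_pointwise_smul σ _ _ h1
        rwa [smul_inv_smul] at this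
      have e3 : γ = (γ - σ • γ) + σ • γ := by ring
      rw [e3]
      exact add_mem hmem h3
  obtain ⟨htop, g, hg, hr, hd⟩ := exists_poly γ fun σ hσ => by
    by_contra hne
    apply key σ hne
    rw [hσ, sub_self]
    exact zero_mem _
  refine ⟨γ, g, htop, hg, hr, ?_⟩
  rw [hd]
  intro hmem
  haveI := w.isPrime
  obtain ⟨σ, hσ, h1⟩ := (Ideal.IsPrime.prod_mem_iff).1 hmem
  exact key σ (Finset.ne_of_mem_erase hσ) h1

end Pool.Agent.K9h15.Mn
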