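import Pool.Agent.N922.PQ.Final2
import Pool.Agent.K9h15.MnA

/-!
# Unramified primes and density in the compositum

Adapted from `N362/PQ/UR.lean`, `N296/PQ/SPD.lean` (project PQ) and `N874/TW/Gen.lean` (project TW);
the generators are local (helper15).
-/

set_option autoImplicit false
set_option linter.all false

open Polynomial IsDedekindDomain NumberField
open scoped Classical IntermediateField

namespace Pool.Agent.K9h15.Mn

open Pool.Agent.N922.PQ
open Pool.Agent.N169.PM (ev sub_eval eval_le taylor)

section ur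

variable {F F' : Type} (O O' : Type) [Field F] [NumberField F] [Field F'] [NumberField F']
  [Algebra F F'] [CommRing O] [IsDedekindDomain O] [Algebra O F] [IsFractionRing O F]
  [IsIntegralClosure O ℤ F] [CommRing O'] [IsDedekindDomain O'] [Algebra O' F']
  [IsFractionRing O' F'] [IsIntegralClosure O' ℤ F']

/-- The primes at which `g'(γ)` is a unit are unramified. -/
theorem ur_loc {γ : F'} {g : ℤ[X]} (htop : F⟮γ⟯ = ⊤) (hmon : g.Monic) (hroot : aeval γ g = 0)
    (𝔓 : HeightOneSpectrum O') (hd : 𝔓.valuation F' (aeval γ (derivative g)) = 1) :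
    ∃ w : HeightOneSpectrum O, ∀ x : F, 𝔓.valuation F' (algebraMap F F' x) = w.valuation F x := by
  let _ : Algebra O F' := ((algebraMap F F').comp (algebraMap O F)).toAlgebra
  have t1 : IsScalarTower O F F' := IsScalarTower.of_algebraMap_eq fun _ => rfl
  have t3 : Algebra.IsIntegral ℤ O := IsIntegralClosure.isIntegral_algebra ℤ F
  let l : O →ₐ[ℤ] O' := IsIntegralClosure.lift ℤ O' F'
  let _ : Algebra O O' := l.toRingHom.toAlgebra
  have t4 : IsScalarTower O O' F' := IsScalarTower.of_algebraMap_eq fun x =>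
    (IsIntegralClosure.algebraMap_lift ℤ O' F' x).symm
  have t6 : IsIntegralClosure O' O F' := IsIntegralClosure.tower_top (R := ℤ)
  have t7 : Algebra.IsIntegral O O' := IsIntegralClosure.isIntegral_algebra O F'
  have hinj : Function.Injective (algebraMap O O') := by
    have h1 : Function.Injective (algebraMap O F') := by
      rw [IsScalarTower.algebraMap_eq O F F']
      exact (algebraMap F F').injective.comp (IsFractionRing.injective O F)
    rw [IsScalarTower.algebraMap_eq O O' F'] at h1
    exact Function.Injective.of_comp h1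
  have : FaithfulSMul O O' := (faithfulSMul_iff_algebraMap_injective O O').2 hinj
  have : Module.IsTorsionFree O O' := inferInstance
  have hint : IsIntegral ℤ γ := ⟨g, hmon, by rw [← aeval_def]; exact hroot⟩
  have hiF : IsIntegral F γ := hint.tower_top
  have : FiniteDimensional F F' := by
    have h2 : FiniteDimensional F F⟮γ⟯ := IntermediateField.adjoin.finiteDimensional hiF
    rw [htop] at h2
    exact Module.Finite.equiv (IntermediateField.topEquiv (F := F) (E := F')).toLinearEquiv
  have : Algebra.IsSeparable F F' := inferInstance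
  have hp0 : 𝔓.asIdeal.under O ≠ ⊥ := by
    intro h0
    exact 𝔓.ne_bot (Ideal.eq_bot_of_comap_eq_bot h0)
  let v : HeightOneSpectrum O := ⟨𝔓.asIdeal.under O, inferInstance, hp0⟩
  have hl : 𝔓.asIdeal.LiesOver v.asIdeal := ⟨rfl⟩
  obtain ⟨y, hy⟩ := (IsIntegralClosure.isIntegral_iff (R := ℤ) (A := O')).1 hint
  have hadj : Algebra.adjoin F {algebraMap O' F' y} = ⊤ := by
    have h2 := IntermediateField.adjoin_simple_toSubalgebra_of_isAlgebraic hiF.isAlgebraic
    rw [hy, ← h2, htop, IntermediateField.top_toSubalgebra]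
  refine ⟨v, fun x => Pool.Agent.N603.PM.UR.core O F F' O' y hadj 𝔓 ?_ v x⟩
  intro hmem
  have hgy : aeval y g = 0 := by
    apply IsFractionRing.injective O' F'
    rw [map_zero, ← Polynomial.aeval_algebraMap_apply, hy]
    exact hroot
  have hint' : IsIntegral O y := IsIntegral.tower_top (R := ℤ) ⟨g, hmon, hgy⟩
  have hdvd : minpoly O y ∣ g.map (algebraMap ℤ O) := by
    apply minpoly.isIntegrallyClosed_dvd hint'
    rw [aeval_map_algebraMap]
    exact hgy
  obtain ⟨q, hq⟩ := hdvd
  have h1 : aeval y (derivative g) = aeval y (derivative (minpoly O y)) * aeval y q := by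
    have h2 := congrArg (fun p : O[X] => aeval y (derivative p)) hq
    simp only [derivative_mul, map_add, map_mul, minpoly.aeval, zero_mul, add_zero] at h2
    rw [← h2, derivative_map, aeval_map_algebraMap]
  have h2 : aeval y (derivative g) ∈ 𝔓.asIdeal := by
    rw [h1]
    exact Ideal.mul_mem_right _ _ hmem
  have h4 : 𝔓.valuation F' (algebraMap O' F' (aeval y (derivative g))) < 1 := by
    rw [HeightOneSpectrum.valuation_lt_one_iff_mem]
    exact h2
  rw [← Polynomial.aeval_algebraMap_apply, hy, hd] at h4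
  exact lt_irrefl _ h4

/-- A prime over a given prime, with the ramification index. -/
theorem exists_over' (v : HeightOneSpectrum O) :
    ∃ (𝔓 : HeightOneSpectrum O') (e : ℕ), ∀ x : F, 𝔓.valuation F' (algebraMap F F' x) =
      v.valuation F x ^ e := by
  let _ : Algebra O F' := ((algebraMap F F').comp (algebraMap O F)).toAlgebra
  have t1 : IsScalarTower O F F' := IsScalarTower.of_algebraMap_eq fun _ => rfl
  have t3 : Algebra.IsIntegral ℤ O := IsIntegralClosure.isIntegral_algebra ℤ F
  let l : O →ₐ[ℤ] O' := IsIntegralClosure.lift ℤ O' F'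
  let _ : Algebra O O' := l.toRingHom.toAlgebra
  have t4 : IsScalarTower O O' F' := IsScalarTower.of_algebraMap_eq fun x =>
    (IsIntegralClosure.algebraMap_lift ℤ O' F' x).symm
  have t6 : IsIntegralClosure O' O F' := IsIntegralClosure.tower_top (R := ℤ)
  have t7 : Algebra.IsIntegral O O' := IsIntegralClosure.isIntegral_algebra O F'
  have hinj : Function.Injective (algebraMap O O') := by
    have h1 : Function.Injective (algebraMap O F') := by
      rw [IsScalarTower.algebraMap_eq O F F']
      exact (algebraMap F F').injective.comp (IsFractionRing.injective O F)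
    rw [IsScalarTower.algebraMap_eq O O' F'] at h1
    exact Function.Injective.of_comp h1
  have : FaithfulSMul O O' := (faithfulSMul_iff_algebraMap_injective O O').2 hinj
  have : Module.IsTorsionFree O O' := inferInstance
  obtain ⟨Q, -, hQp, hQ⟩ := Ideal.exists_ideal_over_prime_of_isIntegral (S := O') v.asIdeal ⊥
    (by
      intro x hx
      have h1 : algebraMap O O' x = 0 := by simpa using hx
      have h2 : x = 0 := hinj (by rw [h1, map_zero])
      rw [h2]
      exact zero_mem _)
  have hQ0 : Q ≠ ⊥ := by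
    rintro rfl
    apply v.ne_bot
    rw [← hQ]
    exact (RingHom.injective_iff_ker_eq_bot _).1 hinj
  let P : HeightOneSpectrum O' := ⟨Q, hQp, hQ0⟩
  have hl : P.asIdeal.LiesOver v.asIdeal := ⟨hQ.symm⟩
  exact ⟨P, _, fun x => (HeightOneSpectrum.valuation_liesOver F' v P x).symm⟩

/-- An unramified prime over a given prime. -/
theorem up_of_ur (v : HeightOneSpectrum O)
    (hur : ∀ 𝔓 : HeightOneSpectrum O', (∀ P : ℤ, Ov P v → Ov P 𝔓) → ∃ w : HeightOneSpectrum O,
      ∀ x : F, 𝔓.valuation F' (algebraMap F F' x) = w.valuation F x) :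
    ∃ 𝔓 : HeightOneSpectrum O', ∀ x : F, 𝔓.valuation F' (algebraMap F F' x) = v.valuation F x := by
  obtain ⟨𝔓, e, he⟩ := exists_over' O O' (F := F) (F' := F') v
  have hw : ∃ w : HeightOneSpectrum O,
      ∀ x : F, 𝔓.valuation F' (algebraMap F F' x) = w.valuation F x := by
    by_cases he0 : e = 0
    · exfalso
      -- the valuation would be trivial on the integers
      haveI : Algebra.IsIntegral ℤ O' := IsIntegralClosure.isIntegral_algebra ℤ F'
      haveI : CharZero O' := charZero_of O' F'
      obtain ⟨P, hP, hP'⟩ := exists_below 𝔓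
      rw [ov_val (L := F')] at hP'
      have h1 := he (P : F)
      rw [map_intCast (algebraMap F F'), he0, pow_zero] at h1
      rw [h1] at hP'
      exact lt_irrefl _ hP'
    · refine hur 𝔓 fun P hP => ?_
      rw [ov_val (L := F)] at hP
      rw [ov_val (L := F'), ← map_intCast (algebraMap F F'), he]
      exact pow_lt_one' hP he0
  obtain ⟨w, hw⟩ := hw
  obtain ⟨x, hx⟩ := w.valuation_surjective F (WithZero.exp (-1 : ℤ))
  have h1 := he x
  rw [hw, hx] at h1
  have h2 := exp_pow h1.symm
  subst h2
  exact ⟨𝔓, fun x => by rw [he, pow_one]⟩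

end ur

section spd

/-- Density at a prime where the generator is congruent to an integer. -/
theorem spd_loc {F F' O' : Type} [Field F] [NumberField F] [Field F'] [NumberField F']
    [Algebra F F'] [CommRing O'] [IsDedekindDomain O'] [Algebra O' F'] [IsFractionRing O' F']
    {γ : F'} {g : ℤ[X]} (htop : F⟮γ⟯ = ⊤) (hmon : g.Monic) (hroot : aeval γ g = 0)
    (𝔓 : HeightOneSpectrum O') (hd : 𝔓.valuation F' (aeval γ (derivative g)) = 1)
    (hc₀ : ∃ c : ℤ, 𝔓.valuation F' (γ - (c : F')) < 1) (s : F') (hs : s ≠ 0) :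
    ∃ s₀ : F, 𝔓.valuation F' (s - algebraMap F F' s₀) < 𝔓.valuation F' s := by
  obtain ⟨v, hv⟩ : ∃ v, v = 𝔓.valuation F' := ⟨_, rfl⟩
  rw [← hv]
  have hj : ∀ r : ℤ, v (algebraMap ℤ F' r) ≤ 1 := by
    intro r
    rw [IsScalarTower.algebraMap_apply ℤ O' F', hv]
    exact 𝔓.valuation_le_one _
  have hγ1 : v γ ≤ 1 := by
    have hi : IsIntegral ℤ γ := ⟨g, hmon, hroot⟩
    have hi' : IsIntegral O' γ := hi.tower_top
    obtain ⟨γ', hγ'⟩ := (IsIntegrallyClosed.isIntegral_iff (R := O') (K := F')).1 hi'
    rw [← hγ', hv]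
    exact 𝔓.valuation_le_one _
  have hg0 : g.eval₂ (algebraMap ℤ F') γ = 0 := hroot
  obtain ⟨c₀, hc₀⟩ := hc₀
  rw [← hv] at hc₀ hd
  rw [show ((c₀ : ℤ) : F') = algebraMap ℤ F' c₀ from rfl] at hc₀
  rw [aeval_def] at hd
  obtain ⟨t, ht⟩ : ∃ t, t = v (γ - algebraMap ℤ F' c₀) := ⟨_, rfl⟩
  rw [← ht] at hc₀
  -- Newton's method
  have hN : ∀ n : ℕ, ∃ c : F, v (algebraMap F F' c) ≤ 1 ∧ v (γ - algebraMap F F' c) ≤ t ^ (n + 1) := by
    intro n
    induction n with
    | zero =>
      refine ⟨algebraMap ℤ F c₀, ?_, ?_⟩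
      · rw [← IsScalarTower.algebraMap_apply]; exact hj c₀
      · rw [← IsScalarTower.algebraMap_apply, zero_add, pow_one, ht]
    | succ n ih =>
      obtain ⟨c, hc1, hc2⟩ := ih
      have hlt : v (γ - algebraMap F F' c) < 1 :=
        lt_of_le_of_lt hc2 (pow_lt_one₀ zero_le hc₀ (Nat.succ_ne_zero n))
      have hdc : v ((derivative g).eval₂ (algebraMap ℤ F') (algebraMap F F' c)) = 1 := by
        have h1 : v ((derivative g).eval₂ (algebraMap ℤ F') (algebraMap F F' c) -
            (derivative g).eval₂ (algebraMap ℤ F') γ) < 1 := by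
          refine lt_of_le_of_lt (sub_eval v _ hj _ _ _ hc1 hγ1) ?_
          rw [Valuation.map_sub_swap]
          exact hlt
        have h2 : (derivative g).eval₂ (algebraMap ℤ F') (algebraMap F F' c) =
          ((derivative g).eval₂ (algebraMap ℤ F') (algebraMap F F' c) -
            (derivative g).eval₂ (algebraMap ℤ F') γ) +
            (derivative g).eval₂ (algebraMap ℤ F') γ := by ring
        rw [h2, Valuation.map_add_eq_of_lt_right]
        · exact hd
        · rw [hd]; exact h1
      have hev : ∀ q : ℤ[X], q.eval₂ (algebraMap ℤ F') (algebraMap F F' c) =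
          algebraMap F F' (q.eval₂ (algebraMap ℤ F) c) := by
        intro q
        rw [Polynomial.hom_eval₂, ← IsScalarTower.algebraMap_eq]
      obtain ⟨r, hr1, hr2⟩ := taylor v (algebraMap ℤ F') hj g (algebraMap F F' c) γ hc1 hγ1
      rw [hg0] at hr2
      have hdne : (derivative g).eval₂ (algebraMap ℤ F') (algebraMap F F' c) ≠ 0 := by
        intro h0
        rw [h0, map_zero] at hdc
        exact zero_ne_one hdc
      have hkey : γ - algebraMap F F' (c - g.eval₂ (algebraMap ℤ F) c /
          (derivative g).eval₂ (algebraMap ℤ F) c) =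
          - (r * (γ - algebraMap F F' c) ^ 2 /
            (derivative g).eval₂ (algebraMap ℤ F') (algebraMap F F' c)) := by
        rw [map_sub, map_div₀, ← hev, ← hev]
        field_simp
        linear_combination -hr2
      have hle : v (γ - algebraMap F F' (c - g.eval₂ (algebraMap ℤ F) c /
          (derivative g).eval₂ (algebraMap ℤ F) c)) ≤ t ^ (n + 1 + 1) := by
        rw [hkey, Valuation.map_neg, map_div₀, hdc, div_one, map_mul, map_pow]
        calc v r * v (γ - algebraMap F F' c) ^ 2 ≤ 1 * v (γ - algebraMap F F' c) ^ 2 :=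
              mul_le_mul_left hr1 _
          _ = v (γ - algebraMap F F' c) ^ 2 := one_mul _
          _ ≤ (t ^ (n + 1)) ^ 2 := pow_le_pow_left' hc2 2
          _ = t ^ ((n + 1) * 2) := (pow_mul _ _ _).symm
          _ ≤ t ^ (n + 1 + 1) := pow_le_pow_right_of_le_one' hc₀.le (by omega)
      refine ⟨_, ?_, hle⟩
      have h3 : algebraMap F F' (c - g.eval₂ (algebraMap ℤ F) c /
          (derivative g).eval₂ (algebraMap ℤ F) c) = γ - (γ - algebraMap F F' (c -
          g.eval₂ (algebraMap ℤ F) c / (derivative g).eval₂ (algebraMap ℤ F) c)) := by ring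
      rw [h3]
      refine (v.map_sub _ _).trans (max_le hγ1 (hle.trans (pow_le_one' hc₀.le _)))
  -- the constants
  have hC : ∀ p : F[X], ∃ M : (WithZero (Multiplicative ℤ))ˣ, ∀ c : F, v (algebraMap F F' c) ≤ 1 →
      v (aeval γ p - algebraMap F F' (p.eval c)) ≤ M * v (γ - algebraMap F F' c) := by
    intro p
    induction p using Polynomial.induction_on' with
    | add p q hp hq =>
      obtain ⟨M₁, h₁⟩ := hp
      obtain ⟨M₂, h₂⟩ := hq
      refine ⟨max M₁ M₂, fun c hc => ?_⟩
      have : aeval γ (p + q) - algebraMap F F' ((p + q).eval c) =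
        (aeval γ p - algebraMap F F' (p.eval c)) + (aeval γ q - algebraMap F F' (q.eval c)) := by
        rw [map_add, eval_add, map_add]; ring
      rw [this]
      refine (v.map_add _ _).trans (max_le ((h₁ c hc).trans ?_) ((h₂ c hc).trans ?_))
      · exact mul_le_mul_left (Units.val_le_val.2 (le_max_left _ _)) _
      · exact mul_le_mul_left (Units.val_le_val.2 (le_max_right _ _)) _
    | monomial n a =>
      obtain ⟨M, hM⟩ : ∃ M : (WithZero (Multiplicative ℤ))ˣ, v (algebraMap F F' a) ≤ M := by
        by_cases h0 : v (algebraMap F F' a) = 0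
        · exact ⟨1, by rw [h0]; exact zero_le⟩
        · exact ⟨Units.mk0 _ h0, le_refl _⟩
      refine ⟨M, fun c hc => ?_⟩
      have h1 : aeval γ (monomial n a) - algebraMap F F' ((monomial n a).eval c) =
        algebraMap F F' a * (γ ^ n - algebraMap F F' c ^ n) := by
        rw [aeval_monomial, eval_monomial, map_mul, map_pow]; ring
      have h2 : v (γ ^ n - algebraMap F F' c ^ n) ≤ v (γ - algebraMap F F' c) := by
        have := sub_eval v (algebraMap ℤ F') hj ((X : ℤ[X]) ^ n) _ _ hγ1 hc
        simpa using this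
      rw [h1, map_mul]
      exact mul_le_mul' hM h2
  -- the end
  have halg : IsAlgebraic F γ := by
    refine ⟨g.map (algebraMap ℤ F), (hmon.map _).ne_zero, ?_⟩
    rw [aeval_map_algebraMap]
    exact hroot
  obtain ⟨p, hp⟩ : ∃ p : F[X], aeval γ p = s := by
    have h1 : s ∈ Algebra.adjoin F {γ} := by
      rw [← IntermediateField.adjoin_simple_toSubalgebra_of_isAlgebraic halg, htop]
      exact Algebra.mem_top
    rw [Algebra.adjoin_singleton_eq_range_aeval] at h1
    exact h1
  obtain ⟨M, hM⟩ := hC p
  have hvs : v s ≠ 0 := (Valuation.ne_zero_iff v).2 hs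
  obtain ⟨n, hn⟩ := exists_pow_lt₀ hc₀ (Units.mk0 (v s) hvs / M)
  obtain ⟨c, hc1, hc2⟩ := hN n
  refine ⟨p.eval c, ?_⟩
  rw [← hp]
  refine lt_of_le_of_lt (hM c hc1) ?_
  rw [hp]
  calc (M : WithZero (Multiplicative ℤ)) * v (γ - algebraMap F F' c) ≤ M * t ^ (n + 1) :=
        mul_le_mul_right hc2 _
    _ ≤ M * t ^ n := mul_le_mul_right (pow_le_pow_right_of_le_one' hc₀.le (Nat.le_succ n)) _
    _ < M * ((Units.mk0 (v s) hvs / M : (WithZero (Multiplicative ℤ))ˣ) :
          WithZero (Multiplicative ℤ)) := by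
        exact (mul_lt_mul_iff_right₀ (Units.zero_lt M)).2 hn
    _ = v s := by
        rw [← Units.val_mul, mul_div_cancel]
        rfl

end spd

end Pool.Agent.K9h15.Mn
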