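import Pool.Agent.K9h15.MnC

/-!
# Local facts over the compositum (helper15)
-/

set_option autoImplicit false
set_option linter.all false

open Polynomial IsDedekindDomain NumberField
open scoped Classical IntermediateField

namespace Pool.Agent.K9h15.Mn

open Pool.Agent.N922.PQ
open Pool.Agent.N874.PP (Tup chA chB gq tau Two Ev Sq1 U0)
open Pool.Agent.N874.PM (PLoc Lies SelR ShaR)

/-- The primes modulo which `X ^ 3 + a X + b` has no zero. -/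
def Tset (a b : ℤ) : Set ℤ := {P | IsPr P ∧ ∀ z : ℤ, ¬ P ∣ z ^ 3 + a * z + b}

/-- The ramification is at primes in `Tset a b`. -/
def Ram (M : Type) [Field M] [NumberField M] (a b : ℤ) : Prop :=
  ∀ w : HeightOneSpectrum (𝓞 M), (∀ P ∈ Tset a b, ¬ Ov P w) →
    ∃ P : ℤ, w.valuation M (P : M) = WithZero.exp (-1 : ℤ)

/-- The primes over `Q` are unramified of degree one. -/
def Tot (M : Type) [Field M] [NumberField M] (Q : ℤ) : Prop :=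
  ∀ w : HeightOneSpectrum (𝓞 M), Ov Q w →
    w.valuation M (Q : M) = WithZero.exp (-1 : ℤ) ∧
    ∀ y : 𝓞 M, ∃ c : ℤ, y - (c : 𝓞 M) ∈ w.asIdeal

section loc

variable {L M Ω : Type} [Field L] [NumberField L] [Field M] [NumberField M]
  [Field Ω] [NumberField Ω] [Algebra L Ω] [Algebra M Ω]

theorem unit_up {w : HeightOneSpectrum (𝓞 M)} {𝔓 : HeightOneSpectrum (𝓞 Ω)}
    (h : Lies (M := M) (Ω := Ω) w 𝔓) {x : M} (hx : w.valuation M x = 1) :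
    𝔓.valuation Ω (algebraMap M Ω x) = 1 := by
  refine le_antisymm (h.le x hx.le) ?_
  have hx0 : x ≠ 0 := by
    rintro rfl
    rw [map_zero] at hx
    exact zero_ne_one hx
  have h1 : w.valuation M x⁻¹ ≤ 1 := by rw [map_inv₀, hx, inv_one]
  have h2 := h.le _ h1
  rw [map_inv₀, map_inv₀] at h2
  by_contra hlt
  rw [not_le] at hlt
  have hpos : 0 < 𝔓.valuation Ω (algebraMap M Ω x) := by
    rw [zero_lt_iff]
    exact (Valuation.ne_zero_iff _).2 (by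
      rw [Ne, map_eq_zero]
      exact hx0)
  exact absurd h2 (not_le.2 ((one_lt_inv₀ hpos).2 hlt))

/-- A local generator. -/
theorem gen_up [IsGalois ℚ M] {θ : L} (htop : M⟮algebraMap L Ω θ⟯ = ⊤)
    {w : HeightOneSpectrum (𝓞 M)} {P : ℤ} (hP : w.valuation M (P : M) = WithZero.exp (-1 : ℤ))
    {𝔓 : HeightOneSpectrum (𝓞 Ω)} (h : Lies (M := M) (Ω := Ω) w 𝔓) :
    ∃ (γ : 𝓞 M) (g : ℤ[X]), L⟮algebraMap M Ω (γ : M)⟯ = ⊤ ∧ g.Monic ∧
      aeval (algebraMap M Ω (γ : M)) g = 0 ∧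
      𝔓.valuation Ω (aeval (algebraMap M Ω (γ : M)) (derivative g)) = 1 := by
  obtain ⟨γ, g, h1, h2, h3, h4⟩ := exists_gen w hP
  have e : ∀ q : ℤ[X], aeval (algebraMap M Ω (γ : M)) q =
      algebraMap M Ω (algebraMap (𝓞 M) M (aeval γ q)) := by
    intro q
    rw [aeval_algebraMap_apply]
    have := aeval_algebraMap_apply M γ q
    exact congrArg (algebraMap M Ω) this
  refine ⟨γ, g, top_up (K := ℚ) h1 htop, h2, ?_, ?_⟩
  · rw [e, h3, map_zero, map_zero]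
  · rw [e]
    apply unit_up h
    refine le_antisymm (w.valuation_le_one _) ?_
    rw [← not_lt, HeightOneSpectrum.valuation_lt_one_iff_mem]
    exact h4

/-- The primes of `Ω` not over `T` are unramified over `L`. -/
theorem ur_down [IsGalois ℚ M] {θ : L} (htop : M⟮algebraMap L Ω θ⟯ = ⊤) {a b : ℤ}
    (hR : Ram M a b) (𝔓 : HeightOneSpectrum (𝓞 Ω)) (h : ∀ P ∈ Tset a b, ¬ Ov P 𝔓) :
    ∃ 𝔭 : HeightOneSpectrum (𝓞 L), ∀ x : L,
      𝔓.valuation Ω (algebraMap L Ω x) = 𝔭.valuation L x := by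
  obtain ⟨w, hw, hO⟩ := parts.lie M Ω (𝓞 M) (𝓞 Ω) 𝔓
  obtain ⟨P, hP⟩ := hR w fun P hP h' => h P hP ((hO P).1 h')
  obtain ⟨γ, g, h1, h2, h3, h4⟩ := gen_up htop hP hw
  exact ur_loc (𝓞 L) (𝓞 Ω) h1 h2 h3 𝔓 h4

/-- The primes of `L` not over `T`. -/
theorem ur_up [IsGalois ℚ M] {θ : L} (htop : M⟮algebraMap L Ω θ⟯ = ⊤) {a b : ℤ}
    (hR : Ram M a b) (𝔭 : HeightOneSpectrum (𝓞 L)) (h : ∀ P ∈ Tset a b, ¬ Ov P 𝔭) :
    ∃ 𝔓 : HeightOneSpectrum (𝓞 Ω), ∀ x : L,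
      𝔓.valuation Ω (algebraMap L Ω x) = 𝔭.valuation L x := by
  obtain ⟨Q, hQ, hQ𝔭⟩ := exists_below 𝔭
  refine up_of_ur (𝓞 L) (𝓞 Ω) 𝔭 fun 𝔓 hov => ur_down htop hR 𝔓 fun P hP h1 => ?_
  have e : P = Q := below_unique hP.1 hQ h1 (hov Q hQ𝔭)
  exact h P hP (e ▸ hQ𝔭)

/-- Density at the primes over `Q`. -/
theorem spd_up [IsGalois ℚ M] {θ : L} (htop : M⟮algebraMap L Ω θ⟯ = ⊤) {Q : ℤ}
    (hT : Tot M Q) (𝔓 : HeightOneSpectrum (𝓞 Ω)) (h : Ov Q 𝔓) (s : Ω) (hs : s ≠ 0) :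
    ∃ s₀ : L, 𝔓.valuation Ω (s - algebraMap L Ω s₀) < 𝔓.valuation Ω s := by
  obtain ⟨w, hw, hO⟩ := parts.lie M Ω (𝓞 M) (𝓞 Ω) 𝔓
  obtain ⟨hP, hc⟩ := hT w ((hO Q).2 h)
  obtain ⟨γ, g, h1, h2, h3, h4⟩ := gen_up htop hP hw
  refine spd_loc h1 h2 h3 𝔓 h4 ?_ s hs
  obtain ⟨c, hc⟩ := hc γ
  refine ⟨c, ?_⟩
  have h5 : w.valuation M ((γ : M) - (c : M)) < 1 := by
    have h6 : w.valuation M (algebraMap (𝓞 M) M (γ - (c : 𝓞 M))) < 1 :=
      (HeightOneSpectrum.valuation_lt_one_iff_mem (K := M) w (γ - (c : 𝓞 M))).2 hc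
    rw [map_sub (algebraMap (𝓞 M) M), map_intCast (algebraMap (𝓞 M) M)] at h6
    exact h6
  have h7 := hw.lt _ h5
  rw [map_sub, map_intCast] at h7
  exact h7

end loc

end Pool.Agent.K9h15.Mn
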