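import Pool.Agent.K9h15.MnD

/-!
# The 2-Selmer group over all extensions of the class

Adapted from `N922/PQ/Big6.lean` (project PQ, helper922) with the order of the quantifiers changed
(helper15).
-/

set_option autoImplicit false
set_option linter.all false

open Polynomial IsDedekindDomain WeierstrassCurve WeierstrassCurve.Affine NumberField
open Pool.Agent.TH115.GD
open scoped Classical IntermediateField

namespace Pool.Agent.K9h15.Mn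

open Pool.Agent.N922.PQ
open Pool.Agent.N874.PP (Tup chA chB gq tau Two Ev Sq1 U0 sW IsBeta Rt)
open Pool.Agent.N874.PM (PLoc Lies SelR ShaR)

section abs

variable {L : Type} [Field L] [NumberField L]

/-- The property of the set `J`. -/
def SelJ (a b : ℤ) (θ : L) (J : Finset ℤ) : Prop :=
  ∀ α : L, α ≠ 0 → IsSquare (Algebra.norm ℚ α) → Loc2 a b θ α →
      (∀ 𝔓 : HeightOneSpectrum (𝓞 L), (∀ Q ∈ J, ¬ Ov Q 𝔓) → Ev 𝔓 α) →
      (∀ Q ∈ J, ∀ 𝔓 : HeightOneSpectrum (𝓞 L), Ov Q 𝔓 → 𝔓.valuation L θ = 1 →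
        U0 𝔓 ((Q : L) * θ) α) →
      (∀ Q ∈ J, ∀ 𝔓 : HeightOneSpectrum (𝓞 L), Ov Q 𝔓 → 𝔓.valuation L θ < 1 → Ev 𝔓 α) →
      IsSquare α

theorem sel_abs {M Ω : Type} [Field M] [NumberField M] [Field Ω] [NumberField Ω] [Algebra L Ω]
    [Algebra M Ω] [IsGalois ℚ M] {a b : ℤ} {θ : L} {X' : ℕ}
    {S T : Finset ℤ} {s A B : ℤ → ℤ} (hc : IsCub a b θ) (hS : GoodS S s)
    (hF : Fam X' S s T A B a b) (h4 : (4 : ℤ) ∣ a - b)
    (hT : GoodT T A B) {J : Finset ℤ} (hJ : J ⊆ S) (hsel : SelJ a b θ J)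
    (hR : Ram M a b) (hTot : ∀ Q ∈ S, Tot M Q)
    {n : ℕ} (hM : Module.finrank ℚ M = 2 ^ n) (hΩ : Module.finrank M Ω = 3)
    (htop : M⟮algebraMap L Ω θ⟯ = ⊤) (ha : Odd a) (hb : Odd b)
    (hur : ∀ w : HeightOneSpectrum (𝓞 M), Ov 2 w → w.valuation M 2 = WithZero.exp (-1 : ℤ)) :
    SelR (𝓞 M) (sW (((a * (∏ Q ∈ J, Q) ^ 2 : ℤ)) : M) (((b * (∏ Q ∈ J, Q) ^ 3 : ℤ)) : M)) := by
  have H := parts2
  have h6M : (6 : M) ≠ 0 := by norm_num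
  have h2K : (2 : ℚ) ≠ 0 := by norm_num
  have hT' : ∀ P ∈ Tset a b, IsPr P := fun P hP => hP.1
  have h2T : (2 : ℤ) ∈ Tset a b := ⟨(hT.2.2 2 hT.1).1, fam_nt hT hF hT.1⟩
  have h3T : (3 : ℤ) ∈ Tset a b := ⟨(hT.2.2 3 hT.2.1).1, fam_nt hT hF hT.2.1⟩
  have hST : ∀ Q ∈ S, Q ∉ Tset a b := by
    intro Q hQ h
    apply h.2 0
    have := hF.rb Q hQ
    simpa using this
  have hnr : ∀ w : HeightOneSpectrum (𝓞 M), Ov 2 w → ∀ t : w.adicCompletion M,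
      t ^ 3 + (a : w.adicCompletion M) * t + (b : w.adicCompletion M) ≠ 0 :=
    fun w hw => H.nr M (𝓞 M) n hM w hw a b ha hb
  have hD1 : 0 < (∏ Q ∈ J, Q) := Finset.prod_pos fun Q hQ => (hS Q (hJ hQ)).1.1
  have hD0 : (∏ Q ∈ J, Q) ≠ 0 := hD1.ne'
  have hD8 : (∏ Q ∈ J, Q) % 8 = 1 := prod_mod8 fun Q hQ => (hS Q (hJ hQ)).2.1
  have hURΩ := fun 𝔓 h => ur_down (L := L) (M := M) (Ω := Ω) htop hR 𝔓 h
  have nT : ∀ {O₁ : Type} [CommRing O₁] [IsDedekindDomain O₁] {Q : ℤ} (hQ : Q ∈ S)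
      {𝔓 : HeightOneSpectrum O₁}, Ov Q 𝔓 → ∀ P ∈ Tset a b, ¬ Ov P 𝔓 := by
    intro O₁ _ _ Q hQ 𝔓 h1 P hP h2
    exact hST Q hQ (below_unique (hS Q hQ).1 (hT' P hP) h1 h2 ▸ hP)
  intro f hf h2f hloc
  obtain ⟨w₀, hw₀⟩ := exists_over (𝓞 M)
  have hirrD := irr_tw' (F := M) (a := a * (∏ Q ∈ J, Q) ^ 2) (b := b * (∏ Q ∈ J, Q) ^ 3)
    (fun t ht => by
      apply no_root_tw' (hnr w₀ hw₀) hD0 (algebraMap M _ t)
      have h1 := congrArg (algebraMap M (w₀.adicCompletion M)) ht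
      rw [map_zero, map_add, map_add, map_mul, map_pow, map_intCast, map_intCast] at h1
      exact h1)
  have hdisc : 4 * (((a * (∏ Q ∈ J, Q) ^ 2 : ℤ)) : M) ^ 3 +
      27 * (((b * (∏ Q ∈ J, Q) ^ 3 : ℤ)) : M) ^ 2 ≠ 0 := by
    have e : 4 * (((a * (∏ Q ∈ J, Q) ^ 2 : ℤ)) : M) ^ 3 +
      27 * (((b * (∏ Q ∈ J, Q) ^ 3 : ℤ)) : M) ^ 2 =
        (((∏ Q ∈ J, Q) ^ 6 * dsc a b : ℤ) : M) := by
      simp only [dsc, Int.cast_mul, Int.cast_add, Int.cast_pow, Int.cast_ofNat]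
      ring
    rw [e, Int.cast_ne_zero]
    exact mul_ne_zero (pow_ne_zero _ hD0) hF.sq.ne_zero
  have hroot : (algebraMap L Ω θ) ^ 3 + (a : Ω) * algebraMap L Ω θ + (b : Ω) = 0 := by
    have h1 := congrArg (algebraMap L Ω) hc.root
    rw [map_zero, map_add, map_add, map_mul, map_pow, map_intCast, map_intCast] at h1
    exact h1
  have hmin : minpoly M (algebraMap L Ω θ) = ff M a b := by
    haveI : FiniteDimensional M Ω := FiniteDimensional.of_finrank_pos (by rw [hΩ]; norm_num)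
    have hint : IsIntegral M (algebraMap L Ω θ) := Algebra.IsIntegral.isIntegral _
    have hd : minpoly M (algebraMap L Ω θ) ∣ ff M a b := by
      apply minpoly.dvd
      simp only [ff, map_add, map_mul, map_pow, aeval_X, aeval_C, map_intCast]
      exact hroot
    have hdeg : (minpoly M (algebraMap L Ω θ)).natDegree = 3 := by
      rw [(Field.primitive_element_iff_minpoly_natDegree_eq M _).1 htop, hΩ]
    exact (Polynomial.eq_of_monic_of_dvd_of_natDegree_le (minpoly.monic hint) (ff_monic M a b) hd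
      (by rw [hdeg, ff_deg])).symm
  obtain ⟨β, hβ⟩ := H.p.gb M _ _ h6M hdisc hirrD f hf h2f
  obtain ⟨h, hh, hn⟩ := H.p.gn M _ _ h6M hdisc hirrD f hf h2f β hβ
  have hRt : Rt (((a * (∏ Q ∈ J, Q) ^ 2 : ℤ)) : M)
      (((b * (∏ Q ∈ J, Q) ^ 3 : ℤ)) : M)
      (((∏ Q ∈ J, Q : ℤ) : Ω) * algebraMap L Ω θ) := by
    unfold Rt
    rw [map_intCast, map_intCast]
    simp only [Int.cast_mul, Int.cast_pow]
    linear_combination ((∏ Q ∈ J, Q : ℤ) : Ω) ^ 3 * hroot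
  have hn2 := hn Ω _ hRt hΩ
  have hcnd := cnd_top (𝓞 L) (𝓞 Ω) (𝓞 M) H.p.exq H.p.lie H.p.loc1 H.p.loc2 hc hS hF hT' h2T h3T
    hST (fun w hw => by
      obtain ⟨P, hP⟩ := hR w hw
      exact ⟨below w, val_below w hP⟩) hTot hURΩ hJ (h := h)
    (fun w hw => H.p.glr M (𝓞 M) _ _ h6M hdisc f hf h2f β h hβ hh w (val_two hw) (hloc w)) hn2.1
  have hc2 := c2w_sel (𝓞 M) H.p.glr2 H.sqd H.twg hD0 hD8 hnr hmin hdisc f hf h2f β h hβ hh hloc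
  obtain ⟨c1, c2, c3⟩ := H.c2w L M Ω (𝓞 M) a b θ hF.sq.ne_zero hnr hc hΩ htop
  have hsq := H.p.tow n ℚ L M Ω h2K hM hc.rank hΩ
    (fun x => Cnd (𝓞 Ω) J (Tset a b) (algebraMap L Ω θ) x ∧
      C2w M (𝓞 M) a b (algebraMap L Ω θ) x)
    (fun x hx => ⟨cnd_sq hx, c1 x⟩)
    (fun x y hx hy h h' => ⟨cnd_mul H.p.cls (fun Q hQ => ⟨(hS Q (hJ hQ)).1.2,
        not_dvd_two (hS Q (hJ hQ)).2.1 (hS Q (hJ hQ)).1.1 (hS Q (hJ hQ)).1.2⟩)
      (fun Q hQ 𝔓 h1 h2 => odd_top (𝓞 L) (𝓞 Ω) H.p.exq hc hF.sq (hS Q (hJ hQ)).1.2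
        (hF.rb Q (hJ hQ)) (fam_ns hS hF (hJ hQ)) 𝔓 h1
        (hURΩ 𝔓 (nT (hJ hQ) h1)) h2) hx hy h.1 h'.1, c2 x y h.2 h'.2⟩)
    (fun σ x h => ⟨cnd_sig H.p.sig rfl σ h.1, c3 σ x h.2⟩)
    (fun x hx hC hN => base_sq (𝓞 L) (𝓞 Ω) hsel (fun 𝔭 h𝔭 => ur_up htop hR 𝔭 h𝔭)
      (fun Q hQ 𝔓 h𝔓 s hs => spd_up (M := M) htop (hTot Q (hJ hQ)) 𝔓 h𝔓 s hs)
      (fun P hP => H.p.p3 L (𝓞 L) a b θ hc hF.sq P (hT' P hP).2 hP.2)
      (fun Q hQ 𝔓 h => nT (hJ hQ) h) hx hC.1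
      (base_two (𝓞 M) H.ud hc ha h4 hur hx hN hC.2) hN)
    _ hn2.1 ⟨hcnd, hc2⟩ hn2.2
  exact H.p.gt M _ _ h6M hdisc hirrD f hf h2f β h hβ hh _ _ hRt hΩ hsq

end abs

/-- The Selmer groups over all extensions of the class are zero, for one twist. -/
theorem sel_all {κ : ℕ} (hLB : LBk κ) {a b : ℤ} {X' : ℕ}
    {S T : Finset ℤ} {s A B : ℤ → ℤ} (hS : GoodS S s)
    (hF : Fam X' S s T A B a b) (h4 : (4 : ℤ) ∣ a - b) (hnb : ¬ LBad κ X' S s a b)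
    (hT : GoodT T A B) :
    ∃ J ⊆ S, ∀ (M : Type) [Field M] [NumberField M] [IsGalois ℚ M] (n : ℕ),
      Module.finrank ℚ M = 2 ^ n →
      (∀ w : HeightOneSpectrum (𝓞 M), Ov 2 w → w.valuation M 2 = WithZero.exp (-1 : ℤ)) →
      Ram M a b → (∀ Q ∈ S, Tot M Q) →
      SelR (𝓞 M) (sW (((a * (∏ Q ∈ J, Q) ^ 2 : ℤ)) : M) (((b * (∏ Q ∈ J, Q) ^ 3 : ℤ)) : M)) := by
  have H := parts2
  have hnt2 : ∀ z : ℤ, ¬ (2 : ℤ) ∣ z ^ 3 + a * z + b := fam_nt hT hF hT.1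
  obtain ⟨ha, hb⟩ := odd_of hnt2
  have hone : ∀ (F : Type) [Field F], (X ^ 3 + C ((((a * 1 ^ 2 : ℤ)) : F)) * X +
      C ((((b * 1 ^ 3 : ℤ)) : F)) : F[X]) = ff F a b := by
    intro F _
    rw [one_pow, one_pow, mul_one, mul_one]
    rfl
  have hirr : Irreducible (ff ℚ a b) := by
    rw [← hone]
    exact irr_tw (algebraMap ℚ ℚ_[2]) hnt2 one_ne_zero
  obtain ⟨L, iF, iN, θ, hc, hu⟩ := exists_cub hirr
  obtain ⟨J, hJ, hsel⟩ := core2 (L := L) (𝓞 L) H.p.cls H.p.exq H.p.ns H.p.lin H.p.recp H.p.plm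
    H.p.sd H.p.ttv hLB hc hS hT hF hnb
  refine ⟨J, hJ, ?_⟩
  intro M _ _ _ n hM hur hR hTot
  obtain ⟨w₀, hw₀⟩ := exists_over (𝓞 M)
  have hnr := H.nr M (𝓞 M) n hM w₀ hw₀ a b ha hb
  have hnrM : ∀ t : M, t ^ 3 + (a : M) * t + (b : M) ≠ 0 := by
    intro t ht
    apply hnr (algebraMap M _ t)
    have h1 := congrArg (algebraMap M (w₀.adicCompletion M)) ht
    rw [map_zero, map_add, map_add, map_mul, map_pow, map_intCast, map_intCast] at h1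
    exact h1
  have hirrM : Irreducible (ff M a b) := irr_tw' hnrM
  obtain ⟨Ω, iF', iA', t, ht, hr, htop, hfin⟩ := exists_field hirrM (ff_monic M a b) (ff_deg M a b)
  haveI : CharZero Ω := charZero_of_injective_algebraMap (algebraMap M Ω).injective
  haveI : FiniteDimensional ℚ Ω := FiniteDimensional.trans ℚ M Ω
  haveI : NumberField Ω := ⟨⟩
  have ht' : t ^ 3 + (a : Ω) * t + (b : Ω) = 0 := by
    simp only [ff, map_add, map_mul, map_pow, aeval_X, aeval_C, map_intCast] at ht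
    exact ht
  obtain ⟨φ, hφ⟩ := hu Ω t ht'
  letI : Algebra L Ω := φ.toAlgebra
  have hroot : algebraMap L Ω θ = t := hφ
  have htop' : M⟮algebraMap L Ω θ⟯ = ⊤ := by rw [hroot]; exact htop
  exact sel_abs (L := L) (Ω := Ω) hc hS hF h4 hT hJ hsel hR hTot hM hr htop' ha hb hur

end Pool.Agent.K9h15.Mn
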