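import Pool.Agent.K9h15.MnE

/-!
# Counting, uniformly over the class

Adapted from `N922/PQ/Cnt2.lean` (project PV, helper922) (helper15).
-/

set_option autoImplicit false
set_option linter.all false

open Polynomial IsDedekindDomain WeierstrassCurve WeierstrassCurve.Affine NumberField
open Pool.Agent.TH115.GD
open scoped Classical IntermediateField

namespace Pool.Agent.K9h15.Mn

open Pool.Agent.N922.PQ
open Pool.Agent.N874.PP (Tup chA chB gq tau Two Ev Sq1 U0 sW IsBeta Rt)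
open Pool.Agent.N874.PM (PLoc Lies SelR ShaR)

/-- The class of extensions. -/
structure Cls (a b : ℤ) (S : Finset ℤ) (M : Type) [Field M] [NumberField M] : Prop where
  gal : IsGalois ℚ M
  deg : ∃ n : ℕ, Module.finrank ℚ M = 2 ^ n
  two : ∀ w : HeightOneSpectrum (𝓞 M), Ov 2 w → w.valuation M 2 = WithZero.exp (-1 : ℤ)
  ram : Ram M a b
  tot : ∀ Q ∈ S, Tot M Q

/-- No zero modulo `P` for the twist. -/
theorem tset_down {a b D : ℤ} : Tset (a * D ^ 2) (b * D ^ 3) ⊆ Tset a b := by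
  rintro P ⟨hP, h⟩
  refine ⟨hP, fun z hz => h (D * z) ?_⟩
  have e : (D * z) ^ 3 + a * D ^ 2 * (D * z) + b * D ^ 3 = D ^ 3 * (z ^ 3 + a * z + b) := by ring
  rw [e]
  exact dvd_mul_of_dvd_right hz _

theorem tset_up {a b D P : ℤ} (hD : ¬ P ∣ D) (h : P ∈ Tset a b) :
    P ∈ Tset (a * D ^ 2) (b * D ^ 3) := by
  refine ⟨h.1, fun z hz => ?_⟩
  obtain ⟨u, v, huv⟩ := (h.1.2.irreducible.coprime_iff_not_dvd).2 hD
  apply h.2 (v * z)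
  have e : (v * z) ^ 3 + a * (v * z) + b =
      v ^ 3 * (z ^ 3 + a * D ^ 2 * z + b * D ^ 3) +
      P * (a * v * z * u * (1 + v * D) + b * u * (1 + v * D + (v * D) ^ 2)) := by
    have h1 : P * u = 1 - v * D := by linarith
    linear_combination (-(a * v * z * (1 + v * D)) - b * (1 + v * D + (v * D) ^ 2)) * h1
  rw [e]
  exact dvd_add (dvd_mul_of_dvd_right hz _) (dvd_mul_right _ _)

theorem ram_mono {M : Type} [Field M] [NumberField M] {a b a' b' : ℤ}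
    (h : Tset a b ⊆ Tset a' b') (hR : Ram M a b) : Ram M a' b' :=
  fun w hw => hR w fun P hP => hw P (h hP)

/-- Primes modulo which `g` splits. -/
theorem tot_of {M : Type} [Field M] [NumberField M] {γ : M} {g : ℤ[X]} {δ : ℤ}
    (hG : Gen ℚ γ g δ) {Q : ℤ} (hQ : IsPr Q) (hsp : SplitMod Q g)
    (hδ : ∀ w : HeightOneSpectrum (𝓞 M), Ov Q w → ¬ Ov δ w) : Tot M Q := by
  intro w hw
  obtain ⟨v, hv⟩ := (parts.ur ℚ M ℤ (𝓞 M) γ g δ hG).1 w (hδ w hw)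
  have hvQ : w.valuation M (Q : M) = v.valuation ℚ (Q : ℚ) := by
    rw [← hv, map_intCast (algebraMap ℚ M)]
  refine ⟨?_, fun y => ?_⟩
  · refine le_antisymm (val_le_exp w ?_ ((ov_val Q w).1 hw)) ?_
    · exact_mod_cast hQ.2.ne_zero
    · rw [hvQ]
      exact val_sqfree hQ.2.irreducible.squarefree v
  · have hz : w.valuation M (algebraMap (𝓞 M) M y) ≤ 1 := w.valuation_le_one _
    obtain ⟨z₀, hz₀⟩ : ∃ z₀ : ℚ,
        w.valuation M (algebraMap (𝓞 M) M y - algebraMap ℚ M z₀) < 1 := by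
      by_cases h0 : algebraMap (𝓞 M) M y = 0
      · exact ⟨0, by rw [h0, map_zero, sub_zero, map_zero]; exact zero_lt_one⟩
      · obtain ⟨z₀, h⟩ := parts.spd ℚ M (𝓞 M) γ g δ hG Q hQ.2 hsp w hw (hδ w hw) _ h0
        exact ⟨z₀, lt_of_lt_of_le h hz⟩
    have hz0 : v.valuation ℚ z₀ ≤ 1 := by
      rw [← hv]
      have e : algebraMap ℚ M z₀ = algebraMap (𝓞 M) M y -
          (algebraMap (𝓞 M) M y - algebraMap ℚ M z₀) := by ring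
      rw [e]
      exact (Valuation.map_sub _ _ _).trans (max_le hz hz₀.le)
    obtain ⟨z₁, hz₁⟩ := poly_approx v hz0
    refine ⟨z₁, (HeightOneSpectrum.valuation_lt_one_iff_mem (K := M) w _).1 ?_⟩
    have e : algebraMap (𝓞 M) M (y - (z₁ : 𝓞 M)) = (algebraMap (𝓞 M) M y - algebraMap ℚ M z₀) +
        algebraMap ℚ M (z₀ - algebraMap ℤ ℚ z₁) := by
      rw [map_sub (algebraMap (𝓞 M) M), map_sub (algebraMap ℚ M), map_intCast (algebraMap (𝓞 M) M)]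
      simp
    change w.valuation M (algebraMap (𝓞 M) M (y - (z₁ : 𝓞 M))) < 1
    rw [e]
    refine lt_of_le_of_lt (Valuation.map_add _ _ _) (max_lt hz₀ ?_)
    rw [hv]
    exact hz₁

/-- The ramified primes divide `δ`. -/
theorem ram_of {M : Type} [Field M] [NumberField M] {γ : M} {g : ℤ[X]} {δ : ℤ}
    (hG : Gen ℚ γ g δ) {a b : ℤ} (hδ : ∀ P : ℤ, IsPr P → P ∣ δ → P ∈ Tset a b) : Ram M a b := by
  intro w hw
  obtain ⟨P, hP, hPw⟩ := exists_below w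
  have hδw : ¬ Ov δ w := by
    intro h
    by_cases hd : P ∣ δ
    · exact hw P (hδ P hP hd) hPw
    · exact one_mem_of ((hP.2.irreducible.coprime_iff_not_dvd).2 hd) hPw h
  obtain ⟨v, hv⟩ := (parts.ur ℚ M ℤ (𝓞 M) γ g δ hG).1 w hδw
  have hvQ : w.valuation M (P : M) = v.valuation ℚ (P : ℚ) := by
    rw [← hv, map_intCast (algebraMap ℚ M)]
  refine ⟨P, le_antisymm (val_le_exp w ?_ ((ov_val P w).1 hPw)) ?_⟩
  · exact_mod_cast hP.2.ne_zero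
  · rw [hvQ]
    exact val_sqfree hP.2.irreducible.squarefree v

/-- The good curves: over all extensions of the class the 2-Selmer group is zero, there are no
points but the point at infinity, and the 2-primary part of the Tate-Shafarevich group is zero. -/
structure GoodU (S T₀ : Finset ℤ) (M₀ : Type) [Field M₀] [NumberField M₀] (p : ℤ × ℤ) : Prop where
  base : ∀ P ∈ T₀, P ∈ Tset p.1 p.2
  cls : Cls p.1 p.2 S M₀
  all : ∀ (M : Type) [Field M] [NumberField M], Cls p.1 p.2 S M → GoodV (M := M) (𝓞 M) p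

/-- The main theorem; with a bound of order `X ^ 5`. -/
theorem mainU (M₀ : Type) [Field M₀] [NumberField M₀] [IsGalois ℚ M₀] {n₀ : ℕ}
    (hM₀ : Module.finrank ℚ M₀ = 2 ^ n₀)
    (hur₀ : ∀ w : HeightOneSpectrum (𝓞 M₀), Ov 2 w → w.valuation M₀ 2 = WithZero.exp (-1 : ℤ))
    (T₁ : Finset ℤ) (hT₁ : ∀ P ∈ T₁, IsPr P) :
    ∃ S : Finset ℤ, (∀ Q ∈ S, IsPr Q ∧ Q % 8 = 1 ∧ Q ∉ T₁ ∧ Tot M₀ Q) ∧
    ∃ (P X₀ : ℕ) (c : ℝ), 0 < c ∧ 1 ≤ P ∧ ∀ X : ℕ, X₀ ≤ X → ∀ H : ℕ, 27 * (X * P) ^ 6 ≤ H →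
      c * (X : ℝ) ^ 5 ≤ ({p : ℤ × ℤ | Crv H p.1 p.2 ∧ GoodU S T₁ M₀ p}.ncard : ℝ) := by
  obtain ⟨κ, hLB'⟩ := lb
  obtain ⟨γ, g, δ, hG, hdeg⟩ := Pool.Agent.N40.PQ.gen M₀
  -- the prime divisors of `δ`
  obtain ⟨T₀, hT₀, hδ₀⟩ : ∃ T : Finset ℤ, (∀ P ∈ T, IsPr P) ∧
      ∀ P : ℤ, IsPr P → P ∣ δ → P ∈ T := by
    have hf : {P : ℤ | IsPr P ∧ P ∣ δ}.Finite := by
      refine (Set.finite_Icc (-|δ|) |δ|).subset ?_
      rintro P ⟨-, h⟩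
      have h3 : |P| ≤ |δ| := Int.le_of_dvd (abs_pos.2 hG.ne) ((abs_dvd_abs P δ).2 h)
      exact abs_le.1 h3
    refine ⟨hf.toFinset, fun P hP => ?_, fun P h1 h2 => ?_⟩
    · exact (hf.mem_toFinset.1 hP).1
    · exact hf.mem_toFinset.2 ⟨h1, h2⟩
  obtain ⟨T, A, B, hTT, hT⟩ := Pool.Agent.N954.PQ.tch (T₀ ∪ T₁) (fun P hP => by
    rcases Finset.mem_union.1 hP with h | h
    · exact hT₀ P h
    · exact hT₁ P h)
  have hδ : ∀ P : ℤ, IsPr P → P ∣ δ → P ∈ T :=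
    fun P h1 h2 => hTT (Finset.mem_union_left _ (hδ₀ P h1 h2))
  obtain ⟨S, s, c, hS, hdis, hsp, hc, X₀, hX₀⟩ := good_card2 Pool.Agent.N615.PV.fam2 bad κ hT
    (fun Q => SplitMod Q g) (Pool.Agent.N40.PQ.spl M₀ γ g δ hG hdeg T)
  have hT' : ∀ P ∈ T, IsPr P := fun P hP => (hT.2.2 P hP).1
  have hTot₀ : ∀ Q ∈ S, Tot M₀ Q := fun Q hQ =>
    tot_of hG (hS Q hQ).1 (hsp Q hQ) fun w hw => not_ov_delta hδ hS hT' hdis hQ hw
  have hSpos : 0 < ∏ Q ∈ S, Q := Finset.prod_pos fun Q hQ => (hS Q hQ).1.1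
  refine ⟨S, fun Q hQ => ⟨(hS Q hQ).1, (hS Q hQ).2.1, fun h =>
    Finset.disjoint_left.1 hdis hQ (hTT (Finset.mem_union_right _ h)), hTot₀ Q hQ⟩, ?_⟩
  refine ⟨(∏ Q ∈ S, Q).toNat, X₀, c / 2 ^ S.card,
    by positivity, by omega, fun X hX Hh hHh => ?_⟩
  have hN := hX₀ X hX
  set Hs := {p : ℤ × ℤ | Crv Hh p.1 p.2 ∧ GoodU S T₁ M₀ p} with hH
  set G := {p : ℤ × ℤ | (Fam X S s T A B p.1 p.2 ∧ (4 : ℤ) ∣ p.1 - p.2) ∧
    ¬ LBad κ X S s p.1 p.2} with hG'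
  have hHf : Hs.Finite := (crv_fin Hh).subset fun p hp => hp.1
  have hbd : 27 * ((X : ℤ) * ∏ Q ∈ S, Q) ^ 6 ≤ Hh := by
    have h1 : ((27 * (X * (∏ Q ∈ S, Q).toNat) ^ 6 : ℕ) : ℤ) ≤ Hh := by exact_mod_cast hHh
    have e1 : (((∏ Q ∈ S, Q).toNat : ℕ) : ℤ) = ∏ Q ∈ S, Q := Int.toNat_of_nonneg hSpos.le
    rw [Nat.cast_mul, Nat.cast_pow, Nat.cast_mul, e1] at h1
    exact_mod_cast h1
  have hcard := card_fib hHf S
    (fun (J : Finset ℤ) (p : ℤ × ℤ) => (p.1 * (∏ Q ∈ J, Q) ^ 2, p.2 * (∏ Q ∈ J, Q) ^ 3)) (G := G) (by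
      rintro p ⟨⟨hpF, hp4⟩, hnb⟩
      obtain ⟨J, hJ, hall⟩ := sel_all hLB' hS hpF hp4 hnb hT
      refine ⟨J, hJ, ?_⟩
      have hcrv := Pool.Agent.N707.PQ.crv X Hh S T s A B p.1 p.2 hS hT hpF J hJ hbd
      have hD8 : (∏ Q ∈ J, Q) % 8 = 1 := prod_mod8 fun Q hQ => (hS Q (hJ hQ)).2.1
      obtain ⟨ha, hb⟩ := odd_of (fam_nt hT hpF hT.1)
      have hAodd : Odd (p.1 * (∏ Q ∈ J, Q) ^ 2) := by
        refine ha.mul (Odd.pow ?_)
        rw [Int.odd_iff]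
        omega
      have h4 : (4 : ℤ) ∣ p.1 * (∏ Q ∈ J, Q) ^ 2 - p.2 * (∏ Q ∈ J, Q) ^ 3 := by
        obtain ⟨k, hk⟩ : ∃ k, (∏ Q ∈ J, Q) = 8 * k + 1 := ⟨(∏ Q ∈ J, Q) / 8, by omega⟩
        obtain ⟨l, hl⟩ := hp4
        have e : p.1 = p.2 + 4 * l := by linarith
        rw [hk, e]
        exact ⟨l * (8 * k + 1) ^ 2 - 2 * k * p.2 * (8 * k + 1) ^ 2, by ring⟩
      -- the primes in `T`
      have hTset : ∀ P ∈ T, P ∈ Tset (p.1 * (∏ Q ∈ J, Q) ^ 2) (p.2 * (∏ Q ∈ J, Q) ^ 3) := by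
        intro P hP
        refine tset_up ?_ ⟨hT' P hP, fam_nt hT hpF hP⟩
        intro hd
        obtain ⟨Q, hQ, hPQ⟩ := (Prime.dvd_finset_prod_iff (hT' P hP).2 _).1 hd
        have h1 : P = Q := by
          have h2 := Int.associated_iff.1
            ((Prime.dvd_prime_iff_associated (hT' P hP).2 (hS Q (hJ hQ)).1.2).1 hPQ)
          have h3 := (hT' P hP).1
          have h4 := (hS Q (hJ hQ)).1.1
          omega
        exact Finset.disjoint_left.1 hdis (hJ hQ) (h1 ▸ hP)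
      refine ⟨hcrv, ⟨fun P hP => hTset P (hTT (Finset.mem_union_right _ hP)), ⟨inferInstance,
        ⟨n₀, hM₀⟩, hur₀, ram_of hG fun P hP hd => hTset P (hδ P hP hd), hTot₀⟩, ?_⟩⟩
      intro M _ _ hM
      haveI := hM.gal
      obtain ⟨n, hn⟩ := hM.deg
      have hsel := hall M n hn hM.two (ram_mono tset_down hM.ram) hM.tot
      have h6M : (6 : M) ≠ 0 := by norm_num
      have hdM : 4 * (((p.1 * (∏ Q ∈ J, Q) ^ 2 : ℤ)) : M) ^ 3 +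
          27 * (((p.2 * (∏ Q ∈ J, Q) ^ 3 : ℤ)) : M) ^ 2 ≠ 0 := by
        have h1 := hcrv.disc
        exact_mod_cast h1
      obtain ⟨h2, h3⟩ := N650.PM.gfr M (𝓞 M) _ _ h6M hdM hsel
      have hfin := Pool.Agent.N273.PQ.finm M _ _ hdM h2
      obtain ⟨w₀, hw₀⟩ := exists_over (𝓞 M)
      have htor := Pool.Agent.N137.PV.tor M (𝓞 M) w₀ (hM.two w₀ hw₀) _ _ hAodd h4 hfin (by
        haveI := hfin
        exact odd_card (G := Pt (sW (((p.1 * (∏ Q ∈ J, Q) ^ 2 : ℤ)) : M)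
          (((p.2 * (∏ Q ∈ J, Q) ^ 3 : ℤ)) : M)) M) h2)
      exact ⟨hsel, htor, h3⟩) (by
      intro J hJ x hx y hy hxy
      have hD0 : (∏ Q ∈ J, Q) ≠ 0 := by
        rw [Finset.prod_ne_zero_iff]
        exact fun Q hQ => (hS Q (hJ hQ)).1.2.ne_zero
      rw [Prod.mk.injEq] at hxy
      exact twist_inj hD0 hxy.1 hxy.2)
  have hcard' : (G.ncard : ℝ) ≤ 2 ^ S.card * Hs.ncard := by exact_mod_cast hcard
  calc c / 2 ^ S.card * (X : ℝ) ^ 5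
      = c * (X : ℝ) ^ 5 / 2 ^ S.card := by ring
    _ ≤ (G.ncard : ℝ) / 2 ^ S.card := by gcongr
    _ ≤ (2 ^ S.card * Hs.ncard) / 2 ^ S.card := by gcongr
    _ = Hs.ncard := by field_simp

/-- The main theorem. -/
theorem finalU (M₀ : Type) [Field M₀] [NumberField M₀] [IsGalois ℚ M₀] {n₀ : ℕ}
    (hM₀ : Module.finrank ℚ M₀ = 2 ^ n₀)
    (hur₀ : ∀ w : HeightOneSpectrum (𝓞 M₀), Ov 2 w → w.valuation M₀ 2 = WithZero.exp (-1 : ℤ))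
    (T₁ : Finset ℤ) (hT₁ : ∀ P ∈ T₁, IsPr P) :
    ∃ S : Finset ℤ, (∀ Q ∈ S, IsPr Q ∧ Q % 8 = 1 ∧ Q ∉ T₁ ∧ Tot M₀ Q) ∧
    ∃ c : ℝ, 0 < c ∧ ∃ H₀ : ℕ, ∀ H ≥ H₀, {p : ℤ × ℤ | Crv H p.1 p.2}.Finite ∧
    c * ({p : ℤ × ℤ | Crv H p.1 p.2}.ncard : ℝ) ≤
      ({p : ℤ × ℤ | Crv H p.1 p.2 ∧ GoodU S T₁ M₀ p}.ncard : ℝ) := by
  obtain ⟨S, hS, P, X₀, c, hc, hP, h⟩ := mainU M₀ hM₀ hur₀ T₁ hT₁
  exact ⟨S, hS, Pool.Agent.N607.PQ.cnt (fun p => GoodU S T₁ M₀ p) P X₀ c hc hP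
    fun X hX Hh hHh => h X hX Hh hHh⟩

end Pool.Agent.K9h15.Mn
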