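import Pool.Agent.K9h15.MnF

/-!
# Ideals and valuations (helper15)
-/

set_option autoImplicit false
set_option linter.all false

open IsDedekindDomain NumberField
open scoped Classical

namespace Pool.Agent.K9h15.Mn

open Pool.Agent.N922.PQ

variable {M : Type} [Field M] [NumberField M]

theorem val_int (w : HeightOneSpectrum (𝓞 M)) (P : ℤ) :
    w.valuation M (P : M) = w.intValuation (P : 𝓞 M) := by
  have e : (P : M) = algebraMap (𝓞 M) M (P : 𝓞 M) := by
    rw [map_intCast (algebraMap (𝓞 M) M)]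
  rw [e, HeightOneSpectrum.valuation_of_algebraMap]

theorem val_one (w : HeightOneSpectrum (𝓞 M)) {P : ℤ} (hw : Ov P w)
    (h : (P : 𝓞 M) ∉ w.asIdeal ^ 2) : w.valuation M (P : M) = WithZero.exp (-1 : ℤ) := by
  rw [val_int]
  have a1 : w.intValuation (P : 𝓞 M) ≤ WithZero.exp (-((1 : ℕ) : ℤ)) := by
    rw [HeightOneSpectrum.intValuation_le_pow_iff_mem, pow_one]
    exact hw
  have a2 : ¬ w.intValuation (P : 𝓞 M) ≤ WithZero.exp (-((2 : ℕ) : ℤ)) := by
    rw [HeightOneSpectrum.intValuation_le_pow_iff_mem]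
    exact h
  have h0 : w.intValuation (P : 𝓞 M) ≠ 0 := by
    intro h0
    apply a2
    rw [h0]
    exact zero_le'
  rw [← WithZero.exp_log h0] at a1 a2 ⊢
  rw [WithZero.exp_le_exp] at a1 a2
  congr 1
  push_cast at a1 a2
  omega

theorem not_sq (w : HeightOneSpectrum (𝓞 M)) {P : ℤ}
    (h : w.valuation M (P : M) = WithZero.exp (-1 : ℤ)) : (P : 𝓞 M) ∉ w.asIdeal ^ 2 := by
  intro hm
  rw [← HeightOneSpectrum.intValuation_le_pow_iff_mem, ← val_int, h, WithZero.exp_le_exp] at hm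
  norm_num at hm

/-- A ramified prime is in `Tset a b`. -/
theorem tset_of_ram {a b : ℤ} (hR : Ram M a b) {P : ℤ} (hP : IsPr P) (𝔭 : Ideal (𝓞 M))
    (h𝔭 : 𝔭.IsPrime) (h : (P : 𝓞 M) ∈ 𝔭 ^ 2) : P ∈ Tset a b := by
  have hP0 : (P : 𝓞 M) ≠ 0 := by
    exact_mod_cast hP.2.ne_zero
  have hbot : 𝔭 ≠ ⊥ := by
    rintro rfl
    apply hP0
    have := Ideal.pow_le_self two_ne_zero h
    simpa using this
  let w : HeightOneSpectrum (𝓞 M) := ⟨𝔭, h𝔭, hbot⟩
  have hov : Ov P w := Ideal.pow_le_self two_ne_zero h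
  by_contra hn
  obtain ⟨P', hP'⟩ := hR w fun P₁ hP₁ h₁ => hn (below_unique hP hP₁.1 hov h₁ ▸ hP₁)
  -- `P` divides `P'`
  have hov' : Ov P' w := by
    rw [ov_val (L := M), hP', ← WithZero.exp_zero, WithZero.exp_lt_exp]
    norm_num
  have hd : P ∣ P' := by
    by_contra hnd
    exact one_mem_of ((hP.2.irreducible.coprime_iff_not_dvd).2 hnd) hov hov'
  obtain ⟨k, rfl⟩ := hd
  apply not_sq w hP'
  rw [Int.cast_mul]
  exact Ideal.mul_mem_right _ _ h

end Pool.Agent.K9h15.Mn
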