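import Pool.Agent.W401.Cheb.Main

/-!
# Infinitely many primes modulo which an irreducible cubic polynomial has no zero

By Chebotarev's theorem (`Pool.Agent.W401.Cheb.infinite_frob`) (helper15).
-/

set_option autoImplicit false
set_option linter.all false

open Polynomial NumberField
open scoped Classical IntermediateField

namespace Pool.Agent.K9h15.Mn

/-- Three zeros are all zeros. -/
theorem three_roots {L : Type} [Field L] {a b s s' t r : L} (h1 : s ^ 3 + a * s + b = 0)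
    (h2 : s' ^ 3 + a * s' + b = 0) (h3 : t ^ 3 + a * t + b = 0) (h4 : r ^ 3 + a * r + b = 0)
    (h5 : s ≠ s') (h6 : s ≠ t) (h7 : s' ≠ t) (h8 : r ≠ s') (h9 : r ≠ t) : r = s := by
  have e1 : s ^ 2 + s * s' + s' ^ 2 + a = 0 := by
    have : (s - s') * (s ^ 2 + s * s' + s' ^ 2 + a) = 0 := by linear_combination h1 - h2
    exact (mul_eq_zero.1 this).resolve_left (sub_ne_zero.2 h5)
  have e2 : s ^ 2 + s * t + t ^ 2 + a = 0 := by
    have : (s - t) * (s ^ 2 + s * t + t ^ 2 + a) = 0 := by linear_combination h1 - h3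
    exact (mul_eq_zero.1 this).resolve_left (sub_ne_zero.2 h6)
  have e3 : s + s' + t = 0 := by
    have : (s' - t) * (s + s' + t) = 0 := by linear_combination e1 - e2
    exact (mul_eq_zero.1 this).resolve_left (sub_ne_zero.2 h7)
  have e4 : (r - s) * ((r - s') * (r - t)) = 0 := by
    linear_combination h4 - h1 + (-r ^ 2 + s ^ 2) * e3 + (s - r) * e1 + (r - s) * (s + s') * e3
  rcases mul_eq_zero.1 e4 with h | h
  · exact sub_eq_zero.1 h
  · rcases mul_eq_zero.1 h with h | h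
    · exact absurd (sub_eq_zero.1 h) h8
    · exact absurd (sub_eq_zero.1 h) h9

/-- Elements of order three have no fixed points among the zeros. -/
theorem no_fix {L : Type} [Field L] [NumberField L] {a b : ℤ}
    (htop : IntermediateField.adjoin ℚ {t : L | t ^ 3 + (a : L) * t + (b : L) = 0} = ⊤)
    (σ : L ≃ₐ[ℚ] L) (h3 : σ ^ 3 = 1) (h1 : σ ≠ 1) {t : L}
    (ht : t ^ 3 + (a : L) * t + (b : L) = 0) : σ t ≠ t := by
  intro hfix
  -- `σ ^ 2` fixes all zeros
  have hmap : ∀ s : L, s ^ 3 + (a : L) * s + (b : L) = 0 →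
      (σ s) ^ 3 + (a : L) * σ s + (b : L) = 0 := by
    intro s hs
    have := congrArg σ hs
    rw [map_zero, map_add, map_add, map_mul, map_pow, map_intCast, map_intCast] at this
    exact this
  have i1 : ∀ u v : L, σ u = σ v → u = v := fun u v h => σ.injective h
  have key : ∀ s : L, s ^ 3 + (a : L) * s + (b : L) = 0 → σ (σ s) = s := by
    intro s hs
    by_cases hst : s = t
    · rw [hst, hfix, hfix]
    · by_cases h4 : σ s = s
      · rw [h4, h4]
      · have h5 : σ s ≠ t := fun h => hst (i1 _ _ (by rw [h, hfix]))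
        have h6 : σ (σ s) ≠ t := fun h => h5 (i1 _ _ (by rw [h, hfix]))
        have h7 : σ (σ s) ≠ σ s := fun h => h4 (i1 _ _ h)
        exact three_roots hs (hmap s hs) ht (hmap _ (hmap s hs)) (fun h => h4 h.symm) hst h5 h7 h6
  have h2 : σ ^ 2 = 1 := by
    have h6 : IntermediateField.adjoin ℚ {t : L | t ^ 3 + (a : L) * t + (b : L) = 0} ≤
        IntermediateField.fixedField (Subgroup.zpowers (σ ^ 2)) := by
      rw [IntermediateField.adjoin_le_iff]
      intro s hs
      rintro ⟨τ, hτ⟩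
      obtain ⟨n, rfl⟩ := Subgroup.mem_zpowers_iff.1 hτ
      have h7 : σ ^ 2 ∈ MulAction.stabilizer (L ≃ₐ[ℚ] L) s := by
        rw [MulAction.mem_stabilizer_iff]
        change (σ ^ 2) s = s
        rw [pow_two, AlgEquiv.mul_apply, key s hs]
      exact MulAction.mem_stabilizer_iff.1 (zpow_mem h7 n)
    rw [htop] at h6
    ext w
    exact (h6 (show w ∈ (⊤ : IntermediateField ℚ L) from trivial)) ⟨σ ^ 2, Subgroup.mem_zpowers _⟩
  apply h1
  have e : σ = σ ^ 3 * (σ ^ 2)⁻¹ := by group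
  rw [e, h3, h2]
  simp

theorem exists_sf (f : ℚ[X]) : ∃ (L : Type) (_ : Field L) (_ : CharZero L),
    IsSplittingField ℚ L f := by
  haveI : CharZero f.SplittingField := inferInstance
  refine ⟨f.SplittingField, inferInstance, inferInstance, ?_⟩
  convert (IsSplittingField.splittingField f) using 1
  exact Subsingleton.elim _ _

/-- The splitting field. -/
theorem exists_spl {a b : ℤ} (h : Irreducible (X ^ 3 + C (a : ℚ) * X + C (b : ℚ) : ℚ[X])) :
    ∃ (L : Type) (_ : Field L) (_ : NumberField L) (_ : IsGalois ℚ L) (x y z : L)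
      (σ : L ≃ₐ[ℚ] L), (∀ t : L, t ^ 3 + (a : L) * t + (b : L) = (t - x) * (t - y) * (t - z)) ∧
      ∀ t : L, t ^ 3 + (a : L) * t + (b : L) = 0 → σ t ≠ t := by
  obtain ⟨f, hf⟩ : ∃ f : ℚ[X], f = X ^ 3 + C (a : ℚ) * X + C (b : ℚ) := ⟨_, rfl⟩
  rw [← hf] at h
  have hm : f.Monic := by rw [hf]; monicity!
  have hd : f.natDegree = 3 := by rw [hf]; compute_degree!
  obtain ⟨L, iF, iC, iS⟩ := exists_sf f
  haveI : IsGalois ℚ L := IsGalois.of_separable_splitting_field (p := f) h.separable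
  haveI : FiniteDimensional ℚ L := IsSplittingField.finiteDimensional L f
  haveI : NumberField L := ⟨⟩
  have hev : ∀ t : L, aeval t f = t ^ 3 + (a : L) * t + (b : L) := by
    intro t
    rw [hf]
    simp
  -- the zeros
  have hsp := IsSplittingField.splits L f
  have hcard : Multiset.card (f.map (algebraMap ℚ L)).roots = 3 := by
    rw [splits_iff_card_roots.1 hsp, natDegree_map, hd]
  obtain ⟨x, y, z, hxyz⟩ := Multiset.card_eq_three.1 hcard
  have hfac : ∀ t : L, t ^ 3 + (a : L) * t + (b : L) = (t - x) * (t - y) * (t - z) := by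
    intro t
    have h1 := hsp.eq_prod_roots
    rw [hxyz] at h1
    have h2 := congrArg (eval t) h1
    rw [eval_map_algebraMap, hev] at h2
    rw [h2, leadingCoeff_map, hm.leadingCoeff]
    simp [mul_assoc]
  have htop : IntermediateField.adjoin ℚ {t : L | t ^ 3 + (a : L) * t + (b : L) = 0} = ⊤ := by
    have h1 : IntermediateField.adjoin ℚ (f.rootSet L) = ⊤ := by
      have h2 := IsSplittingField.adjoin_rootSet L f
      rw [eq_top_iff]
      intro w _
      have h3 : w ∈ Algebra.adjoin ℚ (f.rootSet L) := by rw [h2]; trivial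
      exact IntermediateField.algebra_adjoin_le_adjoin ℚ _ h3
    rw [eq_top_iff, ← h1]
    apply IntermediateField.adjoin.mono
    intro t ht
    rw [mem_rootSet] at ht
    change t ^ 3 + (a : L) * t + (b : L) = 0
    rw [← hev]
    exact ht.2
  -- an element of order three
  have h3 : 3 ∣ Nat.card (L ≃ₐ[ℚ] L) := by
    rw [IsGalois.card_aut_eq_finrank]
    have hx : aeval x f = 0 := by
      rw [hev, hfac]
      ring
    have hmin : minpoly ℚ x = f := (minpoly.eq_of_irreducible_of_monic h hx hm).symm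
    have h4 : Module.finrank ℚ ℚ⟮x⟯ = 3 := by
      rw [IntermediateField.adjoin.finrank (Algebra.IsIntegral.isIntegral x), hmin, hd]
    exact ⟨_, by rw [← h4]; exact (Module.finrank_mul_finrank ℚ ℚ⟮x⟯ L).symm⟩
  haveI : Fact (Nat.Prime 3) := ⟨Nat.prime_three⟩
  obtain ⟨σ, hσ⟩ := exists_prime_orderOf_dvd_card' (G := L ≃ₐ[ℚ] L) 3 h3
  have hσ3 : σ ^ 3 = 1 := by rw [← hσ]; exact pow_orderOf_eq_one σ
  have hσ1 : σ ≠ 1 := by
    rintro rfl
    rw [orderOf_one] at hσ
    norm_num at hσ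
  exact ⟨L, inferInstance, inferInstance, inferInstance, x, y, z, σ, hfac,
    fun t ht => no_fix htop σ hσ3 hσ1 ht⟩

theorem disc_ne {a b : ℤ} (h : Irreducible (X ^ 3 + C (a : ℚ) * X + C (b : ℚ) : ℚ[X])) :
    4 * a ^ 3 + 27 * b ^ 2 ≠ 0 := by
  obtain ⟨f, hf⟩ : ∃ f : ℚ[X], f = X ^ 3 + C (a : ℚ) * X + C (b : ℚ) := ⟨_, rfl⟩
  rw [← hf] at h
  have hd : f.natDegree = 3 := by rw [hf]; compute_degree!
  intro h0
  have h0' : 4 * (a : ℚ) ^ 3 + 27 * (b : ℚ) ^ 2 = 0 := by exact_mod_cast h0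
  have hnr : ∀ q : ℚ, q ^ 3 + (a : ℚ) * q + (b : ℚ) ≠ 0 := by
    intro q hq
    have h5 : (X - C q) ∣ f := by
      rw [dvd_iff_isRoot, IsRoot.def, hf]
      simpa using hq
    obtain ⟨g, hg⟩ := h5
    rcases h.isUnit_or_isUnit hg with h7 | h7
    · have := natDegree_eq_zero_of_isUnit h7
      rw [natDegree_X_sub_C] at this
      exact one_ne_zero this
    · have h8 := natDegree_eq_zero_of_isUnit h7
      have h9 := congrArg natDegree hg
      rw [natDegree_mul (X_sub_C_ne_zero q) h7.ne_zero, h8, natDegree_X_sub_C, hd] at h9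
      norm_num at h9
  by_cases ha : (a : ℚ) = 0
  · have hb : (b : ℚ) = 0 := by
      rw [ha] at h0'
      have : (b : ℚ) ^ 2 = 0 := by linarith
      exact pow_eq_zero_iff (two_ne_zero) |>.1 this
    apply hnr 0
    rw [ha, hb]
    ring
  · apply hnr (-(3 * b) / (2 * a))
    field_simp
    linear_combination (-(b : ℚ)) * h0'

/-- The primes. -/
theorem irr_inf {a b : ℤ} (h : Irreducible (X ^ 3 + C (a : ℚ) * X + C (b : ℚ) : ℚ[X])) :
    {P : ℕ | P.Prime ∧ ∀ z : ℤ, ¬ (P : ℤ) ∣ z ^ 3 + a * z + b}.Infinite := by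
  have hΔ := disc_ne h
  obtain ⟨L, iF, iN, iG, x, y, z, σ, hfac, hnf⟩ := exists_spl h
  -- the primes
  have hinf := Pool.Agent.W401.Cheb.infinite_frob L σ
  have hfin : {P : ℕ | P.Prime ∧ (P : ℤ) ∣ 4 * a ^ 3 + 27 * b ^ 2}.Finite := by
    refine (Set.finite_Iic (4 * a ^ 3 + 27 * b ^ 2).natAbs).subset ?_
    rintro P ⟨-, hP⟩
    exact Nat.le_of_dvd (Int.natAbs_pos.2 hΔ) (Int.natCast_dvd.1 hP)
  refine (hinf.diff hfin).mono ?_
  rintro P ⟨⟨hP, hxp⟩, hnd⟩
  refine ⟨hP, fun u hu => ?_⟩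
  apply hnd
  refine ⟨hP, ?_⟩
  haveI : Fact P.Prime := ⟨hP⟩
  unfold Pool.Agent.W401.Cheb.xp at hxp
  rw [dif_pos hP] at hxp
  obtain ⟨⟨φ, hφ⟩⟩ := (Nat.card_ne_zero.1 hxp).1
  -- the zeros as algebraic integers
  have hint : ∀ t : L, t ^ 3 + (a : L) * t + (b : L) = 0 → ∃ t' : 𝓞 L, (t' : L) = t := by
    intro t ht
    have : IsIntegral ℤ t := by
      refine ⟨X ^ 3 + C a * X + C b, by monicity!, ?_⟩
      simp only [eval₂_add, eval₂_mul, eval₂_pow, eval₂_X, eval₂_C]
      simpa using ht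
    exact ⟨⟨t, this⟩, rfl⟩
  obtain ⟨x', hx'⟩ := hint x (by rw [hfac]; ring)
  obtain ⟨y', hy'⟩ := hint y (by rw [hfac]; ring)
  obtain ⟨z', hz'⟩ := hint z (by rw [hfac]; ring)
  have hfac' : ((u ^ 3 + a * u + b : ℤ) : 𝓞 L) = ((u : 𝓞 L) - x') * ((u : 𝓞 L) - y') *
      ((u : 𝓞 L) - z') := by
    apply RingOfIntegers.coe_injective
    have := hfac (u : L)
    rw [← hx', ← hy', ← hz'] at this
    push_cast
    exact this
  have hz0 : φ ((u ^ 3 + a * u + b : ℤ) : 𝓞 L) = 0 := by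
    rw [map_intCast]
    exact (CharP.intCast_eq_zero_iff _ P _).2 hu
  obtain ⟨t', ht', hφt⟩ : ∃ t' : 𝓞 L, (t' : L) ^ 3 + (a : L) * t' + (b : L) = 0 ∧
      φ t' = (u : AlgebraicClosure (ZMod P)) := by
    rw [hfac', map_mul, map_mul, mul_eq_zero, mul_eq_zero, map_sub, map_sub, map_sub,
      map_intCast, sub_eq_zero, sub_eq_zero, sub_eq_zero] at hz0
    rcases hz0 with (h1 | h1) | h1
    · exact ⟨x', by rw [hfac, hx']; ring, h1.symm⟩
    · exact ⟨y', by rw [hfac, hy']; ring, h1.symm⟩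
    · exact ⟨z', by rw [hfac, hz']; ring, h1.symm⟩
  -- the image
  obtain ⟨s', hs'⟩ : ∃ s' : 𝓞 L, s' = σ • t' := ⟨_, rfl⟩
  have hsL : (s' : L) = σ (t' : L) := by rw [hs']; rfl
  have hst : (s' : L) ≠ t' := by
    rw [hsL]
    exact hnf _ ht'
  have hφs : φ s' = (u : AlgebraicClosure (ZMod P)) := by
    rw [hs', hφ t', hφt]
    have h1 : ((u : ZMod P) : ZMod P) ^ P = u := ZMod.pow_card _
    have h2 := congrArg (algebraMap (ZMod P) (AlgebraicClosure (ZMod P))) h1
    rw [map_pow, map_intCast] at h2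
    exact h2
  have hrel : s' ^ 2 + s' * t' + t' ^ 2 + (a : 𝓞 L) = 0 := by
    have h1 : (s' : L) ^ 3 + (a : L) * s' + (b : L) = 0 := by
      have := congrArg σ ht'
      rw [map_zero, map_add, map_add, map_mul, map_pow, map_intCast σ, map_intCast σ] at this
      rw [hsL]
      exact this
    have h2 : ((s' : L) - t') * ((s' : L) ^ 2 + s' * t' + t' ^ 2 + a) = 0 := by
      linear_combination h1 - ht'
    rcases mul_eq_zero.1 h2 with h3 | h3
    · exact absurd (sub_eq_zero.1 h3) hst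
    · apply RingOfIntegers.coe_injective
      push_cast
      exact h3
  have h4 := congrArg φ hrel
  rw [map_add, map_add, map_add, map_mul, map_pow, map_pow, map_intCast, map_zero, hφs, hφt] at h4
  have h5 : ((3 * u ^ 2 + a : ℤ) : AlgebraicClosure (ZMod P)) = 0 := by
    push_cast
    linear_combination h4
  have h6 : (P : ℤ) ∣ 3 * u ^ 2 + a := (CharP.intCast_eq_zero_iff _ P _).1 h5
  have e : 4 * a ^ 3 + 27 * b ^ 2 = (3 * u ^ 2 + a) * (6 * a * u ^ 2 - 9 * b * u + 4 * a ^ 2) -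
      (u ^ 3 + a * u + b) * (18 * a * u - 27 * b) := by ring
  rw [e]
  exact dvd_sub (dvd_mul_of_dvd_left h6 _) (dvd_mul_of_dvd_left hu _)

end Pool.Agent.K9h15.Mn
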