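import Pool.Agent.K9h15.MnG
import Pool.Agent.K9h15.MnH

/-!
# Quadratic fields in the class (helper15)
-/

set_option autoImplicit false
set_option linter.all false

open Polynomial IsDedekindDomain NumberField
open scoped Classical IntermediateField

namespace Pool.Agent.K9h15.Mn

open Pool.Agent.N922.PQ

/-- The primes which do not divide `δ` are unramified. -/
theorem unr_of {M : Type} [Field M] [NumberField M] {γ : M} {g : ℤ[X]} {δ : ℤ}
    (hG : Gen ℚ γ g δ) {P : ℤ} (hP : IsPr P) (hd : ¬ P ∣ δ) (w : HeightOneSpectrum (𝓞 M))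
    (hPw : Ov P w) : w.valuation M (P : M) = WithZero.exp (-1 : ℤ) := by
  have hδw : ¬ Ov δ w := fun h =>
    one_mem_of ((hP.2.irreducible.coprime_iff_not_dvd).2 hd) hPw h
  obtain ⟨v, hv⟩ := (parts.ur ℚ M ℤ (𝓞 M) γ g δ hG).1 w hδw
  have hvQ : w.valuation M (P : M) = v.valuation ℚ (P : ℚ) := by
    rw [← hv, map_intCast (algebraMap ℚ M)]
  refine le_antisymm (val_le_exp w ?_ ((ov_val P w).1 hPw)) ?_
  · exact_mod_cast hP.2.ne_zero
  · rw [hvQ]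
    exact val_sqfree hP.2.irreducible.squarefree v

/-- The product of two different primes is not a square. -/
theorem not_sq_prod {P₁ P₂ : ℤ} (h1 : IsPr P₁) (h2 : IsPr P₂) (hne : P₁ ≠ P₂) (q : ℚ) :
    q ^ 2 ≠ ((P₁ * P₂ : ℤ) : ℚ) := by
  intro h
  have hi : IsIntegral ℤ q := by
    refine ⟨X ^ 2 - C (P₁ * P₂), by monicity!, ?_⟩
    rw [eval₂_sub, eval₂_pow, eval₂_X, eval₂_C, h]
    simp
  obtain ⟨m, hm⟩ := IsIntegrallyClosed.isIntegral_iff.1 hi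
  have h3 : m ^ 2 = P₁ * P₂ := by
    have h4 : ((m ^ 2 : ℤ) : ℚ) = ((P₁ * P₂ : ℤ) : ℚ) := by
      rw [← h, ← hm]
      simp
    exact_mod_cast h4
  have h5 : P₁ ∣ m := h1.2.dvd_of_dvd_pow (by rw [h3]; exact dvd_mul_right _ _)
  obtain ⟨k, rfl⟩ := h5
  have h6 : P₁ * k ^ 2 = P₂ := by
    have h7 : P₁ * (P₁ * k ^ 2) = P₁ * P₂ := by rw [← h3]; ring
    exact mul_left_cancel₀ h1.2.ne_zero h7
  have h8 := Int.associated_iff.1 ((Prime.dvd_prime_iff_associated h1.2 h2.2).1 ⟨k ^ 2, h6.symm⟩)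
  have h9 := h1.1
  have h10 := h2.1
  omega

section quad

variable {F : Type} [Field F] [NumberField F] {d : F} {D k : ℤ}

theorem gen_quad (hd : d ^ 2 = (D : F)) (hD0 : D ≠ 0) (hk : D = 4 * k + 1)
    (htop : ℚ⟮d⟯ = ⊤) :
    Gen ℚ ((1 + d) / 2) (X ^ 2 - X - C k : ℤ[X]) D where
  top := by
    rw [eq_top_iff, ← htop, IntermediateField.adjoin_simple_le_iff]
    have h1 : (1 + d) / 2 ∈ ℚ⟮(1 + d) / 2⟯ := IntermediateField.mem_adjoin_simple_self ℚ _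
    have h2 : (2 : F) ∈ ℚ⟮(1 + d) / 2⟯ := by
      have := IntermediateField.natCast_mem ℚ⟮(1 + d) / 2⟯ 2
      exact_mod_cast this
    have h3 : (1 : F) ∈ ℚ⟮(1 + d) / 2⟯ := one_mem _
    have e : d = 2 * ((1 + d) / 2) - 1 := by ring
    have h4 := sub_mem (mul_mem h2 h1) h3
    rwa [← e] at h4
  monic := by monicity!
  root := by
    have e : (D : F) = 4 * (k : F) + 1 := by rw [hk]; push_cast; ring
    simp only [map_sub, map_pow, aeval_X, aeval_C]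
    simp only [algebraMap_int_eq, eq_intCast]
    field_simp
    linear_combination hd + e
  ne := hD0
  comb := by
    refine ⟨-4, derivative (X ^ 2 - X - C k : ℤ[X]), ?_⟩
    rw [hk]
    simp only [derivative_sub, derivative_X_pow, derivative_X, derivative_C, map_add, map_mul,
      map_one]
    simp only [Nat.cast_ofNat, map_ofNat]
    ring

theorem quad_top {P₁ P₂ : ℤ} (hd : d ^ 2 = ((P₁ * P₂ : ℤ) : F)) (h1 : IsPr P₁) (h2 : IsPr P₂)
    (hne : P₁ ≠ P₂) (hF : Module.finrank ℚ F = 2) : ℚ⟮d⟯ = ⊤ := by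
  rw [Field.primitive_element_iff_minpoly_natDegree_eq, hF]
  have hirr : Irreducible (X ^ 2 - C (((P₁ * P₂ : ℤ)) : ℚ) : ℚ[X]) :=
    X_pow_sub_C_irreducible_of_prime Nat.prime_two (not_sq_prod h1 h2 hne)
  have hr : aeval d (X ^ 2 - C (((P₁ * P₂ : ℤ)) : ℚ) : ℚ[X]) = 0 := by
    rw [map_sub, map_pow, aeval_X, aeval_C, map_intCast, hd, sub_self]
  rw [← minpoly.eq_of_irreducible_of_monic hirr hr (by monicity!)]
  compute_degree!

/-- The quadratic field is in the class. -/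
theorem quad_cls {A B : ℤ} {S : Finset ℤ} {P₁ P₂ : ℤ} (hd : d ^ 2 = ((P₁ * P₂ : ℤ) : F))
    (h1 : P₁ ∈ Tset A B) (h2 : P₂ ∈ Tset A B) (hne : P₁ ≠ P₂) (hF : Module.finrank ℚ F = 2)
    (hk : P₁ * P₂ % 4 = 1) (hS : ∀ Q ∈ S, IsPr Q ∧ Q % 8 = 1 ∧ ¬ Q ∣ P₁ * P₂ ∧
      ∃ z : ℤ, Q ∣ z ^ 2 - P₁ * P₂) : Cls A B S F := by
  have htop := quad_top hd h1.1 h2.1 hne hF
  have hk' : P₁ * P₂ = 4 * (P₁ * P₂ / 4) + 1 := by omega
  have hD0 : P₁ * P₂ ≠ 0 := mul_ne_zero h1.1.2.ne_zero h2.1.2.ne_zero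
  have hG := gen_quad hd hD0 hk' htop
  have h2D : ¬ (2 : ℤ) ∣ P₁ * P₂ := by omega
  refine ⟨?_, ⟨1, by rw [hF]; norm_num⟩, fun w hw => ?_, ?_, fun Q hQ => ?_⟩
  · haveI : Algebra.IsQuadraticExtension ℚ F := ⟨hF⟩
    infer_instance
  · have := unr_of hG (P := 2) ⟨by norm_num, Int.prime_two⟩ h2D w hw
    exact_mod_cast this
  · refine ram_of hG fun P hP hdv => ?_
    rcases hP.2.dvd_or_dvd hdv with h | h
    · have h3 := Int.associated_iff.1 ((Prime.dvd_prime_iff_associated hP.2 h1.1.2).1 h)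
      have h4 := hP.1
      have h5 := h1.1.1
      have : P = P₁ := by omega
      rw [this]
      exact h1
    · have h3 := Int.associated_iff.1 ((Prime.dvd_prime_iff_associated hP.2 h2.1.2).1 h)
      have h4 := hP.1
      have h5 := h2.1.1
      have : P = P₂ := by omega
      rw [this]
      exact h2
  · obtain ⟨hQp, hQ8, hnd, z, hz⟩ := hS Q hQ
    refine tot_of hG hQp ?_ fun w hw h =>
      one_mem_of ((hQp.2.irreducible.coprime_iff_not_dvd).2 hnd) hw h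
    -- an odd square root
    obtain ⟨z, hz, hodd⟩ : ∃ z : ℤ, Q ∣ z ^ 2 - P₁ * P₂ ∧ z % 2 = 1 := by
      by_cases ho : z % 2 = 1
      · exact ⟨z, hz, ho⟩
      · refine ⟨z + Q, ?_, by omega⟩
        have e : (z + Q) ^ 2 - P₁ * P₂ = (z ^ 2 - P₁ * P₂) + Q * (2 * z + Q) := by ring
        rw [e]
        exact dvd_add hz (dvd_mul_right _ _)
    obtain ⟨u, hu⟩ : ∃ u, z = 2 * u + 1 := ⟨z / 2, by omega⟩
    obtain ⟨m, hm⟩ := hz
    have h4m : (4 : ℤ) ∣ Q * m := by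
      rw [← hm, hk', hu]
      exact ⟨u ^ 2 + u - P₁ * P₂ / 4, by ring⟩
    have h4m' : (4 : ℤ) ∣ m := by
      have hcop : IsCoprime (4 : ℤ) Q := by
        refine ⟨-(2 * (Q / 8)), 1, ?_⟩
        omega
      exact hcop.dvd_of_dvd_mul_left h4m
    obtain ⟨m', rfl⟩ := h4m'
    refine ⟨{1 + u, -u}, C m', ?_⟩
    have e : P₁ * P₂ / 4 = u ^ 2 + u - Q * m' := by
      have h7 : z ^ 2 = 4 * (u ^ 2 + u) + 1 := by rw [hu]; ring
      have h8 : P₁ * P₂ = 4 * (u ^ 2 + u - Q * m') + 1 := by linarith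
      omega
    rw [e]
    simp only [Multiset.insert_eq_cons, Multiset.map_cons, Multiset.map_singleton,
      Multiset.prod_cons, Multiset.prod_singleton, map_sub, map_add, map_mul, map_pow, map_one,
      map_neg]
    ring

/-- `P₁` is ramified in the quadratic field. -/
theorem quad_ram {P₁ P₂ : ℤ} (hd : d ^ 2 = ((P₁ * P₂ : ℤ) : F))
    (h1 : IsPr P₁) (h2 : IsPr P₂) (hne : P₁ ≠ P₂) (w : HeightOneSpectrum (𝓞 F)) (hw : Ov P₁ w) :
    w.valuation F (P₁ : F) ≠ WithZero.exp (-1 : ℤ) := by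
  intro h
  have h3 : w.valuation F (P₂ : F) = 1 := val_eq_of P₂ w fun h3 => hne (below_unique h1 h2 hw h3)
  have h4 := congrArg (w.valuation F) hd
  rw [map_pow, Int.cast_mul, map_mul, h, h3, mul_one] at h4
  have := exp_pow h4
  norm_num at this

end quad

/-- Partners. -/
def Pair (A B : ℤ) (S : Finset ℤ) (P P' : ℕ) : Prop :=
  (P' : ℤ) ∈ Tset A B ∧ P ≠ P' ∧
      (P * P' : ℤ) % 4 = 1 ∧ ∀ Q ∈ S, ¬ Q ∣ (P * P' : ℤ) ∧ ∃ z : ℤ, Q ∣ z ^ 2 - P * P'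

/-- Pigeonhole. -/
theorem fin_single {A B : ℤ} {S : Finset ℤ} (hS : ∀ Q ∈ S, IsPr Q ∧ Q % 8 = 1) :
    {P : ℕ | (P : ℤ) ∈ Tset A B ∧ ¬ ∃ P' : ℕ, Pair A B S P P'}.Finite := by
  have hfin : ({2} ∪ (S.image Int.toNat : Set ℕ)).Finite :=
    (Set.finite_singleton 2).union (Finset.finite_toSet _)
  obtain ⟨I, hI⟩ : ∃ I : Set ℕ, I = {P : ℕ | ((P : ℤ) ∈ Tset A B) ∧ P ≠ 2 ∧
    ∀ Q ∈ S, ¬ Q ∣ (P : ℤ)} := ⟨_, rfl⟩
  have hIm : ∀ n, n ∈ I → ((n : ℤ) ∈ Tset A B) ∧ n ≠ 2 ∧ ∀ Q ∈ S, ¬ Q ∣ (n : ℤ) := by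
    intro n hn
    rw [hI] at hn
    exact hn
  let f : I → ZMod 8 × (S → Prop) := fun P => ((P.1 : ZMod 8),
    fun Q => IsSquare ((P.1 : ZMod (Q.1.toNat))))
  have hB : (⋃ y ∈ {y | (f ⁻¹' {y}).Finite}, f ⁻¹' {y}).Finite :=
    Set.Finite.biUnion (Set.toFinite _) fun y hy => hy
  refine (hfin.union (hB.image Subtype.val)).subset ?_
  rintro P ⟨hPT, hno⟩
  by_cases hPI : P ∈ I
  · right
    refine ⟨⟨P, hPI⟩, ?_, rfl⟩
    rw [Set.mem_iUnion]
    refine ⟨f ⟨P, hPI⟩, Set.mem_iUnion.2 ⟨?_, rfl⟩⟩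
    by_contra hinf
    apply hno
    obtain ⟨P', hP', hne⟩ : ∃ P' ∈ f ⁻¹' {f ⟨P, hPI⟩}, P' ≠ ⟨P, hPI⟩ := by
      by_contra hcon
      push Not at hcon
      have : (f ⁻¹' {f ⟨P, hPI⟩}) ⊆ {⟨P, hPI⟩} := fun z hz => hcon z hz
      exact hinf ((Set.finite_singleton _).subset this)
    have hff : f ⟨P, hPI⟩ = f P' := hP'.symm
    obtain ⟨hPT, hP2, hPS⟩ := hIm P hPI
    obtain ⟨hPT', hP2', hPS'⟩ := hIm _ P'.2
    have h8 : ((P : ℕ) : ZMod 8) = ((P'.1 : ℕ) : ZMod 8) := congrArg Prod.fst hff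
    have h8' : (P : ℤ) % 8 = (P'.1 : ℤ) % 8 := by
      have := (ZMod.natCast_eq_natCast_iff' _ _ _).1 h8
      omega
    have hodd : ∀ {p : ℕ}, ((p : ℤ) ∈ Tset A B) → p ≠ 2 → (p : ℤ) % 2 = 1 := by
      intro p hp hp2
      have hpp : p.Prime := Nat.prime_iff_prime_int.2 hp.1.2
      have := hpp.eq_two_or_odd
      omega
    have ho := hodd hPT hP2
    refine ⟨P'.1, hPT', fun h => hne (Subtype.ext h.symm), ?_, fun Q hQ => ⟨?_, ?_⟩⟩
    · obtain ⟨k, hk⟩ : ∃ k : ℤ, (P'.1 : ℤ) = P + 8 * k := ⟨((P'.1 : ℤ) - P) / 8, by omega⟩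
      obtain ⟨j, hj⟩ : ∃ j : ℤ, (P : ℤ) = 2 * j + 1 := ⟨(P : ℤ) / 2, by omega⟩
      rw [hk, hj]
      have e : (2 * j + 1) * (2 * j + 1 + 8 * k) = 4 * (j ^ 2 + j + 2 * k * (2 * j + 1)) + 1 := by
        ring
      rw [e]
      omega
    · intro hdv
      rcases (hS Q hQ).1.2.dvd_or_dvd hdv with h | h
      · exact hPS Q hQ h
      · exact hPS' Q hQ h
    · have hQ0 : ((Q.toNat : ℕ) : ℤ) = Q := Int.toNat_of_nonneg (hS Q hQ).1.1.le
      haveI : Fact (Nat.Prime Q.toNat) := ⟨by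
        rw [Nat.prime_iff_prime_int, hQ0]
        exact (hS Q hQ).1.2⟩
      have hiff : IsSquare ((P : ZMod (Q.toNat))) ↔ IsSquare ((P'.1 : ZMod (Q.toNat))) := by
        have := congrFun (congrArg Prod.snd hff) ⟨Q, hQ⟩
        exact iff_of_eq this
      have hne0 : ∀ {p : ℕ}, ¬ Q ∣ (p : ℤ) → (p : ZMod Q.toNat) ≠ 0 := by
        intro p hp h0
        apply hp
        rw [← hQ0]
        exact_mod_cast (ZMod.natCast_eq_zero_iff p Q.toNat).1 h0
      have hsq : IsSquare ((P : ZMod (Q.toNat)) * (P'.1 : ZMod (Q.toNat))) := by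
        by_cases hs : IsSquare ((P : ZMod (Q.toNat)))
        · exact hs.mul (hiff.1 hs)
        · have hs' : ¬ IsSquare ((P'.1 : ZMod (Q.toNat))) := fun h => hs (hiff.2 h)
          rw [← quadraticChar_one_iff_isSquare (mul_ne_zero (hne0 (hPS Q hQ)) (hne0 (hPS' Q hQ))),
            map_mul, quadraticChar_neg_one_iff_not_isSquare.2 hs,
            quadraticChar_neg_one_iff_not_isSquare.2 hs']
          norm_num
      obtain ⟨r, hr⟩ := hsq
      obtain ⟨z, rfl⟩ := ZMod.intCast_surjective r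
      refine ⟨z, ?_⟩
      rw [← hQ0]
      apply (ZMod.intCast_zmod_eq_zero_iff_dvd _ _).1
      push_cast
      rw [pow_two, ← hr, sub_self]
  · left
    by_contra hn
    apply hPI
    rw [hI]
    refine ⟨hPT, fun h => hn (Or.inl h), fun Q hQ hdv => hn (Or.inr ?_)⟩
    have h3 := Int.associated_iff.1 ((Prime.dvd_prime_iff_associated (hS Q hQ).1.2 hPT.1.2).1 hdv)
    have h4 := (hS Q hQ).1.1
    have h5 := hPT.1.1
    have h6 : Q.toNat = P := by omega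
    rw [← h6]
    exact Finset.mem_coe.2 (Finset.mem_image_of_mem _ hQ)

end Pool.Agent.K9h15.Mn
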