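import Pool.Agent.K9h15.MnI

/-!
# The class is closed under subfields and composita (helper15)
-/

set_option autoImplicit false
set_option linter.all false

open Polynomial IsDedekindDomain NumberField
open scoped Classical IntermediateField

namespace Pool.Agent.K9h15.Mn

open Pool.Agent.N922.PQ
open Pool.Agent.N874.PM (PLoc Lies SelR ShaR)

section sub

variable {F F' : Type} [Field F] [NumberField F] [Field F'] [NumberField F'] [Algebra F F']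

theorem exists_over'' (v : HeightOneSpectrum (𝓞 F)) :
    ∃ (𝔓 : HeightOneSpectrum (𝓞 F')) (e : ℕ), e ≠ 0 ∧ ∀ x : F,
      𝔓.valuation F' (algebraMap F F' x) = v.valuation F x ^ e := by
  obtain ⟨𝔓, e, he⟩ := exists_over' (𝓞 F) (𝓞 F') (F := F) (F' := F') v
  refine ⟨𝔓, e, ?_, he⟩
  rintro rfl
  obtain ⟨P, hP, hP'⟩ := exists_below 𝔓
  rw [ov_val (L := F')] at hP'
  have h1 := he (P : F)
  rw [map_intCast (algebraMap F F'), pow_zero] at h1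
  rw [h1] at hP'
  exact lt_irrefl _ hP'

theorem ov_iff {v : HeightOneSpectrum (𝓞 F)} {𝔓 : HeightOneSpectrum (𝓞 F')} {e : ℕ} (he : e ≠ 0)
    (h : ∀ x : F, 𝔓.valuation F' (algebraMap F F' x) = v.valuation F x ^ e) (P : ℤ) :
    Ov P 𝔓 ↔ Ov P v := by
  rw [ov_val (L := F'), ov_val (L := F), ← map_intCast (algebraMap F F'), h]
  exact pow_lt_one_iff he

theorem val_sub {v : HeightOneSpectrum (𝓞 F)} {𝔓 : HeightOneSpectrum (𝓞 F')} {e : ℕ}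
    (h : ∀ x : F, 𝔓.valuation F' (algebraMap F F' x) = v.valuation F x ^ e) {P : ℤ}
    (hP : 𝔓.valuation F' (P : F') = WithZero.exp (-1 : ℤ)) :
    v.valuation F (P : F) = WithZero.exp (-1 : ℤ) := by
  have h1 := h (P : F)
  rw [map_intCast (algebraMap F F'), hP] at h1
  have h2 := exp_pow h1.symm
  rw [h1, h2, pow_one]

/-- Subfields. -/
theorem cls_sub {a b : ℤ} {S : Finset ℤ} (hG : IsGalois ℚ F) (h : Cls a b S F') :
    Cls a b S F := by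
  refine ⟨hG, ?_, fun w hw => ?_, fun w hw => ?_, fun Q hQ w hw => ?_⟩
  · obtain ⟨n, hn⟩ := h.deg
    have h1 := Module.finrank_mul_finrank ℚ F F'
    rw [hn] at h1
    obtain ⟨m, -, hm⟩ := (Nat.dvd_prime_pow Nat.prime_two).1 ⟨_, h1.symm⟩
    exact ⟨m, hm⟩
  · obtain ⟨𝔓, e, he, hv⟩ := exists_over'' (F' := F') w
    have h1 := h.two 𝔓 ((ov_iff he hv 2).2 hw)
    have h2 := val_sub hv (P := 2) (by exact_mod_cast h1)
    exact_mod_cast h2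
  · obtain ⟨𝔓, e, he, hv⟩ := exists_over'' (F' := F') w
    obtain ⟨P, hP⟩ := h.ram 𝔓 fun P hP h1 => hw P hP ((ov_iff he hv P).1 h1)
    exact ⟨P, val_sub hv hP⟩
  · obtain ⟨𝔓, e, he, hv⟩ := exists_over'' (F' := F') w
    obtain ⟨h1, h2⟩ := h.tot Q hQ 𝔓 ((ov_iff he hv Q).2 hw)
    refine ⟨val_sub hv h1, fun y => ?_⟩
    obtain ⟨c, hc⟩ := h2 (algebraMap (𝓞 F) (𝓞 F') y)
    refine ⟨c, ?_⟩
    rw [← HeightOneSpectrum.valuation_lt_one_iff_mem (K := F')] at hc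
    refine (HeightOneSpectrum.valuation_lt_one_iff_mem (K := F) w _).1 ?_
    have e1 : algebraMap (𝓞 F') F' (algebraMap (𝓞 F) (𝓞 F') y - (c : 𝓞 F')) =
        algebraMap F F' (algebraMap (𝓞 F) F (y - (c : 𝓞 F))) := by
      rw [map_sub (algebraMap (𝓞 F') F'), map_sub (algebraMap (𝓞 F) F), map_sub (algebraMap F F'),
        map_intCast (algebraMap (𝓞 F') F'), map_intCast (algebraMap (𝓞 F) F),
        map_intCast (algebraMap F F')]
      rfl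
    have hc' : 𝔓.valuation F' (algebraMap (𝓞 F') F' (algebraMap (𝓞 F) (𝓞 F') y - (c : 𝓞 F'))) < 1 :=
      hc
    rw [e1, hv] at hc'
    exact (pow_lt_one_iff he).1 hc'

end sub

section sup

variable {L M Ω : Type} [Field L] [NumberField L] [Field M] [NumberField M]
  [Field Ω] [NumberField Ω] [Algebra L Ω] [Algebra M Ω]

/-- Composita. -/
theorem cls_sup {a b : ℤ} {S : Finset ℤ} {θ : L} (htop : M⟮algebraMap L Ω θ⟯ = ⊤)
    (hG : IsGalois ℚ Ω) (hdeg : ∃ n : ℕ, Module.finrank ℚ Ω = 2 ^ n) (hM : Cls a b S M)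
    (hL : Cls a b S L) : Cls a b S Ω := by
  haveI := hM.gal
  -- a prime which is unramified in `M`
  have key : ∀ 𝔓 : HeightOneSpectrum (𝓞 Ω), (∀ w : HeightOneSpectrum (𝓞 M),
      (∀ P : ℤ, Ov P w ↔ Ov P 𝔓) → ∃ P : ℤ, w.valuation M (P : M) = WithZero.exp (-1 : ℤ)) →
      ∃ 𝔭 : HeightOneSpectrum (𝓞 L), ∀ x : L,
        𝔓.valuation Ω (algebraMap L Ω x) = 𝔭.valuation L x := by
    intro 𝔓 h
    obtain ⟨w, hw, hO⟩ := parts.lie M Ω (𝓞 M) (𝓞 Ω) 𝔓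
    obtain ⟨P, hP⟩ := h w hO
    obtain ⟨γ, g, h1, h2, h3, h4⟩ := gen_up htop hP hw
    exact ur_loc (𝓞 L) (𝓞 Ω) h1 h2 h3 𝔓 h4
  refine ⟨hG, hdeg, fun 𝔓 h𝔓 => ?_, fun 𝔓 h𝔓 => ?_, fun Q hQ 𝔓 h𝔓 => ?_⟩
  · obtain ⟨𝔭, hv⟩ := key 𝔓 fun w hO => ⟨2, by
      have := hM.two w ((hO 2).2 h𝔓)
      exact_mod_cast this⟩
    have h1 := hL.two 𝔭 ((ov_down hv 2).1 h𝔓)
    rw [← hv] at h1
    rwa [map_ofNat] at h1
  · obtain ⟨𝔭, hv⟩ := key 𝔓 fun w hO => hM.ram w fun P hP h => h𝔓 P hP ((hO P).1 h)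
    obtain ⟨P, hP⟩ := hL.ram 𝔭 fun P hP h => h𝔓 P hP ((ov_down hv P).2 h)
    refine ⟨P, ?_⟩
    rw [← hv, map_intCast] at hP
    exact hP
  · obtain ⟨𝔭, hv⟩ := key 𝔓 fun w hO => ⟨Q, (hM.tot Q hQ w ((hO Q).2 h𝔓)).1⟩
    obtain ⟨h1, h2⟩ := hL.tot Q hQ 𝔭 ((ov_down hv Q).1 h𝔓)
    rw [← hv, map_intCast] at h1
    refine ⟨h1, fun y => ?_⟩
    have hy1 : 𝔓.valuation Ω (algebraMap (𝓞 Ω) Ω y) ≤ 1 := 𝔓.valuation_le_one _
    obtain ⟨s₀, hs₀⟩ : ∃ s₀ : L, 𝔓.valuation Ω (algebraMap (𝓞 Ω) Ω y - algebraMap L Ω s₀) < 1 := by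
      by_cases h0 : algebraMap (𝓞 Ω) Ω y = 0
      · exact ⟨0, by rw [h0, map_zero, sub_zero, map_zero]; exact zero_lt_one⟩
      · obtain ⟨s₀, h⟩ := spd_up htop (hM.tot Q hQ) 𝔓 h𝔓 _ h0
        exact ⟨s₀, lt_of_lt_of_le h hy1⟩
    have hs1 : 𝔭.valuation L s₀ ≤ 1 := by
      rw [← hv]
      have e : algebraMap L Ω s₀ = algebraMap (𝓞 Ω) Ω y -
          (algebraMap (𝓞 Ω) Ω y - algebraMap L Ω s₀) := by ring
      rw [e]
      exact (Valuation.map_sub _ _ _).trans (max_le hy1 hs₀.le)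
    obtain ⟨y₀, hy₀⟩ := 𝔭.exists_valuation_sub_lt_of_integer hs1 1
    rw [Units.val_one] at hy₀
    obtain ⟨c, hc⟩ := h2 y₀
    refine ⟨c, (HeightOneSpectrum.valuation_lt_one_iff_mem (K := Ω) 𝔓 _).1 ?_⟩
    have h3 : 𝔭.valuation L (algebraMap (𝓞 L) L (y₀ - (c : 𝓞 L))) < 1 :=
      (HeightOneSpectrum.valuation_lt_one_iff_mem (K := L) 𝔭 _).2 hc
    have e1 : algebraMap (𝓞 Ω) Ω (y - (c : 𝓞 Ω)) = (algebraMap (𝓞 Ω) Ω y - algebraMap L Ω s₀) +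
        algebraMap L Ω ((algebraMap (𝓞 L) L (y₀ - (c : 𝓞 L))) - (algebraMap (𝓞 L) L y₀ - s₀)) := by
      rw [map_sub (algebraMap (𝓞 Ω) Ω), map_sub (algebraMap (𝓞 L) L), map_sub (algebraMap L Ω),
        map_sub (algebraMap L Ω), map_sub (algebraMap L Ω), map_intCast (algebraMap (𝓞 Ω) Ω),
        map_intCast (algebraMap (𝓞 L) L), map_intCast (algebraMap L Ω)]
      ring
    change 𝔓.valuation Ω (algebraMap (𝓞 Ω) Ω (y - (c : 𝓞 Ω))) < 1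
    rw [e1]
    refine lt_of_le_of_lt (Valuation.map_add _ _ _) (max_lt hs₀ ?_)
    rw [hv]
    exact lt_of_le_of_lt (Valuation.map_sub _ _ _) (max_lt h3 hy₀)

end sup

end Pool.Agent.K9h15.Mn
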