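import Pool.Agent.K9h15.MnJ

/-!
# The compositum of the fields in the class (helper15)
-/

set_option autoImplicit false
set_option linter.all false

open Polynomial IsDedekindDomain NumberField
open scoped Classical IntermediateField

namespace Pool.Agent.K9h15.Mn

open Pool.Agent.N922.PQ

theorem rat_gal {F : Type} [Field F] {i j : Algebra ℚ F} (h : @IsGalois ℚ _ F _ i) :
    @IsGalois ℚ _ F _ j := by
  have e : i = j := Subsingleton.elim _ _
  subst e
  exact h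

theorem rat_norm {F : Type} [Field F] {i j : Algebra ℚ F} (h : @Normal ℚ F _ _ i) :
    @Normal ℚ F _ _ j := by
  have e : i = j := Subsingleton.elim _ _
  subst e
  exact h

variable {Qb : Type} [Field Qb] [CharZero Qb]

/-- A number field in the class. -/
def Mem (a b : ℤ) (S : Finset ℤ) (F : IntermediateField ℚ Qb) : Prop :=
  ∃ _ : NumberField F, Cls a b S F

variable (Qb) in
/-- The compositum. -/
def maxF (a b : ℤ) (S : Finset ℤ) : IntermediateField ℚ Qb :=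
  ⨆ F : {F : IntermediateField ℚ Qb // Mem a b S F}, F.1

section sup

variable {F₁ F₂ : IntermediateField ℚ Qb}

theorem sup_top (E : IntermediateField ℚ ↥(F₁ ⊔ F₂))
    (h1 : ∀ x : F₁, IntermediateField.inclusion le_sup_left x ∈ E)
    (h2 : ∀ x : F₂, IntermediateField.inclusion le_sup_right x ∈ E) : E = ⊤ := by
  have h3 : F₁ ⊔ F₂ ≤ E.map (F₁ ⊔ F₂).val := by
    refine sup_le (fun x hx => ?_) (fun x hx => ?_)
    · exact ⟨_, h1 ⟨x, hx⟩, rfl⟩
    · exact ⟨_, h2 ⟨x, hx⟩, rfl⟩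
  rw [eq_top_iff]
  intro y _
  obtain ⟨e, he, hey⟩ := h3 y.2
  have : e = y := Subtype.ext hey
  rw [← this]
  exact he

theorem mem_sup {a b : ℤ} {S : Finset ℤ} (h1 : Mem a b S F₁) (h2 : Mem a b S F₂) :
    Mem a b S (F₁ ⊔ F₂) := by
  obtain ⟨i1, h1⟩ := h1
  obtain ⟨i2, h2⟩ := h2
  haveI : FiniteDimensional ℚ F₁ := inferInstance
  haveI : FiniteDimensional ℚ F₂ := inferInstance
  haveI : FiniteDimensional ℚ ↥(F₁ ⊔ F₂) := IntermediateField.finiteDimensional_sup F₁ F₂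
  haveI : NumberField ↥(F₁ ⊔ F₂) := ⟨⟩
  haveI g1 : IsGalois ℚ F₁ := rat_gal h1.gal
  haveI g2 : IsGalois ℚ F₂ := rat_gal h2.gal
  haveI m1 : Normal ℚ F₁ := inferInstance
  haveI m2 : Normal ℚ F₂ := inferInstance
  haveI n1 : @Normal ℚ F₁ _ _ (IntermediateField.algebra' F₁) := rat_norm m1
  haveI n2 : @Normal ℚ F₂ _ _ (IntermediateField.algebra' F₂) := rat_norm m2
  haveI : Normal ℚ ↥(F₁ ⊔ F₂) := rat_norm (IntermediateField.normal_sup ℚ Qb F₁ F₂)
  haveI hG : IsGalois ℚ ↥(F₁ ⊔ F₂) := ⟨⟩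
  letI a1 : Algebra F₁ ↥(F₁ ⊔ F₂) :=
    (IntermediateField.inclusion (le_sup_left : F₁ ≤ F₁ ⊔ F₂)).toRingHom.toAlgebra
  letI a2 : Algebra F₂ ↥(F₁ ⊔ F₂) :=
    (IntermediateField.inclusion (le_sup_right : F₂ ≤ F₁ ⊔ F₂)).toRingHom.toAlgebra
  haveI t1 : IsScalarTower ℚ F₁ ↥(F₁ ⊔ F₂) := inferInstance
  haveI t2 : IsScalarTower ℚ F₂ ↥(F₁ ⊔ F₂) := inferInstance
  -- the degree
  have hdeg : ∃ n : ℕ, Module.finrank ℚ ↥(F₁ ⊔ F₂) = 2 ^ n := by
    obtain ⟨n, hn⟩ := h1.deg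
    obtain ⟨m, hm⟩ := h2.deg
    let r : Gal(↥(F₁ ⊔ F₂)/ℚ) →* Gal(F₁/ℚ) × Gal(F₂/ℚ) :=
      (AlgEquiv.restrictNormalHom F₁).prod (AlgEquiv.restrictNormalHom F₂)
    have hr : Function.Injective r := by
      rw [injective_iff_map_eq_one]
      intro σ hσ
      have hσ1 : AlgEquiv.restrictNormalHom F₁ σ = 1 := congrArg Prod.fst hσ
      have hσ2 : AlgEquiv.restrictNormalHom F₂ σ = 1 := congrArg Prod.snd hσ
      have htop := sup_top (IntermediateField.fixedField (Subgroup.zpowers σ))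
        (fun x => by
          have h3 := AlgEquiv.restrictNormal_commutes σ F₁ x
          have h4 : σ.restrictNormal F₁ = 1 := hσ1
          rw [h4] at h3
          have h5 : σ (algebraMap F₁ ↥(F₁ ⊔ F₂) x) = algebraMap F₁ ↥(F₁ ⊔ F₂) x := h3.symm
          rintro ⟨τ, hτ⟩
          obtain ⟨k, rfl⟩ := Subgroup.mem_zpowers_iff.1 hτ
          have h7 : σ ∈ MulAction.stabilizer (Gal(↥(F₁ ⊔ F₂)/ℚ)) (algebraMap F₁ ↥(F₁ ⊔ F₂) x) :=
            MulAction.mem_stabilizer_iff.2 h5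
          exact MulAction.mem_stabilizer_iff.1 (zpow_mem h7 k))
        (fun x => by
          have h3 := AlgEquiv.restrictNormal_commutes σ F₂ x
          have h4 : σ.restrictNormal F₂ = 1 := hσ2
          rw [h4] at h3
          have h5 : σ (algebraMap F₂ ↥(F₁ ⊔ F₂) x) = algebraMap F₂ ↥(F₁ ⊔ F₂) x := h3.symm
          rintro ⟨τ, hτ⟩
          obtain ⟨k, rfl⟩ := Subgroup.mem_zpowers_iff.1 hτ
          have h7 : σ ∈ MulAction.stabilizer (Gal(↥(F₁ ⊔ F₂)/ℚ)) (algebraMap F₂ ↥(F₁ ⊔ F₂) x) :=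
            MulAction.mem_stabilizer_iff.2 h5
          exact MulAction.mem_stabilizer_iff.1 (zpow_mem h7 k))
      ext y
      have h8 : y ∈ IntermediateField.fixedField (Subgroup.zpowers σ) := by
        rw [htop]
        trivial
      have h9 := h8 ⟨σ, Subgroup.mem_zpowers _⟩
      exact congrArg Subtype.val h9
    have hc := Subgroup.card_dvd_of_injective r hr
    rw [Nat.card_prod, IsGalois.card_aut_eq_finrank, IsGalois.card_aut_eq_finrank,
      IsGalois.card_aut_eq_finrank, hn, hm, ← pow_add] at hc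
    obtain ⟨k, -, hk⟩ := (Nat.dvd_prime_pow Nat.prime_two).1 hc
    exact ⟨k, hk⟩
  -- the generator
  obtain ⟨θ, hθ⟩ := Field.exists_primitive_element ℚ F₂
  have htop : F₁⟮algebraMap F₂ ↥(F₁ ⊔ F₂) θ⟯ = ⊤ := by
    have h3 : (F₁⟮algebraMap F₂ ↥(F₁ ⊔ F₂) θ⟯).restrictScalars ℚ = ⊤ := by
      refine sup_top _ (fun x => ?_) (fun x => ?_)
      · exact (F₁⟮algebraMap F₂ ↥(F₁ ⊔ F₂) θ⟯).algebraMap_mem x
      · have h4 : ℚ⟮θ⟯ ≤ ((F₁⟮algebraMap F₂ ↥(F₁ ⊔ F₂) θ⟯).restrictScalars ℚ).comap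
            (IsScalarTower.toAlgHom ℚ F₂ ↥(F₁ ⊔ F₂)) := by
          rw [IntermediateField.adjoin_simple_le_iff]
          exact IntermediateField.mem_adjoin_simple_self F₁ (algebraMap F₂ ↥(F₁ ⊔ F₂) θ)
        rw [hθ] at h4
        exact h4 (show x ∈ (⊤ : IntermediateField ℚ F₂) from trivial)
    rw [eq_top_iff]
    intro y _
    have h5 : y ∈ (F₁⟮algebraMap F₂ ↥(F₁ ⊔ F₂) θ⟯).restrictScalars ℚ := by
      rw [h3]
      trivial
    exact h5
  exact ⟨inferInstance, cls_sup (L := F₂) (M := F₁) htop hG hdeg h1 h2⟩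

end sup

variable {a b : ℤ} {S : Finset ℤ}

theorem le_max {F : IntermediateField ℚ Qb} (h : Mem a b S F) : F ≤ maxF Qb a b S :=
  le_iSup (fun F : {F : IntermediateField ℚ Qb // Mem a b S F} => F.1) ⟨F, h⟩

theorem max_gal [Algebra.IsAlgebraic ℚ Qb] : IsGalois ℚ (maxF Qb a b S) := by
  haveI : Normal ℚ (maxF Qb a b S) := by
    unfold maxF
    haveI : ∀ F : {F : IntermediateField ℚ Qb // Mem a b S F},
        @Normal ℚ F.1 _ _ (IntermediateField.algebra' F.1) := by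
      rintro ⟨F, hF, hc⟩
      haveI g1 : IsGalois ℚ F := rat_gal hc.gal
      have m1 : Normal ℚ F := inferInstance
      exact rat_norm m1
    exact rat_norm (IntermediateField.normal_iSup ℚ Qb _)
  exact ⟨⟩

/-- Every element of the compositum is in a member. -/
theorem mem_max (h0 : ∃ F : IntermediateField ℚ Qb, Mem a b S F) {x : Qb} (hx : x ∈ maxF Qb a b S) :
    ∃ F, Mem a b S F ∧ x ∈ F := by
  haveI : Nonempty {F : IntermediateField ℚ Qb // Mem a b S F} := h0.elim fun F hF => ⟨⟨F, hF⟩⟩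
  have hdir : Directed (· ≤ ·)
      (fun F : {F : IntermediateField ℚ Qb // Mem a b S F} => F.1) := by
    rintro ⟨F, hF⟩ ⟨F', hF'⟩
    exact ⟨⟨F ⊔ F', mem_sup hF hF'⟩, le_sup_left, le_sup_right⟩
  have h1 : x ∈ ((⨆ F : {F : IntermediateField ℚ Qb // Mem a b S F}, F.1 :
    IntermediateField ℚ Qb) : Set Qb) := hx
  rw [IntermediateField.coe_iSup_of_directed hdir, Set.mem_iUnion] at h1
  obtain ⟨⟨F, hF⟩, hxF⟩ := h1
  exact ⟨F, hF, hxF⟩

/-- Finite subextensions are in members. -/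
theorem sub_max (h0 : ∃ F : IntermediateField ℚ Qb, Mem a b S F) (F : IntermediateField ℚ (maxF Qb a b S)) [NumberField F] :
    ∃ G : IntermediateField ℚ Qb, Mem a b S G ∧ ∀ x : F, ((x : maxF Qb a b S) : Qb) ∈ G := by
  obtain ⟨α, hα⟩ := Field.exists_primitive_element ℚ F
  obtain ⟨G, hG, hαG⟩ := mem_max h0 (α : maxF Qb a b S).2
  refine ⟨G, hG, fun x => ?_⟩
  have h1 : ℚ⟮α⟯ ≤ G.comap ((maxF Qb a b S).val.comp F.val) := by
    rw [IntermediateField.adjoin_simple_le_iff]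
    exact hαG
  rw [hα] at h1
  exact h1 (show x ∈ (⊤ : IntermediateField ℚ F) from trivial)

/-- Finite Galois subextensions are in the class. -/
theorem cls_max (h0 : ∃ F : IntermediateField ℚ Qb, Mem a b S F) (F : IntermediateField ℚ (maxF Qb a b S)) [NumberField F]
    (hF : IsGalois ℚ F) : Cls a b S F := by
  obtain ⟨G, ⟨iG, hG⟩, hx⟩ := sub_max h0 F
  let φ : F →ₐ[ℚ] G := ((maxF Qb a b S).val.comp F.val).codRestrict G.toSubalgebra hx
  letI : Algebra F G := φ.toRingHom.toAlgebra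
  exact cls_sub (F' := G) hF hG

/-- Quadratic fields. -/
theorem exists_quad [IsAlgClosed Qb] [Algebra.IsAlgebraic ℚ Qb] {P₁ P₂ : ℤ} (h1 : IsPr P₁) (h2 : IsPr P₂) (hne : P₁ ≠ P₂) :
    ∃ (F : IntermediateField ℚ Qb) (_ : NumberField F) (d : F), d ^ 2 = ((P₁ * P₂ : ℤ) : F) ∧
      Module.finrank ℚ F = 2 := by
  obtain ⟨d, hd⟩ := IsAlgClosed.exists_pow_nat_eq (((P₁ * P₂ : ℤ)) : Qb) (n := 2) (by norm_num)
  have hirr : Irreducible (X ^ 2 - C (((P₁ * P₂ : ℤ)) : ℚ) : ℚ[X]) :=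
    X_pow_sub_C_irreducible_of_prime Nat.prime_two (not_sq_prod h1 h2 hne)
  have hr : aeval d (X ^ 2 - C (((P₁ * P₂ : ℤ)) : ℚ) : ℚ[X]) = 0 := by
    rw [map_sub, map_pow, aeval_X, aeval_C, map_intCast, hd, sub_self]
  have hint : IsIntegral ℚ d := Algebra.IsIntegral.isIntegral d
  have hmin := minpoly.eq_of_irreducible_of_monic hirr hr (by monicity!)
  haveI : FiniteDimensional ℚ ℚ⟮d⟯ := IntermediateField.adjoin.finiteDimensional hint
  refine ⟨ℚ⟮d⟯, ⟨⟩, IntermediateField.AdjoinSimple.gen ℚ d, ?_, ?_⟩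
  · apply Subtype.ext
    push_cast
    rw [IntermediateField.AdjoinSimple.coe_gen, hd]
    push_cast
    rfl
  · rw [IntermediateField.adjoin.finrank hint, ← hmin]
    compute_degree!

end Pool.Agent.K9h15.Mn
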