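import Pool.Agent.K9h15.MnK

/-!
# The compositum of the fields in the class is an infinite extension (helper15)
-/

set_option autoImplicit false
set_option linter.all false

open Polynomial IsDedekindDomain NumberField
open scoped Classical IntermediateField

namespace Pool.Agent.K9h15.Mn

open Pool.Agent.N922.PQ

/-- There is a prime over `P`. -/
theorem exists_over_pr (R : Type) [CommRing R] [IsDedekindDomain R] [Algebra.IsIntegral ℤ R]
    [CharZero R] {P : ℤ} (hP : IsPr P) : ∃ w : HeightOneSpectrum R, Ov P w := by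
  haveI : (Ideal.span {P}).IsMaximal :=
    PrincipalIdealRing.isMaximal_of_irreducible hP.2.irreducible
  have hker : RingHom.ker (algebraMap ℤ R) ≤ Ideal.span {P} := by
    have hinj : Function.Injective (algebraMap ℤ R) := by
      intro m n h
      simpa using h
    rw [(RingHom.injective_iff_ker_eq_bot _).1 hinj]
    exact bot_le
  obtain ⟨Q, hQ, hQ'⟩ := Ideal.exists_ideal_over_maximal_of_isIntegral (S := R)
    (Ideal.span {P}) hker
  have h2 : (P : R) ∈ Q := by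
    have h3 : P ∈ Q.comap (algebraMap ℤ R) := by
      rw [hQ']
      exact Ideal.mem_span_singleton_self _
    simpa using h3
  refine ⟨⟨Q, hQ.isPrime, ?_⟩, h2⟩
  rintro rfl
  rw [Ideal.mem_bot] at h2
  exact hP.2.ne_zero (by exact_mod_cast h2)

/-- Ramified primes. -/
def Rm (P : ℤ) (F : Type) [Field F] [NumberField F] : Prop :=
  ∃ w : HeightOneSpectrum (𝓞 F), Ov P w ∧ w.valuation F (P : F) ≠ WithZero.exp (-1 : ℤ)

/-- A prime with a partner is ramified in a quadratic field in the class. -/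
theorem ram_pair {Qb : Type} [Field Qb] [CharZero Qb] [IsAlgClosed Qb] [Algebra.IsAlgebraic ℚ Qb]
    {A B : ℤ} {S : Finset ℤ} (hS : ∀ Q ∈ S, IsPr Q ∧ Q % 8 = 1) {P P' : ℕ}
    (hP : (P : ℤ) ∈ Tset A B) (h : Pair A B S P P') :
    ∃ (F : IntermediateField ℚ Qb) (_ : NumberField F), Cls A B S F ∧ Rm P F := by
  obtain ⟨hP', hne, h4, hSS⟩ := h
  have hne' : (P : ℤ) ≠ P' := by exact_mod_cast hne
  obtain ⟨F, iF, d, hd, hF⟩ := exists_quad (Qb := Qb) hP.1 hP'.1 hne'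
  have hF' : @Module.finrank ℚ F _ _ (DivisionRing.toRatAlgebra (R := F)).toModule = 2 := by
    rw [← hF]
  refine ⟨F, iF, quad_cls hd hP hP' hne' hF' h4
    (fun Q hQ => ⟨(hS Q hQ).1, (hS Q hQ).2, hSS Q hQ⟩), ?_⟩
  obtain ⟨w, hw⟩ := exists_over_pr (𝓞 F) hP.1
  exact ⟨w, hw, quad_ram hd hP.1 hP'.1 hne' w hw⟩

/-- With finitely many exceptions the primes in `Tset A B` are ramified in quadratic fields in the
class. -/
theorem ram_cofin {Qb : Type} [Field Qb] [CharZero Qb] [IsAlgClosed Qb]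
    [Algebra.IsAlgebraic ℚ Qb] {A B : ℤ} {S : Finset ℤ} (hS : ∀ Q ∈ S, IsPr Q ∧ Q % 8 = 1) :
    {P : ℕ | (P : ℤ) ∈ Tset A B ∧ ¬ ∃ (F : IntermediateField ℚ Qb) (_ : NumberField F),
      Cls A B S F ∧ Rm P F}.Finite := by
  refine (fin_single (A := A) (B := B) hS).subset ?_
  rintro P ⟨hP, hn⟩
  exact ⟨hP, fun ⟨P', hPP⟩ => hn (ram_pair hS hP hPP)⟩

theorem tset_inf {A B : ℤ} (h2 : (2 : ℤ) ∈ Tset A B) :
    {P : ℕ | (P : ℤ) ∈ Tset A B}.Infinite := by
  have hirr : Irreducible (X ^ 3 + C (A : ℚ) * X + C (B : ℚ) : ℚ[X]) := by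
    have := irr_tw (F := ℚ) (algebraMap ℚ ℚ_[2]) (a := A) (b := B) h2.2 one_ne_zero
    simpa using this
  refine (irr_inf hirr).mono ?_
  rintro P ⟨hP, hz⟩
  exact ⟨⟨by exact_mod_cast hP.pos, Nat.prime_iff_prime_int.1 hP⟩, hz⟩

/-- Infinitely many primes are ramified in quadratic fields in the class. -/
theorem inf_ram {Qb : Type} [Field Qb] [CharZero Qb] [IsAlgClosed Qb] [Algebra.IsAlgebraic ℚ Qb]
    {A B : ℤ} {S : Finset ℤ} (hS : ∀ Q ∈ S, IsPr Q ∧ Q % 8 = 1)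
    (h2 : (2 : ℤ) ∈ Tset A B) :
    {P : ℕ | P.Prime ∧ ∃ (F : IntermediateField ℚ Qb) (_ : NumberField F), Cls A B S F ∧
      Rm P F}.Infinite := by
  refine ((tset_inf h2).diff (ram_cofin (Qb := Qb) (A := A) (B := B) hS)).mono ?_
  rintro P ⟨hP, hn⟩
  refine ⟨Nat.prime_iff_prime_int.2 hP.1.2, ?_⟩
  by_contra hcon
  exact hn ⟨hP, hcon⟩

/-- Ramified primes remain ramified. -/
theorem rm_up {F F' : Type} [Field F] [NumberField F] [Field F'] [NumberField F'] [Algebra F F']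
    {P : ℤ} (h : Rm P F) : Rm P F' := by
  obtain ⟨w, hw, h1⟩ := h
  obtain ⟨𝔓, e, he, hv⟩ := exists_over'' (F' := F') w
  exact ⟨𝔓, (ov_iff he hv P).2 hw, fun h2 => h1 (val_sub hv h2)⟩

/-- Only finitely many primes are ramified in a number field. -/
theorem rm_fin (F : Type) [Field F] [NumberField F] :
    {P : ℕ | P.Prime ∧ Rm P F}.Finite := by
  obtain ⟨γ, g, δ, hG, -⟩ := Pool.Agent.N40.PQ.gen F
  refine (Set.finite_Iic δ.natAbs).subset ?_
  rintro P ⟨hP, w, hw, h1⟩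
  have hPr : IsPr (P : ℤ) := ⟨by exact_mod_cast hP.pos, Nat.prime_iff_prime_int.1 hP⟩
  have hd : (P : ℤ) ∣ δ := by
    by_contra hd
    exact h1 (unr_of hG hPr hd w hw)
  exact Nat.le_of_dvd (Int.natAbs_pos.2 hG.ne) (Int.natCast_dvd.1 hd)

/-- The compositum is of infinite degree. -/
theorem max_inf {Qb : Type} [Field Qb] [CharZero Qb] [IsAlgClosed Qb] [Algebra.IsAlgebraic ℚ Qb]
    {A B : ℤ} {S : Finset ℤ} (hS : ∀ Q ∈ S, IsPr Q ∧ Q % 8 = 1)
    (h2 : (2 : ℤ) ∈ Tset A B) : ¬ NumberField (maxF Qb A B S) := by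
  intro hN
  refine (inf_ram (Qb := Qb) hS h2) ((rm_fin (maxF Qb A B S)).subset ?_)
  rintro P ⟨hP, F, iF, hc, hR⟩
  refine ⟨hP, ?_⟩
  letI : Algebra F (maxF Qb A B S) :=
    (IntermediateField.inclusion (le_max (Qb := Qb) ⟨iF, hc⟩)).toRingHom.toAlgebra
  exact rm_up hR

end Pool.Agent.K9h15.Mn
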