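import Mathlib
import Pool.Agent.K9h15.CompA
import Pool.Agent.K9h15.FibC
import Pool.Agent.K9h15.TowG

/-!
# Few values of the elements of a tower under specialization: the fibre step for even divisors
-/

set_option autoImplicit false

open Height Polynomial IsDedekindDomain NumberField

namespace Pool.Agent.K9h15.Tow

open Pool.Agent.K9h15.Fib (gp rho del fib2 bad_count_fintype)
open Pool.Agent.K9h15.Comp (sg certificate)
open Pool.Agent.K9h15.Pla Pool.Agent.K9h15.Bad

variable {k : Type} [Field k] {K : Type} [Field K] [Algebra k K]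

/-- the certificate for an element with even divisor -/
lemma even_certificate (F : IntermediateField k K) {h0 : K}
    (hev : ∀ O : ValuationSubring K, (∀ z ∈ F, z ∈ O) → ∃ z : K, O.valuation (h0 * z ^ 2) = 1) :
    h0 ≠ 0 ∧ ∃ (Z W : Finset K), (∀ z ∈ Z, z ≠ 0) ∧ (W : Set K) ⊆ F ∧
      ∀ (L : Type) [Field L] [Algebra k L] (s : Sz k K L) (v : AbsoluteValue L ℝ),
        IsNonarchimedean v → h0 ∈ s.T → h0⁻¹ ∈ s.T → (∀ z ∈ Z, z ∈ s.T ∧ z⁻¹ ∈ s.T) →
        (∀ z ∈ W, z ∈ s.T ∧ v (s.ev z) ≤ 1) → ∃ z ∈ Z, v (s.ev h0 * s.ev z ^ 2) = 1 := by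
  classical
  have hne : h0 ≠ 0 := by
    rintro rfl
    obtain ⟨z, hz⟩ := hev ⊤ (fun _ _ => ValuationSubring.mem_top _)
    rw [zero_mul, map_zero] at hz
    exact zero_ne_one hz
  refine ⟨hne, ?_⟩
  let ι : Type := {z : K // z ≠ 0}
  let a : ι → K := fun i => h0 * (i : K) ^ 2
  have ha : ∀ i, a i ≠ 0 := fun i => mul_ne_zero hne (pow_ne_zero _ i.2)
  obtain ⟨Z, hZ⟩ := certificate (ι := ι) F.toSubfield a (fun i => (a i)⁻¹) ha
    (fun i => inv_ne_zero (ha i)) (by
      intro O hO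
      obtain ⟨z, hz⟩ := hev O hO
      have hz0 : z ≠ 0 := by
        rintro rfl
        rw [zero_pow two_ne_zero, mul_zero, map_zero] at hz
        exact zero_ne_one hz
      refine ⟨⟨z, hz0⟩, ?_, ?_⟩
      · rw [← ValuationSubring.valuation_le_one_iff]
        exact hz.le
      · rw [← ValuationSubring.valuation_le_one_iff, map_inv₀]
        change (O.valuation (h0 * z ^ 2))⁻¹ ≤ 1
        rw [hz, inv_one])
  choose P hP0 hPZ hP1 using hZ
  let ext : (Z → Bool) → ι → Bool := fun τ i => if hi : i ∈ Z then τ ⟨i, hi⟩ else true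
  let W : Finset K := Finset.univ.biUnion (fun τ : Z → Bool =>
    (P (ext τ)).support.image (fun m => (((P (ext τ)).coeff m : F.toSubfield) : K)))
  refine ⟨Z.image (Subtype.val : ι → K), W, ?_, ?_, ?_⟩
  · intro z hz
    obtain ⟨i, _, rfl⟩ := Finset.mem_image.1 hz
    exact i.2
  · intro z hz
    obtain ⟨τ, _, hz⟩ := Finset.mem_biUnion.1 (Finset.mem_coe.1 hz)
    obtain ⟨m, _, rfl⟩ := Finset.mem_image.1 hz
    exact ((P (ext τ)).coeff m).2
  · intro L _ _ s v hv hT hTi hTZ hTW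
    by_contra hcon
    push Not at hcon
    have hTa : ∀ i ∈ Z, a i ∈ s.T ∧ (a i)⁻¹ ∈ s.T ∧ s.ev (a i) = s.ev h0 * s.ev (i : K) ^ 2 := by
      intro i hi
      obtain ⟨h1, h2⟩ := hTZ (i : K) (Finset.mem_image_of_mem _ hi)
      refine ⟨s.T.mul_mem hT (s.T.pow_mem h1 2), ?_, ?_⟩
      · have : (a i)⁻¹ = h0⁻¹ * ((i : K)⁻¹) ^ 2 := by
          simp only [a]
          rw [mul_inv, inv_pow]
        rw [this]
        exact s.T.mul_mem hTi (s.T.pow_mem h2 2)
      · simp only [a]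
        rw [ev_mul s hT (s.T.pow_mem h1 2), ev_pow s h1]
    let τ : Z → Bool := fun i => decide (1 < v (s.ev (a i)))
    refine cert_false hv s (P (ext τ)) (fun i => sg (a i) ((a i)⁻¹) (ext τ i)) (hP0 _) (hP1 _) Z
      (hPZ _) ?_ ?_
    · intro m hm
      apply hTW
      exact Finset.mem_biUnion.2 ⟨τ, Finset.mem_univ _, Finset.mem_image.2 ⟨m, hm, rfl⟩⟩
    · intro i hi
      obtain ⟨h1, h2, h3⟩ := hTa i hi
      have h4 : ext τ i = decide (1 < v (s.ev (a i))) := by
        simp only [ext, dif_pos hi, τ]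
      have h5 := hcon (i : K) (Finset.mem_image_of_mem _ hi)
      rw [← h3] at h5
      simp only [sg, h4, decide_eq_true_eq]
      split_ifs with h6
      · refine ⟨h2, ?_⟩
        rw [ev_inv s h1 h2, map_inv₀]
        exact inv_lt_one_of_one_lt₀ h6
      · rw [inv_inv]
        exact ⟨h1, lt_of_le_of_ne (not_lt.1 h6) h5⟩

/-- **The fibre step.** -/
theorem Good.fibreE {F : IntermediateField k K} (h : Good k (F : Set K)) {t : K}
    {c m a1 a0 b1 b0 : K} (fc : c ∈ F) (fm : m ∈ F) (f1 : a1 ∈ F) (f0 : a0 ∈ F)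
    (g1 : b1 ∈ F) (g0 : b0 ∈ F) (nc : c ≠ 0) (nm' : m ≠ 0) (nr : rho a1 a0 b1 b0 ≠ 0)
    (nd : del m a1 a0 b1 b0 ≠ 0)
    (hev : ∀ O : ValuationSubring K, (∀ z ∈ F, z ∈ O) →
      ∃ z : K, O.valuation ((gp c m a1 a0 b1 b0).eval t * z ^ 2) = 1) :
    Good k {z : K | ∃ p q : K[X], (∀ j, p.coeff j ∈ F) ∧ (∀ j, q.coeff j ∈ F) ∧
      q.eval t ≠ 0 ∧ z = p.eval t / q.eval t} := by
  classical
  intro W hW
  obtain ⟨hne, Z, Wc, hZ0, hWc, hcert⟩ := even_certificate F hev
  have hpq : ∀ z : K, ∃ p q : K[X], z ∈ W → (∀ j, p.coeff j ∈ F) ∧ (∀ j, q.coeff j ∈ F) ∧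
      q.eval t ≠ 0 ∧ z = p.eval t / q.eval t := by
    intro z
    by_cases hz : z ∈ W
    · obtain ⟨p, q, h1⟩ := hW (Finset.mem_coe.2 hz)
      exact ⟨p, q, fun _ => h1⟩
    · exact ⟨0, 0, fun h => absurd h hz⟩
  choose p q hpq using hpq
  let W' : Finset K := ({c, m, a1, a0, b1, b0} : Finset K) ∪ Wc ∪
    W.biUnion (fun z => cf (p z) ∪ cf (q z))
  have hW' : (W' : Set K) ⊆ F := by
    intro z hz
    rw [Finset.mem_coe] at hz
    simp only [W', Finset.mem_union, Finset.mem_insert, Finset.mem_singleton,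
      Finset.mem_biUnion] at hz
    rcases hz with ((rfl | rfl | rfl | rfl | rfl | rfl) | hz) | ⟨z', hz', hz | hz⟩
    · exact fc
    · exact fm
    · exact f1
    · exact f0
    · exact g1
    · exact g0
    · exact hWc hz
    · obtain ⟨j, rfl⟩ := mem_cf hz; exact (hpq z' hz').1 j
    · obtain ⟨j, rfl⟩ := mem_cf hz; exact (hpq z' hz').2.1 j
  obtain ⟨C', hC', hfew⟩ := h W' hW'
  set h0 := (gp c m a1 a0 b1 b0).eval t with hh0
  refine ⟨C' ∪ (W ∪ (({t, h0⁻¹, c⁻¹, m⁻¹, (rho a1 a0 b1 b0)⁻¹, (del m a1 a0 b1 b0)⁻¹} : Finset K) ∪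
    ((Z ∪ Z.image (fun z => z⁻¹)) ∪ W.image (fun z => ((q z).eval t)⁻¹)))), fun z hz =>
      Finset.mem_union_right _ (Finset.mem_union_left _ hz), ?_⟩
  intro L _ _ _ ε hε
  obtain ⟨c1, hc1, hb⟩ := hfew L (ε / 2) (by positivity)
  obtain ⟨c2, hc2, hfib⟩ := fib2 L (ε / 4) (by positivity)
  obtain ⟨c3, hc3, hbad⟩ := bad_count_fintype (K := L) Wc (ε / 4) (by positivity)
  refine ⟨c1 * (c2 * c3), one_le_mul_of_one_le_of_one_le hc1
    (one_le_mul_of_one_le_of_one_le hc2 hc3), ?_⟩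
  intro V hV Ψ hΨ
  have h1 := hb V hV Ψ (fun s hs z hz => hΨ s hs z (Finset.mem_union_left _ hz))
  have h2 := cnt_le_of_fibre Ψ (fun s => fun w : W' => s.ev (w : K))
    (fun s => fun w : W => s.ev (w : K)) (c2 * c3 * V ^ (ε / 2)) (by
      intro s hs Ψ' hΨ'
      -- membership
      have hTW : ∀ s' ∈ Ψ, ∀ z ∈ W', z ∈ s'.T ∧ mulHeight₁ (s'.ev z) ≤ V := fun s' hs' z hz =>
        hΨ s' hs' z (Finset.mem_union_left _ (hC' hz))
      have hmem : c ∈ W' ∧ m ∈ W' ∧ a1 ∈ W' ∧ a0 ∈ W' ∧ b1 ∈ W' ∧ b0 ∈ W' := by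
        simp [W']
      obtain ⟨mc, mm, m1, m0, l1, l0⟩ := hmem
      have hcoef : ∀ P : K[X], cf P ⊆ W' → ∀ s' ∈ Ψ, ∀ j, P.coeff j ∈ s'.T ∧
          mulHeight₁ (s'.ev (P.coeff j)) ≤ V := by
        intro P hP s' hs' j
        rcases coeff_mem_cf P j with h3 | h3
        · exact hTW s' hs' _ (hP h3)
        · rw [h3, ev_zero, mulHeight₁_zero]
          exact ⟨s'.T.zero_mem, hV⟩
      have hsub : ∀ s' ∈ Ψ', s' ∈ Ψ ∧ ∀ z ∈ W', s'.ev z = s.ev z := by
        intro s' hs'
        obtain ⟨h3, h4⟩ := hΨ' s' hs'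
        exact ⟨h3, fun z hz => congrFun h4 ⟨z, hz⟩⟩
      have hspeq : ∀ P : K[X], cf P ⊆ W' → ∀ s' ∈ Ψ', sp s' P = sp s P := by
        intro P hP s' hs'
        ext j
        rw [sp_coeff, sp_coeff]
        rcases coeff_mem_cf P j with h3 | h3
        · exact (hsub s' hs').2 _ (hP h3)
        · rw [h3, ev_zero, ev_zero]
      have cWc : Wc ⊆ W' := fun z hz => by simp [W', hz]
      have cfp : ∀ z ∈ W, cf (p z) ⊆ W' := by
        intro z hz z' hz'
        refine Finset.mem_union_right _ (Finset.mem_biUnion.2 ⟨z, hz, ?_⟩)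
        exact Finset.mem_union_left _ hz'
      have cfq : ∀ z ∈ W, cf (q z) ⊆ W' := by
        intro z hz z' hz'
        refine Finset.mem_union_right _ (Finset.mem_biUnion.2 ⟨z, hz, ?_⟩)
        exact Finset.mem_union_right _ hz'
      have hex : ∀ z ∈ ({t, h0⁻¹, c⁻¹, m⁻¹, (rho a1 a0 b1 b0)⁻¹,
          (del m a1 a0 b1 b0)⁻¹} : Finset K), ∀ s' ∈ Ψ, z ∈ s'.T ∧ mulHeight₁ (s'.ev z) ≤ V := by
        intro z hz s' hs'
        exact hΨ s' hs' z (Finset.mem_union_right _ (Finset.mem_union_right _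
          (Finset.mem_union_left _ hz)))
      have hZT : ∀ z ∈ Z, ∀ s' ∈ Ψ, z ∈ s'.T ∧ z⁻¹ ∈ s'.T := by
        intro z hz s' hs'
        refine ⟨(hΨ s' hs' z (Finset.mem_union_right _ (Finset.mem_union_right _
          (Finset.mem_union_right _ (Finset.mem_union_left _ (Finset.mem_union_left _ hz)))))).1,
          (hΨ s' hs' z⁻¹ (Finset.mem_union_right _ (Finset.mem_union_right _
          (Finset.mem_union_right _ (Finset.mem_union_left _ (Finset.mem_union_right _
            (Finset.mem_image_of_mem _ hz))))))).1⟩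
      have hqi : ∀ z ∈ W, ∀ s' ∈ Ψ, ((q z).eval t)⁻¹ ∈ s'.T := by
        intro z hz s' hs'
        exact (hΨ s' hs' _ (Finset.mem_union_right _ (Finset.mem_union_right _
          (Finset.mem_union_right _ (Finset.mem_union_right _
            (Finset.mem_image_of_mem _ hz)))))).1
      -- the data of the equation at s
      have Tc := hTW s hs c mc
      have Tm := hTW s hs m mm
      have T1 := hTW s hs a1 m1
      have T0 := hTW s hs a0 m0
      have U1 := hTW s hs b1 l1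
      have U0 := hTW s hs b0 l0
      have hρ := ev_rho s T1.1 T0.1 U1.1 U0.1
      have hδ := ev_del s Tm.1 T1.1 T0.1 U1.1 U0.1
      have ec : s.ev c ≠ 0 := ev_ne_zero s nc Tc.1 (hex c⁻¹ (by simp) s hs).1
      have em : s.ev m ≠ 0 := ev_ne_zero s nm' Tm.1 (hex m⁻¹ (by simp) s hs).1
      have er : rho (s.ev a1) (s.ev a0) (s.ev b1) (s.ev b0) ≠ 0 := by
        rw [← hρ.1]
        exact ev_ne_zero s nr hρ.2 (hex _ (by simp) s hs).1
      have ed : del (s.ev m) (s.ev a1) (s.ev a0) (s.ev b1) (s.ev b0) ≠ 0 := by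
        rw [← hδ.1]
        exact ev_ne_zero s nd hδ.2 (hex _ (by simp) s hs).1
      -- the bad primes
      have hfin : {v : HeightOneSpectrum (𝓞 L) | ∃ i : Wc, 1 < av v (s.ev (i : K))}.Finite := by
        have : {v : HeightOneSpectrum (𝓞 L) | ∃ i : Wc, 1 < av v (s.ev (i : K))} =
            ⋃ i : Wc, {v : HeightOneSpectrum (𝓞 L) | 1 < av v (s.ev (i : K))} := by
          ext v; simp
        rw [this]
        exact Set.finite_iUnion fun i => finite_bad _
      have hB := hbad (fun i : Wc => s.ev (i : K)) V hV (fun i => (hTW s hs _ (cWc i.2)).2)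
        hfin.toFinset (fun v hv => by rw [Set.Finite.mem_toFinset] at hv; exact hv)
      have hS := hfib V (s.ev c) (s.ev m) (s.ev a1) (s.ev a0) (s.ev b1) (s.ev b0) hV ec em er ed
        Tm.2 T1.2 T0.2 U1.2 U0.2 hfin.toFinset
        (Ψ'.image (fun s' => s'.ev t)) (by
          intro τ hτ
          obtain ⟨s', hs', rfl⟩ := Finset.mem_image.1 hτ
          obtain ⟨hs'Ψ, heq⟩ := hsub s' hs'
          have ht := hex t (by simp) s' hs'Ψ
          have hgps' := sp_gp s' (hTW s' hs'Ψ c mc).1 (hTW s' hs'Ψ m mm).1 (hTW s' hs'Ψ a1 m1).1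
            (hTW s' hs'Ψ a0 m0).1 (hTW s' hs'Ψ b1 l1).1 (hTW s' hs'Ψ b0 l0).1
          have e1 := sp_eval s' hgps'.2 ht.1
          rw [hgps'.1, heq c mc, heq m mm, heq a1 m1, heq a0 m0, heq b1 l1, heq b0 l0] at e1
          have hi0 := (hex h0⁻¹ (by simp) s' hs'Ψ).1
          have hz0 : s'.ev h0 ≠ 0 := ev_ne_zero s' hne e1.2 hi0
          refine ⟨ht.2, by rw [e1.1]; exact hz0, ?_⟩
          intro v hv
          obtain ⟨z, hz, hzv⟩ := hcert L s' (av v) (av_nonarch v) e1.2 hi0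
            (fun z hz => hZT z hz s' hs'Ψ) (by
              intro w hw
              refine ⟨(hTW s' hs'Ψ w (cWc hw)).1, ?_⟩
              rw [heq w (cWc hw)]
              by_contra hn
              apply hv
              rw [Set.Finite.mem_toFinset]
              exact ⟨⟨w, hw⟩, not_le.1 hn⟩)
          have hzT := hZT z hz s' hs'Ψ
          have hz1 : s'.ev z ≠ 0 := ev_ne_zero s' (hZ0 z hz) hzT.1 hzT.2
          have hp0 : s'.ev h0 * s'.ev z ^ 2 ≠ 0 := mul_ne_zero hz0 (pow_ne_zero _ hz1)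
          have hu : Units.mk0 ((gp (s.ev c) (s.ev m) (s.ev a1) (s.ev a0) (s.ev b1)
              (s.ev b0)).eval (s'.ev t)) (by rw [e1.1]; exact hz0) = Units.mk0 (s'.ev h0) hz0 := by
            apply Units.ext
            exact e1.1
          rw [hu]
          refine even_ord v _ ((Units.mk0 _ hp0)⁻¹) ((Units.mk0 _ hz1)⁻¹) 1 ?_ ?_
          · apply Units.ext
            simp only [Units.val_mul, Units.val_mk0, Units.val_inv_eq_inv_val,
              Units.val_pow_eq_pow_val]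
            field_simp
          · rw [Units.val_inv_eq_inv_val, Units.val_mk0, map_inv₀, hzv, Units.val_one, one_pow,
              map_one, inv_one])
      -- the values on W are determined by the value of t
      have hcnt : cnt Ψ' (fun s => fun w : W => s.ev (w : K)) ≤
          (Ψ'.image (fun s' => s'.ev t)).card := by
        rw [cnt_eq]
        have h5 : Ψ'.image (fun s => fun w : W => s.ev (w : K)) ⊆
            (Ψ'.image (fun s' => s'.ev t)).image (fun τ => fun z : W =>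
              (sp s (p z)).eval τ / (sp s (q z)).eval τ) := by
          intro f hf
          obtain ⟨s', hs', rfl⟩ := Finset.mem_image.1 hf
          refine Finset.mem_image.2 ⟨s'.ev t, Finset.mem_image_of_mem _ hs', ?_⟩
          funext z
          obtain ⟨hs'Ψ, heq⟩ := hsub s' hs'
          have ht := hex t (by simp) s' hs'Ψ
          have e1 := sp_eval s' (fun j => (hcoef (p z) (cfp z z.2) s' hs'Ψ j).1) ht.1
          have e2 := sp_eval s' (fun j => (hcoef (q z) (cfq z z.2) s' hs'Ψ j).1) ht.1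
          rw [hspeq _ (cfp z z.2) s' hs'] at e1
          rw [hspeq _ (cfq z z.2) s' hs'] at e2
          obtain ⟨-, -, h6, h7⟩ := hpq z z.2
          have h8 : s'.ev ((q z).eval t) ≠ 0 := ev_ne_zero s' h6 e2.2 (hqi z z.2 s' hs'Ψ)
          have hzT : (z : K) ∈ s'.T := (hΨ s' hs'Ψ z (Finset.mem_union_right _
            (Finset.mem_union_left _ z.2))).1
          have h9 : (z : K) * (q z).eval t = (p z).eval t := (eq_div_iff h6).1 h7
          rw [e1.1, e2.1, div_eq_iff h8, ← h9, ev_mul s' hzT e2.2]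
        exact (Finset.card_le_card h5).trans Finset.card_image_le
      calc (cnt Ψ' (fun s => fun w : W => s.ev (w : K)) : ℝ)
          ≤ (Ψ'.image (fun s' => s'.ev t)).card := by exact_mod_cast hcnt
        _ ≤ c2 * 2 ^ hfin.toFinset.card * V ^ (ε / 4) := hS
        _ ≤ c2 * (c3 * V ^ (ε / 4)) * V ^ (ε / 4) := by gcongr
        _ = c2 * c3 * (V ^ (ε / 4) * V ^ (ε / 4)) := by ring
        _ = c2 * c3 * V ^ (ε / 2) := by
          rw [← Real.rpow_add (by linarith)]
          congr 2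
          ring)
  calc (cnt Ψ (fun s => fun w : W => s.ev (w : K)) : ℝ)
      ≤ cnt Ψ (fun s => fun w : W' => s.ev (w : K)) * (c2 * c3 * V ^ (ε / 2)) := h2
    _ ≤ (c1 * V ^ (ε / 2)) * (c2 * c3 * V ^ (ε / 2)) := by gcongr
    _ = c1 * (c2 * c3) * (V ^ (ε / 2) * V ^ (ε / 2)) := by ring
    _ = _ := by
      rw [← Real.rpow_add (by linarith)]
      ring_nf

end Pool.Agent.K9h15.Tow
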