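import Mathlib
import Pool.Agent.K9h15.TowE

/-!
# Changing the coordinate of the line
-/

set_option autoImplicit false

open Polynomial

namespace Pool.Agent.K9h15.Tow

open Pool.Agent.K9h15.Fib (gp rho del)

/-- `c (A ^ 2 - m B ^ 2)` for quadratic polynomials -/
noncomputable def gq {R : Type*} [CommRing R] (c m α2 α1 α0 β2 β1 β0 : R) : R[X] :=
  C c * ((C α2 * X ^ 2 + C α1 * X + C α0) ^ 2 - C m * (C β2 * X ^ 2 + C β1 * X + C β0) ^ 2)

lemma gq_map {R S : Type*} [CommRing R] [CommRing S] (f : R →+* S) (c m α2 α1 α0 β2 β1 β0 : R) :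
    (gq c m α2 α1 α0 β2 β1 β0).map f =
      gq (f c) (f m) (f α2) (f α1) (f α0) (f β2) (f β1) (f β0) := by
  simp [gq]

lemma gq_eval {R : Type*} [CommRing R] (c m α2 α1 α0 β2 β1 β0 t : R) :
    (gq c m α2 α1 α0 β2 β1 β0).eval t =
      c * ((α2 * t ^ 2 + α1 * t + α0) ^ 2 - m * (β2 * t ^ 2 + β1 * t + β0) ^ 2) := by
  simp [gq]

lemma gq_deriv_eval {R : Type*} [CommRing R] (c m α2 α1 α0 β2 β1 β0 t : R) :
    (gq c m α2 α1 α0 β2 β1 β0).derivative.eval t =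
      c * (2 * (α2 * t ^ 2 + α1 * t + α0) * (2 * α2 * t + α1) -
        m * (2 * (β2 * t ^ 2 + β1 * t + β0) * (2 * β2 * t + β1))) := by
  simp [gq, derivative_pow, derivative_mul]
  ring

lemma gq_natDegree {R : Type*} [CommRing R] {c m α2 α1 α0 β2 β1 β0 : R}
    (h4 : c * (α2 ^ 2 - m * β2 ^ 2) = 0) (h3 : c * (2 * (α2 * α1 - m * (β2 * β1))) = 0) :
    (gq c m α2 α1 α0 β2 β1 β0).natDegree ≤ 2 := by
  have h : gq c m α2 α1 α0 β2 β1 β0 = C (c * (α2 ^ 2 - m * β2 ^ 2)) * X ^ 4 +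
      C (c * (2 * (α2 * α1 - m * (β2 * β1)))) * X ^ 3 +
      (C (c * (α1 ^ 2 + 2 * α2 * α0 - m * (β1 ^ 2 + 2 * β2 * β0))) * X ^ 2 +
      C (c * (2 * (α1 * α0 - m * (β1 * β0)))) * X + C (c * (α0 ^ 2 - m * β0 ^ 2))) := by
    unfold gq
    simp only [C_mul, C_sub, C_add, C_pow, map_ofNat]
    ring
  rw [h, h4, h3, C_0, zero_mul, zero_mul, zero_add, zero_add]
  exact natDegree_quadratic_le

section mob

variable {E : Type*} [Field E]

/-- the new coefficients -/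
noncomputable def n0 (m Ae Be : E) : E := Ae ^ 2 - m * Be ^ 2

/-- the transformed quartic -/
noncomputable def gm (c m α2 α1 α0 β2 β1 β0 e : E) : E[X] :=
  gp (c * n0 m (α2 * e ^ 2 + α1 * e + α0) (β2 * e ^ 2 + β1 * e + β0)) m
    (((2 * α2 * e + α1) * (α2 * e ^ 2 + α1 * e + α0) -
      m * (2 * β2 * e + β1) * (β2 * e ^ 2 + β1 * e + β0)) /
        n0 m (α2 * e ^ 2 + α1 * e + α0) (β2 * e ^ 2 + β1 * e + β0))
    ((α2 * (α2 * e ^ 2 + α1 * e + α0) - m * β2 * (β2 * e ^ 2 + β1 * e + β0)) /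
        n0 m (α2 * e ^ 2 + α1 * e + α0) (β2 * e ^ 2 + β1 * e + β0))
    (((2 * β2 * e + β1) * (α2 * e ^ 2 + α1 * e + α0) -
      (2 * α2 * e + α1) * (β2 * e ^ 2 + β1 * e + β0)) /
        n0 m (α2 * e ^ 2 + α1 * e + α0) (β2 * e ^ 2 + β1 * e + β0))
    ((β2 * (α2 * e ^ 2 + α1 * e + α0) - α2 * (β2 * e ^ 2 + β1 * e + β0)) /
        n0 m (α2 * e ^ 2 + α1 * e + α0) (β2 * e ^ 2 + β1 * e + β0))

/-- the transformed quartic as a polynomial -/
lemma gm_eq {c m α2 α1 α0 β2 β1 β0 e : E}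
    (hn : n0 m (α2 * e ^ 2 + α1 * e + α0) (β2 * e ^ 2 + β1 * e + β0) ≠ 0) :
    gm c m α2 α1 α0 β2 β1 β0 e = C c *
      ((C (α2 * e ^ 2 + α1 * e + α0) * X ^ 2 + C (2 * α2 * e + α1) * X + C α2) ^ 2 -
      C m * (C (β2 * e ^ 2 + β1 * e + β0) * X ^ 2 + C (2 * β2 * e + β1) * X + C β2) ^ 2) := by
  unfold gm gp
  generalize hA : α2 * e ^ 2 + α1 * e + α0 = Ae at *
  generalize hB : β2 * e ^ 2 + β1 * e + β0 = Be at *
  generalize hA1 : 2 * α2 * e + α1 = A1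
  generalize hB1 : 2 * β2 * e + β1 = B1
  have hN : n0 m Ae Be = Ae ^ 2 - m * Be ^ 2 := rfl
  set N := n0 m Ae Be with hNdef
  have e1 : (C N : E[X]) * C N⁻¹ = 1 := by rw [← C_mul, mul_inv_cancel₀ hn, C_1]
  have e2 : (C N : E[X]) = C Ae ^ 2 - C m * C Be ^ 2 := by rw [hN]; simp
  have k1 : (C ((A1 * Ae - m * B1 * Be) / N) : E[X]) =
      (C A1 * C Ae - C m * C B1 * C Be) * C N⁻¹ := by rw [div_eq_mul_inv]; simp
  have k2 : (C ((α2 * Ae - m * β2 * Be) / N) : E[X]) =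
      (C α2 * C Ae - C m * C β2 * C Be) * C N⁻¹ := by rw [div_eq_mul_inv]; simp
  have k3 : (C ((B1 * Ae - A1 * Be) / N) : E[X]) =
      (C B1 * C Ae - C A1 * C Be) * C N⁻¹ := by rw [div_eq_mul_inv]; simp
  have k4 : (C ((β2 * Ae - α2 * Be) / N) : E[X]) =
      (C β2 * C Ae - C α2 * C Be) * C N⁻¹ := by rw [div_eq_mul_inv]; simp
  rw [k1, k2, k3, k4, C_mul]
  set i : E[X] := C N⁻¹ with hi
  have f1 : (C N : E[X]) * (X ^ 2 + (C A1 * C Ae - C m * C B1 * C Be) * i * X +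
      (C α2 * C Ae - C m * C β2 * C Be) * i) =
      (C Ae * X ^ 2 + C A1 * X + C α2) * C Ae - C m * (C Be * X ^ 2 + C B1 * X + C β2) * C Be := by
    linear_combination X ^ 2 * e2 + ((C A1 * C Ae - C m * C B1 * C Be) * X +
      (C α2 * C Ae - C m * C β2 * C Be)) * e1
  have f2 : (C N : E[X]) * ((C B1 * C Ae - C A1 * C Be) * i * X +
      (C β2 * C Ae - C α2 * C Be) * i) =
      (C Be * X ^ 2 + C B1 * X + C β2) * C Ae - (C Ae * X ^ 2 + C A1 * X + C α2) * C Be := by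
    linear_combination ((C B1 * C Ae - C A1 * C Be) * X +
      (C β2 * C Ae - C α2 * C Be)) * e1
  generalize hu : (X ^ 2 + (C A1 * C Ae - C m * C B1 * C Be) * i * X +
      (C α2 * C Ae - C m * C β2 * C Be) * i) = u at *
  generalize hv : ((C B1 * C Ae - C A1 * C Be) * i * X + (C β2 * C Ae - C α2 * C Be) * i) = v at *
  generalize hP : (C Ae * X ^ 2 + C A1 * X + C α2 : E[X]) = P at *
  generalize hQ : (C Be * X ^ 2 + C B1 * X + C β2 : E[X]) = Q at *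
  have hNne : (C N : E[X]) ≠ 0 := by rw [Ne, C_eq_zero]; exact hn
  apply mul_left_cancel₀ hNne
  have : C N * (C c * C N * (u ^ 2 - C m * v ^ 2)) =
      C c * ((C N * u) ^ 2 - C m * (C N * v) ^ 2) := by ring
  rw [this, f1, f2, e2]
  ring

lemma gm_eval {c m α2 α1 α0 β2 β1 β0 e t : E}
    (hn : n0 m (α2 * e ^ 2 + α1 * e + α0) (β2 * e ^ 2 + β1 * e + β0) ≠ 0) (ht : t ≠ e) :
    (gm c m α2 α1 α0 β2 β1 β0 e).eval (t - e)⁻¹ =
      (gq c m α2 α1 α0 β2 β1 β0).eval t * (((t - e)⁻¹) ^ 2) ^ 2 := by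
  have h0 : t - e ≠ 0 := sub_ne_zero.2 ht
  rw [gm_eq hn, gq_eval]
  simp only [eval_mul, eval_C, eval_sub, eval_pow, eval_add, eval_X]
  field_simp
  ring

lemma gm_sep_closed [IsAlgClosed E] [CharZero E] {c m α2 α1 α0 β2 β1 β0 e : E}
    (hn : n0 m (α2 * e ^ 2 + α1 * e + α0) (β2 * e ^ 2 + β1 * e + β0) ≠ 0)
    (hs : (gq c m α2 α1 α0 β2 β1 β0).Separable)
    (hd : 3 ≤ (gq c m α2 α1 α0 β2 β1 β0).natDegree) :
    (gm c m α2 α1 α0 β2 β1 β0 e).Separable := by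
  unfold Polynomial.Separable at hs ⊢
  rw [Polynomial.isCoprime_iff_aeval_ne_zero_of_isAlgClosed (k := E) E] at hs
  rw [Polynomial.isCoprime_iff_aeval_ne_zero_of_isAlgClosed (k := E) E]
  intro τ
  by_contra hcon
  push Not at hcon
  obtain ⟨h1, h2⟩ := hcon
  rw [coe_aeval_eq_eval, gm_eq hn] at h1
  rw [coe_aeval_eq_eval, gm_eq hn] at h2
  simp only [eval_mul, eval_C, eval_sub, eval_pow, eval_add, eval_X] at h1
  simp only [derivative_mul, derivative_C, derivative_sub, derivative_pow, derivative_add,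
    derivative_X, eval_mul, eval_C, eval_sub, eval_pow, eval_add, eval_X, zero_mul, zero_add,
    Nat.cast_ofNat, eval_one, mul_one, add_zero, map_ofNat, eval_ofNat] at h2
  by_cases hτ : τ = 0
  · subst hτ
    have h3 := gq_natDegree (c := c) (m := m) (α2 := α2) (α1 := α1) (α0 := α0) (β2 := β2) (β1 := β1)
      (β0 := β0) (by linear_combination h1) (by linear_combination h2 - 4 * e * h1)
    omega
  · have h3 := hs (e + τ⁻¹)
    rw [coe_aeval_eq_eval, gq_eval, gq_deriv_eval] at h3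
    rcases h3 with h3 | h3
    · apply h3
      field_simp
      linear_combination h1
    · apply h3
      field_simp
      linear_combination 4 * h1 - τ * h2

lemma gm_sep [CharZero E] {c m α2 α1 α0 β2 β1 β0 e : E}
    (hn : n0 m (α2 * e ^ 2 + α1 * e + α0) (β2 * e ^ 2 + β1 * e + β0) ≠ 0)
    (hs : (gq c m α2 α1 α0 β2 β1 β0).Separable)
    (hd : 3 ≤ (gq c m α2 α1 α0 β2 β1 β0).natDegree) :
    (gm c m α2 α1 α0 β2 β1 β0 e).Separable := by
  let f := algebraMap E (AlgebraicClosure E)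
  rw [← separable_map f]
  have h1 : (gm c m α2 α1 α0 β2 β1 β0 e).map f =
      gm (f c) (f m) (f α2) (f α1) (f α0) (f β2) (f β1) (f β0) (f e) := by
    unfold gm
    rw [gp_map]
    simp only [map_mul, map_div₀, map_sub, map_add, map_pow, map_ofNat, n0]
  rw [h1]
  have : CharZero (AlgebraicClosure E) := charZero_of_injective_algebraMap f.injective
  apply gm_sep_closed
  · have h2 : n0 (f m) (f α2 * f e ^ 2 + f α1 * f e + f α0) (f β2 * f e ^ 2 + f β1 * f e + f β0) =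
        f (n0 m (α2 * e ^ 2 + α1 * e + α0) (β2 * e ^ 2 + β1 * e + β0)) := by
      simp only [n0, map_sub, map_mul, map_add, map_pow]
    rw [h2]
    exact (map_ne_zero f).2 hn
  · rw [← gq_map, separable_map]; exact hs
  · rw [← gq_map, natDegree_map]; exact hd

end mob

end Pool.Agent.K9h15.Tow
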