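import Pool.Agent.Results.MP_6f1c57_nt.ProximityAllCurves
import Pool.Agent.Results.MP_6f1c57_nt.ProximityWindows
import Pool.Agent.R559.NP.Near

/-!
# The rings of functions of the curves over the line: countably many, and Dedekind (helper15)
-/

set_option autoImplicit false
set_option linter.all false

namespace Pool.Agent.K9h15.Np

open Polynomial IsDedekindDomain NumberField

theorem countable_poly (R : Type) [CommRing R] [Countable R] : Countable R[X] := by
  have h := Polynomial.cardinalMk_le_max (R := R)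
  rw [← Cardinal.mk_le_aleph0_iff]
  exact h.trans (max_le (Cardinal.mk_le_aleph0_iff.2 inferInstance) le_rfl)

theorem countable_rf : Countable (RatFunc ℚ) := by
  haveI := countable_poly ℚ
  have hs : Function.Surjective (fun z : ℚ[X] × nonZeroDivisors ℚ[X] =>
      IsLocalization.mk' (RatFunc ℚ) z.1 z.2) := by
    intro z
    obtain ⟨x, y, h⟩ := IsLocalization.exists_mk'_eq (nonZeroDivisors ℚ[X]) z
    exact ⟨(x, y), h⟩
  exact hs.countable

/-- For an irreducible polynomial `G` over `ℚ(t)`: the ring of the elements of the field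
`ℚ(t)[w] / (G)` which are integral over `ℚ[t]`. It is the ring of the functions with poles only over
`t = ∞` of the smooth projective curve with this function field. -/
abbrev Functions (G : (RatFunc ℚ)[X]) : Type := integralClosure ℚ[X] (AdjoinRoot G)

theorem countable_functions (G : (RatFunc ℚ)[X]) : Countable (Functions G) := by
  haveI := countable_rf
  haveI := countable_poly (RatFunc ℚ)
  haveI : Countable (AdjoinRoot G) := (AdjoinRoot.mk_surjective (g := G)).countable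
  infer_instance

section
variable (G : (RatFunc ℚ)[X]) [hG : Fact (Irreducible G)]

theorem fd : FiniteDimensional (RatFunc ℚ) (AdjoinRoot G) :=
  (AdjoinRoot.powerBasis hG.out.ne_zero).finite

theorem ded : IsDedekindDomain (Functions G) := by
  haveI := fd G
  exact integralClosure.isDedekindDomain ℚ[X] (RatFunc ℚ) (AdjoinRoot G)

theorem fin : Module.Finite ℚ[X] (Functions G) := by
  haveI := fd G
  exact IsIntegralClosure.finite ℚ[X] (RatFunc ℚ) (AdjoinRoot G) (Functions G)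

theorem fai : FaithfulSMul ℚ[X] (Functions G) := by
  rw [faithfulSMul_iff_algebraMap_injective]
  have h1 : Function.Injective (algebraMap ℚ[X] (AdjoinRoot G)) := by
    rw [IsScalarTower.algebraMap_eq ℚ[X] (RatFunc ℚ) (AdjoinRoot G)]
    exact (algebraMap (RatFunc ℚ) (AdjoinRoot G)).injective.comp
      (IsFractionRing.injective ℚ[X] (RatFunc ℚ))
  intro x y h
  apply h1
  have := congrArg (fun z : Functions G => (z : AdjoinRoot G)) h
  exact this

end

open Pool.Agent.Results.MP_6f1c57_nt.ProximityAllCurves (height coord proximity logDisc degree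
  alpha exponent exceptional)
open Pool.Agent.Results.MP_6f1c57_nt.ProximityWindows (Bad height_eq alpha_nonneg)

/-- the statement of the counting theorem, for given constants -/
def Main (c η : ℝ) : Prop :=
  ∀ (A : Type) [CommRing A] [IsDedekindDomain A] [Algebra ℚ A] [Algebra ℚ[X] A]
      [IsScalarTower ℚ ℚ[X] A] [Module.Finite ℚ[X] A] [FaithfulSMul ℚ[X] A]
      (r q : ℕ), 2 ≤ r → 3 ≤ q → ∀ a : Fin q → ℚ, Function.Injective a →
    ∀ (u : Fin q → ℕ) (y : ∀ j, Fin (u j + 1) → A),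
    (∀ j, y j 0 = coord A - algebraMap ℚ[X] A (C (a j))) →
    (∀ j i, y j i ∈ (Ideal.span {coord A - algebraMap ℚ[X] A (C (a j))}).radical) →
    ∀ κ C₀ δ : ℝ, κ ≤ q → 0 < δ →
    ∃ C : ℝ, ∀ B : ℝ, 1 ≤ B → (exceptional u y r κ C₀ B).Finite ∧
      ((exceptional u y r κ C₀ B).ncard : ℝ) ≤
        C * B ^ ((r : ℝ) * exponent (alpha r c η) r q κ + δ)

/-- the algebraic numbers -/
abbrev T : Type := {x : ℂ // IsAlgebraic ℚ x}

instance : Countable T := by
  have h : Set.Countable {x : ℂ | IsAlgebraic ℚ x} := Algebraic.countable ℚ ℂ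
  exact h.to_subtype

lemma height_nonneg {f : ℤ[X]} (hf : Irreducible f) : 0 ≤ height f := by
  unfold height
  exact div_nonneg (Real.log_nonneg (Polynomial.one_le_mahlerMeasure_of_ne_zero hf.ne_zero))
    (Nat.cast_nonneg _)

open Classical in
/-- the height of an algebraic number of degree `r` -/
noncomputable def hh (r : ℕ) (x : ℂ) : ℝ :=
  if h : ∃ f : ℤ[X], Irreducible f ∧ f.natDegree = r ∧ aeval x f = 0 then height h.choose else 0

lemma hh_eq {r : ℕ} (hr : 2 ≤ r) {x : ℂ} {f : ℤ[X]} (h1 : Irreducible f) (h2 : f.natDegree = r)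
    (h3 : aeval x f = 0) : hh r x = height f := by
  have h : ∃ f : ℤ[X], Irreducible f ∧ f.natDegree = r ∧ aeval x f = 0 := ⟨f, h1, h2, h3⟩
  rw [hh, dif_pos h]
  exact height_eq h.choose_spec.1 h1 (by rw [h.choose_spec.2.1]; omega)
    (by rw [h2, h.choose_spec.2.1]) h.choose_spec.2.2 h3

/-- the multiplicative height -/
noncomputable def HH (r : ℕ) (x : T) : ℝ := Real.exp (max 0 (hh r x.1))

lemma one_le_HH (r : ℕ) (x : T) : 1 ≤ HH r x := Real.one_le_exp (le_max_left _ _)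

lemma HH_eq {r : ℕ} (hr : 2 ≤ r) {x : T} {f : ℤ[X]} (h1 : Irreducible f) (h2 : f.natDegree = r)
    (h3 : aeval x.1 f = 0) : HH r x = Real.exp (height f) := by
  rw [HH, hh_eq hr h1 h2 h3, max_eq_right (height_nonneg h1)]

lemma count {c η : ℝ} (hM : Main c η) {G : (RatFunc ℚ)[X]} (hG : Irreducible G) {r q : ℕ}
    (hr : 2 ≤ r) (hq : 3 ≤ q) {a : Fin q → ℚ} (ha : Function.Injective a) {u : Fin q → ℕ}
    {y : ∀ j, Fin (u j + 1) → Functions G}
    (hy0 : ∀ j, y j 0 = coord (Functions G) - algebraMap ℚ[X] (Functions G) (C (a j)))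
    (hyr : ∀ j i, y j i ∈
      (Ideal.span {coord (Functions G) - algebraMap ℚ[X] (Functions G) (C (a j))}).radical)
    {κ C₀ : ℝ} (hκ : κ ≤ q) (ε : ℝ) (hε : 0 < ε) :
    ∃ M : ℝ, ∀ B : ℝ, 1 ≤ B →
      {x : T | (∃ f, Bad u y r κ C₀ f x.1) ∧ HH r x ≤ B}.Finite ∧
      (({x : T | (∃ f, Bad u y r κ C₀ f x.1) ∧ HH r x ≤ B}.ncard : ℕ) : ℝ) ≤
        M * B ^ ((r : ℝ) * max (exponent (alpha r c η) r q κ) 0 + ε) := by
  haveI : Fact (Irreducible G) := ⟨hG⟩
  haveI := ded G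
  haveI := fin G
  haveI := fai G
  obtain ⟨M, h⟩ := hM (Functions G) r q hr hq a ha u y hy0 hyr κ C₀ ε hκ hε
  refine ⟨|M|, fun B hB => ?_⟩
  obtain ⟨h1, h2⟩ := h B hB
  have hB0 : 0 < B := by linarith
  have hmaps : ∀ x ∈ {x : T | (∃ f, Bad u y r κ C₀ f x.1) ∧ HH r x ≤ B},
      x.1 ∈ exceptional u y r κ C₀ B := by
    rintro x ⟨⟨f, g1, g2, g3, g4⟩, g5⟩
    refine ⟨f, g1, g2, g3, ?_, g4⟩
    rw [HH_eq hr g1 g2 g3] at g5
    exact (Real.le_log_iff_exp_le hB0).2 g5
  have hinj : Set.InjOn (fun x : T => x.1) {x : T | (∃ f, Bad u y r κ C₀ f x.1) ∧ HH r x ≤ B} :=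
    Subtype.val_injective.injOn
  refine ⟨Set.Finite.of_injOn hmaps hinj h1, ?_⟩
  have h3 : (({x : T | (∃ f, Bad u y r κ C₀ f x.1) ∧ HH r x ≤ B}.ncard : ℕ) : ℝ) ≤
      ((exceptional u y r κ C₀ B).ncard : ℝ) := by
    exact_mod_cast Set.ncard_le_ncard_of_injOn (fun x : T => x.1) hmaps hinj h1
  refine h3.trans (h2.trans ?_)
  refine (mul_le_mul_of_nonneg_right (le_abs_self M) (Real.rpow_nonneg hB0.le _)).trans ?_
  refine mul_le_mul_of_nonneg_left ?_ (abs_nonneg M)
  refine Real.rpow_le_rpow_of_exponent_le hB ?_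
  have : (r : ℝ) * exponent (alpha r c η) r q κ ≤ r * max (exponent (alpha r c η) r q κ) 0 :=
    mul_le_mul_of_nonneg_left (le_max_left _ _) (Nat.cast_nonneg _)
  linarith

lemma exponent_continuous (α : ℝ) (r q : ℕ) : Continuous fun κ : ℝ => exponent α r q κ := by
  unfold exponent
  fun_prop

/-- the index set -/
abbrev Idx : Type := Σ (q : ℕ) (G : (RatFunc ℚ)[X]) (u : Fin q → ℕ),
  (Fin q → ℚ) × (∀ j, Fin (u j + 1) → Functions G) × ℕ × ℕ × ℚ × ℚ

theorem countable_idx : Countable Idx := by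
  haveI := countable_rf
  haveI := countable_poly (RatFunc ℚ)
  haveI := fun G => countable_functions G
  infer_instance

/-- One exceptional set for all curves. -/
theorem strict {c η : ℝ} (hM : Main c η) {s : ℝ} (hs : 0 < s) (X : Type) [MetricSpace X]
    (π : ℂ → X) : ∃ E : Set X, dimH E ≤ ENNReal.ofReal s ∧ ∀ ξ : X, ξ ∉ E →
      ∀ (r q : ℕ), 2 ≤ r → 3 ≤ q → ∀ κ τ : ℝ, κ ≤ q → 0 < τ →
        (r : ℝ) * exponent (alpha r c η) r q κ < s * τ →
      ∀ G : (RatFunc ℚ)[X], Irreducible G → ∀ a : Fin q → ℚ, Function.Injective a →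
      ∀ (u : Fin q → ℕ) (y : ∀ j, Fin (u j + 1) → Functions G),
        (∀ j, y j 0 = coord (Functions G) - algebraMap ℚ[X] (Functions G) (C (a j))) →
        (∀ j i, y j i ∈
          (Ideal.span {coord (Functions G) - algebraMap ℚ[X] (Functions G) (C (a j))}).radical) →
      ∀ C₀ A : ℝ, {x : ℂ | ∃ f : ℤ[X], Bad u y r κ C₀ f x ∧
        dist (π x) ξ ≤ A * Real.exp (height f) ^ (-τ)}.Finite := by
  classical
  have key : ∀ i : Idx, ∃ E : Set X, dimH E ≤ ENNReal.ofReal s ∧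
      (2 ≤ i.2.2.2.2.2.1 → 3 ≤ i.1 → (i.2.2.2.2.2.2.2.1 : ℝ) ≤ i.1 →
        0 < (i.2.2.2.2.2.2.2.2 : ℝ) →
        (i.2.2.2.2.2.1 : ℝ) * exponent (alpha i.2.2.2.2.2.1 c η) i.2.2.2.2.2.1 i.1
          (i.2.2.2.2.2.2.2.1 : ℝ) < s * (i.2.2.2.2.2.2.2.2 : ℝ) →
        Irreducible i.2.1 → Function.Injective i.2.2.2.1 →
        (∀ j, i.2.2.2.2.1 j 0 = coord (Functions i.2.1) -
          algebraMap ℚ[X] (Functions i.2.1) (C (i.2.2.2.1 j))) →
        (∀ j k, i.2.2.2.2.1 j k ∈ (Ideal.span {coord (Functions i.2.1) -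
          algebraMap ℚ[X] (Functions i.2.1) (C (i.2.2.2.1 j))}).radical) →
        ∀ ξ : X, ξ ∉ E → ∀ A : ℝ, {x : T | dist (π x.1) ξ ≤
          A * HH i.2.2.2.2.2.1 x ^ (-(i.2.2.2.2.2.2.2.2 : ℝ)) ∧
          ∃ f, Bad i.2.2.1 i.2.2.2.2.1 i.2.2.2.2.2.1 (i.2.2.2.2.2.2.2.1 : ℝ)
            (-(i.2.2.2.2.2.2.1 : ℝ)) f x.1}.Finite) := by
    rintro ⟨q, G, u, a, y, r, n, κ, τ⟩
    simp only
    by_cases h : 2 ≤ r ∧ 3 ≤ q ∧ (κ : ℝ) ≤ q ∧ 0 < (τ : ℝ) ∧
        (r : ℝ) * exponent (alpha r c η) r q κ < s * τ ∧ Irreducible G ∧ Function.Injective a ∧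
        (∀ j, y j 0 = coord (Functions G) - algebraMap ℚ[X] (Functions G) (C (a j))) ∧
        (∀ j k, y j k ∈
          (Ideal.span {coord (Functions G) - algebraMap ℚ[X] (Functions G) (C (a j))}).radical)
    · obtain ⟨hr, hq, hκ, hτ, he, hG, ha, hy0, hyr⟩ := h
      obtain ⟨E, hE1, hE2⟩ := Pool.Agent.R559.NP.near_dim (T := T) (X := X) (H := HH r)
        (one_le_HH r) (Bad := fun x : T => ∃ f, Bad u y r κ (-(n : ℝ)) f x.1)
        (s := (r : ℝ) * max (exponent (alpha r c η) r q κ) 0) (τ := τ)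
        (mul_nonneg (Nat.cast_nonneg _) (le_max_right _ _)) hτ
        (fun ε hε => count hM hG hr hq ha hy0 hyr hκ ε hε) (fun x => π x.1)
      refine ⟨E, hE1.trans (ENNReal.ofReal_le_ofReal ?_), fun _ _ _ _ _ _ _ _ _ => hE2⟩
      rw [div_le_iff₀ hτ]
      rcases le_total (exponent (alpha r c η) r q κ) 0 with h0 | h0
      · rw [max_eq_right h0, mul_zero]
        positivity
      · rw [max_eq_left h0]
        exact he.le
    · refine ⟨∅, by simp, fun h1 h2 h3 h4 h5 h6 h7 h8 h9 => ?_⟩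
      exact absurd ⟨h1, h2, h3, h4, h5, h6, h7, h8, h9⟩ h
  choose E hE1 hE2 using key
  haveI := countable_idx
  refine ⟨⋃ i, E i, ?_, ?_⟩
  · rw [dimH_iUnion]
    exact iSup_le hE1
  intro ξ hξ r q hr hq κ τ hκ hτ he G hG a ha u y hy0 hyr C₀ A
  rw [Set.mem_iUnion] at hξ
  push Not at hξ
  -- rational parameters
  have h1 : max 0 ((r : ℝ) * exponent (alpha r c η) r q κ / s) < τ := by
    refine max_lt hτ ?_
    rw [div_lt_iff₀ hs]
    linarith
  obtain ⟨τ', hτ1, hτ2⟩ := exists_rat_btwn h1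
  have hτ0 : 0 < (τ' : ℝ) := (le_max_left _ _).trans_lt hτ1
  have he' : (r : ℝ) * exponent (alpha r c η) r q κ < s * τ' := by
    have := (le_max_right _ _).trans_lt hτ1
    rw [div_lt_iff₀ hs] at this
    linarith
  have hcont : Continuous fun z : ℝ => (r : ℝ) * exponent (alpha r c η) r q z :=
    continuous_const.mul (exponent_continuous _ r q)
  have hopen : IsOpen {z : ℝ | (r : ℝ) * exponent (alpha r c η) r q z < s * τ'} :=
    isOpen_lt hcont continuous_const
  obtain ⟨δ, hδ, hδ'⟩ := Metric.isOpen_iff.1 hopen κ he'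
  obtain ⟨κ', hκ1, hκ2⟩ := exists_rat_btwn (show κ - δ < κ by linarith)
  have he'' : (r : ℝ) * exponent (alpha r c η) r q κ' < s * τ' := by
    apply hδ'
    rw [Metric.mem_ball, Real.dist_eq, abs_lt]
    constructor <;> linarith
  obtain ⟨n, hn⟩ := exists_nat_ge (-C₀)
  have hfin := hE2 ⟨q, G, u, a, y, r, n, κ', τ'⟩ hr hq (by simp only; linarith) hτ0 he'' hG ha
    hy0 hyr ξ (hξ _) |A|
  refine (hfin.image Subtype.val).subset ?_
  rintro x ⟨f, hf, hd⟩
  obtain ⟨g1, g2, g3, L, hL, φ, S, hφ, hS, hlt⟩ := hf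
  have halg : IsAlgebraic ℚ x := by
    have : IsAlgebraic ℤ x := ⟨f, g1.ne_zero, g3⟩
    exact this.extendScalars (RingHom.injective_int (algebraMap ℤ ℚ))
  have hh0 := height_nonneg g1
  refine ⟨⟨x, halg⟩, ⟨?_, f, g1, g2, g3, L, hL, φ, S, hφ, hS, ?_⟩, rfl⟩
  · show dist (π x) ξ ≤ |A| * HH r ⟨x, halg⟩ ^ (-(τ' : ℝ))
    rw [HH_eq hr g1 g2 (x := ⟨x, halg⟩) g3]
    have h2 : (1 : ℝ) ≤ Real.exp (height f) := Real.one_le_exp hh0
    refine hd.trans ?_
    refine (mul_le_mul_of_nonneg_right (le_abs_self A) (Real.rpow_nonneg (by positivity) _)).trans ?_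
    refine mul_le_mul_of_nonneg_left ?_ (abs_nonneg A)
    exact Real.rpow_le_rpow_of_exponent_le h2 (by linarith)
  · show logDisc L + ∑ p ∈ S, Real.log p + (-(n : ℝ)) <
      proximity S u y L φ + (degree u y - κ') * height f
    have h3 : (degree u y - κ) * height f ≤ (degree u y - κ') * height f :=
      mul_le_mul_of_nonneg_right (by linarith) hh0
    linarith

/-- The limit case. -/
theorem main {c η : ℝ} (hM : Main c η) {s : ℝ} (hs : 0 ≤ s) (X : Type) [MetricSpace X]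
    (π : ℂ → X) : ∃ E : Set X, dimH E ≤ ENNReal.ofReal s ∧ ∀ ξ : X, ξ ∉ E →
      ∀ (r q : ℕ), 2 ≤ r → 3 ≤ q → ∀ κ τ : ℝ, κ ≤ q → 0 < τ →
        (r : ℝ) * exponent (alpha r c η) r q κ ≤ s * τ →
      ∀ G : (RatFunc ℚ)[X], Irreducible G → ∀ a : Fin q → ℚ, Function.Injective a →
      ∀ (u : Fin q → ℕ) (y : ∀ j, Fin (u j + 1) → Functions G),
        (∀ j, y j 0 = coord (Functions G) - algebraMap ℚ[X] (Functions G) (C (a j))) →
        (∀ j i, y j i ∈
          (Ideal.span {coord (Functions G) - algebraMap ℚ[X] (Functions G) (C (a j))}).radical) →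
      ∀ C₀ A : ℝ, {x : ℂ | ∃ f : ℤ[X], Bad u y r κ C₀ f x ∧
        dist (π x) ξ ≤ A * Real.exp (height f) ^ (-τ)}.Finite := by
  have hpos : ∀ j : ℕ, 0 < s + 1 / ((j : ℝ) + 1) := fun j => by positivity
  choose E hE1 hE2 using fun j : ℕ => strict hM (hpos j) X π
  refine ⟨⋂ j, E j, ?_, ?_⟩
  · have hlim : Filter.Tendsto (fun j : ℕ => s + 1 / ((j : ℝ) + 1)) Filter.atTop (nhds s) := by
      have := (tendsto_one_div_add_atTop_nhds_zero_nat (𝕜 := ℝ)).const_add s
      simpa using this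
    have hl := ENNReal.tendsto_ofReal hlim
    exact ge_of_tendsto' hl fun j => (dimH_mono (Set.iInter_subset _ j)).trans (hE1 j)
  · intro ξ hξ r q hr hq κ τ hκ hτ he
    rw [Set.mem_iInter] at hξ
    push Not at hξ
    obtain ⟨j, hj⟩ := hξ
    refine hE2 j ξ hj r q hr hq κ τ hκ hτ (he.trans_lt ?_)
    have : 0 < 1 / ((j : ℝ) + 1) * τ := by positivity
    nlinarith

end Pool.Agent.K9h15.Np
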