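import Pool.Agent.K9h15.NpA

/-!
# One exceptional set for all curves: transport to all rings of functions (helper15)
-/

set_option autoImplicit false
set_option linter.all false

namespace Pool.Agent.K9h15.Np

open Polynomial IsDedekindDomain NumberField

/-- every Dedekind domain which is finite over `ℚ[t]` and contains it is one of the rings
`Functions G` -/
theorem model (A : Type) [CommRing A] [IsDedekindDomain A] [Algebra ℚ[X] A] [Module.Finite ℚ[X] A]
    [FaithfulSMul ℚ[X] A] :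
    ∃ G : (RatFunc ℚ)[X], Irreducible G ∧ Nonempty (A ≃ₐ[ℚ[X]] Functions G) := by
  let K := FractionRing A
  have hinj : Function.Injective (algebraMap ℚ[X] K) := by
    rw [IsScalarTower.algebraMap_eq ℚ[X] A K]
    exact (IsFractionRing.injective A K).comp (FaithfulSMul.algebraMap_injective ℚ[X] A)
  letI : Algebra (RatFunc ℚ) K := (IsFractionRing.lift hinj).toAlgebra
  haveI : IsScalarTower ℚ[X] (RatFunc ℚ) K := IsScalarTower.of_algebraMap_eq fun x => by
    rw [RingHom.algebraMap_toAlgebra]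
    exact (IsFractionRing.lift_algebraMap hinj x).symm
  haveI : Algebra.IsIntegral ℚ[X] A := Algebra.IsIntegral.of_finite ℚ[X] A
  haveI : FaithfulSMul ℚ[X] K := (faithfulSMul_iff_algebraMap_injective _ _).2 hinj
  haveI : Algebra.IsAlgebraic ℚ[X] A := Algebra.IsIntegral.isAlgebraic
  haveI h1 : Algebra.IsAlgebraic ℚ[X] K := (IsFractionRing.isAlgebraic_iff' ℚ[X] A K).1 inferInstance
  haveI h2 : Algebra.IsAlgebraic (RatFunc ℚ) K := IsFractionRing.comap_isAlgebraic_iff.1 h1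
  haveI h3 : IsIntegralClosure A ℚ[X] K := inferInstance
  haveI h4 : IsLocalization (Algebra.algebraMapSubmonoid A (nonZeroDivisors ℚ[X])) K :=
    IsIntegralClosure.isLocalization ℚ[X] (RatFunc ℚ) K A
  haveI h5 : FiniteDimensional (RatFunc ℚ) K :=
    Module.Finite.of_isLocalization ℚ[X] A (nonZeroDivisors ℚ[X])
  obtain ⟨α, hα⟩ := Field.exists_primitive_element (RatFunc ℚ) K
  have hint : IsIntegral (RatFunc ℚ) α := Algebra.IsIntegral.isIntegral α
  refine ⟨minpoly (RatFunc ℚ) α, minpoly.irreducible hint, ⟨?_⟩⟩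
  have e1 : K ≃ₐ[RatFunc ℚ] AdjoinRoot (minpoly (RatFunc ℚ) α) :=
    ((IntermediateField.adjoinRootEquivAdjoin (RatFunc ℚ) hint).trans
      ((IntermediateField.equivOfEq hα).trans IntermediateField.topEquiv)).symm
  exact (IsIntegralClosure.equiv ℚ[X] A K (integralClosure ℚ[X] K)).trans
    (e1.restrictScalars ℚ[X]).mapIntegralClosure

open Pool.Agent.Results.MP_6f1c57_nt.ProximityAllCurves (height coord proximity logDisc degree
  alpha exponent exceptional)
open Pool.Agent.Results.MP_6f1c57_nt.ProximityWindows (Bad height_eq alpha_nonneg)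

section
variable {A A' : Type} [CommRing A] [CommRing A'] [Algebra ℚ A] [Algebra ℚ[X] A]
  [IsScalarTower ℚ ℚ[X] A] [Algebra ℚ A'] [Algebra ℚ[X] A'] [IsScalarTower ℚ ℚ[X] A']
  (e : A ≃ₐ[ℚ[X]] A') {q : ℕ} {u : Fin q → ℕ} (y : ∀ j, Fin (u j + 1) → A)

lemma coord_map : e (coord A) = coord A' := e.commutes X

lemma degree_map : Pool.Agent.Results.MP_6f1c57_nt.ProximityAllCurves.degree u
    (fun j i => e (y j i)) = Pool.Agent.Results.MP_6f1c57_nt.ProximityAllCurves.degree u y := by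
  unfold Pool.Agent.Results.MP_6f1c57_nt.ProximityAllCurves.degree
  have h1 : Module.finrank ℚ[X] A' = Module.finrank ℚ[X] A :=
    (LinearEquiv.finrank_eq e.toLinearEquiv).symm
  have h2 : ∀ j, Module.finrank ℚ (A' ⧸ Ideal.span (Set.range fun i => e (y j i))) =
      Module.finrank ℚ (A ⧸ Ideal.span (Set.range (y j))) := by
    intro j
    have h3 : Ideal.span (Set.range fun i => e (y j i)) =
        (Ideal.span (Set.range (y j))).map ((e.restrictScalars ℚ : A ≃ₐ[ℚ] A') : A →+* A') := by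
      rw [Ideal.map_span, ← Set.range_comp]
      rfl
    exact (LinearEquiv.finrank_eq
      (Ideal.quotientEquivAlg _ _ (e.restrictScalars ℚ) h3).toLinearEquiv).symm
  rw [h1]
  congr 2
  exact Finset.sum_congr rfl fun j _ => by rw [h2 j]

lemma bad_map {r : ℕ} {κ C₀ : ℝ} {f : ℤ[X]} {x : ℂ} (h : Bad u y r κ C₀ f x) :
    Bad u (fun j i => e (y j i)) r κ C₀ f x := by
  obtain ⟨h1, h2, h3, L, hL, φ, S, hφ, hS, hlt⟩ := h
  refine ⟨h1, h2, h3, L, hL, φ.comp (e.symm : A' →+* A), S, ?_, hS, ?_⟩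
  · rw [← hφ, ← coord_map e]
    simp
  · have h4 : proximity S u (fun j i => e (y j i)) L (φ.comp (e.symm : A' →+* A)) =
        proximity S u y L φ := by
      unfold proximity
      simp
    rw [h4, degree_map]
    exact hlt

end

/-- One exceptional set for all curves. -/
theorem all {c η : ℝ} (hM : Main c η) {s : ℝ} (hs : 0 ≤ s) (X : Type) [MetricSpace X]
    (π : ℂ → X) : ∃ E : Set X, dimH E ≤ ENNReal.ofReal s ∧ ∀ ξ : X, ξ ∉ E →
      ∀ (A : Type) [CommRing A] [IsDedekindDomain A] [Algebra ℚ A] [Algebra ℚ[X] A]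
        [IsScalarTower ℚ ℚ[X] A] [Module.Finite ℚ[X] A] [FaithfulSMul ℚ[X] A]
        (r q : ℕ), 2 ≤ r → 3 ≤ q → ∀ κ τ : ℝ, κ ≤ q → 0 < τ →
        (r : ℝ) * exponent (alpha r c η) r q κ ≤ s * τ →
      ∀ a : Fin q → ℚ, Function.Injective a → ∀ (u : Fin q → ℕ) (y : ∀ j, Fin (u j + 1) → A),
        (∀ j, y j 0 = coord A - algebraMap ℚ[X] A (C (a j))) →
        (∀ j i, y j i ∈ (Ideal.span {coord A - algebraMap ℚ[X] A (C (a j))}).radical) →
      ∀ C₀ M : ℝ, {x : ℂ | ∃ f : ℤ[X], Bad u y r κ C₀ f x ∧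
        dist (π x) ξ ≤ M * Real.exp (height f) ^ (-τ)}.Finite := by
  obtain ⟨E, hE1, hE2⟩ := main hM hs X π
  refine ⟨E, hE1, fun ξ hξ A _ _ _ _ _ _ _ r q hr hq κ τ hκ hτ he a ha u y hy0 hyr C₀ M => ?_⟩
  obtain ⟨G, hG, ⟨e⟩⟩ := model A
  have h0 : ∀ j, e (coord A - algebraMap ℚ[X] A (C (a j))) =
      coord (Functions G) - algebraMap ℚ[X] (Functions G) (C (a j)) := by
    intro j
    rw [map_sub, coord_map, e.commutes]
  refine (hE2 ξ hξ r q hr hq κ τ hκ hτ he G hG a ha u (fun j i => e (y j i)) ?_ ?_ C₀ M).subset ?_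
  · intro j
    rw [hy0, h0]
  · intro j i
    obtain ⟨n, hn⟩ := hyr j i
    refine ⟨n, ?_⟩
    rw [Ideal.mem_span_singleton] at hn ⊢
    rw [← h0, ← map_pow]
    exact map_dvd e hn
  · rintro x ⟨f, hf, hd⟩
    exact ⟨f, bad_map e y hf, hd⟩

lemma exponent_two {c η : ℝ} (hc : 1 ≤ c) (hη : 0 < η) :
    exponent (alpha 2 c η) 2 3 2 = 3 / 4 := by
  have h1 : alpha 2 c η = 1 := by
    unfold alpha
    have h2 : 1 ≤ c * ((2 : ℕ) : ℝ) ^ η := by
      have : (1 : ℝ) ≤ ((2 : ℕ) : ℝ) ^ η := Real.one_le_rpow (by norm_num) hη.le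
      nlinarith
    rw [min_eq_left]
    · norm_num
    · norm_num
      norm_num at h2
      exact h2
  rw [h1]
  unfold exponent
  norm_num

end Pool.Agent.K9h15.Np
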