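import Pool.Agent.K9h15.NpB
import Pool.Agent.Results.MP_6f1c57_nt.AllFieldsHeightInequality

/-!
# Thin families of points of unbounded degree near a given point (helper15)
-/

set_option autoImplicit false
set_option linter.all false

namespace Pool.Agent.K9h15.Nq

open IsDedekindDomain NumberField Filter Topology
open Polynomial hiding degree
open Pool.Agent.Results.MP_6f1c57_nt.AllFieldsHeightInequality (height coord proximity logDisc
  degree Elts Exceptions fin_Elts)

lemma summable_fiber {ι κ : Type} (p : ι → κ) (F N : κ → ℝ) (hF : ∀ k, 0 ≤ F k)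
    (hfib : ∀ k, {i | p i = k}.Finite ∧ (({i | p i = k}.ncard : ℕ) : ℝ) ≤ N k)
    (hs : Summable fun k => N k * F k) : Summable fun i => F (p i) := by
  classical
  have hN : ∀ k, 0 ≤ N k := fun k => (Nat.cast_nonneg _).trans (hfib k).2
  refine summable_of_sum_le (c := ∑' k, N k * F k) (fun i => hF _) fun S => ?_
  rw [Finset.sum_comp]
  refine le_trans (Finset.sum_le_sum fun k _ => ?_)
    (hs.sum_le_tsum (S.image p) fun k _ => mul_nonneg (hN k) (hF k))
  rw [nsmul_eq_mul]
  refine mul_le_mul_of_nonneg_right ?_ (hF k)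
  refine le_trans ?_ (hfib k).2
  have h1 : ((S.filter fun i => p i = k : Finset ι) : Set ι) ⊆ {i | p i = k} := by
    intro i hi
    rw [Finset.mem_coe, Finset.mem_filter] at hi
    exact hi.2
  have h2 := Set.ncard_le_ncard h1 (hfib k).1
  rw [Set.ncard_coe_finset] at h2
  exact_mod_cast h2

lemma card_sigma_le {ι : Type} {α : ι → Type} (S : Set ι) (R : ∀ i, Set (α i)) {a b : ℝ}
    (hS : S.Finite) (hSa : (S.ncard : ℝ) ≤ a) (hb : 0 ≤ b)
    (hR : ∀ i ∈ S, (R i).Finite ∧ ((R i).ncard : ℝ) ≤ b) :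
    {z : Σ i, α i | z.1 ∈ S ∧ z.2 ∈ R z.1}.Finite ∧
      (({z : Σ i, α i | z.1 ∈ S ∧ z.2 ∈ R z.1}.ncard : ℕ) : ℝ) ≤ a * b := by
  classical
  have key : ∃ T : Finset (Σ i, α i), {z : Σ i, α i | z.1 ∈ S ∧ z.2 ∈ R z.1} = ↑T ∧
      (T.card : ℝ) ≤ a * b := by
    refine ⟨hS.toFinset.sigma fun i => if h : (R i).Finite then h.toFinset else ∅, ?_, ?_⟩
    · ext z
      simp only [Set.mem_ofPred_eq, Finset.coe_sigma, Set.Finite.coe_toFinset, Set.mem_sigma_iff,
        Finset.mem_coe]
      constructor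
      · rintro ⟨h1, h2⟩
        refine ⟨h1, ?_⟩
        rw [dif_pos (hR _ h1).1]
        simpa using h2
      · rintro ⟨h1, h2⟩
        refine ⟨h1, ?_⟩
        rw [dif_pos (hR _ h1).1] at h2
        simpa using h2
    · rw [Finset.card_sigma]
      push_cast
      refine (Finset.sum_le_sum (g := fun _ => b) fun i hi => ?_).trans ?_
      · have hi' : i ∈ S := by simpa using hi
        rw [dif_pos (hR i hi').1, ← Set.ncard_eq_toFinset_card _ (hR i hi').1]
        exact (hR i hi').2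
      · rw [Finset.sum_const, nsmul_eq_mul, ← Set.ncard_eq_toFinset_card _ hS]
        exact mul_le_mul_of_nonneg_right hSa hb
  obtain ⟨T, hT, hc⟩ := key
  rw [hT]
  exact ⟨T.finite_toSet, by rwa [Set.ncard_coe_finset]⟩

/-- the number fields in `ℂ` -/
abbrev NF : Type := {K : IntermediateField ℚ ℂ // NumberField K}

instance (K : NF) : NumberField K.1 := K.2

theorem countable_nf : Countable NF := by
  classical
  have hsurj : ∀ K : NF, ∃ S : Finset Np.T,
      IntermediateField.adjoin ℚ ((fun t : Np.T => t.1) '' (S : Set Np.T)) = K.1 := by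
    rintro ⟨K, hK⟩
    have h0 : FiniteDimensional ℚ K := hK.to_finiteDimensional
    obtain ⟨n, b, hb⟩ := Module.Finite.exists_fin (R := ℚ) (M := K)
    have halg : ∀ i, IsAlgebraic ℚ ((b i : K) : ℂ) := fun i =>
      (Algebra.IsAlgebraic.isAlgebraic (R := ℚ) (b i)).algHom K.val
    have himg : (fun t : Np.T => t.1) '' ((Finset.univ.image
        (fun i => (⟨(b i : ℂ), halg i⟩ : Np.T)) : Finset Np.T) : Set Np.T) =
        Set.range fun i => ((b i : K) : ℂ) := by
      ext z
      simp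
    refine ⟨Finset.univ.image (fun i => (⟨(b i : ℂ), halg i⟩ : Np.T)), ?_⟩
    rw [himg]
    apply le_antisymm
    · rw [IntermediateField.adjoin_le_iff]
      rintro _ ⟨i, rfl⟩
      exact (b i).2
    · intro x hx
      have h1 : (⟨x, hx⟩ : K) ∈ Submodule.span ℚ (Set.range b) := by rw [hb]; trivial
      have key : ∀ z : K, z ∈ Submodule.span ℚ (Set.range b) →
          (z : ℂ) ∈ IntermediateField.adjoin ℚ (Set.range fun i => ((b i : K) : ℂ)) := by
        intro z hz
        induction hz using Submodule.span_induction with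
        | mem z hz =>
          obtain ⟨i, rfl⟩ := hz
          apply IntermediateField.subset_adjoin
          exact ⟨i, rfl⟩
        | zero => exact zero_mem _
        | add z w _ _ hz hw => exact add_mem hz hw
        | smul a z _ hz =>
          have h2 : ((a • z : K) : ℂ) = algebraMap ℚ ℂ a * (z : ℂ) := by
            rw [Rat.smul_def]
            push_cast
            simp
          rw [h2]
          exact mul_mem (IntermediateField.algebraMap_mem _ a) hz
      exact key _ h1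
  choose g hg using hsurj
  have hinj : Function.Injective g := by
    intro K K' h
    apply Subtype.ext
    rw [← hg K, ← hg K', h]
  exact hinj.countable

theorem countable_elt : Countable (Σ K : NF, K.1) := by
  haveI := countable_nf
  haveI : ∀ K : NF, Countable K.1 := fun K =>
    (Module.finBasis ℚ K.1).equivFun.injective.countable
  infer_instance

/-- **Covering.** -/
theorem core {X : Type} [MetricSpace X] (π : ℂ → X) (F : Set (IntermediateField ℚ ℂ)) {D : ℕ}
    (hF : ∀ n : ℕ, {K : NF | K.1 ∈ F ∧ Module.finrank ℚ K.1 = n}.Finite ∧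
      {K : NF | K.1 ∈ F ∧ Module.finrank ℚ K.1 = n}.ncard ≤ D ^ n)
    (P : ∀ K : NF, K.1 → Prop) {s τ e C m : ℝ} (hs : 0 < s) (hτ : 0 < τ)
    (he0 : 0 ≤ e) (he : e < s * τ) (hC : 0 ≤ C) (hm : 0 ≤ m)
    (hcount : ∀ (K : NF) (h : ℝ), 0 ≤ h → {x : K.1 | P K x ∧ height x ≤ h}.Finite ∧
      (({x : K.1 | P K x ∧ height x ≤ h}.ncard : ℕ) : ℝ) ≤
        Real.exp (Module.finrank ℚ K.1 * (C + e * h))) :
    ∃ b₀ : ℝ, 0 ≤ b₀ ∧ ∃ E : Set X, dimH E ≤ ENNReal.ofReal s ∧ ∀ ξ : X, ξ ∉ E →
      {z : Σ K : NF, K.1 | z.1.1 ∈ F ∧ P z.1 z.2 ∧ b₀ ≤ height z.2 ∧ dist (π z.2) ξ ≤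
        Real.exp (Module.finrank ℚ z.1.1 * (m - τ * height z.2))}.Finite := by
  classical
  set γ : ℝ := s * τ - e with hγ
  have hγ0 : 0 < γ := by linarith
  obtain ⟨d₀, hd0, hd⟩ : ∃ d₀ : ℝ, 0 ≤ d₀ ∧ (D : ℝ) ≤ Real.exp d₀ := by
    refine ⟨(D : ℝ), Nat.cast_nonneg D, ?_⟩
    have := Real.add_one_le_exp (D : ℝ)
    linarith
  obtain ⟨b₀, hb0, hb⟩ : ∃ b₀ : ℝ, 0 ≤ b₀ ∧ d₀ + C + e + s * m + 1 ≤ γ * b₀ := by
    refine ⟨(d₀ + C + e + s * m + 1) / γ, by positivity, ?_⟩
    rw [mul_div_cancel₀ _ hγ0.ne']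
  refine ⟨b₀, hb0, ?_⟩
  let Q : (Σ K : NF, K.1) → Prop := fun z => z.1.1 ∈ F ∧ P z.1 z.2 ∧ b₀ ≤ height z.2
  haveI := countable_elt
  let n : {z // Q z} → ℕ := fun i => Module.finrank ℚ i.1.1.1
  have hn : ∀ i, 1 ≤ n i := fun i => Module.finrank_pos
  let r : {z // Q z} → ℝ := fun i => Real.exp ((n i : ℝ) * (m - τ * height i.1.2))
  let p : {z // Q z} → ℕ × ℕ := fun i => (n i, ⌊height i.1.2 - b₀⌋₊)
  let F' : ℕ × ℕ → ℝ := fun z => (2 : ℝ) ^ s * Real.exp (s * (z.1 * (m - τ * (b₀ + z.2))))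
  let N : ℕ × ℕ → ℝ := fun z => if z.1 = 0 then 0 else
    Real.exp (z.1 * (d₀ + C + e * (b₀ + z.2 + 1)))
  have hF' : ∀ k, 0 ≤ F' k := fun k => by positivity
  -- the fibres
  have hfib : ∀ k, {i | p i = k}.Finite ∧ (({i | p i = k}.ncard : ℕ) : ℝ) ≤ N k := by
    rintro ⟨n₁, k₁⟩
    by_cases hn1 : n₁ = 0
    · have h1 : {i | p i = (n₁, k₁)} = ∅ := by
        rw [Set.eq_empty_iff_forall_notMem]
        intro i hi
        have h2 : n i = n₁ := congrArg Prod.fst hi
        have := hn i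
        omega
      rw [h1]
      simp [N, hn1]
    · obtain ⟨hS1, hS2⟩ := hF n₁
      have hk0 : (0 : ℝ) ≤ b₀ + k₁ + 1 := by positivity
      have h3 := card_sigma_le (α := fun K : NF => K.1)
        {K : NF | K.1 ∈ F ∧ Module.finrank ℚ K.1 = n₁}
        (fun K => {x : K.1 | P K x ∧ height x ≤ b₀ + k₁ + 1})
        (a := Real.exp (n₁ * d₀)) (b := Real.exp (n₁ * (C + e * (b₀ + k₁ + 1)))) hS1
        (by
          have h4 : ((({K : NF | K.1 ∈ F ∧ Module.finrank ℚ K.1 = n₁}.ncard : ℕ)) : ℝ) ≤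
              (D : ℝ) ^ n₁ := by exact_mod_cast hS2
          refine h4.trans ?_
          rw [Real.exp_nat_mul]
          exact pow_le_pow_left₀ (Nat.cast_nonneg D) hd n₁)
        (Real.exp_pos _).le
        (by
          rintro K ⟨-, hK⟩
          have h5 := hcount K (b₀ + k₁ + 1) hk0
          rw [hK] at h5
          exact h5)
      have hmaps : ∀ i ∈ {i | p i = (n₁, k₁)}, i.1 ∈ {z : Σ K : NF, K.1 |
          z.1 ∈ {K : NF | K.1 ∈ F ∧ Module.finrank ℚ K.1 = n₁} ∧
          z.2 ∈ {x : z.1.1 | P z.1 x ∧ height x ≤ b₀ + k₁ + 1}} := by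
        rintro ⟨z, hz1, hz2, hz3⟩ hi
        have h6 : Module.finrank ℚ z.1.1 = n₁ := congrArg Prod.fst hi
        have h7 : ⌊height z.2 - b₀⌋₊ = k₁ := congrArg Prod.snd hi
        refine ⟨⟨hz1, h6⟩, hz2, ?_⟩
        have h8 := Nat.lt_floor_add_one (height z.2 - b₀)
        rw [h7] at h8
        linarith
      have hinj : Set.InjOn (fun i : {z // Q z} => i.1) {i | p i = (n₁, k₁)} :=
        Subtype.val_injective.injOn
      refine ⟨Set.Finite.of_injOn hmaps hinj h3.1, ?_⟩
      have h9 := Set.ncard_le_ncard_of_injOn (fun i : {z // Q z} => i.1) hmaps hinj h3.1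
      have h9 := (Nat.cast_le (α := ℝ)).2 h9
      refine h9.trans (h3.2.trans (le_of_eq ?_))
      simp only [N, if_neg hn1]
      rw [← Real.exp_add]
      congr 1
      ring
  -- the sum over the fibres
  have hsum : Summable fun k => N k * F' k := by
    have h1 : Summable fun z : ℕ × ℕ => Real.exp (-(z.1 : ℝ)) * Real.exp (-γ) ^ z.2 := by
      refine Summable.mul_of_nonneg Real.summable_exp_neg_nat ?_ (fun _ => (Real.exp_pos _).le)
        (fun _ => by positivity)
      exact summable_geometric_of_lt_one (Real.exp_pos _).le (by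
        rw [Real.exp_lt_one_iff]
        linarith)
    refine Summable.of_nonneg_of_le (fun k => ?_) (fun k => ?_) (h1.mul_left ((2 : ℝ) ^ s))
    · refine mul_nonneg ?_ (hF' k)
      simp only [N]
      split_ifs
      · exact le_rfl
      · exact (Real.exp_pos _).le
    · obtain ⟨n₁, k₁⟩ := k
      by_cases hn1 : n₁ = 0
      · simp only [N, if_pos hn1, zero_mul]
        positivity
      · simp only [N, F', if_neg hn1]
        rw [mul_left_comm, ← Real.exp_add, ← Real.exp_nat_mul, ← Real.exp_add]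
        refine mul_le_mul_of_nonneg_left (Real.exp_le_exp.2 ?_) (by positivity)
        have hn2 : (1 : ℝ) ≤ n₁ := by exact_mod_cast Nat.one_le_iff_ne_zero.2 hn1
        have hk2 : (0 : ℝ) ≤ k₁ := Nat.cast_nonneg _
        have e1 : (n₁ : ℝ) * (d₀ + C + e * (b₀ + k₁ + 1)) + s * (n₁ * (m - τ * (b₀ + k₁))) =
            n₁ * ((d₀ + C + e + s * m + 1 - γ * b₀) - 1 - γ * k₁) := by
          rw [hγ]
          ring
        rw [e1]
        have h2 : (d₀ + C + e + s * m + 1 - γ * b₀) - 1 - γ * k₁ ≤ -1 - γ * k₁ := by linarith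
        have h3 : (n₁ : ℝ) * ((d₀ + C + e + s * m + 1 - γ * b₀) - 1 - γ * k₁) ≤
            n₁ * (-1 - γ * k₁) := mul_le_mul_of_nonneg_left h2 (by linarith)
        have h4 : 0 ≤ γ * k₁ := by positivity
        nlinarith
  have hsum2 := summable_fiber p F' N hF' hfib hsum
  have hr : ∀ i, 0 < r i := fun i => Real.exp_pos _
  have hsum3 : Summable fun i => (2 * r i) ^ s := by
    refine Summable.of_nonneg_of_le (fun i => by have := hr i; positivity) (fun i => ?_) hsum2
    rw [Real.mul_rpow (by norm_num) (hr i).le]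
    refine mul_le_mul_of_nonneg_left ?_ (by positivity)
    show Real.exp ((n i : ℝ) * (m - τ * height i.1.2)) ^ s ≤
      Real.exp (s * ((n i : ℝ) * (m - τ * (b₀ + ⌊height i.1.2 - b₀⌋₊))))
    rw [← Real.exp_mul, mul_comm _ s]
    refine Real.exp_le_exp.2 (mul_le_mul_of_nonneg_left ?_ hs.le)
    refine mul_le_mul_of_nonneg_left ?_ (Nat.cast_nonneg _)
    have h1 : 0 ≤ height i.1.2 - b₀ := by
      have := i.2.2.2
      linarith
    have h2 := Nat.floor_le h1
    have h3 : τ * (b₀ + ⌊height i.1.2 - b₀⌋₊) ≤ τ * height i.1.2 :=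
      mul_le_mul_of_nonneg_left (by linarith) hτ.le
    linarith
  refine ⟨{ξ | {i : {z // Q z} | ξ ∈ Metric.closedBall (π i.1.2) (r i)}.Infinite}, ?_, ?_⟩
  · refine Pool.Agent.R425.MK.dimH_limsup
      (fun i : {z // Q z} => Metric.closedBall (π i.1.2) (r i)) (fun i => 2 * r i)
      (fun i => by have := hr i; positivity) (fun i => ?_) hs hsum3
    refine Metric.ediam_le fun a ha b hb => ?_
    rw [Metric.mem_closedBall] at ha hb
    rw [edist_dist]
    apply ENNReal.ofReal_le_ofReal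
    have := dist_triangle_right a b (π i.1.2)
    linarith
  · intro ξ hξ
    simp only [Set.mem_ofPred_eq, Set.not_infinite] at hξ
    refine (hξ.image Subtype.val).subset ?_
    rintro z ⟨h1, h2, h3, h4⟩
    refine ⟨⟨z, h1, h2, h3⟩, ?_, rfl⟩
    simp only [Set.mem_ofPred_eq, Metric.mem_closedBall]
    rw [dist_comm]
    exact h4

end Pool.Agent.K9h15.Nq
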