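import Pool.Agent.K9h15.NqA

/-!
# The height inequality over families of number fields of unbounded degree near a given point (helper15)
-/

set_option autoImplicit false
set_option linter.all false

namespace Pool.Agent.K9h15.Nq

open IsDedekindDomain NumberField Filter Topology
open Polynomial hiding degree
open Pool.Agent.Results.MP_6f1c57_nt.AllFieldsHeightInequality (height coord proximity logDisc
  degree Elts Exceptions fin_Elts)
open Pool.Agent.K9h15.Np (Functions Idx)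

/-- The inequality
`m_S(F, P) + (q - κ - (∑_j dim (A / (y_{j 0}, …))) / N) h(x) ≤ d(L) + ∑_{p ∈ S} log p + c` fails for
some point `P = φ` above `x`, defined over a number field `L ⊇ K`, and some `S`. -/
def Fails (K : Type) [Field K] [NumberField K] {A : Type} [CommRing A] [Algebra ℚ A]
    [Algebra ℚ[X] A] {q : ℕ} (u : Fin q → ℕ) (y : ∀ j, Fin (u j + 1) → A) (κ c : ℝ) (x : K) :
    Prop :=
  ∃ (L : Type) (_ : Field L) (_ : NumberField L) (_ : Algebra K L) (φ : A →+* L) (S : Finset ℕ),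
    φ (coord A) = algebraMap K L x ∧ (∀ p ∈ S, p.Prime) ∧
      logDisc L + ∑ p ∈ S, Real.log p + c < proximity S u y L φ + (degree u y - κ) * height x

lemma height_nonneg {K : Type} [Field K] [NumberField K] (x : K) : 0 ≤ height x := by
  have h1 := Pool.Agent.Results.MP_6f1c57_nt.AllFieldsHeightInequality.height_eq x
  have h2 : 0 ≤ Real.log (Height.mulHeight₁ x) := Real.log_nonneg (Height.one_le_mulHeight₁ x)
  have h3 : (0 : ℝ) < Module.finrank ℚ K := by exact_mod_cast Module.finrank_pos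
  rw [h1] at h2
  exact nonneg_of_mul_nonneg_right h2 h3

lemma height_rat (K : Type) [Field K] [NumberField K] (a : ℚ) :
    height (a : K) = height (a : ℚ) := by
  have h1 := Pool.Agent.W223.AC.MK.log_height_ext K (K := ℚ) a
  rw [Pool.Agent.Results.MP_6f1c57_nt.AllFieldsHeightInequality.height_eq,
    Pool.Agent.Results.MP_6f1c57_nt.AllFieldsHeightInequality.height_eq, eq_ratCast] at h1
  have h3 : (0 : ℝ) < Module.finrank ℚ K := by exact_mod_cast Module.finrank_pos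
  have h4 := mul_left_cancel₀ h3.ne' h1
  rw [h4, Module.finrank_self]
  simp

lemma Fails.mono {K : Type} [Field K] [NumberField K] {A : Type} [CommRing A] [Algebra ℚ A]
    [Algebra ℚ[X] A] {q : ℕ} {u : Fin q → ℕ} {y : ∀ j, Fin (u j + 1) → A} {κ c κ' c' : ℝ} {x : K}
    (h : Fails K u y κ c x) (hκ : κ' ≤ κ) (hc : c' ≤ c) : Fails K u y κ' c' x := by
  obtain ⟨L, i1, i2, i3, φ, S, h1, h2, h3⟩ := h
  refine ⟨L, i1, i2, i3, φ, S, h1, h2, ?_⟩
  have h4 : (degree u y - κ) * height x ≤ (degree u y - κ') * height x :=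
    mul_le_mul_of_nonneg_right (by linarith) (height_nonneg x)
  linarith

lemma count (A : Type) [CommRing A] [IsDedekindDomain A] [Algebra ℚ A] [Algebra ℚ[X] A]
    [IsScalarTower ℚ ℚ[X] A] [Module.Finite ℚ[X] A] [FaithfulSMul ℚ[X] A]
    {q : ℕ} (hq : 3 ≤ q) {a : Fin q → ℚ} (ha : Function.Injective a)
    {u : Fin q → ℕ} {y : ∀ j, Fin (u j + 1) → A}
    (hy0 : ∀ j, y j 0 = coord A - algebraMap ℚ[X] A (C (a j)))
    (hyr : ∀ j i, y j i ∈ (Ideal.span {coord A - algebraMap ℚ[X] A (C (a j))}).radical)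
    {κ c e : ℝ} (hκ0 : 0 < κ) (hκ : κ ≤ 2) (he : 2 - 2 * κ / q < e) :
    ∃ C : ℝ, 0 ≤ C ∧ ∀ (K : Type) [Field K] [NumberField K] (h : ℝ), 0 ≤ h →
      {x : K | ((∀ j, x ≠ (a j : K)) ∧ Fails K u y κ c x) ∧ height x ≤ h}.Finite ∧
      (({x : K | ((∀ j, x ≠ (a j : K)) ∧ Fails K u y κ c x) ∧ height x ≤ h}.ncard : ℕ) : ℝ) ≤
        Real.exp (Module.finrank ℚ K * (C + e * h)) := by
  have hq0 : (3 : ℝ) ≤ q := by exact_mod_cast hq
  have hqp : (0 : ℝ) < q := by linarith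
  obtain ⟨ε, hε⟩ : ∃ ε : ℝ, ε = min (min κ 1) ((e - (2 - 2 * κ / q)) * q / 2) := ⟨_, rfl⟩
  have hε0 : 0 < ε := by
    rw [hε]
    refine lt_min (lt_min hκ0 one_pos) ?_
    have : 0 < e - (2 - 2 * κ / q) := by linarith
    positivity
  have hε1 : ε ≤ 1 := by rw [hε]; exact (min_le_left _ _).trans (min_le_right _ _)
  have hεκ : ε ≤ κ := by rw [hε]; exact (min_le_left _ _).trans (min_le_left _ _)
  have hεe : 2 * ε / q ≤ e - (2 - 2 * κ / q) := by
    rw [div_le_iff₀ hqp]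
    have : ε ≤ (e - (2 - 2 * κ / q)) * q / 2 := by rw [hε]; exact min_le_right _ _
    linarith
  have hexp : 2 - 2 * (κ - ε) / q - ε / (2 * q) ≤ e := by
    have h1 : 0 ≤ ε / (2 * q) := by positivity
    have h2 : 2 * (κ - ε) / q = 2 * κ / q - 2 * ε / q := by ring
    rw [h2]
    linarith
  obtain ⟨⟨C', hC', h⟩, -⟩ :=
    Pool.Agent.Results.MP_6f1c57_nt.AllFieldsHeightInequality.result.1 A q hq a ha u y hy0 hyr
      (κ - ε) ε c (by linarith) (by linarith) hε0 hε1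
  refine ⟨|Real.log C'|, abs_nonneg _, fun K _ _ t ht => ?_⟩
  have hB : 1 ≤ Real.exp t := Real.one_le_exp ht
  obtain ⟨h1, h2⟩ := h K (Real.exp t) hB
  have hsub : {x : K | ((∀ j, x ≠ (a j : K)) ∧ Fails K u y κ c x) ∧ height x ≤ t} ⊆
      Exceptions K a u y (κ - ε) ε c (Real.exp t) := by
    rintro x ⟨⟨h3, L, i1, i2, i3, φ, S, h4, h5, h6⟩, h7⟩
    refine ⟨?_, h3, L, i1, i2, i3, φ, S, h4, h5, ?_⟩
    · show height x ≤ Real.log (Real.exp t)
      rwa [Real.log_exp]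
    · have e1 : (degree u y - (κ - ε)) * height x =
          (degree u y - κ) * height x + ε * height x := by ring
      rw [e1]
      linarith
  have hfin : (Exceptions K a u y (κ - ε) ε c (Real.exp t)).Finite :=
    h1.subset fun x hx => hx.1
  refine ⟨hfin.subset hsub, ?_⟩
  have h8 := (Nat.cast_le (α := ℝ)).2 (Set.ncard_le_ncard hsub hfin)
  refine h8.trans (h2.trans ?_)
  rw [Real.exp_nat_mul]
  refine pow_le_pow_left₀ (by positivity) ?_ _
  rw [← Real.exp_log hC', ← Real.exp_mul, ← Real.exp_add, Real.log_exp]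
  refine Real.exp_le_exp.2 ?_
  have h9 := le_abs_self (Real.log C')
  have h10 : t * (2 - 2 * (κ - ε) / q - ε / (2 * q)) ≤ t * e := mul_le_mul_of_nonneg_left hexp ht
  linarith

section
variable {A A' : Type} [CommRing A] [CommRing A'] [Algebra ℚ A] [Algebra ℚ[X] A]
  [IsScalarTower ℚ ℚ[X] A] [Algebra ℚ A'] [Algebra ℚ[X] A'] [IsScalarTower ℚ ℚ[X] A']
  (e : A ≃ₐ[ℚ[X]] A') {q : ℕ} {u : Fin q → ℕ} (y : ∀ j, Fin (u j + 1) → A)

lemma coord_map : e (coord A) = coord A' := e.commutes X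

lemma degree_map : degree u (fun j i => e (y j i)) = degree u y := by
  unfold degree
  have h1 : Module.finrank ℚ[X] A' = Module.finrank ℚ[X] A :=
    (LinearEquiv.finrank_eq e.toLinearEquiv).symm
  have h2 : ∀ j, Module.finrank ℚ (A' ⧸ Ideal.span (Set.range fun i => e (y j i))) =
      Module.finrank ℚ (A ⧸ Ideal.span (Set.range (y j))) := by
    intro j
    have h3 : Ideal.span (Set.range fun i => e (y j i)) =
        (Ideal.span (Set.range (y j))).map ((e.restrictScalars ℚ : A ≃ₐ[ℚ] A') : A →+* A') := by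
      rw [Ideal.map_span, ← Set.range_comp]
      rfl
    exact (LinearEquiv.finrank_eq
      (Ideal.quotientEquivAlg _ _ (e.restrictScalars ℚ) h3).toLinearEquiv).symm
  rw [h1]
  congr 2
  exact Finset.sum_congr rfl fun j _ => by rw [h2 j]

lemma fails_map {K : Type} [Field K] [NumberField K] {κ c : ℝ} {x : K}
    (h : Fails K u y κ c x) : Fails K u (fun j i => e (y j i)) κ c x := by
  obtain ⟨L, i1, i2, i3, φ, S, hφ, hS, hlt⟩ := h
  refine ⟨L, i1, i2, i3, φ.comp (e.symm : A' →+* A), S, ?_, hS, ?_⟩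
  · rw [← hφ, ← coord_map e]
    simp
  · have h4 : proximity S u (fun j i => e (y j i)) L (φ.comp (e.symm : A' →+* A)) =
        proximity S u y L φ := by
      unfold proximity
      simp
    rw [h4, degree_map]
    exact hlt

end

/-- the families of number fields which are considered: at most `D ^ n` fields of degree `n` -/
def Thin (F : Set (IntermediateField ℚ ℂ)) : Prop :=
  ∃ D : ℕ, ∀ n : ℕ, {K : NF | K.1 ∈ F ∧ Module.finrank ℚ K.1 = n}.Finite ∧
    {K : NF | K.1 ∈ F ∧ Module.finrank ℚ K.1 = n}.ncard ≤ D ^ n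

theorem strict {s : ℝ} (hs : 0 < s) (X : Type) [MetricSpace X] (π : ℂ → X) {ι : Type}
    [Countable ι] (F : ι → Set (IntermediateField ℚ ℂ)) (hF : ∀ i, Thin (F i)) :
    ∃ E : Set X, dimH E ≤ ENNReal.ofReal s ∧ ∀ ξ : X, ξ ∉ E → ∀ (i : ι) (q : ℕ), 3 ≤ q →
      ∀ κ τ : ℝ, 0 < κ → κ ≤ 2 → 0 < τ → 2 - 2 * κ / q < s * τ →
      ∀ G : (RatFunc ℚ)[X], Irreducible G → ∀ a : Fin q → ℚ, Function.Injective a →
      ∀ (u : Fin q → ℕ) (y : ∀ j, Fin (u j + 1) → Functions G),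
        (∀ j, y j 0 = coord (Functions G) - algebraMap ℚ[X] (Functions G) (C (a j))) →
        (∀ j i, y j i ∈
          (Ideal.span {coord (Functions G) - algebraMap ℚ[X] (Functions G) (C (a j))}).radical) →
      ∀ c M : ℝ, ∃ b : ℝ, {z : Σ K : NF, K.1 | z.1.1 ∈ F i ∧ Fails z.1.1 u y κ c z.2 ∧
        b ≤ height z.2 ∧ dist (π z.2) ξ ≤ M ^ Module.finrank ℚ z.1.1 *
          Real.exp (Module.finrank ℚ z.1.1 * height z.2) ^ (-τ)}.Finite := by
  classical
  have key : ∀ i : ι × Idx, ∃ E : Set X, dimH E ≤ ENNReal.ofReal s ∧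
      (3 ≤ i.2.1 → 0 < (i.2.2.2.2.2.2.2.2.1 : ℝ) → (i.2.2.2.2.2.2.2.2.1 : ℝ) ≤ 2 →
        0 < (i.2.2.2.2.2.2.2.2.2 : ℝ) →
        2 - 2 * (i.2.2.2.2.2.2.2.2.1 : ℝ) / i.2.1 < s * (i.2.2.2.2.2.2.2.2.2 : ℝ) →
        Irreducible i.2.2.1 → Function.Injective i.2.2.2.2.1 →
        (∀ j, i.2.2.2.2.2.1 j 0 = coord (Functions i.2.2.1) -
          algebraMap ℚ[X] (Functions i.2.2.1) (C (i.2.2.2.2.1 j))) →
        (∀ j k, i.2.2.2.2.2.1 j k ∈ (Ideal.span {coord (Functions i.2.2.1) -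
          algebraMap ℚ[X] (Functions i.2.2.1) (C (i.2.2.2.2.1 j))}).radical) →
        ∀ ξ : X, ξ ∉ E → ∃ b : ℝ, 0 ≤ b ∧ {z : Σ K : NF, K.1 | z.1.1 ∈ F i.1 ∧
          Fails z.1.1 i.2.2.2.1 i.2.2.2.2.2.1 (i.2.2.2.2.2.2.2.2.1 : ℝ)
            (-(i.2.2.2.2.2.2.2.1 : ℝ)) z.2 ∧
          b ≤ height z.2 ∧ dist (π z.2) ξ ≤ Real.exp (Module.finrank ℚ z.1.1 *
            ((i.2.2.2.2.2.2.1 : ℝ) - (i.2.2.2.2.2.2.2.2.2 : ℝ) * height z.2))}.Finite) := by
    rintro ⟨i, q, G, u, a, y, m, n, κ, τ⟩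
    simp only
    by_cases h : 3 ≤ q ∧ 0 < (κ : ℝ) ∧ (κ : ℝ) ≤ 2 ∧ 0 < (τ : ℝ) ∧
        2 - 2 * (κ : ℝ) / q < s * (τ : ℝ) ∧ Irreducible G ∧ Function.Injective a ∧
        (∀ j, y j 0 = coord (Functions G) - algebraMap ℚ[X] (Functions G) (C (a j))) ∧
        (∀ j k, y j k ∈
          (Ideal.span {coord (Functions G) - algebraMap ℚ[X] (Functions G) (C (a j))}).radical)
    · obtain ⟨hq, hκ0, hκ, hτ, he, hG, ha, hy0, hyr⟩ := h
      haveI : Fact (Irreducible G) := ⟨hG⟩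
      haveI := Np.ded G
      haveI := Np.fin G
      haveI := Np.fai G
      have hq0 : (3 : ℝ) ≤ q := by exact_mod_cast hq
      have he0 : 0 < 2 - 2 * (κ : ℝ) / q := by
        rw [sub_pos, div_lt_iff₀ (by linarith)]
        linarith
      obtain ⟨C₁, hC₁, hcount⟩ := count (Functions G) hq ha hy0 hyr (c := -(n : ℝ))
        (e := ((2 - 2 * (κ : ℝ) / q) + s * τ) / 2) hκ0 hκ (by linarith)
      obtain ⟨D, hD⟩ := hF i
      obtain ⟨b₀, hb0, E, hE1, hE2⟩ := core π (F i) hD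
        (fun K x => (∀ j, x ≠ (a j : K.1)) ∧ Fails K.1 u y (κ : ℝ) (-(n : ℝ)) x) hs hτ
        (e := ((2 - 2 * (κ : ℝ) / q) + s * τ) / 2) (m := (m : ℝ)) (by linarith) (by linarith) hC₁
        (Nat.cast_nonneg m) (fun K h hh => hcount K.1 h hh)
      refine ⟨E, hE1, fun _ _ _ _ _ _ _ _ _ ξ hξ => ?_⟩
      obtain ⟨b₁, hb₁⟩ : ∃ b₁ : ℝ, ∀ j, height (a j : ℚ) < b₁ :=
        ⟨(∑ j, height (a j : ℚ)) + 1, fun j => by
          have := Finset.single_le_sum (f := fun j => height (a j : ℚ))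
            (fun j _ => height_nonneg _) (Finset.mem_univ j)
          exact lt_of_le_of_lt this (lt_add_one _)⟩
      refine ⟨max b₀ b₁, hb0.trans (le_max_left _ _), (hE2 ξ hξ).subset ?_⟩
      rintro z ⟨h1, h2, h3, h4⟩
      refine ⟨h1, ⟨fun j hj => ?_, h2⟩, (le_max_left _ _).trans h3, h4⟩
      have h5 := (le_max_right _ _).trans h3
      rw [hj, height_rat] at h5
      exact absurd (hb₁ j) (not_lt.2 h5)
    · refine ⟨∅, by simp, fun h1 h2 h3 h4 h5 h6 h7 h8 h9 => ?_⟩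
      exact absurd ⟨h1, h2, h3, h4, h5, h6, h7, h8, h9⟩ h
  choose E hE1 hE2 using key
  haveI := Np.countable_idx
  refine ⟨⋃ i, E i, ?_, ?_⟩
  · rw [dimH_iUnion]
    exact iSup_le hE1
  intro ξ hξ i q hq κ τ hκ0 hκ hτ he G hG a ha u y hy0 hyr c M
  rw [Set.mem_iUnion] at hξ
  push Not at hξ
  have hq0 : (3 : ℝ) ≤ q := by exact_mod_cast hq
  have hqp : (0 : ℝ) < q := by linarith
  -- rational parameters
  have h1 : max 0 ((2 - 2 * κ / q) / s) < τ := by
    refine max_lt hτ ?_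
    rw [div_lt_iff₀ hs]
    linarith
  obtain ⟨τ', hτ1, hτ2⟩ := exists_rat_btwn h1
  have hτ0 : 0 < (τ' : ℝ) := (le_max_left _ _).trans_lt hτ1
  have he' : 2 - 2 * κ / q < s * τ' := by
    have := (le_max_right _ _).trans_lt hτ1
    rw [div_lt_iff₀ hs] at this
    linarith
  have h2 : max 0 ((2 - s * τ') * q / 2) < κ := by
    refine max_lt hκ0 ?_
    rw [div_lt_iff₀ (by norm_num)]
    have h3 : 2 - s * τ' < 2 * κ / q := by linarith
    rw [lt_div_iff₀ hqp] at h3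
    linarith
  obtain ⟨κ', hκ1, hκ2⟩ := exists_rat_btwn h2
  have hκ3 : 0 < (κ' : ℝ) := (le_max_left _ _).trans_lt hκ1
  have he'' : 2 - 2 * (κ' : ℝ) / q < s * τ' := by
    have h3 := (le_max_right _ _).trans_lt hκ1
    have h4 : 2 - s * τ' < 2 * κ' / q := by
      rw [lt_div_iff₀ hqp]
      linarith
    linarith
  obtain ⟨n, hn⟩ := exists_nat_ge (-c)
  obtain ⟨m, hm⟩ := exists_nat_ge |M|
  obtain ⟨b, hb0, hb⟩ := hE2 ⟨i, q, G, u, a, y, m, n, κ', τ'⟩ hq hκ3 (by simp only; linarith) hτ0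
    he'' hG ha hy0 hyr ξ (hξ _)
  refine ⟨b, hb.subset ?_⟩
  rintro z ⟨g1, g2, g3, g4⟩
  refine ⟨g1, g2.mono (by simp only; linarith) (by simp only; linarith), g3, g4.trans ?_⟩
  simp only
  have hM : |M| ≤ Real.exp m := by
    have := Real.add_one_le_exp (m : ℝ)
    linarith
  have hN : (0 : ℝ) ≤ Module.finrank ℚ z.1.1 := Nat.cast_nonneg _
  have hh : 0 ≤ height z.2 := hb0.trans g3
  calc M ^ Module.finrank ℚ z.1.1 * Real.exp (Module.finrank ℚ z.1.1 * height z.2) ^ (-τ)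
      ≤ Real.exp m ^ Module.finrank ℚ z.1.1 *
        Real.exp (Module.finrank ℚ z.1.1 * height z.2) ^ (-τ) := by
        refine mul_le_mul_of_nonneg_right ?_ (by positivity)
        refine (le_abs_self _).trans ?_
        rw [abs_pow]
        exact pow_le_pow_left₀ (abs_nonneg _) hM _
    _ = Real.exp (Module.finrank ℚ z.1.1 * (m - τ * height z.2)) := by
        rw [← Real.exp_nat_mul, ← Real.exp_mul, ← Real.exp_add]
        congr 1
        ring
    _ ≤ Real.exp (Module.finrank ℚ z.1.1 * (m - τ' * height z.2)) := by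
        refine Real.exp_le_exp.2 (mul_le_mul_of_nonneg_left ?_ hN)
        have : τ' * height z.2 ≤ τ * height z.2 := mul_le_mul_of_nonneg_right hτ2.le hh
        linarith

/-- The limit case. -/
theorem main {s : ℝ} (hs : 0 ≤ s) (X : Type) [MetricSpace X] (π : ℂ → X) {ι : Type}
    [Countable ι] (F : ι → Set (IntermediateField ℚ ℂ)) (hF : ∀ i, Thin (F i)) :
    ∃ E : Set X, dimH E ≤ ENNReal.ofReal s ∧ ∀ ξ : X, ξ ∉ E → ∀ (i : ι) (q : ℕ), 3 ≤ q →
      ∀ κ τ : ℝ, 0 < κ → κ ≤ 2 → 0 < τ → 2 - 2 * κ / q ≤ s * τ →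
      ∀ (A : Type) [CommRing A] [IsDedekindDomain A] [Algebra ℚ A] [Algebra ℚ[X] A]
        [IsScalarTower ℚ ℚ[X] A] [Module.Finite ℚ[X] A] [FaithfulSMul ℚ[X] A]
        (a : Fin q → ℚ), Function.Injective a → ∀ (u : Fin q → ℕ) (y : ∀ j, Fin (u j + 1) → A),
        (∀ j, y j 0 = coord A - algebraMap ℚ[X] A (C (a j))) →
        (∀ j i, y j i ∈ (Ideal.span {coord A - algebraMap ℚ[X] A (C (a j))}).radical) →
      ∀ c M : ℝ, ∃ b : ℝ, {z : Σ K : NF, K.1 | z.1.1 ∈ F i ∧ Fails z.1.1 u y κ c z.2 ∧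
        b ≤ height z.2 ∧ dist (π z.2) ξ ≤ M ^ Module.finrank ℚ z.1.1 *
          Real.exp (Module.finrank ℚ z.1.1 * height z.2) ^ (-τ)}.Finite := by
  have hpos : ∀ j : ℕ, 0 < s + 1 / ((j : ℝ) + 1) := fun j => by positivity
  choose E hE1 hE2 using fun j : ℕ => strict (hpos j) X π F hF
  refine ⟨⋂ j, E j, ?_, ?_⟩
  · have hlim : Filter.Tendsto (fun j : ℕ => s + 1 / ((j : ℝ) + 1)) Filter.atTop (nhds s) := by
      have := (tendsto_one_div_add_atTop_nhds_zero_nat (𝕜 := ℝ)).const_add s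
      simpa using this
    have hl := ENNReal.tendsto_ofReal hlim
    exact ge_of_tendsto' hl fun j => (dimH_mono (Set.iInter_subset _ j)).trans (hE1 j)
  · intro ξ hξ i q hq κ τ hκ0 hκ hτ he A _ _ _ _ _ _ _ a ha u y hy0 hyr c M
    rw [Set.mem_iInter] at hξ
    push Not at hξ
    obtain ⟨j, hj⟩ := hξ
    obtain ⟨G, hG, ⟨e⟩⟩ := Np.model A
    have h0 : ∀ j, e (coord A - algebraMap ℚ[X] A (C (a j))) =
        coord (Functions G) - algebraMap ℚ[X] (Functions G) (C (a j)) := by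
      intro j
      rw [map_sub, coord_map, e.commutes]
    obtain ⟨b, hb⟩ := hE2 j ξ hj i q hq κ τ hκ0 hκ hτ (he.trans_lt (by
      have : 0 < 1 / ((j : ℝ) + 1) * τ := by positivity
      nlinarith)) G hG a ha u (fun j i => e (y j i)) (by
      intro j
      rw [hy0, h0]) (by
      intro j i
      obtain ⟨n, hn⟩ := hyr j i
      refine ⟨n, ?_⟩
      rw [Ideal.mem_span_singleton] at hn ⊢
      rw [← h0, ← map_pow]
      exact map_dvd e hn) c M
    refine ⟨b, hb.subset ?_⟩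
    rintro z ⟨g1, g2, g3, g4⟩
    exact ⟨g1, fails_map e y g2, g3, g4⟩

end Pool.Agent.K9h15.Nq
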