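import Pool.Agent.K9h15.NqB

/-!
# Points of bounded height, and the form of the theorem with one constant (helper15)
-/

set_option autoImplicit false
set_option linter.all false

namespace Pool.Agent.K9h15.Nq

open IsDedekindDomain NumberField Filter Topology
open Polynomial hiding degree
open Pool.Agent.Results.MP_6f1c57_nt.AllFieldsHeightInequality (height coord proximity logDisc
  degree Elts Exceptions fin_Elts proximity_eq height_eq)

/-- the proximity function is bounded by the height, uniformly in the field -/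
theorem bound (A : Type) [CommRing A] [IsDedekindDomain A] [Algebra ℚ A] [Algebra ℚ[X] A]
    [IsScalarTower ℚ ℚ[X] A] [Module.Finite ℚ[X] A] [FaithfulSMul ℚ[X] A]
    {q : ℕ} (a : Fin q → ℚ) {u : Fin q → ℕ} {y : ∀ j, Fin (u j + 1) → A}
    (hy0 : ∀ j, y j 0 = coord A - algebraMap ℚ[X] A (C (a j)))
    (hyr : ∀ j i, y j i ∈ (Ideal.span {coord A - algebraMap ℚ[X] A (C (a j))}).radical) :
    ∃ (G : ℚ[X]) (C₁ C₂ : ℝ), G ≠ 0 ∧ 0 ≤ C₁ ∧ 0 ≤ C₂ ∧
      ∀ (K : Type) [Field K] [NumberField K] (x : K), aeval x G ≠ 0 → (∀ j, x ≠ (a j : K)) →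
        ∀ (L : Type) [Field L] [NumberField L] [Algebra K L] (φ : A →+* L) (S : Finset ℕ),
          φ (coord A) = algebraMap K L x → proximity S u y L φ ≤ C₁ * height x + C₂ := by
  classical
  obtain ⟨M, Ck, G, hM, hCk, hG, hkey⟩ := Pool.Agent.W223.AC.keyG
    (Pool.Agent.W223.AC.nbp (Pool.Agent.W976.AC.EX.t Pool.Agent.W398.AC.DIM.t
      Pool.Agent.W193.AC.FINQ.t Pool.Agent.W989.AC.MULT.t) Pool.Agent.W756.AC.t
      (Pool.Agent.W410.AC.t Pool.Agent.W131.AC.t) Pool.Agent.W223.AC.SUMP.t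
      Pool.Agent.W460.AC.t)
    Pool.Agent.W989.AC.MULT.t Pool.Agent.W597.AC.t A a (fun j : Fin q => j) u y hy0
    (by
      intro k
      have h1 : (Finset.univ.filter fun l : Fin q => l = k) = {k} := by
        ext l
        simp
      rw [h1, Finset.prod_singleton, Ideal.span_le]
      rintro _ ⟨i, rfl⟩
      exact hyr k i) 1 one_pos
  refine ⟨G, ∑ l, ((Module.finrank ℚ (A ⧸ Ideal.span (Set.range (y l))) : ℝ) /
    Module.finrank ℚ[X] A + 1), q * Ck, hG,
    Finset.sum_nonneg fun l _ => by positivity, by positivity, ?_⟩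
  intro K _ _ x hGx hx L _ _ _ φ S hφ
  have hne : ∀ k, φ (coord A) ≠ (a k : L) := by
    intro k h
    rw [hφ] at h
    apply hx k
    apply FaithfulSMul.algebraMap_injective K L
    rw [h, map_ratCast]
  have hGL : aeval (φ (coord A)) G ≠ 0 := by
    rw [hφ, aeval_algebraMap_apply]
    intro h
    rw [map_eq_zero] at h
    exact hGx h
  obtain ⟨-, hk2⟩ := hkey L φ hGL hne
  have hz0 : ∀ l, φ (y l 0) ≠ 0 := by
    intro l
    rw [hy0 l, map_sub]
    have : φ (algebraMap ℚ[X] A (Polynomial.C (a l))) = (a l : L) :=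
      eq_ratCast (φ.comp ((algebraMap ℚ[X] A).comp Polynomial.C)) (a l)
    rw [this]
    exact sub_ne_zero.mpr (hne l)
  have hd : (0 : ℝ) < Module.finrank ℚ L := by exact_mod_cast Module.finrank_pos
  have htow : (Module.finrank ℚ L : ℝ) = Module.finrank ℚ K * Module.finrank K L := by
    exact_mod_cast (Module.finrank_mul_finrank ℚ K L).symm
  rw [proximity_eq S u y L φ fun j => (hk2 j).1, div_le_iff₀ hd]
  have hH : Real.log (Height.mulHeight₁ (φ (coord A))) = Module.finrank ℚ L * height x := by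
    rw [hφ, Pool.Agent.W223.AC.MK.log_height_ext L x, height_eq, htow]
    ring
  have h5 : ∀ l, (∑ w : InfinitePlace L, (w.mult : ℝ) * Pool.Agent.W223.AC.lamI (y l) φ w +
      Pool.Agent.W223.AC.mS S (y l) φ) ≤
      ((Module.finrank ℚ (A ⧸ Ideal.span (Set.range (y l))) : ℝ) /
        Module.finrank ℚ[X] A + 1) * (Module.finrank ℚ L * height x) +
        Module.finrank ℚ L * Ck := by
    intro l
    obtain ⟨h6, h7⟩ := hk2 l
    have h8 := Pool.Agent.W223.AC.split_prox (y l) φ S (hz0 l) h6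
    have h9 : 0 ≤ Pool.Agent.W223.CV.cc S (fun v : HeightOneSpectrum (𝓞 L) =>
        Pool.Agent.W223.AC.NearP (y l) φ v) :=
      finsum_nonneg fun v => Pool.Agent.W223.CV.ct_nonneg S _ v
    have h10 : Real.log (Height.mulHeight₁ (φ (Pool.Agent.W223.AC.tt A))) =
        Module.finrank ℚ L * height x := hH
    rw [h10] at h7
    linarith
  refine (Finset.sum_le_sum fun l _ => h5 l).trans (le_of_eq ?_)
  rw [Finset.sum_add_distrib, ← Finset.sum_mul, Finset.sum_const, Finset.card_univ,
    Fintype.card_fin, nsmul_eq_mul]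
  ring

lemma logDisc_nonneg (L : Type) [Field L] [NumberField L] : 0 ≤ logDisc L := by
  unfold logDisc
  refine div_nonneg (Real.log_nonneg ?_) (Nat.cast_nonneg _)
  have h := Int.one_le_abs (NumberField.discr_ne_zero L)
  exact_mod_cast h

/-- the inequality holds for the points of bounded height, with one constant, for all fields -/
theorem no_fail (A : Type) [CommRing A] [IsDedekindDomain A] [Algebra ℚ A] [Algebra ℚ[X] A]
    [IsScalarTower ℚ ℚ[X] A] [Module.Finite ℚ[X] A] [FaithfulSMul ℚ[X] A]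
    {q : ℕ} (a : Fin q → ℚ) {u : Fin q → ℕ} {y : ∀ j, Fin (u j + 1) → A}
    (hy0 : ∀ j, y j 0 = coord A - algebraMap ℚ[X] A (C (a j)))
    (hyr : ∀ j i, y j i ∈ (Ideal.span {coord A - algebraMap ℚ[X] A (C (a j))}).radical)
    (κ b : ℝ) : ∃ (Z : Set ℂ) (c : ℝ), Z.Finite ∧ 0 ≤ c ∧ ∀ (K : NF) (x : K.1), (x : ℂ) ∉ Z →
      height x ≤ b → ¬ Fails K.1 u y κ c x := by
  obtain ⟨G, C₁, C₂, hG, hC₁, hC₂, h⟩ := bound A a hy0 hyr
  refine ⟨{z | aeval z G = 0} ∪ Set.range (fun j => (a j : ℂ)),
    (C₁ + |degree u y - κ|) * |b| + C₂, ?_, by positivity, ?_⟩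
  · refine Set.Finite.union ?_ (Set.finite_range _)
    have h1 := (G.map (algebraMap ℚ ℂ)).roots.toFinset.finite_toSet
    refine h1.subset fun z hz => ?_
    simp only [Finset.mem_coe, Multiset.mem_toFinset]
    rw [mem_roots ((Polynomial.map_ne_zero_iff (algebraMap ℚ ℂ).injective).2 hG), IsRoot.def,
      eval_map_algebraMap]
    exact hz
  · intro K x hx hb hf
    obtain ⟨L, i1, i2, i3, φ, S, hφ, hS, hlt⟩ := hf
    have h1 : aeval x G ≠ 0 := by
      intro h0
      apply hx
      left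
      show aeval (x : ℂ) G = 0
      have h2 : aeval (algebraMap K.1 ℂ x) G = algebraMap K.1 ℂ (aeval x G) :=
        aeval_algebraMap_apply ℂ x G
      rw [h0, map_zero] at h2
      exact h2
    have h2 : ∀ j, x ≠ (a j : K.1) := by
      intro j h0
      apply hx
      right
      refine ⟨j, ?_⟩
      rw [h0]
      simp
    have h3 := h K.1 x h1 h2 L φ S hφ
    have h4 := logDisc_nonneg L
    have h5 : 0 ≤ ∑ p ∈ S, Real.log p := Finset.sum_nonneg fun p hp =>
      Real.log_nonneg (by exact_mod_cast (hS p hp).one_lt.le)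
    have h6 := height_nonneg x
    have h7 : height x ≤ |b| := hb.trans (le_abs_self b)
    have h8 : C₁ * height x ≤ C₁ * |b| := mul_le_mul_of_nonneg_left h7 hC₁
    have h9 : (degree u y - κ) * height x ≤ |degree u y - κ| * |b| :=
      (mul_le_mul_of_nonneg_right (le_abs_self _) h6).trans
        (mul_le_mul_of_nonneg_left h7 (abs_nonneg _))
    have h10 : (C₁ + |degree u y - κ|) * |b| = C₁ * |b| + |degree u y - κ| * |b| := by ring
    rw [h10] at hlt
    linarith

end Pool.Agent.K9h15.Nq
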