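import Pool.Agent.K9h15.NqC

/-!
# Windows of heights: thin families of points of unbounded degree (helper15)
-/

set_option autoImplicit false
set_option linter.all false

namespace Pool.Agent.K9h15.Nr

open IsDedekindDomain NumberField Filter Topology
open Polynomial hiding degree
open Pool.Agent.Results.MP_6f1c57_nt.AllFieldsHeightInequality (height coord proximity logDisc
  degree Elts Exceptions fin_Elts proximity_eq height_eq)
open Pool.Agent.K9h15.Np (Functions Idx)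
open Pool.Agent.K9h15.Nq (NF Thin Fails card_sigma_le)
open Pool.Agent.Results.MP_6f1c57_nt.ProximityWindows (ExpLe)

/-- the relative height, squared -/
noncomputable def hh (z : Σ K : NF, K.1) : ℝ :=
  Real.exp (2 * (Module.finrank ℚ z.1.1 * height z.2))

/-- the number of the exceptional pairs with relative height at most `√X` -/
theorem count (F : Set (IntermediateField ℚ ℂ)) {D : ℕ}
    (hF : ∀ n : ℕ, {K : NF | K.1 ∈ F ∧ Module.finrank ℚ K.1 = n}.Finite ∧
      {K : NF | K.1 ∈ F ∧ Module.finrank ℚ K.1 = n}.ncard ≤ D ^ n)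
    (P : ∀ K : NF, K.1 → Prop) {e C δ : ℝ} (he0 : 0 ≤ e) (hC : 0 ≤ C) (hδ : 0 < δ)
    (hcount : ∀ (K : NF) (h : ℝ), 0 ≤ h → {x : K.1 | P K x ∧ height x ≤ h}.Finite ∧
      (({x : K.1 | P K x ∧ height x ≤ h}.ncard : ℕ) : ℝ) ≤
        Real.exp (Module.finrank ℚ K.1 * (C + e * h))) :
    ∃ b₀ : ℝ, 0 < b₀ ∧ ∀ X : ℝ, 1 ≤ X →
      {z : Σ K : NF, K.1 | (z.1.1 ∈ F ∧ P z.1 z.2 ∧ b₀ ≤ height z.2) ∧ hh z ≤ X}.Finite ∧
      (({z : Σ K : NF, K.1 | (z.1.1 ∈ F ∧ P z.1 z.2 ∧ b₀ ≤ height z.2) ∧ hh z ≤ X}.ncard : ℕ) : ℝ) ≤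
        X ^ (e / 2 + δ) := by
  classical
  obtain ⟨d₀, hd0, hd⟩ : ∃ d₀ : ℝ, 0 ≤ d₀ ∧ ((max D 1 : ℕ) : ℝ) ≤ Real.exp d₀ := by
    refine ⟨((max D 1 : ℕ) : ℝ), Nat.cast_nonneg _, ?_⟩
    have := Real.add_one_le_exp ((max D 1 : ℕ) : ℝ)
    linarith
  obtain ⟨b₀, hb0, hb⟩ : ∃ b₀ : ℝ, 0 < b₀ ∧ 1 + d₀ + C ≤ 2 * b₀ * δ := by
    refine ⟨(1 + d₀ + C) / (2 * δ), by positivity, ?_⟩
    rw [show 2 * ((1 + d₀ + C) / (2 * δ)) * δ = 1 + d₀ + C by field_simp]
  refine ⟨b₀, hb0, fun X hX => ?_⟩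
  have hX0 : 0 < X := by linarith
  have hlX : 0 ≤ Real.log X := Real.log_nonneg hX
  set N : ℕ := ⌊Real.log X / (2 * b₀)⌋₊ with hN
  have hNle : (N : ℝ) ≤ Real.log X / (2 * b₀) := Nat.floor_le (by positivity)
  -- the fields of degree at most `N`
  have hSfin : {K : NF | K.1 ∈ F ∧ Module.finrank ℚ K.1 ≤ N}.Finite ∧
      (({K : NF | K.1 ∈ F ∧ Module.finrank ℚ K.1 ≤ N}.ncard : ℕ) : ℝ) ≤
        Real.exp (N * (1 + d₀)) := by
    have hsub : {K : NF | K.1 ∈ F ∧ Module.finrank ℚ K.1 ≤ N} ⊆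
        ((Finset.range (N + 1)).biUnion fun n => (hF n).1.toFinset : Finset NF) := by
      rintro K ⟨h1, h2⟩
      rw [Finset.mem_coe, Finset.mem_biUnion]
      exact ⟨Module.finrank ℚ K.1, Finset.mem_range.2 (by omega), by simpa using h1⟩
    refine ⟨(Finset.finite_toSet _).subset hsub, ?_⟩
    have h1 := Set.ncard_le_ncard hsub (Finset.finite_toSet _)
    rw [Set.ncard_coe_finset] at h1
    have h2 : ((Finset.range (N + 1)).biUnion fun n => (hF n).1.toFinset).card ≤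
        (N + 1) * (max D 1) ^ N := by
      refine Finset.card_biUnion_le.trans ?_
      refine (Finset.sum_le_sum (g := fun _ => (max D 1) ^ N) fun n hn => ?_).trans ?_
      · rw [← Set.ncard_eq_toFinset_card _ (hF n).1]
        refine (hF n).2.trans ((Nat.pow_le_pow_left (le_max_left D 1) n).trans ?_)
        exact Nat.pow_le_pow_right (le_max_right D 1) (by
          have := Finset.mem_range.1 hn
          omega)
      · rw [Finset.sum_const, Finset.card_range, smul_eq_mul]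
    have h3 := (Nat.cast_le (α := ℝ)).2 (h1.trans h2)
    refine h3.trans ?_
    push_cast
    rw [mul_add, mul_one, Real.exp_add]
    refine mul_le_mul (Real.add_one_le_exp _) ?_ (by positivity) (Real.exp_pos _).le
    rw [Real.exp_nat_mul]
    refine pow_le_pow_left₀ (by positivity) ?_ _
    have := hd
    push_cast at this
    exact this
  have h3 := card_sigma_le (α := fun K : NF => K.1)
    {K : NF | K.1 ∈ F ∧ Module.finrank ℚ K.1 ≤ N}
    (fun K => {x : K.1 | P K x ∧ height x ≤ Real.log X / (2 * Module.finrank ℚ K.1)})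
    (a := Real.exp (N * (1 + d₀))) (b := Real.exp (N * C) * X ^ (e / 2)) hSfin.1 hSfin.2
    (by positivity)
    (by
      rintro K ⟨-, hK⟩
      have hn0 : (0 : ℝ) < Module.finrank ℚ K.1 := by exact_mod_cast Module.finrank_pos
      have h5 := hcount K (Real.log X / (2 * Module.finrank ℚ K.1)) (by positivity)
      refine ⟨h5.1, h5.2.trans ?_⟩
      rw [Real.rpow_def_of_pos hX0, ← Real.exp_add]
      refine Real.exp_le_exp.2 ?_
      have h6 : (Module.finrank ℚ K.1 : ℝ) * (C + e * (Real.log X / (2 * Module.finrank ℚ K.1))) =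
          Module.finrank ℚ K.1 * C + Real.log X * (e / 2) := by
        field_simp
      rw [h6]
      have h7 : (Module.finrank ℚ K.1 : ℝ) ≤ N := by exact_mod_cast hK
      have h8 := mul_le_mul_of_nonneg_right h7 hC
      linarith)
  have hsub : {z : Σ K : NF, K.1 | (z.1.1 ∈ F ∧ P z.1 z.2 ∧ b₀ ≤ height z.2) ∧ hh z ≤ X} ⊆
      {z : Σ K : NF, K.1 | z.1 ∈ {K : NF | K.1 ∈ F ∧ Module.finrank ℚ K.1 ≤ N} ∧
        z.2 ∈ {x : z.1.1 | P z.1 x ∧ height x ≤ Real.log X / (2 * Module.finrank ℚ z.1.1)}} := by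
    rintro z ⟨⟨h1, h2, h4⟩, h5⟩
    have hn0 : (0 : ℝ) < Module.finrank ℚ z.1.1 := by exact_mod_cast Module.finrank_pos
    have h6 : 2 * (Module.finrank ℚ z.1.1 * height z.2) ≤ Real.log X := by
      rw [Real.le_log_iff_exp_le hX0]
      exact h5
    refine ⟨⟨h1, ?_⟩, h2, ?_⟩
    · rw [hN, Nat.le_floor_iff (by positivity), le_div_iff₀ (by positivity)]
      have h7 : (Module.finrank ℚ z.1.1 : ℝ) * b₀ ≤ Module.finrank ℚ z.1.1 * height z.2 :=
        mul_le_mul_of_nonneg_left h4 hn0.le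
      linarith
    · rw [le_div_iff₀ (by positivity)]
      linarith
  refine ⟨h3.1.subset hsub, ?_⟩
  have h9 := (Nat.cast_le (α := ℝ)).2 (Set.ncard_le_ncard hsub h3.1)
  refine h9.trans (h3.2.trans ?_)
  rw [← mul_assoc, ← Real.exp_add, add_comm (e / 2), Real.rpow_add hX0]
  refine mul_le_mul_of_nonneg_right ?_ (by positivity)
  rw [Real.rpow_def_of_pos hX0]
  refine Real.exp_le_exp.2 ?_
  have h10 : (N : ℝ) * (1 + d₀) + N * C = N * (1 + d₀ + C) := by ring
  rw [h10]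
  calc (N : ℝ) * (1 + d₀ + C) ≤ Real.log X / (2 * b₀) * (2 * b₀ * δ) :=
        mul_le_mul hNle hb (by positivity) (by positivity)
    _ = Real.log X * δ := by field_simp

/-- a sequence with finite exponent of convergence is unbounded -/
lemma expLe_tendsto {v : ℕ → ℝ} {σ : ℝ} (hv : ∀ k, 1 ≤ v k) (hσ : 0 ≤ σ) (h : ExpLe v σ) :
    Tendsto v atTop atTop := by
  have h1 := (h (σ + 1) (by linarith)).tendsto_atTop_zero
  have h2 : Tendsto (fun n => ((v n) ^ (-(σ + 1)))⁻¹) atTop atTop := by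
    refine Filter.Tendsto.inv_tendsto_nhdsGT_zero ?_
    rw [tendsto_nhdsWithin_iff]
    exact ⟨h1, Eventually.of_forall fun n => Real.rpow_pos_of_pos (by have := hv n; linarith) _⟩
  have h3 : Tendsto (fun n => (((v n) ^ (-(σ + 1)))⁻¹) ^ (1 / (σ + 1))) atTop atTop :=
    (tendsto_rpow_atTop (by positivity)).comp h2
  refine h3.congr fun n => ?_
  have h0 : 0 < v n := by have := hv n; linarith
  rw [← Real.rpow_neg h0.le, neg_neg, ← Real.rpow_mul h0.le, mul_one_div_cancel (by positivity),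
    Real.rpow_one]

end Pool.Agent.K9h15.Nr
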