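import Pool.Agent.K9h15.NrA

/-!
# The height inequality in windows of heights, for all curves and fields at once (helper15)
-/

set_option autoImplicit false
set_option linter.all false

namespace Pool.Agent.K9h15.Nr

open IsDedekindDomain NumberField Filter Topology
open Polynomial hiding degree
open Pool.Agent.Results.MP_6f1c57_nt.AllFieldsHeightInequality (height coord proximity logDisc
  degree Elts Exceptions fin_Elts proximity_eq height_eq)
open Pool.Agent.K9h15.Np (Functions Idx)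
open Pool.Agent.K9h15.Nq (NF Thin Fails height_nonneg height_rat)
open Pool.Agent.Results.MP_6f1c57_nt.ProximityWindows (ExpLe)

theorem strict {v : ℕ → ℝ} {σ : ℝ} (hv : ∀ k, 1 ≤ v k) (hσ : 0 ≤ σ) (hvσ : ExpLe v σ)
    {s : ℝ} (hs : 0 < s) {ι : Type} [Countable ι] (F : ι → Set (IntermediateField ℚ ℂ))
    (hF : ∀ i, Thin (F i)) :
    ∃ E : Set ℝ, dimH E ≤ ENNReal.ofReal s ∧ ∀ α : ℝ, 0 < α → α ∉ E → ∀ (i : ι) (q : ℕ), 3 ≤ q →
      ∀ κ θ : ℝ, 0 < κ → κ ≤ 2 → θ < 1 → (1 - κ / q) + σ < s * (1 - θ) →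
      ∀ G : (RatFunc ℚ)[X], Irreducible G → ∀ a : Fin q → ℚ, Function.Injective a →
      ∀ (u : Fin q → ℕ) (y : ∀ j, Fin (u j + 1) → Functions G),
        (∀ j, y j 0 = coord (Functions G) - algebraMap ℚ[X] (Functions G) (C (a j))) →
        (∀ j i, y j i ∈
          (Ideal.span {coord (Functions G) - algebraMap ℚ[X] (Functions G) (C (a j))}).radical) →
      ∀ c M : ℝ, ∃ (b : ℝ) (k₀ : ℕ), ∀ k : ℕ, k₀ ≤ k → ∀ z : Σ K : NF, K.1, z.1.1 ∈ F i →
        b ≤ height z.2 → |hh z - α * v k| ≤ M * v k ^ θ → ¬ Fails z.1.1 u y κ c z.2 := by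
  classical
  have key : ∀ i : ι × Idx, ∃ E : Set ℝ, dimH E ≤ ENNReal.ofReal s ∧
      (3 ≤ i.2.1 → 0 < (i.2.2.2.2.2.2.2.2.1 : ℝ) → (i.2.2.2.2.2.2.2.2.1 : ℝ) ≤ 2 →
        (i.2.2.2.2.2.2.2.2.2 : ℝ) < 1 →
        (1 - (i.2.2.2.2.2.2.2.2.1 : ℝ) / i.2.1) + σ < s * (1 - (i.2.2.2.2.2.2.2.2.2 : ℝ)) →
        Irreducible i.2.2.1 → Function.Injective i.2.2.2.2.1 →
        (∀ j, i.2.2.2.2.2.1 j 0 = coord (Functions i.2.2.1) -
          algebraMap ℚ[X] (Functions i.2.2.1) (C (i.2.2.2.2.1 j))) →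
        (∀ j k, i.2.2.2.2.2.1 j k ∈ (Ideal.span {coord (Functions i.2.2.1) -
          algebraMap ℚ[X] (Functions i.2.2.1) (C (i.2.2.2.2.1 j))}).radical) →
        ∀ α : ℝ, 0 < α → α ∉ E → ∃ (b : ℝ) (k₀ : ℕ), 0 ≤ b ∧ ∀ k : ℕ, k₀ ≤ k →
          ∀ z : Σ K : NF, K.1, z.1.1 ∈ F i.1 → b ≤ height z.2 →
          Fails z.1.1 i.2.2.2.1 i.2.2.2.2.2.1 (i.2.2.2.2.2.2.2.2.1 : ℝ)
            (-(i.2.2.2.2.2.2.2.1 : ℝ)) z.2 →
          v k ^ (i.2.2.2.2.2.2.2.2.2 : ℝ) < |hh z - α * v k|) := by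
    rintro ⟨i, q, G, u, a, y, m, n, κ, θ⟩
    simp only
    by_cases h : 3 ≤ q ∧ 0 < (κ : ℝ) ∧ (κ : ℝ) ≤ 2 ∧ (θ : ℝ) < 1 ∧
        (1 - (κ : ℝ) / q) + σ < s * (1 - (θ : ℝ)) ∧ Irreducible G ∧ Function.Injective a ∧
        (∀ j, y j 0 = coord (Functions G) - algebraMap ℚ[X] (Functions G) (C (a j))) ∧
        (∀ j k, y j k ∈
          (Ideal.span {coord (Functions G) - algebraMap ℚ[X] (Functions G) (C (a j))}).radical)
    · obtain ⟨hq, hκ0, hκ, hθ, he, hG, ha, hy0, hyr⟩ := h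
      haveI : Fact (Irreducible G) := ⟨hG⟩
      haveI := Np.ded G
      haveI := Np.fin G
      haveI := Np.fai G
      have hq0 : (3 : ℝ) ≤ q := by exact_mod_cast hq
      have hκq : (κ : ℝ) / q < 1 := by
        rw [div_lt_one (by linarith)]
        linarith
      -- the exponents
      obtain ⟨δ, hδ⟩ : ∃ δ : ℝ, δ = (s * (1 - (θ : ℝ)) - ((1 - (κ : ℝ) / q) + σ)) / 2 := ⟨_, rfl⟩
      have hδ0 : 0 < δ := by rw [hδ]; linarith
      have e1 : 2 - 2 * (κ : ℝ) / q = 2 * (1 - (κ : ℝ) / q) := by ring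
      obtain ⟨C₁, hC₁, hcount⟩ := Nq.count (Functions G) hq ha hy0 hyr (c := -(n : ℝ))
        (e := 2 * (1 - (κ : ℝ) / q) + δ) hκ0 hκ (by rw [e1]; linarith)
      obtain ⟨D, hD⟩ := hF i
      obtain ⟨b₀, hb0, hcnt⟩ := count (F i) hD
        (fun K x => (∀ j, x ≠ (a j : K.1)) ∧ Fails K.1 u y (κ : ℝ) (-(n : ℝ)) x)
        (e := 2 * (1 - (κ : ℝ) / q) + δ) (δ := δ / 2) (by linarith) hC₁ (by linarith)
        (fun K h hh => hcount K.1 h hh)
      obtain ⟨E, hE1, hE2⟩ := Pool.Agent.Y854.GM.windows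
        {z : Σ K : NF, K.1 | z.1.1 ∈ F i ∧
          ((∀ j, z.2 ≠ (a j : z.1.1)) ∧ Fails z.1.1 u y (κ : ℝ) (-(n : ℝ)) z.2) ∧
            b₀ ≤ height z.2} hh hv hσ hvσ
        (s := (1 - (κ : ℝ) / q) + δ) (by linarith) hθ
        (fun ε hε => ⟨1, fun X hX => by
          obtain ⟨g1, g2⟩ := hcnt X hX
          refine ⟨g1, g2.trans ?_⟩
          rw [one_mul]
          exact Real.rpow_le_rpow_of_exponent_le hX (by linarith)⟩)
      refine ⟨E, hE1.trans (ENNReal.ofReal_le_ofReal ?_), fun _ _ _ _ _ _ _ _ _ α hα hαE => ?_⟩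
      · rw [div_le_iff₀ (by linarith)]
        rw [hδ]
        linarith
      obtain ⟨k₀, hk₀⟩ := hE2 α hα hαE
      obtain ⟨b₁, hb₁⟩ : ∃ b₁ : ℝ, ∀ j, height (a j : ℚ) < b₁ :=
        ⟨(∑ j, height (a j : ℚ)) + 1, fun j => by
          have := Finset.single_le_sum (f := fun j => height (a j : ℚ))
            (fun j _ => height_nonneg _) (Finset.mem_univ j)
          exact lt_of_le_of_lt this (lt_add_one _)⟩
      refine ⟨max b₀ b₁, k₀, hb0.le.trans (le_max_left _ _), fun k hk z hz hb hf => ?_⟩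
      refine hk₀ k hk z ⟨hz, ⟨fun j hj => ?_, hf⟩, (le_max_left _ _).trans hb⟩
      have h5 := (le_max_right _ _).trans hb
      rw [hj, height_rat] at h5
      exact absurd (hb₁ j) (not_lt.2 h5)
    · refine ⟨∅, by simp, fun h1 h2 h3 h4 h5 h6 h7 h8 h9 => ?_⟩
      exact absurd ⟨h1, h2, h3, h4, h5, h6, h7, h8, h9⟩ h
  choose E hE1 hE2 using key
  haveI := Np.countable_idx
  refine ⟨⋃ i, E i, ?_, ?_⟩
  · rw [dimH_iUnion]
    exact iSup_le hE1
  intro α hα hαE i q hq κ θ hκ0 hκ hθ he G hG a ha u y hy0 hyr c M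
  rw [Set.mem_iUnion] at hαE
  push Not at hαE
  have hq0 : (3 : ℝ) ≤ q := by exact_mod_cast hq
  have hqp : (0 : ℝ) < q := by linarith
  -- rational parameters
  have h1 : θ < 1 - ((1 - κ / q) + σ) / s := by
    have : ((1 - κ / q) + σ) / s < 1 - θ := by
      rw [div_lt_iff₀ hs]
      linarith
    linarith
  obtain ⟨θ', hθ1, hθ2⟩ := exists_rat_btwn h1
  have he' : (1 - κ / q) + σ < s * (1 - θ') := by
    have : ((1 - κ / q) + σ) / s < 1 - θ' := by linarith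
    rw [div_lt_iff₀ hs] at this
    linarith
  have hκq : κ / q < 1 := by
    rw [div_lt_one hqp]
    linarith
  have hθ3 : (θ' : ℝ) < 1 := by
    have : 0 < ((1 - κ / q) + σ) / s := by
      apply div_pos _ hs
      linarith
    linarith
  have h2 : max 0 ((1 + σ - s * (1 - θ')) * q) < κ := by
    refine max_lt hκ0 ?_
    have h3 : 1 + σ - s * (1 - θ') < κ / q := by linarith
    rwa [lt_div_iff₀ hqp] at h3
  obtain ⟨κ', hκ1, hκ2⟩ := exists_rat_btwn h2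
  have hκ3 : 0 < (κ' : ℝ) := (le_max_left _ _).trans_lt hκ1
  have he'' : (1 - (κ' : ℝ) / q) + σ < s * (1 - θ') := by
    have h3 := (le_max_right _ _).trans_lt hκ1
    have h4 : 1 + σ - s * (1 - θ') < κ' / q := by
      rw [lt_div_iff₀ hqp]
      exact h3
    linarith
  obtain ⟨n, hn⟩ := exists_nat_ge (-c)
  obtain ⟨b, k₀, hb0, hb⟩ := hE2 ⟨i, q, G, u, a, y, 0, n, κ', θ'⟩ hq hκ3 (by simp only; linarith)
    hθ3 he'' hG ha hy0 hyr α hα (hαE _)
  -- the constant `M`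
  have hlim : Tendsto (fun k => v k ^ ((θ' : ℝ) - θ)) atTop atTop :=
    (tendsto_rpow_atTop (by linarith)).comp (expLe_tendsto hv hσ hvσ)
  obtain ⟨k₁, hk₁⟩ := (hlim.eventually_ge_atTop M).exists_forall_of_atTop
  refine ⟨b, max k₀ k₁, fun k hk z hz hbz hw hf => ?_⟩
  have g1 := hb k ((le_max_left _ _).trans hk) z hz hbz
    (hf.mono (by simp only; linarith) (by simp only; linarith))
  have g2 := hk₁ k ((le_max_right _ _).trans hk)
  have hvk : 0 < v k := by have := hv k; linarith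
  have g3 : M * v k ^ θ ≤ v k ^ (θ' : ℝ) := by
    calc M * v k ^ θ ≤ v k ^ ((θ' : ℝ) - θ) * v k ^ θ :=
          mul_le_mul_of_nonneg_right g2 (by positivity)
      _ = v k ^ (θ' : ℝ) := by
          rw [← Real.rpow_add hvk]
          congr 1
          ring
  exact absurd (hw.trans g3) (not_le.2 g1)

/-- The limit case, for all rings of functions. -/
theorem main {v : ℕ → ℝ} {σ : ℝ} (hv : ∀ k, 1 ≤ v k) (hσ : 0 ≤ σ) (hvσ : ExpLe v σ)
    {s : ℝ} (hs : 0 ≤ s) {ι : Type} [Countable ι] (F : ι → Set (IntermediateField ℚ ℂ))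
    (hF : ∀ i, Thin (F i)) :
    ∃ E : Set ℝ, dimH E ≤ ENNReal.ofReal s ∧ ∀ α : ℝ, 0 < α → α ∉ E → ∀ (i : ι) (q : ℕ), 3 ≤ q →
      ∀ κ θ : ℝ, 0 < κ → κ ≤ 2 → θ < 1 → (1 - κ / q) + σ ≤ s * (1 - θ) →
      ∀ (A : Type) [CommRing A] [IsDedekindDomain A] [Algebra ℚ A] [Algebra ℚ[X] A]
        [IsScalarTower ℚ ℚ[X] A] [Module.Finite ℚ[X] A] [FaithfulSMul ℚ[X] A]
        (a : Fin q → ℚ), Function.Injective a → ∀ (u : Fin q → ℕ) (y : ∀ j, Fin (u j + 1) → A),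
        (∀ j, y j 0 = coord A - algebraMap ℚ[X] A (C (a j))) →
        (∀ j i, y j i ∈ (Ideal.span {coord A - algebraMap ℚ[X] A (C (a j))}).radical) →
      ∀ c M : ℝ, ∃ (b : ℝ) (k₀ : ℕ), ∀ k : ℕ, k₀ ≤ k → ∀ z : Σ K : NF, K.1, z.1.1 ∈ F i →
        b ≤ height z.2 → |hh z - α * v k| ≤ M * v k ^ θ → ¬ Fails z.1.1 u y κ c z.2 := by
  have hpos : ∀ j : ℕ, 0 < s + 1 / ((j : ℝ) + 1) := fun j => by positivity
  choose E hE1 hE2 using fun j : ℕ => strict hv hσ hvσ (hpos j) F hF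
  refine ⟨⋂ j, E j, ?_, ?_⟩
  · have hlim : Filter.Tendsto (fun j : ℕ => s + 1 / ((j : ℝ) + 1)) Filter.atTop (nhds s) := by
      have := (tendsto_one_div_add_atTop_nhds_zero_nat (𝕜 := ℝ)).const_add s
      simpa using this
    have hl := ENNReal.tendsto_ofReal hlim
    exact ge_of_tendsto' hl fun j => (dimH_mono (Set.iInter_subset _ j)).trans (hE1 j)
  · intro α hα hαE i q hq κ θ hκ0 hκ hθ he A _ _ _ _ _ _ _ a ha u y hy0 hyr c M
    rw [Set.mem_iInter] at hαE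
    push Not at hαE
    obtain ⟨j, hj⟩ := hαE
    obtain ⟨G, hG, ⟨e⟩⟩ := Np.model A
    have h0 : ∀ j, e (coord A - algebraMap ℚ[X] A (C (a j))) =
        coord (Functions G) - algebraMap ℚ[X] (Functions G) (C (a j)) := by
      intro j
      rw [map_sub, Nq.coord_map, e.commutes]
    obtain ⟨b, k₀, hb⟩ := hE2 j α hα hj i q hq κ θ hκ0 hκ hθ (he.trans_lt (by
      have h1 : 0 < 1 / ((j : ℝ) + 1) := by positivity
      have h2 : 0 < 1 - θ := by linarith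
      have h3 : 0 < 1 / ((j : ℝ) + 1) * (1 - θ) := mul_pos h1 h2
      have h4 : (s + 1 / ((j : ℝ) + 1)) * (1 - θ) =
          s * (1 - θ) + 1 / ((j : ℝ) + 1) * (1 - θ) := by ring
      linarith)) G hG a ha u (fun j i => e (y j i)) (by
      intro j
      rw [hy0, h0]) (by
      intro j i
      obtain ⟨n, hn⟩ := hyr j i
      refine ⟨n, ?_⟩
      rw [Ideal.mem_span_singleton] at hn ⊢
      rw [← h0, ← map_pow]
      exact map_dvd e hn) c M
    exact ⟨b, k₀, fun k hk z hz hbz hw hf => hb k hk z hz hbz hw (Nq.fails_map e y hf)⟩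

end Pool.Agent.K9h15.Nr
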