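import Mathlib
import Pool.Agent.K9h15.Mob

/-!
# Towers of fibrations
-/

set_option autoImplicit false

open Height Polynomial

namespace Pool.Agent.K9h15.Tow

open Pool.Agent.K9h15.Fib (gp rho del)

/-- The element `h` of `K` is a unit times a square in all valuation rings of `K` which contain the elements
algebraic over `k(S)`. -/
def EvenOver (k : Type) [Field k] {K : Type} [Field K] [Algebra k K] (S : Set K) (h : K) : Prop :=
  ∀ O : ValuationSubring K, (∀ z, Alg k S z → z ∈ O) → ∃ z : K, O.valuation (h * z ^ 2) = 1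

/-- There is a separable polynomial `g = c (A ^ 2 - m B ^ 2)` of degree three or four, with `A`, `B` of degree
at most two and coefficients algebraic over `k(S)`, such that `g(t)` is a unit times a square in all
valuation rings of `K` which contain the elements algebraic over `k(S)`. -/
def GenusOne (k : Type) [Field k] {K : Type} [Field K] [Algebra k K] (S : Set K) (t : K) : Prop :=
  ∃ (c m : K) (A B : K[X]), Alg k S c ∧ Alg k S m ∧ (∀ j, Alg k S (A.coeff j)) ∧
    (∀ j, Alg k S (B.coeff j)) ∧ A.natDegree ≤ 2 ∧ B.natDegree ≤ 2 ∧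
      (C c * (A ^ 2 - C m * B ^ 2)).Separable ∧ 3 ≤ (C c * (A ^ 2 - C m * B ^ 2)).natDegree ∧
        EvenOver k S ((C c * (A ^ 2 - C m * B ^ 2)).eval t)

variable {k : Type} [Field k] {K : Type} [Field K] [Algebra k K]

lemma quad_eq {A : K[X]} (h : A.natDegree ≤ 2) :
    A = C (A.coeff 2) * X ^ 2 + C (A.coeff 1) * X + C (A.coeff 0) := by
  have h1 := A.as_sum_range_C_mul_X_pow' (n := 3) (by omega)
  conv_lhs => rw [h1]
  rw [Finset.sum_range_succ, Finset.sum_range_succ, Finset.sum_range_one, pow_zero, mul_one,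
    pow_one]
  ring

theorem good_insertE [CharZero k] {S : Set K} {t : K} (h : Good k {z : K | Alg k S z})
    (ht : GenusOne k S t) : Good k {z : K | Alg k (insert t S) z} := by
  have hcK : CharZero K := charZero_of_injective_algebraMap (algebraMap k K).injective
  obtain ⟨c, m, A, B, ac, am, aA, aB, dA, dB, hsep, hdeg, hev⟩ := ht
  have hF : Good k ((rc k S : IntermediateField k K) : Set K) := by
    refine h.mono ?_
    intro z hz
    exact mem_rc.1 hz
  have hgq : C c * (A ^ 2 - C m * B ^ 2) = gq c m (A.coeff 2) (A.coeff 1) (A.coeff 0)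
      (B.coeff 2) (B.coeff 1) (B.coeff 0) := by
    unfold gq
    rw [← quad_eq dA, ← quad_eq dB]
  rw [hgq] at hsep hdeg hev
  -- choice of the point
  obtain ⟨e, he1, he2⟩ : ∃ e : k, (gq c m (A.coeff 2) (A.coeff 1) (A.coeff 0)
      (B.coeff 2) (B.coeff 1) (B.coeff 0)).eval (algebraMap k K e) ≠ 0 ∧ t ≠ algebraMap k K e := by
    by_contra hcon
    push Not at hcon
    have h0 : gq c m (A.coeff 2) (A.coeff 1) (A.coeff 0)
      (B.coeff 2) (B.coeff 1) (B.coeff 0) * (X - C t) = 0 := by
      refine Polynomial.eq_zero_of_infinite_isRoot _ ?_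
      refine (Set.infinite_range_of_injective (algebraMap k K).injective).mono ?_
      rintro _ ⟨e, rfl⟩
      change IsRoot _ _
      rw [IsRoot.def, eval_mul]
      by_cases h1 : (gq c m (A.coeff 2) (A.coeff 1) (A.coeff 0)
        (B.coeff 2) (B.coeff 1) (B.coeff 0)).eval (algebraMap k K e) = 0
      · rw [h1, zero_mul]
      · rw [← hcon e h1]
        simp
    rcases mul_eq_zero.1 h0 with h1 | h1
    · exact hsep.ne_zero h1
    · exact X_sub_C_ne_zero t h1
  set e' := algebraMap k K e with he'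
  have fe : e' ∈ rc k S := (rc k S).algebraMap_mem e
  have fc : c ∈ rc k S := mem_rc.2 ac
  have fm : m ∈ rc k S := mem_rc.2 am
  have fA : ∀ j, A.coeff j ∈ rc k S := fun j => mem_rc.2 (aA j)
  have fB : ∀ j, B.coeff j ∈ rc k S := fun j => mem_rc.2 (aB j)
  have f2 : (2 : K) ∈ rc k S := ofNat_mem _ 2
  set α2 := A.coeff 2
  set α1 := A.coeff 1
  set α0 := A.coeff 0
  set β2 := B.coeff 2
  set β1 := B.coeff 1
  set β0 := B.coeff 0
  have fAe : α2 * e' ^ 2 + α1 * e' + α0 ∈ rc k S :=
    add_mem (add_mem (mul_mem (fA 2) (pow_mem fe 2)) (mul_mem (fA 1) fe)) (fA 0)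
  have fBe : β2 * e' ^ 2 + β1 * e' + β0 ∈ rc k S :=
    add_mem (add_mem (mul_mem (fB 2) (pow_mem fe 2)) (mul_mem (fB 1) fe)) (fB 0)
  have fA1 : 2 * α2 * e' + α1 ∈ rc k S := add_mem (mul_mem (mul_mem f2 (fA 2)) fe) (fA 1)
  have fB1 : 2 * β2 * e' + β1 ∈ rc k S := add_mem (mul_mem (mul_mem f2 (fB 2)) fe) (fB 1)
  have hn : n0 m (α2 * e' ^ 2 + α1 * e' + α0) (β2 * e' ^ 2 + β1 * e' + β0) ≠ 0 := by
    intro h0
    apply he1
    rw [gq_eval]
    unfold n0 at h0
    rw [h0, mul_zero]
  have fn : n0 m (α2 * e' ^ 2 + α1 * e' + α0) (β2 * e' ^ 2 + β1 * e' + β0) ∈ rc k S :=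
    sub_mem (pow_mem fAe 2) (mul_mem fm (pow_mem fBe 2))
  have hgs := gm_sep hn hsep hdeg
  have hge := gm_eval (c := c) hn he2
  have h0t : (t - e')⁻¹ ≠ 0 := inv_ne_zero (sub_ne_zero.2 he2)
  have hG := hF.fibreE (t := (t - e')⁻¹) (mul_mem fc fn) fm
    (div_mem (sub_mem (mul_mem fA1 fAe) (mul_mem (mul_mem fm fB1) fBe)) fn)
    (div_mem (sub_mem (mul_mem (fA 2) fAe) (mul_mem (mul_mem fm (fB 2)) fBe)) fn)
    (div_mem (sub_mem (mul_mem fB1 fAe) (mul_mem fA1 fBe)) fn)
    (div_mem (sub_mem (mul_mem (fB 2) fAe) (mul_mem (fA 2) fBe)) fn)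
    (sep_c hgs) (sep_m hgs) (sep_rho hgs) (sep_del hgs) (by
      intro O hO
      obtain ⟨z, hz⟩ := hev O (fun z hz => hO z (mem_rc.2 hz))
      refine ⟨z * (((t - e')⁻¹) ^ 2)⁻¹, ?_⟩
      rw [← hz]
      congr 1
      unfold gm at hge
      rw [hge, mul_pow, inv_pow]
      field_simp)
  -- the field generated by t
  let F' : IntermediateField k K := (IntermediateField.adjoin (rc k S) {t}).restrictScalars k
  have hG' : Good k (F' : Set K) := by
    refine hG.mono ?_
    intro z hz
    have hz' : z ∈ IntermediateField.adjoin (rc k S) {t} := hz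
    have hte : IntermediateField.adjoin (rc k S) {t} ≤
        IntermediateField.adjoin (rc k S) {(t - e')⁻¹} := by
      rw [IntermediateField.adjoin_le_iff]
      rintro x rfl
      have h1 := IntermediateField.mem_adjoin_simple_self (rc k S) ((x - e')⁻¹)
      have h2 : e' ∈ IntermediateField.adjoin (rc k S) {(x - e')⁻¹} :=
        (IntermediateField.adjoin (rc k S) {(x - e')⁻¹}).algebraMap_mem ⟨e', fe⟩
      have h3 := add_mem (inv_mem h1) h2
      rwa [inv_inv, sub_add_cancel] at h3
    replace hz' := hte hz'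
    rw [IntermediateField.mem_adjoin_simple_iff] at hz'
    obtain ⟨p, q, hpq⟩ := hz'
    have hevl : ∀ P : (rc k S)[X], aeval (t - e')⁻¹ P =
        (P.map (algebraMap (rc k S) K)).eval (t - e')⁻¹ := by
      intro P
      rw [eval_map_algebraMap]
    by_cases hq : aeval (t - e')⁻¹ q = 0
    · refine ⟨0, 1, fun j => ?_, fun j => ?_, ?_, ?_⟩
      · rw [coeff_zero]; exact zero_mem _
      · rw [coeff_one]
        split_ifs
        · exact one_mem _
        · exact zero_mem _
      · simp
      · rw [hpq, hq]; simp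
    · refine ⟨p.map (algebraMap (rc k S) K), q.map (algebraMap (rc k S) K), fun j => ?_,
        fun j => ?_, ?_, ?_⟩
      · rw [coeff_map]; exact (p.coeff j).2
      · rw [coeff_map]; exact (q.coeff j).2
      · rw [← hevl]; exact hq
      · rw [← hevl, ← hevl]; exact hpq
  refine hG'.algebraic.mono ?_
  intro z hz
  refine alg_mono (E := IntermediateField.adjoin k (insert t S)) (E' := F') ?_ hz
  rw [IntermediateField.adjoin_le_iff]
  intro x hx
  rcases Set.mem_insert_iff.1 hx with rfl | hx
  · exact self_mem_adj (rc k S) x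
  · exact le_adj (rc k S) t (mem_rc.2 (alg_of_mem (IntermediateField.subset_adjoin k S hx)))

/-- **Towers.** -/
theorem good_towerE [CharZero k] {n : ℕ} (t : Fin n → K)
    (ht : ∀ i : Fin n, GenusOne k (t '' {j | j < i}) (t i)) :
    Good k {z : K | Alg k (Set.range t) z} := by
  have key : ∀ i : ℕ, i ≤ n → Good k {z : K | Alg k (t '' {j | (j : ℕ) < i}) z} := by
    intro i
    induction i with
    | zero =>
      intro _
      have : (t '' {j | (j : ℕ) < 0}) = ∅ := by simp
      rw [this]
      exact good_empty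
    | succ i ih =>
      intro hi
      have h1 := ih (by omega)
      have h2 := ht ⟨i, by omega⟩
      have h3 : {j : Fin n | j < ⟨i, by omega⟩} = {j : Fin n | (j : ℕ) < i} := rfl
      rw [h3] at h2
      have h4 := good_insertE h1 h2
      have h5 : insert (t ⟨i, by omega⟩) (t '' {j | (j : ℕ) < i}) =
          t '' {j | (j : ℕ) < i + 1} := by
        rw [← Set.image_insert_eq]
        congr 1
        ext j
        simp only [Set.mem_insert_iff, Set.mem_ofPred_eq, Fin.ext_iff]
        omega
      rw [h5] at h4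
      exact h4
  have h1 := key n le_rfl
  have h2 : (t '' {j | (j : ℕ) < n}) = Set.range t := by
    ext z
    constructor
    · rintro ⟨j, _, rfl⟩
      exact ⟨j, rfl⟩
    · rintro ⟨j, rfl⟩
      exact ⟨j, j.isLt, rfl⟩
  rw [h2] at h1
  exact h1

end Pool.Agent.K9h15.Tow
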